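import Pool.Agent.H901R3.MS.Defs

/-!
# Automorphisms of the curves `y² = x³ + a x + b`
-/

set_option autoImplicit false
set_option linter.all false

open WeierstrassCurve

namespace Pool.Agent.V7H43.BS

open Pool.Agent.H901R3.MS

variable {F : Type} [Field F]

/-- `(x, y) ↦ (u² x, u³ y)` is an automorphism of the curve `W : y² = x³ + a x + b` -/
def GW (W : WeierstrassCurve F) (u : F) : Prop :=
  ∃ a b : F, W = CV a b ∧ Disc a b ∧ u ≠ 0 ∧ u ^ 4 * a = a ∧ u ^ 6 * b = b

lemma GW.mul {W : WeierstrassCurve F} {u v : F} (h : GW W u) (h' : GW W v) : GW W (u * v) := by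
  obtain ⟨a, b, e, hD, hu, ha, hb⟩ := h
  obtain ⟨a', b', e', -, hv, ha', hb'⟩ := h'
  rw [e] at e'
  have e1 : a = a' := congrArg WeierstrassCurve.a₄ e'
  have e2 : b = b' := congrArg WeierstrassCurve.a₆ e'
  subst e1 e2
  refine ⟨a, b, e, hD, mul_ne_zero hu hv, ?_, ?_⟩
  · rw [mul_pow, mul_assoc, ha', ha]
  · rw [mul_pow, mul_assoc, hb', hb]

lemma GW.one {W : WeierstrassCurve F} {u : F} (h : GW W u) : GW W 1 := by
  obtain ⟨a, b, e, hD, hu, ha, hb⟩ := h
  exact ⟨a, b, e, hD, one_ne_zero, by ring, by ring⟩

lemma GW.neg {W : WeierstrassCurve F} {u : F} (h : GW W u) : GW W (-u) := by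
  obtain ⟨a, b, e, hD, hu, ha, hb⟩ := h
  exact ⟨a, b, e, hD, neg_ne_zero.2 hu, by rw [Even.neg_pow (by decide)]; exact ha,
    by rw [Even.neg_pow (by decide)]; exact hb⟩

lemma GW.ns {W : WeierstrassCurve F} {u x y : F} (h : GW W u)
    (hn : W.toAffine.Nonsingular x y) : W.toAffine.Nonsingular (u ^ 2 * x) (u ^ 3 * y) := by
  obtain ⟨a, b, rfl, hD, hu, ha, hb⟩ := h
  rw [nonsingular_iff hD] at hn ⊢
  unfold Eqn at hn ⊢
  linear_combination u ^ 6 * hn + u ^ 2 * x * ha + hb

/-- the automorphism on points -/
def auF {W : WeierstrassCurve F} {u : F} (h : GW W u) : W.toAffine.Point → W.toAffine.Point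
  | .zero => .zero
  | .some x y hn => .some (u ^ 2 * x) (u ^ 3 * y) (h.ns hn)

section

variable [DecidableEq F]

lemma auF_add [CharZero F] {W : WeierstrassCurve F} {u : F} (h : GW W u)
    (P Q : W.toAffine.Point) : auF h (P + Q) = auF h P + auF h Q := by
  have h0 := h
  obtain ⟨a, b, rfl, hD, hu, ha, hb⟩ := h0
  rcases P with _ | ⟨x₁, y₁, h₁⟩
  · have e : (Affine.Point.zero : (CV a b).toAffine.Point) = 0 := rfl
    have e1 : auF h (0 : (CV a b).toAffine.Point) = 0 := rfl
    rw [e, e1, zero_add, zero_add]
  rcases Q with _ | ⟨x₂, y₂, h₂⟩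
  · have e : (Affine.Point.zero : (CV a b).toAffine.Point) = 0 := rfl
    have e1 : auF h (0 : (CV a b).toAffine.Point) = 0 := rfl
    rw [e, e1, add_zero, add_zero]
  have hsome : ∀ x y hn, auF h (.some x y hn : (CV a b).toAffine.Point) =
    .some (u ^ 2 * x) (u ^ 3 * y) (h.ns hn) := fun _ _ _ => rfl
  rw [hsome, hsome]
  by_cases hx : x₁ = x₂
  · by_cases hy : y₁ = -y₂
    · rw [add_opp h₁ h₂ hx hy, add_opp (h.ns h₁) (h.ns h₂) (by rw [hx]) (by rw [hy]; ring)]
      rfl
    · have hy0 : y₁ ≠ 0 := by
        rintro rfl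
        have k1 := eqn_of h₁
        have k2 := eqn_of h₂
        unfold Eqn at k1 k2
        rw [← hx] at k2
        have : y₂ ^ 2 = 0 := by rw [k2, ← k1]; ring
        apply hy
        rw [pow_eq_zero_iff two_ne_zero] at this
        rw [this, neg_zero]
      obtain ⟨h₃, e⟩ := add_dbl h₁ h₂ hx hy _ _ _ rfl rfl rfl
      rw [e, hsome]
      obtain ⟨h₃', e'⟩ := add_dbl (h.ns h₁) (h.ns h₂) (by rw [hx]) (fun hc => hy (by
        apply mul_left_cancel₀ (pow_ne_zero 3 hu)
        rw [hc]
        ring)) (u * ((3 * x₁ ^ 2 + a) / (2 * y₁))) _ _ (by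
          field_simp
          linear_combination ha) rfl rfl
      rw [e']
      rw [Affine.Point.some.injEq]
      constructor <;> ring
  · obtain ⟨h₃, e⟩ := add_ne h₁ h₂ hx _ _ _ rfl rfl rfl
    rw [e, hsome]
    have hx' : x₁ - x₂ ≠ 0 := sub_ne_zero.2 hx
    obtain ⟨h₃', e'⟩ := add_ne (h.ns h₁) (h.ns h₂) (fun hc => hx (by
        apply mul_left_cancel₀ (pow_ne_zero 2 hu)
        rw [hc])) (u * ((y₁ - y₂) / (x₁ - x₂))) _ _ (by
          rw [← mul_sub, ← mul_sub]
          field_simp) rfl rfl
    rw [e']
    rw [Affine.Point.some.injEq]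
    constructor <;> ring

/-- the automorphism as a homomorphism -/
def auH [CharZero F] {W : WeierstrassCurve F} {u : F} (h : GW W u) :
    W.toAffine.Point →+ W.toAffine.Point where
  toFun := auF h
  map_zero' := rfl
  map_add' := auF_add h

open Classical in
/-- the automorphism `[u]`, if it exists -/
noncomputable def au [CharZero F] (W : WeierstrassCurve F) (u : F) :
    W.toAffine.Point →+ W.toAffine.Point := if h : GW W u then auH h else 0

variable [CharZero F] {W : WeierstrassCurve F} {u v : F}

lemma au_eq (h : GW W u) (X : W.toAffine.Point) : au W u X = auF h X := by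
  unfold au
  rw [dif_pos h]
  rfl

lemma au_some (h : GW W u) {x y : F} (hn : W.toAffine.Nonsingular x y) :
    au W u (.some x y hn) = .some (u ^ 2 * x) (u ^ 3 * y) (h.ns hn) := au_eq h _

lemma au_zero' : au W u Affine.Point.zero = Affine.Point.zero := map_zero (au W u)

lemma au_one (h : GW W u) (X : W.toAffine.Point) : au W 1 X = X := by
  rcases X with _ | ⟨x, y, hn⟩
  · exact au_zero'
  · rw [au_some h.one, Affine.Point.some.injEq]
    constructor <;> ring

lemma au_mul (h : GW W u) (h' : GW W v) (X : W.toAffine.Point) :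
    au W u (au W v X) = au W (u * v) X := by
  rcases X with _ | ⟨x, y, hn⟩
  · rw [au_zero', au_zero', au_zero']
  · rw [au_some h', au_some h, au_some (h.mul h'), Affine.Point.some.injEq]
    constructor <;> ring

lemma au_neg (h : GW W u) (X : W.toAffine.Point) : au W (-u) X = -au W u X := by
  obtain ⟨a, b, rfl, hD, hu, ha, hb⟩ := id h
  rcases X with _ | ⟨x, y, hn⟩
  · rw [au_zero', au_zero']
    rfl
  · rw [au_some h.neg, au_some h, neg_some' (h.ns hn) (by
      have := h.neg.ns hn
      rw [Even.neg_pow (by decide), Odd.neg_pow (by decide), neg_mul] at this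
      exact this), Affine.Point.some.injEq]
    constructor <;> ring

/-- the cube roots of unity -/
lemma au_three (h : GW W u) (hu : u ^ 2 + u + 1 = 0) (X : W.toAffine.Point) :
    X + au W u X + au W u (au W u X) = 0 := by
  have h0 := h
  obtain ⟨a, b, rfl, hD, hu0, ha, hb⟩ := h0
  have hu3 : u ^ 3 = 1 := by linear_combination (u - 1) * hu
  have hu1 : u ≠ 1 := by
    rintro rfl
    norm_num at hu
  have ha0 : a = 0 := by
    have h1 : (u - 1) * a = 0 := by linear_combination ha - u * a * hu3
    exact (mul_eq_zero.1 h1).resolve_left (sub_ne_zero.2 hu1)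
  subst ha0
  rcases X with _ | ⟨x, y, hn⟩
  · rw [au_zero', au_zero']
    rfl
  · have hn2 : (CV 0 b).toAffine.Nonsingular (u * x) y := by
      rw [nonsingular_iff hD]
      have := eqn_of hn
      unfold Eqn at this ⊢
      linear_combination this - x ^ 3 * hu3
    have hn2' : (CV 0 b).toAffine.Nonsingular (u * x) (-y) := by
      rw [nonsingular_iff hD]
      have := eqn_of hn
      unfold Eqn at this ⊢
      linear_combination this - x ^ 3 * hu3
    have e1 : au (CV 0 b) u (au (CV 0 b) u (.some x y hn)) = .some (u * x) y hn2 := by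
      rw [au_some h, au_some h, Affine.Point.some.injEq]
      constructor
      · linear_combination u * x * hu3
      · linear_combination (u ^ 3 + 1) * y * hu3
    have e2 : (.some x y hn : (CV 0 b).toAffine.Point) + au (CV 0 b) u (.some x y hn) =
        .some (u * x) (-y) hn2' := by
      rw [au_some h]
      by_cases hx : x = 0
      · subst hx
        have hy0 : y ≠ 0 := by
          rintro rfl
          have := eqn_of hn
          unfold Eqn at this
          apply hD
          have hb0 : b = 0 := by linear_combination -this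
          rw [hb0]
          ring
        obtain ⟨h3, e⟩ := add_dbl hn (h.ns hn) (by ring) (by
          rw [hu3]
          intro hc
          apply hy0
          have h2 : (2 : F) * y = 0 := by linear_combination hc
          exact (mul_eq_zero.1 h2).resolve_left two_ne_zero) 0 (u * 0) (-y) (by ring) (by ring)
          (by ring)
        exact e
      · obtain ⟨h3, e⟩ := add_ne hn (h.ns hn) (fun hc => by
          have h1 : (u ^ 2 - 1) * x = 0 := by linear_combination -hc
          rcases mul_eq_zero.1 h1 with h2 | h2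
          · have h3 : u ^ 2 = 1 := by linear_combination h2
            have h4 : u = 1 := by
              have : u ^ 3 = u * u ^ 2 := by ring
              rw [hu3, h3, mul_one] at this
              exact this.symm
            exact hu1 h4
          · exact hx h2) 0 (u * x) (-y) (by rw [hu3]; ring) (by linear_combination x * hu)
          (by ring)
        exact e
    rw [e1, e2]
    exact add_opp hn2' hn2 rfl rfl

/-- roots of unity which are automorphisms -/
lemma GW.cases (h : GW W u) (hu : u ≠ 1) :
    u = -1 ∨ u ^ 2 = -1 ∨ u ^ 2 + u + 1 = 0 ∨ u ^ 2 - u + 1 = 0 := by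
  obtain ⟨a, b, rfl, hD, hu0, ha, hb⟩ := h
  have h1 : u - 1 ≠ 0 := sub_ne_zero.2 hu
  by_cases ha0 : a = 0
  · have hb0 : b ≠ 0 := by
      rintro rfl
      apply hD
      rw [ha0]
      ring
    have h6 : u ^ 6 = 1 := by
      apply mul_right_cancel₀ hb0
      rw [hb, one_mul]
    have h2 : (u - 1) * ((u + 1) * ((u ^ 2 + u + 1) * (u ^ 2 - u + 1))) = 0 := by
      linear_combination h6
    rcases mul_eq_zero.1 ((mul_eq_zero.1 h2).resolve_left h1) with h3 | h3
    · exact Or.inl (by linear_combination h3)
    · rcases mul_eq_zero.1 h3 with h4 | h4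
      · exact Or.inr (Or.inr (Or.inl h4))
      · exact Or.inr (Or.inr (Or.inr h4))
  · have h4 : u ^ 4 = 1 := by
      apply mul_right_cancel₀ ha0
      rw [ha, one_mul]
    have h2 : (u - 1) * ((u + 1) * (u ^ 2 + 1)) = 0 := by linear_combination h4
    rcases mul_eq_zero.1 ((mul_eq_zero.1 h2).resolve_left h1) with h3 | h3
    · exact Or.inl (by linear_combination h3)
    · exact Or.inr (Or.inl (by linear_combination h3))

/-- an automorphism of the field fixes or inverts `u` -/
lemma GW.conj (h : GW W u) (hu : u ≠ 1) {F' : Type} [Field F'] (f : F' →+* F) (g : F' →+* F')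
    (w : F') (hw : f w = u) : g w = w ∨ g w = w⁻¹ := by
  have hw0 : w ≠ 0 := by
    rintro rfl
    obtain ⟨a, b, e, hD, hu0, ha, hb⟩ := h
    exact hu0 (by rw [← hw, map_zero])
  have key : ∀ c d : F', w ^ 2 + c * w + d = 0 → g c = c → g d = d → (d = 1 ∨ w = -1) →
      g w = w ∨ g w = w⁻¹ := by
    intro c d h1 hc hd hd1
    have h2 : (g w) ^ 2 + c * g w + d = 0 := by
      have := congrArg g h1
      rwa [map_zero, map_add, map_add, map_mul, map_pow, hc, hd] at this
    rcases hd1 with rfl | rfl
    · have h3 : (g w - w) * (g w + w + c) = 0 := by linear_combination h2 - h1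
      rcases mul_eq_zero.1 h3 with h4 | h4
      · exact Or.inl (sub_eq_zero.1 h4)
      · right
        have h5 : g w = -w - c := by linear_combination h4
        refine eq_inv_of_mul_eq_one_left ?_
        rw [h5]
        linear_combination -h1
    · left
      rw [map_neg, map_one]
  rcases h.cases hu with h1 | h1 | h1 | h1
  · have : w = -1 := f.injective (by rw [hw, h1, map_neg, map_one])
    exact key 0 (-1) (by rw [this]; ring) (map_zero g) (by rw [map_neg, map_one]) (Or.inr this)
  · refine key 0 1 ?_ (map_zero g) (map_one g) (Or.inl rfl)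
    apply f.injective
    rw [map_zero, map_add, map_add, map_mul, map_pow, hw, map_zero, map_one]
    linear_combination h1
  · refine key 1 1 ?_ (map_one g) (map_one g) (Or.inl rfl)
    apply f.injective
    rw [map_zero, map_add, map_add, map_mul, map_pow, hw, map_one]
    linear_combination h1
  · refine key (-1) 1 ?_ (by rw [map_neg, map_one]) (map_one g) (Or.inl rfl)
    apply f.injective
    rw [map_zero, map_add, map_add, map_mul, map_pow, hw, map_neg, map_one]
    linear_combination h1

/-- the kernel of `1 - [u]` is killed by six -/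
lemma au_ker (h : GW W u) (hu : u ≠ 1) {S : W.toAffine.Point} (hS : au W u S = S) :
    6 • S = 0 := by
  have h2 : ∀ {S : W.toAffine.Point}, -S = S → 2 • S = 0 := by
    intro S hS
    rw [two_nsmul]
    nth_rw 1 [← hS]
    exact neg_add_cancel S
  rcases h.cases hu with h1 | h1 | h1 | h1
  · subst h1
    rw [au_neg (u := 1) h.one, au_one h.one] at hS
    rw [show (6 : ℕ) = 3 * 2 from rfl, mul_smul, h2 hS, smul_zero]
  · have h3 : au W u (au W u S) = -S := by
      rw [au_mul h h, ← sq, h1, au_neg (u := 1) h.one, au_one h.one]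
    rw [hS, hS] at h3
    rw [show (6 : ℕ) = 3 * 2 from rfl, mul_smul, h2 h3.symm, smul_zero]
  · have h3 := au_three h h1 S
    rw [hS, hS] at h3
    have h4 : 3 • S = 0 := by
      rw [← h3]
      abel
    rw [show (6 : ℕ) = 2 * 3 from rfl, mul_smul, h4, smul_zero]
  · have h3 := au_three h.neg (by linear_combination h1) S
    rw [au_neg h, hS, map_neg, au_neg h, hS] at h3
    have h4 : S = 0 := by
      rw [← h3]
      abel
    rw [h4, smul_zero]

/-- `1 - [u]` is surjective -/
lemma au_surj (h : GW W u) (hu : u ≠ 1)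
    (hdiv : ∀ n : ℕ, 1 ≤ n → ∀ T : W.toAffine.Point, ∃ S, n • S = T) (T : W.toAffine.Point) :
    ∃ S, S - au W u S = T := by
  rcases h.cases hu with h1 | h1 | h1 | h1
  · obtain ⟨S, hS⟩ := hdiv 2 one_le_two T
    subst h1
    refine ⟨S, ?_⟩
    rw [au_neg (u := 1) h.one, au_one h.one, ← hS]
    abel
  · obtain ⟨S, hS⟩ := hdiv 2 one_le_two T
    have h3 : ∀ S, au W u (au W u S) = -S := by
      intro S
      rw [au_mul h h, ← sq, h1, au_neg (u := 1) h.one, au_one h.one]
    refine ⟨S + au W u S, ?_⟩
    rw [map_add, h3, ← hS]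
    abel
  · obtain ⟨S, hS⟩ := hdiv 3 (by norm_num) T
    have h3 := au_three h h1 S
    refine ⟨2 • S + au W u S, ?_⟩
    have h4 : au W u (au W u S) = -S - au W u S := by
      rw [eq_sub_iff_add_eq, eq_neg_iff_add_eq_zero, ← h3]
      abel
    rw [map_add, map_nsmul, h4, ← hS]
    abel
  · have h3 := au_three h.neg (by linear_combination h1) T
    rw [au_neg h, map_neg, au_neg h, neg_neg] at h3
    refine ⟨au W u T, ?_⟩
    have h4 : T = au W u T - au W u (au W u T) := by
      rw [eq_sub_iff_add_eq, ← sub_eq_zero, ← h3]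
      abel
    exact h4.symm

end

end Pool.Agent.V7H43.BS
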