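import Pool.Agent.V7H43.BS.FinB

/-!
# Points of superelliptic curves over `κ` which are moved by an automorphism over `κ`
-/

set_option autoImplicit false
set_option linter.all false

open WeierstrassCurve

namespace Pool.Agent.V7H43.BS

open Pool.Agent.TH954 Pool.Agent.TH942 Pool.Agent.H901R3.MS Pool.Agent.Y474.GT

/-- signs -/
lemma comb3 {R : Type} [Field R] {d : ℕ} (hd : 3 ≤ d) {ε : Fin d → R} (h2 : ∀ i, ε i ^ 2 = 1)
    (h3 : ∀ i j k, i ≠ j → i ≠ k → j ≠ k → ε i * ε j * ε k = 1) : ∏ i, ε i = 1 := by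
  classical
  rcases Nat.lt_or_ge 3 d with hd4 | hd3
  · refine Finset.prod_eq_one fun i _ => ?_
    have hcard : 2 < (Finset.univ.erase i).card := by
      rw [Finset.card_erase_of_mem (Finset.mem_univ i), Finset.card_univ, Fintype.card_fin]
      omega
    obtain ⟨j, hj, k, hk, l, hl, hjk, hjl, hkl⟩ := Finset.two_lt_card.1 hcard
    have hj' := (Finset.mem_erase.1 hj).1.symm
    have hk' := (Finset.mem_erase.1 hk).1.symm
    have hl' := (Finset.mem_erase.1 hl).1.symm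
    have e1 := h3 i j k hj' hk' hjk
    have e2 := h3 i j l hj' hl' hjl
    have e3 := h3 i k l hk' hl' hkl
    have e4 : ε i * (ε i ^ 2 * ε j ^ 2 * ε k ^ 2 * ε l ^ 2) = 1 := by
      calc _ = (ε i * ε j * ε k) * (ε i * ε j * ε l) * (ε i * ε k * ε l) := by ring
        _ = 1 := by rw [e1, e2, e3]; ring
    rwa [h2, h2, h2, h2, mul_one, mul_one, mul_one, mul_one] at e4
  · obtain rfl : d = 3 := le_antisymm hd3 hd
    rw [Fin.prod_univ_three]
    exact h3 0 1 2 (by decide) (by decide) (by decide)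

lemma comb2 {R : Type} [Field R] {d q : ℕ} (hd : 2 ≤ d) (hq : Odd q) {ε : Fin d → R}
    (h2 : ∀ i, ε i ^ q = 1) (h3 : ∀ i j, i ≠ j → ε i * ε j = 1) : ∏ i, ε i = 1 := by
  classical
  rcases Nat.lt_or_ge 2 d with hd3 | hd2
  · refine Finset.prod_eq_one fun i _ => ?_
    have hcard : 1 < (Finset.univ.erase i).card := by
      rw [Finset.card_erase_of_mem (Finset.mem_univ i), Finset.card_univ, Fintype.card_fin]
      omega
    obtain ⟨j, hj, k, hk, hjk⟩ := Finset.one_lt_card.1 hcard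
    have hj' := (Finset.mem_erase.1 hj).1.symm
    have hk' := (Finset.mem_erase.1 hk).1.symm
    have e1 := h3 i j hj'
    have e2 := h3 i k hk'
    have e3 := h3 j k hjk
    have e4 : ε i ^ 2 = 1 := by
      calc ε i ^ 2 = ε i ^ 2 * (ε j * ε k) := by rw [e3, mul_one]
        _ = (ε i * ε j) * (ε i * ε k) := by ring
        _ = 1 := by rw [e1, e2, mul_one]
    obtain ⟨m, hm⟩ := hq
    have e5 := h2 i
    rw [hm, pow_succ, pow_mul, e4, one_pow, one_mul] at e5
    exact e5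
  · obtain rfl : d = 2 := le_antisymm hd2 hd
    rw [Fin.prod_univ_two]
    exact h3 0 1 (by decide)

/-- the roots of a separable polynomial -/
lemma exists_roots {κ : Type} [Field κ] [IsAlgClosed κ] {f : Polynomial κ} (hf : f.Separable) :
    ∃ e : Fin f.natDegree → κ, Function.Injective e ∧ ∀ (R : Type) [Field R] (φ : κ →+* R) (x : R),
      f.eval₂ φ x = φ f.leadingCoeff * ∏ i, (x - φ (e i)) := by
  classical
  have hs : f.Splits := IsAlgClosed.splits f
  have hnd : f.roots.Nodup := Polynomial.nodup_roots hf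
  have hcard : f.roots.toFinset.card = f.natDegree := by
    rw [Multiset.toFinset_card_of_nodup hnd]
    exact hs.natDegree_eq_card_roots.symm
  let E : Fin f.natDegree ≃ f.roots.toFinset := (Finset.equivFinOfCardEq hcard).symm
  refine ⟨fun i => (E i : κ), fun i j hij => E.injective (Subtype.ext hij), fun R _ φ x => ?_⟩
  have h1 := hs.eq_prod_roots
  conv_lhs => rw [h1]
  rw [Polynomial.eval₂_mul, Polynomial.eval₂_C, Polynomial.eval₂_multiset_prod, Multiset.map_map]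
  congr 1
  have h2 : (f.roots.map ((Polynomial.eval₂ φ x) ∘ fun a => Polynomial.X - Polynomial.C a)).prod =
      ∏ a ∈ f.roots.toFinset, (x - φ a) := by
    rw [Finset.prod, Multiset.toFinset_val, hnd.dedup]
    congr 1
    refine Multiset.map_congr rfl fun a _ => ?_
    simp
  rw [h2, ← Finset.prod_coe_sort]
  exact (Equiv.prod_comp E (fun a : f.roots.toFinset => x - φ (a : κ))).symm

section

variable {K L Ω B : Type} [Field K] [CharZero K] [Field L] [Field Ω] [Field B] [Algebra K L]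
  [Algebra L Ω] [Algebra K Ω] [Algebra K B] [IsScalarTower K L Ω] [IsAlgClosure L Ω]
  [IsAlgClosure K B] {κ : Type} [Field κ] [CharZero κ] [IsAlgClosed κ] [Algebra κ B]

/-- `z` is fixed by the Galois group of `κ(ρ)` -/
def FxB (s : GalSection K L Ω B) (κ : Type) [Field κ] [Algebra κ B] (ρ : B) (z : Ω) : Prop :=
  ∀ g, InB κ ρ g → s.s g z = z

/-- the embedding of `κ` -/
noncomputable def jc (s : GalSection K L Ω B) (κ : Type) [Field κ] [Algebra κ B] : κ →+* Ω :=
  (s.j : B →+* Ω).comp (algebraMap κ B)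

omit [IsAlgClosed κ] [CharZero κ] in
lemma jc_fix (s : GalSection K L Ω B) {g : B ≃ₐ[K] B}
    (h : ∀ c : κ, g (algebraMap κ B c) = algebraMap κ B c) (a : κ) :
    s.s g (jc s κ a) = jc s κ a := by
  change s.s g (s.j (algebraMap κ B a)) = s.j (algebraMap κ B a)
  rw [s.sec, h]

theorem triple (hfg : (⊤ : IntermediateField ℚ K).FG)
    (hF : ∃ z : L, Transcendental K z ∧ Algebra.IsAlgebraic (IntermediateField.adjoin K {z}) L)
    (s : GalSection K L Ω B) {ρ : B} {G : Finset κ} (D : Dat K ρ G) {σ : B ≃ₐ[K] B}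
    (hσ : ∀ c : κ, σ (algebraMap κ B c) = algebraMap κ B c)
    (hσρ : σ ρ ∈ IntermediateField.adjoin κ {ρ}) {x w1 w2 w3 : Ω} {e1 e2 e3 : κ}
    (h12 : e1 ≠ e2) (h13 : e1 ≠ e3) (h23 : e2 ≠ e3) (hx : FxB s κ ρ x) (hw1 : FxB s κ ρ w1)
    (hw2 : FxB s κ ρ w2) (hw3 : FxB s κ ρ w3) (h1 : w1 ^ 2 = x - jc s κ e1)
    (h2 : w2 ^ 2 = x - jc s κ e2) (h3 : w3 ^ 2 = x - jc s κ e3)
    (hmv : s.s σ x ≠ x ∨ s.s σ (w1 * w2 * w3) ≠ w1 * w2 * w3) :
    ∃! O : ValuationSubring L, s.ArisesFrom O := by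
  obtain ⟨m, hm⟩ : ∃ m : κ, 3 * m = e1 + e2 + e3 := ⟨(e1 + e2 + e3) / 3, by
    rw [mul_div_cancel₀]
    exact three_ne_zero⟩
  obtain ⟨u, hu⟩ : ∃ u : κ, u = e1 - m := ⟨_, rfl⟩
  obtain ⟨v, hv⟩ : ∃ v : κ, v = e2 - m := ⟨_, rfl⟩
  obtain ⟨w, hw⟩ : ∃ w : κ, w = e3 - m := ⟨_, rfl⟩
  have hsum : w = -u - v := by
    rw [hu, hv, hw]
    linear_combination -hm
  have hD : 4 * (u * v + v * w + w * u) ^ 3 + 27 * (-(u * v * w)) ^ 2 ≠ 0 := by
    have e : 4 * (u * v + v * w + w * u) ^ 3 + 27 * (-(u * v * w)) ^ 2 =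
        -((u - v) * (v - w) * (w - u)) ^ 2 := by
      rw [hsum]
      ring
    rw [e, neg_ne_zero]
    apply pow_ne_zero
    have n1 : u - v ≠ 0 := by
      rw [hu, hv]
      intro h
      apply h12
      linear_combination h
    have n2 : v - w ≠ 0 := by
      rw [hv, hw]
      intro h
      apply h23
      linear_combination h
    have n3 : w - u ≠ 0 := by
      rw [hu, hw]
      intro h
      apply h13
      linear_combination -h
    exact mul_ne_zero (mul_ne_zero n1 n2) n3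
  have hj1 : jc s κ e1 = jc s κ u + jc s κ m := by rw [← map_add, hu, sub_add_cancel]
  have hj2 : jc s κ e2 = jc s κ v + jc s κ m := by rw [← map_add, hv, sub_add_cancel]
  have hj3 : jc s κ e3 = jc s κ w + jc s κ m := by rw [← map_add, hw, sub_add_cancel]
  have hjs : jc s κ w = -jc s κ u - jc s κ v := by rw [hsum, map_sub, map_neg]
  have hEqn : Eqn (jc s κ (u * v + v * w + w * u)) (jc s κ (-(u * v * w))) (x - jc s κ m)
      (w1 * w2 * w3) := by
    unfold Eqn
    have e : (w1 * w2 * w3) ^ 2 = w1 ^ 2 * w2 ^ 2 * w3 ^ 2 := by ring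
    rw [e, h1, h2, h3, hj1, hj2, hj3]
    simp only [map_add, map_mul, map_neg]
    rw [hjs]
    ring
  have hDc := disc_c s hD
  have hns : (cK s (u * v + v * w + w * u) (-(u * v * w))).toAffine.Nonsingular (x - jc s κ m)
      (w1 * w2 * w3) := (nonsingular_iff hDc).2 hEqn
  refine finB hfg hF s D hD hσ hσρ (P := .some _ _ hns) (fun g hg => ?_) ?_
  · refine (ra_fix_iff hDc (sg_const s (hg.1 _)) (sg_const s (hg.1 _)) hns).2 ⟨?_, ?_⟩
    · change s.s g (x - jc s κ m) = _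
      rw [map_sub, hx g hg, jc_fix s hg.1]
    · change s.s g (w1 * w2 * w3) = _
      rw [map_mul, map_mul, hw1 g hg, hw2 g hg, hw3 g hg]
  · intro h
    obtain ⟨q1, q2⟩ := (ra_fix_iff hDc (sg_const s (hσ _)) (sg_const s (hσ _)) hns).1 h
    have q1' : s.s σ (x - jc s κ m) = x - jc s κ m := q1
    rw [map_sub, jc_fix s hσ, sub_left_inj] at q1'
    rcases hmv with h | h
    · exact h q1'
    · exact h q2

theorem chain2 (hfg : (⊤ : IntermediateField ℚ K).FG)
    (hF : ∃ z : L, Transcendental K z ∧ Algebra.IsAlgebraic (IntermediateField.adjoin K {z}) L)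
    (s : GalSection K L Ω B) {ρ : B} {G : Finset κ} (D : Dat K ρ G) {σ : B ≃ₐ[K] B}
    (hσ : ∀ c : κ, σ (algebraMap κ B c) = algebraMap κ B c)
    (hσρ : σ ρ ∈ IntermediateField.adjoin κ {ρ}) {d : ℕ} (hd : Odd d) (hd3 : 3 ≤ d) {c : κ}
    (hc : c ≠ 0) {e : Fin d → κ} (he : Function.Injective e) {x y : Ω} (hx : FxB s κ ρ x)
    (hy : FxB s κ ρ y) (hxy : y ^ 2 = jc s κ c * ∏ i, (x - jc s κ (e i)))
    (hmv : s.s σ x ≠ x ∨ s.s σ y ≠ y) : ∃! O : ValuationSubring L, s.ArisesFrom O := by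
  classical
  have hΩ1 : IsAlgClosed Ω := IsAlgClosure.isAlgClosed L
  have hdim : ∀ x : Ω, Transcendental K x → ∀ t : Ω, IsAlgebraic (Algebra.adjoin K {x}) t :=
    fun z hz t => (alg_adjoin_of_dim hF z hz).isAlgebraic t
  choose w hw using fun i : Fin d =>
    IsAlgClosed.exists_pow_nat_eq (x - jc s κ (e i)) (n := 2) two_pos
  have hwf : ∀ i, FxB s κ ρ (w i) := fun i =>
    keyS s D hfg hdim two_pos (Nat.coprime_two_right.2 hd) hc he hx hy hxy i (hw i)
  by_contra hno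
  have htr : ∀ i j k, i ≠ j → i ≠ k → j ≠ k →
      s.s σ x = x ∧ s.s σ (w i * w j * w k) = w i * w j * w k := by
    intro i j k hij hik hjk
    by_contra h
    apply hno
    refine triple hfg hF s D hσ hσρ (he.ne hij) (he.ne hik) (he.ne hjk) hx (hwf i) (hwf j) (hwf k)
      (hw i) (hw j) (hw k) ?_
    by_contra h'
    push Not at h'
    exact h h'
  have hσx : s.s σ x = x := (htr ⟨0, by omega⟩ ⟨1, by omega⟩ ⟨2, by omega⟩
    (by simp [Fin.ext_iff]) (by simp [Fin.ext_iff]) (by simp [Fin.ext_iff])).1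
  have hσy : s.s σ y ≠ y := hmv.resolve_left (fun h => h hσx)
  have hne : ∀ i, x - jc s κ (e i) ≠ 0 := by
    intro i h0
    apply hσy
    rw [Finset.prod_eq_zero (Finset.mem_univ i) h0, mul_zero] at hxy
    rw [pow_eq_zero_iff two_ne_zero] at hxy
    rw [hxy, map_zero]
  have hw0 : ∀ i, w i ≠ 0 := by
    intro i h0
    have := hw i
    rw [h0, zero_pow two_ne_zero] at this
    exact hne i this.symm
  have hP0 : ∏ i, w i ≠ 0 := Finset.prod_ne_zero_iff.2 fun i _ => hw0 i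
  have hε2 : ∀ i, (s.s σ (w i) / w i) ^ 2 = 1 := by
    intro i
    rw [div_pow, ← map_pow, hw, map_sub, hσx, jc_fix s hσ, div_self (hne i)]
  have hprod : ∏ i, (s.s σ (w i) / w i) = 1 := by
    refine comb3 hd3 hε2 (fun i j k hij hik hjk => ?_)
    have h1 := (htr i j k hij hik hjk).2
    rw [map_mul, map_mul] at h1
    have h2 : s.s σ (w i) / w i * (s.s σ (w j) / w j) * (s.s σ (w k) / w k) =
        s.s σ (w i) * s.s σ (w j) * s.s σ (w k) / (w i * w j * w k) := by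
      field_simp
    rw [h2, h1, div_self (mul_ne_zero (mul_ne_zero (hw0 i) (hw0 j)) (hw0 k))]
  have hσP : s.s σ (∏ i, w i) = ∏ i, w i := by
    rw [Finset.prod_div_distrib, div_eq_one_iff_eq hP0] at hprod
    rw [map_prod, hprod]
  apply hσy
  obtain ⟨γ, hγ⟩ := IsAlgClosed.exists_pow_nat_eq c (n := 2) two_pos
  have h5 : (y - jc s κ γ * ∏ i, w i) * (y + jc s κ γ * ∏ i, w i) = 0 := by
    have e1 : (y - jc s κ γ * ∏ i, w i) * (y + jc s κ γ * ∏ i, w i) =
        y ^ 2 - jc s κ γ ^ 2 * ∏ i, w i ^ 2 := by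
      rw [Finset.prod_pow]
      ring
    rw [e1, hxy, ← map_pow, hγ]
    simp only [hw]
    ring
  rcases mul_eq_zero.1 h5 with h6 | h6
  · rw [sub_eq_zero] at h6
    rw [h6, map_mul, jc_fix s hσ, hσP]
  · have h7 : y = -(jc s κ γ * ∏ i, w i) := eq_neg_of_add_eq_zero_left h6
    rw [h7, map_neg, map_mul, jc_fix s hσ, hσP]

theorem pair (hfg : (⊤ : IntermediateField ℚ K).FG)
    (hF : ∃ z : L, Transcendental K z ∧ Algebra.IsAlgebraic (IntermediateField.adjoin K {z}) L)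
    (s : GalSection K L Ω B) {ρ : B} {G : Finset κ} (D : Dat K ρ G) {σ : B ≃ₐ[K] B}
    (hσ : ∀ c : κ, σ (algebraMap κ B c) = algebraMap κ B c)
    (hσρ : σ ρ ∈ IntermediateField.adjoin κ {ρ}) {q : ℕ} (hq : Odd q) (hq3 : 3 ≤ q)
    {x w1 w2 : Ω} {e1 e2 : κ}
    (h12 : e1 ≠ e2) (hx : FxB s κ ρ x) (hw1 : FxB s κ ρ w1)
    (hw2 : FxB s κ ρ w2) (h1 : w1 ^ q = x - jc s κ e1)
    (h2 : w2 ^ q = x - jc s κ e2)
    (hmv : s.s σ x ≠ x ∨ s.s σ (w1 * w2) ≠ w1 * w2) :
    ∃! O : ValuationSubring L, s.ArisesFrom O := by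
  have hq0 : q ≠ 0 := by omega
  have cΩ : CharZero Ω := charZero_of_injective_algebraMap (algebraMap K Ω).injective
  obtain ⟨δ, hδ⟩ : ∃ δ : κ, 2 * δ = e1 - e2 := ⟨(e1 - e2) / 2, by
    rw [mul_div_cancel₀]
    exact two_ne_zero⟩
  have hδ0 : δ ≠ 0 := by
    rintro rfl
    rw [mul_zero] at hδ
    exact h12 (sub_eq_zero.1 hδ.symm)
  have hsep : (Polynomial.X ^ q - Polynomial.C (-δ ^ 2) : Polynomial κ).Separable := by
    refine Polynomial.separable_X_pow_sub_C _ (Nat.cast_ne_zero.2 hq0) ?_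
    rw [neg_ne_zero]
    exact pow_ne_zero 2 hδ0
  obtain ⟨η, hη, hprod⟩ := exists_roots hsep
  have hdeg : (Polynomial.X ^ q - Polynomial.C (-δ ^ 2) : Polynomial κ).natDegree = q :=
    Polynomial.natDegree_X_pow_sub_C
  have hlc : (Polynomial.X ^ q - Polynomial.C (-δ ^ 2) : Polynomial κ).leadingCoeff = 1 :=
    Polynomial.leadingCoeff_X_pow_sub_C (by omega)
  have h3 := hprod Ω (jc s κ) (w1 * w2)
  rw [hlc, map_one, one_mul, Polynomial.eval₂_sub, Polynomial.eval₂_X_pow,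
    Polynomial.eval₂_C] at h3
  rw [← hdeg] at hq hq3
  refine chain2 hfg hF s D hσ hσρ (c := 4) hq hq3 (by norm_num) hη (x := w1 * w2)
    (y := 2 * x - jc s κ e1 - jc s κ e2) (fun g hg => ?_) (fun g hg => ?_) ?_ ?_
  · rw [map_mul, hw1 g hg, hw2 g hg]
  · rw [map_sub, map_sub, map_mul, jc_fix s hg.1, jc_fix s hg.1, hx g hg, map_ofNat]
  · rw [← h3, mul_pow, h1, h2, map_neg, map_pow, map_ofNat]
    have h4 : 2 * jc s κ δ = jc s κ e1 - jc s κ e2 := by
      rw [← map_sub, ← hδ, map_mul, map_ofNat]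
    have h5 : jc s κ e1 = 2 * jc s κ δ + jc s κ e2 := by rw [h4]; ring
    rw [h5]
    ring
  · rcases hmv with h | h
    · right
      intro h4
      apply h
      rw [map_sub, map_sub, map_mul, jc_fix s hσ, jc_fix s hσ, map_ofNat, sub_left_inj,
        sub_left_inj] at h4
      exact mul_left_cancel₀ two_ne_zero h4
    · left
      exact h

theorem chainq (hfg : (⊤ : IntermediateField ℚ K).FG)
    (hF : ∃ z : L, Transcendental K z ∧ Algebra.IsAlgebraic (IntermediateField.adjoin K {z}) L)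
    (s : GalSection K L Ω B) {ρ : B} {G : Finset κ} (D : Dat K ρ G) {σ : B ≃ₐ[K] B}
    (hσ : ∀ c : κ, σ (algebraMap κ B c) = algebraMap κ B c)
    (hσρ : σ ρ ∈ IntermediateField.adjoin κ {ρ}) {q : ℕ} (hq : Odd q) (hq3 : 3 ≤ q) {d : ℕ}
    (hd2 : 2 ≤ d) (hdq : Nat.Coprime d q) {c : κ}
    (hc : c ≠ 0) {e : Fin d → κ} (he : Function.Injective e) {x y : Ω} (hx : FxB s κ ρ x)
    (hy : FxB s κ ρ y) (hxy : y ^ q = jc s κ c * ∏ i, (x - jc s κ (e i)))
    (hmv : s.s σ x ≠ x ∨ s.s σ y ≠ y) : ∃! O : ValuationSubring L, s.ArisesFrom O := by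
  classical
  have hΩ1 : IsAlgClosed Ω := IsAlgClosure.isAlgClosed L
  have hdim : ∀ x : Ω, Transcendental K x → ∀ t : Ω, IsAlgebraic (Algebra.adjoin K {x}) t :=
    fun z hz t => (alg_adjoin_of_dim hF z hz).isAlgebraic t
  have hq0 : 0 < q := by omega
  choose w hw using fun i : Fin d =>
    IsAlgClosed.exists_pow_nat_eq (x - jc s κ (e i)) (n := q) hq0
  have hwf : ∀ i, FxB s κ ρ (w i) := fun i =>
    keyS s D hfg hdim hq0 hdq hc he hx hy hxy i (hw i)
  by_contra hno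
  have htr : ∀ i j, i ≠ j → s.s σ x = x ∧ s.s σ (w i * w j) = w i * w j := by
    intro i j hij
    by_contra h
    apply hno
    refine pair hfg hF s D hσ hσρ hq hq3 (he.ne hij) hx (hwf i) (hwf j) (hw i) (hw j) ?_
    by_contra h'
    push Not at h'
    exact h h'
  have hσx : s.s σ x = x := (htr ⟨0, by omega⟩ ⟨1, by omega⟩ (by simp [Fin.ext_iff])).1
  have hσy : s.s σ y ≠ y := hmv.resolve_left (fun h => h hσx)
  have hne : ∀ i, x - jc s κ (e i) ≠ 0 := by
    intro i h0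
    apply hσy
    rw [Finset.prod_eq_zero (Finset.mem_univ i) h0, mul_zero] at hxy
    rw [pow_eq_zero_iff hq0.ne'] at hxy
    rw [hxy, map_zero]
  have hw0 : ∀ i, w i ≠ 0 := by
    intro i h0
    have := hw i
    rw [h0, zero_pow hq0.ne'] at this
    exact hne i this.symm
  have hP0 : ∏ i, w i ≠ 0 := Finset.prod_ne_zero_iff.2 fun i _ => hw0 i
  have hε2 : ∀ i, (s.s σ (w i) / w i) ^ q = 1 := by
    intro i
    rw [div_pow, ← map_pow, hw, map_sub, hσx, jc_fix s hσ, div_self (hne i)]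
  have hprod : ∏ i, (s.s σ (w i) / w i) = 1 := by
    refine comb2 hd2 hq hε2 (fun i j hij => ?_)
    have h1 := (htr i j hij).2
    rw [map_mul] at h1
    have h2 : s.s σ (w i) / w i * (s.s σ (w j) / w j) =
        s.s σ (w i) * s.s σ (w j) / (w i * w j) := by
      field_simp
    rw [h2, h1, div_self (mul_ne_zero (hw0 i) (hw0 j))]
  have hσP : s.s σ (∏ i, w i) = ∏ i, w i := by
    rw [Finset.prod_div_distrib, div_eq_one_iff_eq hP0] at hprod
    rw [map_prod, hprod]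
  apply hσy
  obtain ⟨γ, hγ⟩ := IsAlgClosed.exists_pow_nat_eq c (n := q) hq0
  have hγ0 : γ ≠ 0 := by
    rintro rfl
    rw [zero_pow hq0.ne'] at hγ
    exact hc hγ.symm
  have hj0 : jc s κ γ ≠ 0 := (map_ne_zero _).2 hγ0
  -- the quotient is a root of unity
  have h5 : (y / (jc s κ γ * ∏ i, w i)) ^ q = 1 := by
    rw [div_pow, hxy, mul_pow, ← map_pow, hγ, ← Finset.prod_pow]
    simp only [hw]
    exact div_self (mul_ne_zero ((map_ne_zero _).2 hc) (Finset.prod_ne_zero_iff.2 fun i _ => hne i))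
  haveI : NeZero (q : κ) := ⟨Nat.cast_ne_zero.2 hq0.ne'⟩
  obtain ⟨z, hz⟩ := IsAlgClosed.exists_root (Polynomial.cyclotomic q κ) (by
      rw [Polynomial.degree_cyclotomic]
      exact_mod_cast (Nat.totient_pos.2 hq0).ne')
  rw [Polynomial.isRoot_cyclotomic_iff] at hz
  have hz' : IsPrimitiveRoot (jc s κ z) q := hz.map_of_injective (jc s κ).injective
  haveI : NeZero q := ⟨hq0.ne'⟩
  obtain ⟨k, -, hk⟩ := hz'.eq_pow_of_pow_eq_one h5
  have h6 : y = jc s κ (z ^ k) * (jc s κ γ * ∏ i, w i) := by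
    rw [map_pow, hk, div_mul_cancel₀ _ (mul_ne_zero hj0 hP0)]
  rw [h6, map_mul, map_mul, jc_fix s hσ, jc_fix s hσ, hσP]

end

end Pool.Agent.V7H43.BS
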