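import Pool.Agent.V7H43.BS.Ext

/-!
# Curves over `k(t)`
-/

set_option autoImplicit false
set_option linter.all false

namespace Pool.Agent.V7H43.BS

open Pool.Agent.TH954 Pool.Agent.Y474.GT

/-- `k(t)` is finitely generated -/
theorem fg_adjoin' {k K : Type} [Field k] [CharZero k] [Field K] [CharZero K] [Algebra k K]
    (hfg : (⊤ : IntermediateField ℚ k).FG) {t : K}
    (hgen : IntermediateField.adjoin k {t} = ⊤) : (⊤ : IntermediateField ℚ K).FG :=
  fg_adjoin hfg hgen

/-- the roots of `t` -/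
theorem setupB {k K B : Type} [Field k] [CharZero k] [Field K] [CharZero K] [Algebra k K]
    [Field B] [Algebra K B] [IsAlgClosure K B] (hfg : (⊤ : IntermediateField ℚ k).FG) {t : K}
    (ht : Transcendental k t) (hgen : IntermediateField.adjoin k {t} = ⊤) {n : ℕ} (hn : 0 < n) :
    ∃ (κ : Type) (_ : Field κ) (_ : CharZero κ) (_ : IsAlgClosed κ) (_ : Algebra κ B)
      (i : k →+* κ) (G : Finset κ) (ρ : B) (ζ : κ) (σ : B ≃ₐ[K] B), Dat K ρ G ∧
      ρ ^ n = algebraMap K B t ∧ ρ ≠ 0 ∧ IsPrimitiveRoot ζ n ∧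
      (∀ c : k, algebraMap κ B (i c) = algebraMap K B (algebraMap k K c)) ∧
      (∀ c : κ, σ (algebraMap κ B c) = algebraMap κ B c) ∧ σ ρ = algebraMap κ B ζ * ρ := by
  classical
  have hB1 : IsAlgClosed B := IsAlgClosure.isAlgClosed K
  have hB2 : Algebra.IsAlgebraic K B := IsAlgClosure.isAlgebraic
  letI ikB : Algebra k B := ((algebraMap K B).comp (algebraMap k K)).toAlgebra
  haveI : IsScalarTower k K B := IsScalarTower.of_algebraMap_eq fun _ => rfl
  haveI cκ : CharZero (algebraicClosure k B) := cz_alg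
  haveI aκ : IsAlgClosed (algebraicClosure k B) := IsAlgClosure.isAlgClosed k
  haveI alκ : Algebra.IsAlgebraic k (algebraicClosure k B) := algebraicClosure.isAlgebraic k _
  obtain ⟨ρ, hρn⟩ := IsAlgClosed.exists_pow_nat_eq (algebraMap K B t) hn
  have ht' : Transcendental k (algebraMap K B t) :=
    (transcendental_algebraMap_iff (algebraMap K B).injective).2 ht
  have hρk : Transcendental k ρ := by
    intro h
    apply ht'
    rw [← hρn]
    exact h.pow n
  have hρ0 : ρ ≠ 0 := by
    rintro rfl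
    exact hρk isAlgebraic_zero
  have hmem : ∀ c : K, algebraMap K B c ∈ IntermediateField.adjoin k {ρ} := by
    intro c
    let f : K →ₐ[k] B := IsScalarTower.toAlgHom k K B
    have h1 : IntermediateField.adjoin k {t} ≤ (IntermediateField.adjoin k {ρ}).comap f := by
      rw [IntermediateField.adjoin_simple_le_iff]
      change algebraMap K B t ∈ IntermediateField.adjoin k {ρ}
      rw [← hρn]
      exact pow_mem (IntermediateField.mem_adjoin_simple_self k ρ) n
    rw [hgen] at h1
    exact h1 (IntermediateField.mem_top (x := c))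
  obtain ⟨G, D⟩ := dat_of (K := K) (B := B) hfg hρk hmem
  obtain ⟨ζ, hζ⟩ := IsAlgClosed.exists_root
    (Polynomial.cyclotomic n (algebraicClosure k B)) (by
      rw [Polynomial.degree_cyclotomic]
      exact_mod_cast (Nat.totient_pos.2 hn).ne')
  haveI : NeZero (n : algebraicClosure k B) := ⟨Nat.cast_ne_zero.2 hn.ne'⟩
  rw [Polynomial.isRoot_cyclotomic_iff] at hζ
  have hζ0 : ζ ≠ 0 := hζ.ne_zero hn.ne'
  have hz0 : algebraMap (algebraicClosure k B) B ζ ≠ 0 := (map_ne_zero _).2 hζ0
  have hd : Transcendental (algebraicClosure k B) (algebraMap (algebraicClosure k B) B ζ * ρ) := by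
    intro h
    apply D.hρ
    have h2 : IsAlgebraic (algebraicClosure k B) (algebraMap (algebraicClosure k B) B ζ⁻¹) :=
      isAlgebraic_algebraMap _
    have h3 := h2.mul h
    rwa [map_inv₀, inv_mul_cancel_left₀ hz0] at h3
  obtain ⟨J, hJ1, hJ2⟩ := liftJ D hd
  have hJK : ∀ c : K, J (algebraMap K B c) = algebraMap K B c := by
    let E : IntermediateField k K :=
      ((J.comp (algebraMap K B)).eqLocusField (algebraMap K B)).toIntermediateField (fun r => by
        have h1 := hJ1 (algebraMap k (algebraicClosure k B) r)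
        rw [← IsScalarTower.algebraMap_apply] at h1
        exact h1)
    have h1 : IntermediateField.adjoin k {t} ≤ E := by
      rw [IntermediateField.adjoin_simple_le_iff]
      change J (algebraMap K B t) = algebraMap K B t
      rw [← hρn, map_pow, hJ2, mul_pow, ← map_pow, hζ.pow_eq_one, map_one, one_mul]
    rw [hgen] at h1
    exact fun c => h1 (IntermediateField.mem_top (x := c))
  obtain ⟨σ, hσ⟩ := liftσ (K := K) (J := J) hJK
  refine ⟨algebraicClosure k B, inferInstance, cκ, aκ, inferInstance,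
    algebraMap k (algebraicClosure k B), G, ρ, ζ, σ, D, hρn, hρ0, hζ, fun c => ?_, fun c => ?_, ?_⟩
  · rw [← IsScalarTower.algebraMap_apply, IsScalarTower.algebraMap_apply k K B]
  · rw [hσ, hJ1]
  · rw [hσ, hJ2]

section

variable {k K L Ω B : Type} [Field k] [CharZero k] [Field K] [CharZero K] [Algebra k K]
  [Field L] [Field Ω] [Field B] [Algebra K L]
  [Algebra L Ω] [Algebra K Ω] [Algebra K B] [IsScalarTower K L Ω] [IsAlgClosure L Ω]
  [IsAlgClosure K B]

lemma fxB_L (s : GalSection K L Ω B) {κ : Type} [Field κ] [Algebra κ B] {ρ : B} (x : L) :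
    FxB s κ ρ (algebraMap L Ω x) := fun g _ => (s.s g).commutes x

lemma jc_i (s : GalSection K L Ω B) {κ : Type} [Field κ] [Algebra κ B] {i : k →+* κ}
    (hi : ∀ c : k, algebraMap κ B (i c) = algebraMap K B (algebraMap k K c)) (c : k) :
    jc s κ (i c) = algebraMap L Ω (algebraMap K L (algebraMap k K c)) := by
  change s.j (algebraMap κ B (i c)) = _
  rw [hi, s.j.commutes]
  exact IsScalarTower.algebraMap_apply K L Ω _

lemma jc_comp (s : GalSection K L Ω B) {κ : Type} [Field κ] [Algebra κ B] {i : k →+* κ}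
    (hi : ∀ c : k, algebraMap κ B (i c) = algebraMap K B (algebraMap k K c)) :
    (jc s κ).comp i = (algebraMap L Ω).comp ((algebraMap K L).comp (algebraMap k K)) :=
  RingHom.ext fun c => jc_i s hi c

/-- **Curves `t y^n = f(x)`.** -/
theorem twist_main (hfg : (⊤ : IntermediateField ℚ k).FG) {t : K} (ht : Transcendental k t)
    (hgen : IntermediateField.adjoin k {t} = ⊤)
    (hF : ∃ z : L, Transcendental K z ∧ Algebra.IsAlgebraic (IntermediateField.adjoin K {z}) L)
    {n : ℕ} (hn : 2 ≤ n) {f : Polynomial k} (hf : f.Separable) (hd : 2 ≤ f.natDegree)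
    (hnd : n ≠ 2 ∨ f.natDegree ≠ 2) {x y : L} (hy : y ≠ 0)
    (hxy : algebraMap K L t * y ^ n = f.eval₂ ((algebraMap K L).comp (algebraMap k K)) x)
    (s : GalSection K L Ω B) : ∃! O : ValuationSubring L, s.ArisesFrom O := by
  classical
  have hcΩ : CharZero Ω := charZero_of_injective_algebraMap (algebraMap K Ω).injective
  have hfgK := fg_adjoin hfg hgen
  -- the general argument
  have gen : ∀ r : ℕ, 2 ≤ r → r ∣ n → (∀ (κ : Type) (i1 : Field κ) (i2 : CharZero κ)
      (i3 : IsAlgClosed κ) (i4 : Algebra κ B) (i : k →+* κ) (G : Finset κ) (ρ : B) (ζ : κ)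
      (σ : B ≃ₐ[K] B), Dat K ρ G →
      (∀ c : k, algebraMap κ B (i c) = algebraMap K B (algebraMap k K c)) →
      (∀ c : κ, σ (algebraMap κ B c) = algebraMap κ B c) →
      σ ρ ∈ IntermediateField.adjoin κ {ρ} → ∀ Y : Ω, FxB s κ ρ Y →
      Y ^ r = f.eval₂ ((algebraMap L Ω).comp ((algebraMap K L).comp (algebraMap k K)))
        (algebraMap L Ω x) → s.s σ Y ≠ Y → ∃! O : ValuationSubring L, s.ArisesFrom O) →
      ∃! O : ValuationSubring L, s.ArisesFrom O := by
    intro r hr hrn h
    obtain ⟨m, rfl⟩ := hrn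
    obtain ⟨κ, i1, i2, i3, i4, i, G, ρ, ζ, σ, D, hρn, hρ0, hζ, hi, hσ, hσρ⟩ :=
      setupB (B := B) hfg ht hgen (n := r) (by omega)
    have hσρ' : σ ρ ∈ IntermediateField.adjoin κ {ρ} := by
      rw [hσρ]
      exact mul_mem (IntermediateField.algebraMap_mem _ ζ)
        (IntermediateField.mem_adjoin_simple_self κ ρ)
    have hjρ0 : s.j ρ ≠ 0 := (map_ne_zero _).2 hρ0
    have hy0 : algebraMap L Ω (y ^ m) ≠ 0 := (map_ne_zero _).2 (pow_ne_zero m hy)
    refine h κ i1 i2 i3 i4 i G ρ ζ σ D hi hσ hσρ' (s.j ρ * algebraMap L Ω (y ^ m)) ?_ ?_ ?_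
    · intro g hg
      rw [map_mul, s.sec, hg.2, AlgEquiv.commutes]
    · have h1 : s.j ρ ^ r = algebraMap L Ω (algebraMap K L t) := by
        rw [← map_pow, hρn, s.j.commutes, ← IsScalarTower.algebraMap_apply]
      have h2 := congrArg (algebraMap L Ω) hxy
      rw [Polynomial.hom_eval₂] at h2
      rw [← h2, mul_pow, h1, ← map_pow, ← map_mul, ← pow_mul, mul_comm m r]
    · intro h1
      rw [map_mul, s.sec, hσρ, map_mul, AlgEquiv.commutes] at h1
      have h3 : s.j (algebraMap κ B ζ) = 1 := by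
        have h4 : s.j (algebraMap κ B ζ) * (s.j ρ * algebraMap L Ω (y ^ m)) =
            1 * (s.j ρ * algebraMap L Ω (y ^ m)) := by
          rw [one_mul, ← mul_assoc]
          exact h1
        exact mul_right_cancel₀ (mul_ne_zero hjρ0 hy0) h4
      have h4 : ζ = 1 := by
        apply ((s.j : B →+* Ω).comp (algebraMap κ B)).injective
        rw [map_one]
        exact h3
      exact hζ.ne_one (by omega) h4
  by_cases hex : ∃ q : ℕ, q.Prime ∧ q ∣ n ∧ (q ≠ 2 ∨ f.natDegree ≠ 2)
  · obtain ⟨q, hq, hqn, hqd⟩ := hex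
    refine gen q hq.two_le hqn ?_
    intro κ i1 i2 i3 i4 i G ρ ζ σ D hi hσ hσρ Y hYf hY hmv
    refine superB hfgK hF s D hσ hσρ hq (f := f.map i) hf.map (by rw [Polynomial.natDegree_map]; exact hd)
      (by rw [Polynomial.natDegree_map]; exact hqd) (x := algebraMap L Ω x) (y := Y) (fxB_L s x)
      hYf ?_ (Or.inr hmv)
    rw [Polynomial.eval₂_map, jc_comp s hi]
    exact hY
  · -- `n` is divisible by `4` and `f` has degree two
    push Not at hex
    obtain ⟨q, hq, hqn⟩ := Nat.exists_prime_and_dvd (show n ≠ 1 by omega)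
    obtain ⟨hq2, hf2⟩ := hex q hq hqn
    subst hq2
    have hn2 : n ≠ 2 := hnd.resolve_right (fun h => h hf2)
    have h4 : 4 ∣ n := by
      obtain ⟨m, rfl⟩ := hqn
      have hm1 : m ≠ 1 := by
        rintro rfl
        exact hn2 rfl
      obtain ⟨p, hp, hpm⟩ := Nat.exists_prime_and_dvd hm1
      obtain ⟨hp2, -⟩ := hex p hp (hpm.trans (Nat.dvd_mul_left m 2))
      subst hp2
      obtain ⟨m', rfl⟩ := hpm
      exact ⟨m', by ring⟩
    refine gen 4 (by norm_num) h4 ?_
    intro κ i1 i2 i3 i4 i G ρ ζ σ D hi hσ hσρ Y hYf hY hmv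
    obtain ⟨e, he, hprod⟩ := exists_roots (f := f.map i) hf.map
    have hdeg : (f.map i).natDegree = 2 := by rw [Polynomial.natDegree_map]; exact hf2
    obtain ⟨c, hc⟩ : ∃ c, c = (f.map i).leadingCoeff := ⟨_, rfl⟩
    have hc0 : c ≠ 0 := by
      rw [hc]
      exact Polynomial.leadingCoeff_ne_zero.2 hf.map.ne_zero
    obtain ⟨e1, e2, he12, hprod2⟩ : ∃ e1 e2 : κ, e1 ≠ e2 ∧
        Y ^ 4 = jc s κ c * ((algebraMap L Ω x - jc s κ e1) * (algebraMap L Ω x - jc s κ e2)) := by
      have h5 := hprod Ω (jc s κ) (algebraMap L Ω x)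
      rw [Polynomial.eval₂_map, jc_comp s hi, ← hY, ← hc] at h5
      clear hprod
      revert e
      rw [hdeg]
      intro e he h5
      rw [Fin.prod_univ_two] at h5
      exact ⟨e 0, e 1, he.ne (by decide), h5⟩
    -- the curve `X = Y`, `2 x - e1 - e2`
    have hsep : (Polynomial.X ^ 4 - Polynomial.C (-(c * (e1 - e2) ^ 2 / 4)) :
        Polynomial κ).Separable := by
      refine Polynomial.separable_X_pow_sub_C _ (by norm_num) ?_
      rw [neg_ne_zero]
      exact div_ne_zero (mul_ne_zero hc0 (pow_ne_zero 2 (sub_ne_zero.2 he12))) (by norm_num)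
    have h4c : (4 / c : κ) ≠ 0 := div_ne_zero (by norm_num) hc0
    have hg : (Polynomial.C (4 / c) * (Polynomial.X ^ 4 -
        Polynomial.C (-(c * (e1 - e2) ^ 2 / 4))) : Polynomial κ).Separable :=
      Polynomial.Separable.unit_mul (Polynomial.isUnit_C.2 h4c.isUnit) hsep
    have hgd : (Polynomial.C (4 / c) * (Polynomial.X ^ 4 -
        Polynomial.C (-(c * (e1 - e2) ^ 2 / 4))) : Polynomial κ).natDegree = 4 := by
      rw [Polynomial.natDegree_C_mul h4c, Polynomial.natDegree_X_pow_sub_C]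
    refine superB hfgK hF s D hσ hσρ Nat.prime_two (f := _) hg (by rw [hgd]; norm_num)
      (by rw [hgd]; norm_num) (x := Y)
      (y := 2 * algebraMap L Ω x - jc s κ e1 - jc s κ e2) hYf ?_ ?_ (Or.inl hmv)
    · intro g hg
      rw [map_sub, map_sub, map_mul, jc_fix s hg.1, jc_fix s hg.1, fxB_L s x g hg, map_ofNat]
    · rw [Polynomial.eval₂_mul, Polynomial.eval₂_C, Polynomial.eval₂_sub, Polynomial.eval₂_X_pow,
        Polynomial.eval₂_C, hprod2]
      have hjc0 : jc s κ c ≠ 0 := (map_ne_zero _).2 hc0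
      simp only [map_neg, map_div₀, map_mul, map_pow, map_sub, map_ofNat]
      field_simp
      ring

/-- **Curves `α u^l + β v^m = t`**, for `l ≥ 3`. -/
theorem tri_aux (hfg : (⊤ : IntermediateField ℚ k).FG) {t : K} (ht : Transcendental k t)
    (hgen : IntermediateField.adjoin k {t} = ⊤)
    (hF : ∃ z : L, Transcendental K z ∧ Algebra.IsAlgebraic (IntermediateField.adjoin K {z}) L)
    {l m : ℕ} (hl : 3 ≤ l) (hm : 2 ≤ m) {α β : k} (hα : α ≠ 0) (hβ : β ≠ 0) {u v : L}
    (huv : algebraMap K L (algebraMap k K α) * u ^ l + algebraMap K L (algebraMap k K β) * v ^ m =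
      algebraMap K L t)
    (s : GalSection K L Ω B) : ∃! O : ValuationSubring L, s.ArisesFrom O := by
  classical
  have hcΩ : CharZero Ω := charZero_of_injective_algebraMap (algebraMap K Ω).injective
  have hfgK := fg_adjoin hfg hgen
  obtain ⟨q, hq, m', hm'⟩ := Nat.exists_prime_and_dvd (show m ≠ 1 by omega)
  subst hm'
  have hm'0 : 0 < m' := by
    rcases Nat.eq_zero_or_pos m' with h | h
    · subst h
      omega
    · exact h
  obtain ⟨κ, i1, i2, i3, i4, i, G, ρ, ζ, σ, D, hρn, hρ0, hζ, hi, hσ, hσρ⟩ :=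
    setupB (B := B) hfg ht hgen (n := l * (q * m')) (by positivity)
  have hσρ' : σ ρ ∈ IntermediateField.adjoin κ {ρ} := by
    rw [hσρ]
    exact mul_mem (IntermediateField.algebraMap_mem _ ζ)
      (IntermediateField.mem_adjoin_simple_self κ ρ)
  set r : Ω := s.j ρ with hr
  have hr0 : r ≠ 0 := (map_ne_zero _).2 hρ0
  have hrf : FxB s κ ρ r := by
    intro g hg
    rw [hr, s.sec, hg.2]
  have hrn : r ^ (l * (q * m')) = algebraMap L Ω (algebraMap K L t) := by
    rw [hr, ← map_pow, hρn, s.j.commutes, ← IsScalarTower.algebraMap_apply]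
  have hσr : s.s σ r = jc s κ ζ * r := by
    rw [hr, s.sec, hσρ, map_mul]
    rfl
  have hζ' : IsPrimitiveRoot (jc s κ ζ) (l * (q * m')) := hζ.map_of_injective (jc s κ).injective
  set U : Ω := algebraMap L Ω u / r ^ (q * m') with hU
  set V : Ω := algebraMap L Ω v / r ^ l with hV
  have hUf : FxB s κ ρ U := by
    intro g hg
    rw [hU, map_div₀, map_pow, hrf g hg, fxB_L s u g hg]
  have hVf : FxB s κ ρ V := by
    intro g hg
    rw [hV, map_div₀, map_pow, hrf g hg, fxB_L s v g hg]
  have hUV : jc s κ (i α) * U ^ l + jc s κ (i β) * V ^ (q * m') = 1 := by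
    have h1 := congrArg (algebraMap L Ω) huv
    rw [map_add, map_mul, map_mul, map_pow, map_pow, ← jc_i s hi, ← jc_i s hi, ← hrn] at h1
    have h2 : U ^ l = algebraMap L Ω u ^ l / r ^ (l * (q * m')) := by
      rw [hU, div_pow, ← pow_mul, mul_comm (q * m') l]
    have h3 : V ^ (q * m') = algebraMap L Ω v ^ (q * m') / r ^ (l * (q * m')) := by
      rw [hV, div_pow, ← pow_mul]
    rw [h2, h3]
    have h4 : r ^ (l * (q * m')) ≠ 0 := pow_ne_zero _ hr0
    field_simp
    exact h1
  have hα' : i α ≠ 0 := (map_ne_zero _).2 hα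
  have hβ' : i β ≠ 0 := (map_ne_zero _).2 hβ
  have hjα : jc s κ (i α) ≠ 0 := (map_ne_zero _).2 hα'
  have hjβ : jc s κ (i β) ≠ 0 := (map_ne_zero _).2 hβ'
  have hl0 : l ≠ 0 := by omega
  have hsep : (Polynomial.X ^ l - Polynomial.C (i α)⁻¹ : Polynomial κ).Separable :=
    Polynomial.separable_X_pow_sub_C _ (Nat.cast_ne_zero.2 hl0) (inv_ne_zero hα')
  have h4c : (-(i α / i β) : κ) ≠ 0 := neg_ne_zero.2 (div_ne_zero hα' hβ')
  have hg : (Polynomial.C (-(i α / i β)) * (Polynomial.X ^ l -
      Polynomial.C (i α)⁻¹) : Polynomial κ).Separable :=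
    Polynomial.Separable.unit_mul (Polynomial.isUnit_C.2 h4c.isUnit) hsep
  have hgd : (Polynomial.C (-(i α / i β)) * (Polynomial.X ^ l -
      Polynomial.C (i α)⁻¹) : Polynomial κ).natDegree = l := by
    rw [Polynomial.natDegree_C_mul h4c, Polynomial.natDegree_X_pow_sub_C]
  refine superB hfgK hF s D hσ hσρ' hq (f := _) hg (by rw [hgd]; omega)
    (by rw [hgd]; omega) (x := U) (y := V ^ m') hUf (fun g hg => by rw [map_pow, hVf g hg]) ?_ ?_
  · rw [Polynomial.eval₂_mul, Polynomial.eval₂_C, Polynomial.eval₂_sub, Polynomial.eval₂_X_pow,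
      Polynomial.eval₂_C, ← pow_mul, mul_comm m' q, map_neg, map_div₀, map_inv₀]
    have h5 : jc s κ (i β) * V ^ (q * m') = 1 - jc s κ (i α) * U ^ l := by
      rw [← hUV]
      ring
    rw [eq_comm]
    field_simp
    rw [h5]
    ring
  · by_cases hU0 : U = 0
    · right
      rw [hU0, zero_pow hl0, mul_zero, zero_add] at hUV
      have hV0 : V ≠ 0 := by
        intro h0
        rw [h0, zero_pow (by positivity), mul_zero] at hUV
        exact zero_ne_one hUV
      intro h1
      have h2 : s.s σ (V ^ m') * jc s κ ζ ^ (l * m') = V ^ m' := by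
        rw [map_pow, hV, map_div₀, map_pow, hσr, AlgEquiv.commutes, mul_pow]
        have h3 : jc s κ ζ ≠ 0 := hζ'.ne_zero (by positivity)
        rw [div_pow, div_pow, mul_pow, ← pow_mul (jc s κ ζ) l m']
        field_simp
      rw [h1] at h2
      have h3 : jc s κ ζ ^ (l * m') = 1 := by
        have h4 : V ^ m' * jc s κ ζ ^ (l * m') = V ^ m' * 1 := by rw [h2, mul_one]
        exact mul_left_cancel₀ (pow_ne_zero m' hV0) h4
      have h5 := hζ'.dvd_of_pow_eq_one _ h3
      have h6 := Nat.le_of_dvd (by positivity) h5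
      have h7 : l * m' < l * (q * m') := by
        apply Nat.mul_lt_mul_of_pos_left _ (by omega)
        calc m' = 1 * m' := (one_mul _).symm
          _ < q * m' := Nat.mul_lt_mul_of_pos_right hq.one_lt hm'0
      omega
    · left
      intro h1
      have h2 : s.s σ U * jc s κ ζ ^ (q * m') = U := by
        rw [hU, map_div₀, map_pow, hσr, AlgEquiv.commutes, mul_pow]
        have h3 : jc s κ ζ ≠ 0 := hζ'.ne_zero (by positivity)
        field_simp
      rw [h1] at h2
      have h3 : jc s κ ζ ^ (q * m') = 1 := by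
        have h4 : U * jc s κ ζ ^ (q * m') = U * 1 := by rw [h2, mul_one]
        exact mul_left_cancel₀ hU0 h4
      have h5 := hζ'.dvd_of_pow_eq_one _ h3
      have h6 := Nat.le_of_dvd (by positivity) h5
      have h7 : q * m' < l * (q * m') := by
        calc q * m' = 1 * (q * m') := (one_mul _).symm
          _ < l * (q * m') := Nat.mul_lt_mul_of_pos_right (by omega) (by positivity)
      omega

/-- **Curves `α u^l + β v^m = t`.** -/
theorem tri_main (hfg : (⊤ : IntermediateField ℚ k).FG) {t : K} (ht : Transcendental k t)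
    (hgen : IntermediateField.adjoin k {t} = ⊤)
    (hF : ∃ z : L, Transcendental K z ∧ Algebra.IsAlgebraic (IntermediateField.adjoin K {z}) L)
    {l m : ℕ} (hl : 2 ≤ l) (hm : 2 ≤ m) (hlm : l ≠ 2 ∨ m ≠ 2) {α β : k} (hα : α ≠ 0) (hβ : β ≠ 0)
    {u v : L}
    (huv : algebraMap K L (algebraMap k K α) * u ^ l + algebraMap K L (algebraMap k K β) * v ^ m =
      algebraMap K L t)
    (s : GalSection K L Ω B) : ∃! O : ValuationSubring L, s.ArisesFrom O := by
  rcases Nat.lt_or_ge 2 l with h | h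
  · exact tri_aux hfg ht hgen hF h hm hα hβ huv s
  · refine tri_aux hfg ht hgen hF (l := m) (m := l) (by omega) hl hβ hα ?_ s (u := v) (v := u)
    rw [add_comm]
    exact huv

end

end Pool.Agent.V7H43.BS
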