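import Pool.Agent.V7H43.BS.Stab2

/-!
# Descent of the place of a section from a finite extension
-/

set_option autoImplicit false
set_option linter.all false

namespace Pool.Agent.V7H43.BS

open Pool.Agent.TH954

section

variable {K L Ω B : Type} [Field K] [CharZero K] [Field L] [Field Ω] [Field B] [Algebra K L]
  [Algebra L Ω] [Algebra K Ω] [Algebra K B] [IsScalarTower K L Ω] [IsAlgClosure L Ω]
  [IsAlgClosure K B]

theorem bsc_of_stable (hfg : (⊤ : IntermediateField ℚ K).FG)
    (hF : ∃ z : L, Transcendental K z ∧ Algebra.IsAlgebraic (IntermediateField.adjoin K {z}) L)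
    (s : GalSection K L Ω B) (E : IntermediateField K B) [FiniteDimensional K E]
    {W : ValuationSubring Ω} (hW : ∀ c : K, algebraMap K Ω c ∈ W) (hn : W ≠ ⊤)
    (hs : ∀ g : B ≃ₐ[K] B, (∀ z ∈ E, g z = z) → ∀ x ∈ W, s.s g x ∈ W) :
    ∃! O : ValuationSubring L, s.ArisesFrom O := by
  classical
  have hΩ1 : IsAlgClosed Ω := IsAlgClosure.isAlgClosed L
  have hΩ2 : Algebra.IsAlgebraic L Ω := IsAlgClosure.isAlgebraic
  have hB1 : IsAlgClosed B := IsAlgClosure.isAlgClosed K
  have hB2 : Algebra.IsAlgebraic K B := IsAlgClosure.isAlgebraic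
  have hdim : ∀ x : Ω, Transcendental K x → ∀ t : Ω, IsAlgebraic (Algebra.adjoin K {x}) t :=
    fun z hz t => (alg_adjoin_of_dim hF z hz).isAlgebraic t
  have hmul : ∀ (g h : B ≃ₐ[K] B) (x : Ω), s.s g (s.s h x) = s.s (g * h) x := by
    intro g h x
    rw [map_mul]
    rfl
  have hinv : ∀ (g : B ≃ₐ[K] B) (x : Ω), s.s g⁻¹ (s.s g x) = x := by
    intro g x
    rw [hmul, inv_mul_cancel, map_one]
    rfl
  have hinv' : ∀ (g : B ≃ₐ[K] B) (x : Ω), s.s g (s.s g⁻¹ x) = x := by
    intro g x
    rw [hmul, mul_inv_cancel, map_one]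
    rfl
  -- `W` is stable
  have hst : ∀ (g : B ≃ₐ[K] B) (x : Ω), x ∈ W → s.s g x ∈ W := by
    intro g x hx
    haveI : FiniteDimensional K (E.map (g⁻¹ : B ≃ₐ[K] B).toAlgHom) := finite_map inferInstance _
    have h1 : W = W.comap ((s.s g : Ω ≃ₐ[L] Ω) : Ω →+* Ω) := by
      refine uniq3 hfg hdim s (E ⊔ E.map (g⁻¹ : B ≃ₐ[K] B).toAlgHom) hW ?_ hn ?_ ?_ ?_
      · intro c
        rw [ValuationSubring.mem_comap]
        change s.s g (algebraMap K Ω c) ∈ W
        rw [IsScalarTower.algebraMap_apply K L Ω, AlgEquiv.commutes,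
          ← IsScalarTower.algebraMap_apply]
        exact hW c
      · intro htop
        apply hn
        ext y
        refine ⟨fun _ => ValuationSubring.mem_top y, fun _ => ?_⟩
        have h2 : s.s g⁻¹ y ∈ W.comap ((s.s g : Ω ≃ₐ[L] Ω) : Ω →+* Ω) := by
          rw [htop]
          exact ValuationSubring.mem_top _
        have h3 : s.s g (s.s g⁻¹ y) ∈ W := ValuationSubring.mem_comap.1 h2
        rwa [hinv'] at h3
      · intro h hh y hy
        exact hs h (fun z hz => hh z ((le_sup_left : E ≤ _) hz)) y hy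
      · intro h hh y hy
        rw [ValuationSubring.mem_comap] at hy ⊢
        have hy' : s.s g y ∈ W := hy
        change s.s g (s.s h y) ∈ W
        have e : s.s g (s.s h y) = s.s (g * h * g⁻¹) (s.s g y) := by
          rw [hmul, hmul]
          congr 2
          group
        rw [e]
        refine hs _ (fun z hz => ?_) _ hy'
        have h4 : g⁻¹ z ∈ E.map (g⁻¹ : B ≃ₐ[K] B).toAlgHom := ⟨z, hz, rfl⟩
        have h5 := hh _ ((le_sup_right : E.map (g⁻¹ : B ≃ₐ[K] B).toAlgHom ≤ _) h4)
        change g (h (g⁻¹ z)) = z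
        rw [h5]
        change (g * g⁻¹) z = z
        rw [mul_inv_cancel]
        rfl
    have h6 : x ∈ W.comap ((s.s g : Ω ≃ₐ[L] Ω) : Ω →+* Ω) := by
      rw [← h1]
      exact hx
    exact ValuationSubring.mem_comap.1 h6
  set A := toSAct s with hA
  have hAst : ∀ τ x, x ∈ W → A.s τ x ∈ W := fun τ x hx => hst _ x hx
  have hfixF : ∀ x : L, algebraMap L Ω x ∈ A.fix := fun x τ =>
    (s.s ((eqv K B).autCongr τ)).commutes x
  refine ⟨W.comap (algebraMap L Ω), ⟨?_, ?_, ?_, W, rfl, fun g x => ⟨fun h => ?_, hst g x⟩⟩, ?_⟩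
  · intro htop
    apply hn
    ext y
    refine ⟨fun _ => ValuationSubring.mem_top y, fun _ => eq_top_of_alg (L := L) W (fun c => ?_) y⟩
    have : c ∈ W.comap (algebraMap L Ω) := by
      rw [htop]
      exact ValuationSubring.mem_top c
    exact this
  · intro c
    rw [ValuationSubring.mem_comap, ← IsScalarTower.algebraMap_apply]
    exact hW c
  · intro a ha
    obtain ⟨c, hc⟩ := value_of_stable (A := A) hW hn hAst hdim (hfixF a)
      (ValuationSubring.mem_comap.1 ha)
    refine ⟨c, val_comap W ?_⟩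
    rw [map_sub, ← IsScalarTower.algebraMap_apply]
    exact hc
  · have h3 := hst g⁻¹ _ h
    rwa [hinv] at h3
  · rintro O ⟨hO1, hO2, -, W', rfl, hW'⟩
    have hn' : W' ≠ ⊤ := by
      rintro rfl
      apply hO1
      ext y
      exact ⟨fun _ => ValuationSubring.mem_top y, fun _ => ValuationSubring.mem_top _⟩
    have e : W' = W := by
      refine uniq3 hfg hdim s ⊥ (fun c => ?_) hW hn' hn (fun g _ x hx => (hW' g x).2 hx)
        (fun g _ x hx => hst g x hx)
      have h1 := ValuationSubring.mem_comap.1 (hO2 c)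
      rwa [← IsScalarTower.algebraMap_apply] at h1
    rw [e]

/-- descent from a finite extension -/
theorem bsc_of_restr (hfg : (⊤ : IntermediateField ℚ K).FG)
    (hF : ∃ z : L, Transcendental K z ∧ Algebra.IsAlgebraic (IntermediateField.adjoin K {z}) L)
    (s : GalSection K L Ω B) {K' L' : Type} [Field K'] [Field L'] [Algebra K K']
    [FiniteDimensional K K'] [Algebra K' B]
    [IsScalarTower K K' B] [Algebra L' Ω] [Algebra K' Ω] [Algebra.IsAlgebraic K' B]
    [Algebra.IsAlgebraic L' Ω] [Algebra K' L'] [IsScalarTower K' L' Ω]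
    (hc : ∀ c : K', s.j (algebraMap K' B c) = algebraMap K' Ω c)
    (hf : ∀ (g : B ≃ₐ[K'] B) (z : L'),
      s.s (g.restrictScalars K) (algebraMap L' Ω z) = algebraMap L' Ω z)
    {O : ValuationSubring L'} (hO : (restr s hc hf).ArisesFrom O) :
    ∃! O : ValuationSubring L, s.ArisesFrom O := by
  obtain ⟨hO1, hO2, -, W, rfl, hW⟩ := hO
  let E : IntermediateField K B := (IsScalarTower.toAlgHom K K' B).fieldRange
  haveI : FiniteDimensional K E :=
    (AlgEquiv.ofInjectiveField (IsScalarTower.toAlgHom K K' B)).toLinearEquiv.finiteDimensional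
  refine bsc_of_stable hfg hF s E (W := W) ?_ ?_ ?_
  · intro c
    have h1 := ValuationSubring.mem_comap.1 (hO2 (algebraMap K K' c))
    rw [← IsScalarTower.algebraMap_apply, ← hc, ← IsScalarTower.algebraMap_apply,
      s.j.commutes] at h1
    exact h1
  · rintro rfl
    apply hO1
    ext y
    exact ⟨fun _ => ValuationSubring.mem_top y, fun _ => ValuationSubring.mem_top _⟩
  · intro g hg x hx
    let g' : B ≃ₐ[K'] B := AlgEquiv.ofRingEquiv (f := (g : B ≃+* B))
      (fun c => hg _ ⟨c, rfl⟩)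
    have h1 := (hW g' x).2 hx
    exact h1

end

end Pool.Agent.V7H43.BS
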