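import Pool.Agent.V7H43.BS.Tors

/-!
# Twisted fixed points are divisible up to a point of order dividing six
-/

set_option autoImplicit false
set_option linter.all false

open WeierstrassCurve

namespace Pool.Agent.V7H43.BS

open Pool.Agent.TH954 Pool.Agent.TH942 Pool.Agent.Y157.PS Pool.Agent.Y157.GT
  Pool.Agent.Y474.GT

variable {k K κ₀ : Type} [Field k] [CharZero k] [Field K] [CharZero K] [Algebra k K] [Field κ₀]
  [Algebra k κ₀] [IsAlgClosure k κ₀] [Algebra κ₀ (AlgebraicClosure K)]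
  [IsScalarTower k κ₀ (AlgebraicClosure K)] {a b : k}
  {M : Type} [Field M] [CharZero M] [Algebra K M] [IsAlgClosed M] {A : SAct K M}

lemma disc_up (hD : 4 * a ^ 3 + 27 * b ^ 2 ≠ 0) :
    4 * (algebraMap k K a) ^ 3 + 27 * (algebraMap k K b) ^ 2 ≠ 0 := by
  intro h0
  apply hD
  apply (algebraMap k K).injective
  rw [map_zero, ← h0]
  simp only [map_add, map_mul, map_pow, map_ofNat]

open scoped Classical in
/-- automorphisms over `κ₀` fix the torsion points -/
lemma tors_ptfix (hD : 4 * a ^ 3 + 27 * b ^ 2 ≠ 0) (m : ℕ) (hm : 0 < m)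
    (T : ((sw (algebraMap k K a) (algebraMap k K b)).baseChange M).toAffine.Point)
    (hT : m • T = 0) (h : AlgebraicClosure K ≃ₐ[K] AlgebraicClosure K)
    (hh : ∀ c : κ₀, h (algebraMap κ₀ (AlgebraicClosure K) c) = algebraMap κ₀ _ c) :
    A.pt (algebraMap k K a) (algebraMap k K b) h T = T := by
  obtain ⟨T0, rfl⟩ := torsion_mem (disc_up (K := K) hD) A.j m hm T hT
  rw [A.pt_j, tors_fix (κ₀ := κ₀) hD hm T0 _ h hh]
  apply pm_injective (E := sw (algebraMap k K a) (algebraMap k K b)) A.j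
  rw [map_nsmul, hT, map_zero]

open scoped Classical in
/-- a part of a twisted fixed point is fixed by the automorphisms over `κ₀(ρ)` -/
theorem inH_fix (hfg : (⊤ : IntermediateField ℚ k).FG)
    (hD : 4 * a ^ 3 + 27 * b ^ 2 ≠ 0) {ρ : AlgebraicClosure K} (hρ : Transcendental κ₀ ρ)
    (hal : Algebra.IsAlgebraic (IntermediateField.adjoin κ₀ {ρ}) (AlgebraicClosure K))
    (hK : ∀ c : K, algebraMap K (AlgebraicClosure K) c ∈ IntermediateField.adjoin k {ρ})
    (hρ0 : ρ ≠ 0) (hμ : TwOK A (algebraMap k K a) (algebraMap k K b) ρ)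
    (P : ((sw (algebraMap k K a) (algebraMap k K b)).baseChange M).toAffine.Point)
    (hP : ∀ g, tw A (algebraMap k K a) (algebraMap k K b) ρ g P = P) {m : ℕ} (hm : 0 < m)
    (R : ((sw (algebraMap k K a) (algebraMap k K b)).baseChange M).toAffine.Point)
    (hR : m • R = P) (h : AlgebraicClosure K ≃ₐ[K] AlgebraicClosure K) (hh : InH κ₀ ρ h) :
    tw A (algebraMap k K a) (algebraMap k K b) ρ h R = R := by
  have i1 : IsAlgClosed κ₀ := IsAlgClosure.isAlgClosed k
  have i2 : Algebra.IsAlgebraic k κ₀ := IsAlgClosure.isAlgebraic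
  have hDK := disc_up (K := K) hD
  have htm : ∀ m : ℕ, 0 < m →
      ∀ T : ((sw (algebraMap k K a) (algebraMap k K b)).baseChange M).toAffine.Point,
      m • T = 0 → ∃ T0, pm (sw (algebraMap k K a) (algebraMap k K b)) A.j T0 = T :=
    fun m hm T hT => torsion_mem hDK A.j m hm T hT
  have htw : ∀ g, m • (tw A (algebraMap k K a) (algebraMap k K b) ρ g R - R) = 0 := by
    intro g
    rw [smul_sub, ← tw_nsmul, hR, hP, sub_self]
  choose ξ hξ using fun g => htm _ hm _ (htw g)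
  have hξm : ∀ σ, m • ξ σ = 0 := by
    intro σ
    apply pm_injective (E := sw (algebraMap k K a) (algebraMap k K b)) A.j
    rw [map_nsmul, hξ, htw, map_zero]
  have hzero : ∀ g, ξ g = 0 ↔ tw A (algebraMap k K a) (algebraMap k K b) ρ g R = R := by
    intro g
    constructor
    · intro h
      have h1 := hξ g
      rw [h, map_zero] at h1
      exact (sub_eq_zero.1 h1.symm)
    · intro h
      apply pm_injective (E := sw (algebraMap k K a) (algebraMap k K b)) A.j
      rw [hξ, h, sub_self, map_zero]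
  rw [← hzero]
  refine tw_kum (k := k) hfg ρ hρ hal hK ξ ?_ ?_ ?_ ?_ (m := m) hm hξm h hh
  · intro g g' hg hg'
    apply pm_injective (E := sw (algebraMap k K a) (algebraMap k K b)) A.j
    rw [map_add, hξ, hξ, hξ, tw_mul hρ0 hμ]
    have h1 : tw A (algebraMap k K a) (algebraMap k K b) ρ g' R =
        R + pm (sw (algebraMap k K a) (algebraMap k K b)) A.j (ξ g') := by
      rw [hξ]
      abel
    have h2 : tw A (algebraMap k K a) (algebraMap k K b) ρ g
        (pm (sw (algebraMap k K a) (algebraMap k K b)) A.j (ξ g')) =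
        pm (sw (algebraMap k K a) (algebraMap k K b)) A.j (ξ g') := by
      rw [tw_pos hρ0 hμ hg.2]
      refine tors_ptfix (κ₀ := κ₀) hD m hm _ ?_ g hg.1
      rw [← map_nsmul, hξm, map_zero]
    rw [h1, map_add, h2, hξ]
    abel
  · obtain ⟨E, hE, h⟩ := A.pt_cont (a := algebraMap k K a) (b := algebraMap k K b) R
    refine ⟨E ⊔ IntermediateField.adjoin K {ρ}, ?_, fun g hg => ?_⟩
    · have : FiniteDimensional K (IntermediateField.adjoin K {ρ}) :=
        IntermediateField.adjoin.finiteDimensional (Algebra.IsIntegral.isIntegral ρ)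
      infer_instance
    · rw [hzero, tw_pos hρ0 hμ (hg ρ ((le_sup_right : _ ≤ E ⊔ IntermediateField.adjoin K {ρ})
        (IntermediateField.mem_adjoin_simple_self K ρ)))]
      exact h g (fun z hz => hg z ((le_sup_left : E ≤ E ⊔ IntermediateField.adjoin K {ρ}) hz))
  · refine locZ hDK hρ0 hμ (algebraMap k κ₀ a) (algebraMap k κ₀ b) ?_ ?_ R hm ξ hξ hξm ?_
    · rw [← IsScalarTower.algebraMap_apply, ← IsScalarTower.algebraMap_apply]
    · rw [← IsScalarTower.algebraMap_apply, ← IsScalarTower.algebraMap_apply]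
    · intro T hT x y h hTe
      exact (tors_coord (κ₀ := κ₀) hD hm T hT x y h hTe).1
  · intro g g' hg hg'
    rw [hzero] at hg hg' ⊢
    rw [tw_mul hρ0 hμ, hg', hg]

open scoped Classical in
/-- a twisted fixed point is `n` times a twisted fixed point, up to a point of order dividing six -/
theorem exists_div (hfg : (⊤ : IntermediateField ℚ k).FG)
    (hD : 4 * a ^ 3 + 27 * b ^ 2 ≠ 0) {ρ : AlgebraicClosure K} (hρ : Transcendental κ₀ ρ)
    (hal : Algebra.IsAlgebraic (IntermediateField.adjoin κ₀ {ρ}) (AlgebraicClosure K))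
    (hK : ∀ c : K, algebraMap K (AlgebraicClosure K) c ∈ IntermediateField.adjoin k {ρ})
    (hρ0 : ρ ≠ 0) (hμ : TwOK A (algebraMap k K a) (algebraMap k K b) ρ)
    (hχ : ∀ τ : AlgebraicClosure K ≃ₐ[K] AlgebraicClosure K, ∃ c : κ₀,
      τ ρ = algebraMap κ₀ (AlgebraicClosure K) c * ρ)
    (g₀ : AlgebraicClosure K ≃ₐ[K] AlgebraicClosure K)
    (hg₀ : ∀ c : κ₀, g₀ (algebraMap κ₀ (AlgebraicClosure K) c) = algebraMap κ₀ _ c)
    {ζ : κ₀} (hζ : ζ ≠ 1) (hg₀ρ : g₀ ρ = algebraMap κ₀ (AlgebraicClosure K) ζ * ρ)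
    (P : ((sw (algebraMap k K a) (algebraMap k K b)).baseChange M).toAffine.Point)
    (hP : ∀ g, tw A (algebraMap k K a) (algebraMap k K b) ρ g P = P) {n : ℕ} (hn : 0 < n) :
    ∃ Q, (∀ g, tw A (algebraMap k K a) (algebraMap k K b) ρ g Q = Q) ∧
      ∃ D : ((sw (algebraMap k K a) (algebraMap k K b)).baseChange M).toAffine.Point,
        6 • D = 0 ∧ n • Q = P + D := by
  have i1 : IsAlgClosed κ₀ := IsAlgClosure.isAlgClosed k
  have i2 : Algebra.IsAlgebraic k κ₀ := IsAlgClosure.isAlgebraic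
  have hDK := disc_up (K := K) hD
  have h2n : 1 ≤ 6 * n := by omega
  obtain ⟨R, hR⟩ := exists_nsmul_base hDK M h2n P
  have hHR := inH_fix (κ₀ := κ₀) (A := A) hfg hD hρ hal hK hρ0 hμ P hP h2n R hR
  refine exists_twfixed (κ₀ := κ₀) hρ0 hμ P R hn hR hP hHR
    (fun m hm T hT h hh => tors_ptfix (κ₀ := κ₀) hD m hm T hT h hh)
    (fun m hm T => exists_nsmul_base hDK M hm T) g₀ hg₀ hζ hg₀ρ hχ (fun g c => ?_)
  obtain ⟨c', hc'⟩ := map_bot (k₁ := k) (κ₀ := κ₀)
    (g : AlgebraicClosure K ≃+* AlgebraicClosure K) (fun a => by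
      show g (algebraMap k (AlgebraicClosure K) a) = algebraMap k (AlgebraicClosure K) a
      rw [IsScalarTower.algebraMap_apply k K (AlgebraicClosure K), AlgEquiv.commutes]) c
  exact ⟨c', hc'⟩

open scoped Classical in
/-- one point of order dividing six for all `n` -/
theorem exists_divisible (hfg : (⊤ : IntermediateField ℚ k).FG)
    (hD : 4 * a ^ 3 + 27 * b ^ 2 ≠ 0) {ρ : AlgebraicClosure K} (hρ : Transcendental κ₀ ρ)
    (hal : Algebra.IsAlgebraic (IntermediateField.adjoin κ₀ {ρ}) (AlgebraicClosure K))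
    (hK : ∀ c : K, algebraMap K (AlgebraicClosure K) c ∈ IntermediateField.adjoin k {ρ})
    (hρ0 : ρ ≠ 0) (hμ : TwOK A (algebraMap k K a) (algebraMap k K b) ρ)
    (hχ : ∀ τ : AlgebraicClosure K ≃ₐ[K] AlgebraicClosure K, ∃ c : κ₀,
      τ ρ = algebraMap κ₀ (AlgebraicClosure K) c * ρ)
    (g₀ : AlgebraicClosure K ≃ₐ[K] AlgebraicClosure K)
    (hg₀ : ∀ c : κ₀, g₀ (algebraMap κ₀ (AlgebraicClosure K) c) = algebraMap κ₀ _ c)
    {ζ : κ₀} (hζ : ζ ≠ 1) (hg₀ρ : g₀ ρ = algebraMap κ₀ (AlgebraicClosure K) ζ * ρ)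
    (P : ((sw (algebraMap k K a) (algebraMap k K b)).baseChange M).toAffine.Point)
    (hP : ∀ g, tw A (algebraMap k K a) (algebraMap k K b) ρ g P = P) :
    ∃ D : ((sw (algebraMap k K a) (algebraMap k K b)).baseChange M).toAffine.Point,
        6 • D = 0 ∧ ∀ N : ℕ, 0 < N →
          ∃ Q, (∀ g, tw A (algebraMap k K a) (algebraMap k K b) ρ g Q = Q) ∧ N • Q = P + D := by
  choose Q hQ D hD2 hQD using fun N : ℕ => exists_div (κ₀ := κ₀) (A := A) hfg hD hρ hal hK hρ0 hμ
    hχ g₀ hg₀ hζ hg₀ρ P hP (n := N.factorial) (Nat.factorial_pos N)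
  have hfin : {T : ((sw (algebraMap k K a) (algebraMap k K b)).baseChange M).toAffine.Point |
      6 • T = 0}.Finite := (card_base_lt (disc_up (K := K) hD) M (by norm_num : 1 ≤ 6)).1
  haveI := hfin.to_subtype
  obtain ⟨⟨D0, hD0⟩, hinf⟩ := Finite.exists_infinite_fiber
    (fun N : ℕ => (⟨D N, hD2 N⟩ : {T : ((sw (algebraMap k K a)
      (algebraMap k K b)).baseChange M).toAffine.Point | 6 • T = 0}))
  refine ⟨D0, hD0, fun N hN => ?_⟩
  obtain ⟨N', hN', hlt⟩ := (Set.infinite_coe_iff.1 hinf).exists_gt N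
  have hDN : D N' = D0 := congrArg Subtype.val hN'
  obtain ⟨c, hc⟩ := Nat.dvd_factorial hN hlt.le
  refine ⟨c • Q N', fun g => ?_, ?_⟩
  · rw [tw_nsmul, hQ]
  · rw [← mul_smul, ← hc, hQD, hDN]

end Pool.Agent.V7H43.BS
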