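import Pool.Agent.V7H43.BS.Main

/-!
# Divisible points give stable valuation rings
-/

set_option autoImplicit false
set_option linter.all false

open WeierstrassCurve

namespace Pool.Agent.V7H43.BS

open Pool.Agent.TH954 Pool.Agent.TH942 Pool.Agent.H901R3.MS

lemma twOK_of_fix {K M : Type} [Field K] [CharZero K] [Field M] [CharZero M] [Algebra K M]
    {A : SAct K M} {a b : K} (hD : 4 * a ^ 3 + 27 * b ^ 2 ≠ 0) {ρ : AlgebraicClosure K}
    (hρ0 : ρ ≠ 0) (hρ : ∀ τ : AlgebraicClosure K ≃ₐ[K] AlgebraicClosure K, τ ρ = ρ) :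
    TwOK A a b ρ := by
  intro τ
  have e : A.j (τ ρ / ρ) = 1 := by rw [hρ, div_self hρ0, map_one]
  refine ⟨algebraMap K M a, algebraMap K M b, base_eq _ _ _, disc_base hD, ?_, ?_, ?_⟩
  · rw [e]
    exact one_ne_zero
  · rw [e, one_pow, one_mul]
  · rw [e, one_pow, one_mul]

open scoped Classical in
theorem exists_W {K Ω : Type} [Field K] [CharZero K] [Field Ω] [Algebra K Ω] [CharZero Ω]
    [IsAlgClosed Ω] (hfgK : (⊤ : IntermediateField ℚ K).FG) {a b : K}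
    (hDK : 4 * a ^ 3 + 27 * b ^ 2 ≠ 0)
    (hdim : ∀ x : Ω, Transcendental K x → ∀ t : Ω, IsAlgebraic (Algebra.adjoin K {x}) t)
    (A : SAct K Ω) (X : ((sw a b).baseChange Ω).toAffine.Point) (hX0 : X ≠ 0)
    (hdiv : ∀ N : ℕ, 0 < N → ∃ Q, (∀ g, A.pt a b g Q = Q) ∧ N • Q = X) :
    ∃ W : ValuationSubring Ω, (∀ c : K, algebraMap K Ω c ∈ W) ∧ W ≠ ⊤ ∧
      ∀ τ x, x ∈ W → A.s τ x ∈ W := by
  have hρ0 : (1 : AlgebraicClosure K) ≠ 0 := one_ne_zero
  have hμ : TwOK A a b 1 := twOK_of_fix hDK hρ0 (fun τ => map_one τ)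
  have hdiv' : ∀ N : ℕ, 0 < N → ∃ Q, (∀ g, tw A a b 1 g Q = Q) ∧ N • Q = X := by
    intro N hN
    obtain ⟨Q, hQ, h⟩ := hdiv N hN
    exact ⟨Q, fun g => by rw [tw_pos hρ0 hμ (map_one g), hQ], h⟩
  obtain ⟨x1, y1, h1, hX1⟩ : ∃ x1 y1 h, X = .some x1 y1 h := by
    rcases hd : X with _ | ⟨x0, y0, h⟩
    · exact absurd hd hX0
    · exact ⟨x0, y0, h, rfl⟩
  set I := PlSet A 1 {a, b} with hI
  have hnot : ∀ W ∈ I, x1 ∉ W := by
    intro W hW
    exact notMem_of_div hDK hρ0 hμ (S := {a, b}) (by simp) (by simp) hW X hdiv' x1 y1 h1 hX1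
  have hob : Obs A I := obst hfgK A 1 _
  have hx10 : x1 ≠ 0 := by
    obtain ⟨l, n, -, hh⟩ := hob ∅ (fun _ _ h => absurd h (Finset.notMem_empty _))
      (fun _ h => absurd h (Finset.notMem_empty _))
    obtain ⟨W, hW, -⟩ := hh 1 one_ne_zero
    intro h0
    apply hnot W hW
    rw [h0]
    exact zero_mem _
  have hIc : ∀ W ∈ I, ∀ c : K, algebraMap K Ω c ∈ W := by
    rintro W ⟨L', iL, jL, v, iK, pl, rfl, -⟩ c
    exact pl.alg_mem c
  obtain ⟨W, hW1, hW2, hW3, hW4⟩ := exists_limit hIc hob (t := x1⁻¹) (inv_ne_zero hx10)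
    (fun W hW => by
      have := vl_inv_of_notMem (A := A) (hnot W hW)
      unfold Vl at this
      rwa [map_zero, sub_zero] at this)
    (fun z hz => hdim z hz _)
  refine ⟨W, hW1, ?_, hW3⟩
  rintro rfl
  rcases (ValuationSubring.mem_nonunits_iff_or _).1 hW2 with h5 | h5
  · exact inv_ne_zero hx10 h5
  · exact h5 (ValuationSubring.mem_top _)

end Pool.Agent.V7H43.BS
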