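import Pool.Agent.V7H43.BS.Setup2

/-!
# The theorem on maps to superelliptic curves over `k` which are moved by an automorphism
-/

set_option autoImplicit false
set_option linter.all false

namespace Pool.Agent.V7H43.BS

open Pool.Agent.TH954 Pool.Agent.Y474.GT

section

variable {K L Ω B : Type} [Field K] [CharZero K] [Field L] [Field Ω] [Field B] [Algebra K L]
  [Algebra L Ω] [Algebra K Ω] [Algebra K B] [IsScalarTower K L Ω] [IsAlgClosure L Ω]
  [IsAlgClosure K B]

theorem emb (s : GalSection K L Ω B) {K' L' : Type} [Field K'] [Field L'] [Algebra K K']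
    [FiniteDimensional K K'] [Algebra K' L'] [Algebra L L'] [Algebra K L'] [IsScalarTower K K' L']
    [IsScalarTower K L L'] (hadj : IntermediateField.adjoin L (Set.range (algebraMap K' L')) = ⊤) :
    ∃ (φ : L' →ₐ[L] Ω) (ψ : K' →ₐ[K] B), ∀ c, s.j (ψ c) = φ (algebraMap K' L' c) := by
  classical
  have hΩ1 : IsAlgClosed Ω := IsAlgClosure.isAlgClosed L
  have hΩ2 : Algebra.IsAlgebraic L Ω := IsAlgClosure.isAlgebraic
  have hcL : CharZero L := charZero_of_injective_algebraMap (algebraMap K L).injective
  have hcΩ : CharZero Ω := charZero_of_injective_algebraMap (algebraMap L Ω).injective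
  have hKint : ∀ c : K', IsAlgebraic K (algebraMap K' L' c) := fun c =>
    (Algebra.IsAlgebraic.isAlgebraic (R := K) c).algebraMap
  haveI : Algebra.IsAlgebraic L L' := by
    have h1 : Algebra.IsAlgebraic L
        (IntermediateField.adjoin L (Set.range (algebraMap K' L'))) := by
      refine IntermediateField.isAlgebraic_adjoin ?_
      rintro _ ⟨c, rfl⟩
      exact ((hKint c).extendScalars (algebraMap K L).injective).isIntegral
    refine ⟨fun z => ?_⟩
    have h2 : z ∈ IntermediateField.adjoin L (Set.range (algebraMap K' L')) := by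
      rw [hadj]
      exact IntermediateField.mem_top
    have h3 := h1.isAlgebraic (⟨z, h2⟩ : IntermediateField.adjoin L (Set.range (algebraMap K' L')))
    exact h3.algHom (IntermediateField.adjoin L (Set.range (algebraMap K' L'))).val
  let φ : L' →ₐ[L] Ω := IsAlgClosed.lift
  have hex : ∀ c : K', ∃ b : B, s.j b = φ (algebraMap K' L' c) := by
    intro c
    have h1 : IsAlgebraic K (φ (algebraMap K' L' c)) := by
      have h2 : (φ.restrictScalars K) (algebraMap K' L' c) = φ (algebraMap K' L' c) := rfl
      rw [← h2]
      exact (hKint c).algHom (φ.restrictScalars K)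
    obtain ⟨z, hz⟩ := alg_range (toSAct s (F := L)).j h1
    exact ⟨eqv K B z, hz⟩
  choose g hg using hex
  have hinj : Function.Injective s.j := s.j.toRingHom.injective
  let ψ : K' →ₐ[K] B :=
    { toFun := g
      map_one' := by
        apply hinj
        rw [hg, map_one, map_one, map_one]
      map_mul' := fun a b => by
        apply hinj
        rw [hg, map_mul, map_mul, map_mul, hg, hg]
      map_zero' := by
        apply hinj
        rw [hg, map_zero, map_zero, map_zero]
      map_add' := fun a b => by
        apply hinj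
        rw [hg, map_add, map_add, map_add, hg, hg]
      commutes' := fun r => by
        apply hinj
        change s.j (g (algebraMap K K' r)) = s.j (algebraMap K B r)
        rw [hg, s.j.commutes, ← IsScalarTower.algebraMap_apply,
          IsScalarTower.algebraMap_apply K L L', φ.commutes, ← IsScalarTower.algebraMap_apply] }
  exact ⟨φ, ψ, hg⟩

/-- **The theorem on maps which are moved by an automorphism.** -/
theorem ext_main (hfg : (⊤ : IntermediateField ℚ K).FG)
    (hF : ∃ z : L, Transcendental K z ∧ Algebra.IsAlgebraic (IntermediateField.adjoin K {z}) L)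
    {k K' L' : Type} [Field k] [CharZero k] [Field K'] [Field L'] [Algebra K K']
    [FiniteDimensional K K'] [Algebra K' L'] [Algebra L L'] [Algebra K L'] [IsScalarTower K K' L']
    [IsScalarTower K L L'] (hadj : IntermediateField.adjoin L (Set.range (algebraMap K' L')) = ⊤)
    [Algebra k K'] (hfgk : (⊤ : IntermediateField ℚ k).FG) {t : K'} (ht : Transcendental k t)
    (hgen : IntermediateField.adjoin k {t} = ⊤) (τ : L' ≃ₐ[L] L')
    (hτK : ∀ c : K', ∃ c' : K', τ (algebraMap K' L' c) = algebraMap K' L' c')
    (hτk : ∀ c : k, τ (algebraMap K' L' (algebraMap k K' c)) = algebraMap K' L' (algebraMap k K' c))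
    {q : ℕ} (hq : q.Prime) {f : Polynomial k} (hf : f.Separable) (hd : 2 ≤ f.natDegree)
    (hqd : q ≠ 2 ∨ f.natDegree ≠ 2) {x y : L'}
    (hxy : y ^ q = f.eval₂ ((algebraMap K' L').comp (algebraMap k K')) x)
    (hmv : τ x ≠ x ∨ τ y ≠ y) (s : GalSection K L Ω B) :
    ∃! O : ValuationSubring L, s.ArisesFrom O := by
  classical
  have hB1 : IsAlgClosed B := IsAlgClosure.isAlgClosed K
  have hB2 : Algebra.IsAlgebraic K B := IsAlgClosure.isAlgebraic
  have cB : CharZero B := charZero_of_injective_algebraMap (algebraMap K B).injective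
  obtain ⟨φ, ψ, hφψ⟩ := emb s hadj
  choose c' hc' using hτK
  letI ikB : Algebra k B := ((ψ : K' →+* B).comp (algebraMap k K')).toAlgebra
  have hkB : ∀ c : k, algebraMap k B c = ψ (algebraMap k K' c) := fun c => rfl
  haveI cκ : CharZero (algebraicClosure k B) := cz_alg
  haveI aκ : IsAlgClosed (algebraicClosure k B) := IsAlgClosure.isAlgClosed k
  haveI alκ : Algebra.IsAlgebraic k (algebraicClosure k B) := algebraicClosure.isAlgebraic k _
  let ψk : K' →ₐ[k] B := { toRingHom := (ψ : K' →+* B), commutes' := fun c => rfl }
  have hψk : ∀ z, ψk z = ψ z := fun z => rfl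
  have hρ : Transcendental k (ψ t) := by
    intro h
    exact ht ((isAlgebraic_algHom_iff ψk ψk.toRingHom.injective).1 h)
  have hKρ : ∀ c : K', ψ c ∈ IntermediateField.adjoin k {ψ t} := by
    intro c
    have h1 : IntermediateField.adjoin k {t} ≤
        (IntermediateField.adjoin k {ψ t}).comap ψk := by
      rw [IntermediateField.adjoin_simple_le_iff]
      exact IntermediateField.mem_adjoin_simple_self k (ψ t)
    rw [hgen] at h1
    exact h1 (IntermediateField.mem_top (x := c))
  obtain ⟨G, D⟩ := dat_of (K := K) (B := B) hfgk hρ (fun c => by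
    rw [← ψ.commutes]
    exact hKρ _)
  -- `κ(ρ)`
  have hsub : ∀ w ∈ IntermediateField.adjoin k {ψ t},
      w ∈ IntermediateField.adjoin (algebraicClosure k B) {ψ t} := by
    intro w hw
    let N : IntermediateField k B :=
      (IntermediateField.adjoin (algebraicClosure k B) {ψ t}).restrictScalars k
    have h2 : IntermediateField.adjoin k {ψ t} ≤ N := by
      rw [IntermediateField.adjoin_simple_le_iff]
      exact IntermediateField.mem_adjoin_simple_self (algebraicClosure k B) (ψ t)
    exact h2 hw
  -- the automorphism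
  have hinj : Function.Injective (algebraMap K' L') := (algebraMap K' L').injective
  let τK : K' →+* K' :=
    { toFun := c'
      map_one' := by
        apply hinj
        rw [← hc', map_one, map_one]
      map_mul' := fun a b => by
        apply hinj
        rw [← hc', map_mul, map_mul, map_mul, hc', hc']
      map_zero' := by
        apply hinj
        rw [← hc', map_zero, map_zero]
      map_add' := fun a b => by
        apply hinj
        rw [← hc', map_add, map_add, map_add, hc', hc'] }
  have hτKv : ∀ c, algebraMap K' L' (τK c) = τ (algebraMap K' L' c) := fun c => (hc' c).symm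
  have hτKk : ∀ c : k, τK (algebraMap k K' c) = algebraMap k K' c := by
    intro c
    apply hinj
    rw [hτKv, hτk]
  have hτKK : ∀ c : K, τK (algebraMap K K' c) = algebraMap K K' c := by
    intro c
    apply hinj
    rw [hτKv, ← IsScalarTower.algebraMap_apply, IsScalarTower.algebraMap_apply K L L', τ.commutes]
  let τKk : K' →ₐ[k] K' := { toRingHom := τK, commutes' := hτKk }
  have hd1 : Transcendental k (ψ (τK t)) := by
    intro h
    apply ht
    have h1 := (isAlgebraic_algHom_iff ψk ψk.toRingHom.injective).1 h
    exact (isAlgebraic_algHom_iff τKk τKk.toRingHom.injective).1 h1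
  have hd2 : Transcendental (algebraicClosure k B) (ψ (τK t)) := hd1.extendScalars _
  obtain ⟨J, hJ1, hJ2⟩ := liftJ D hd2
  have hJk : ∀ c : k, J (ψ (algebraMap k K' c)) = ψ (algebraMap k K' c) := by
    intro c
    have h1 := hJ1 (algebraMap k (algebraicClosure k B) c)
    rw [← IsScalarTower.algebraMap_apply] at h1
    exact h1
  have hJψ : ∀ c : K', J (ψ c) = ψ (τK c) := by
    let E : IntermediateField k K' :=
      ((J.comp (ψ : K' →+* B)).eqLocusField ((ψ : K' →+* B).comp τK)).toIntermediateField
        (fun r => by
          change J (ψ (algebraMap k K' r)) = ψ (τK (algebraMap k K' r))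
          rw [hJk, hτKk])
    have h1 : IntermediateField.adjoin k {t} ≤ E := by
      rw [IntermediateField.adjoin_simple_le_iff]
      exact hJ2
    rw [hgen] at h1
    exact fun c => h1 (IntermediateField.mem_top (x := c))
  obtain ⟨σ, hσJ⟩ := liftσ (K := K) (J := J) (fun c => by
    rw [← ψ.commutes, hJψ, hτKK])
  have hσψ : ∀ c : K', σ (ψ c) = ψ (τK c) := fun c => by rw [hσJ, hJψ]
  have hσκ : ∀ c : algebraicClosure k B, σ (algebraMap _ B c) = algebraMap _ B c := fun c => by
    rw [hσJ, hJ1]
  -- the action on `L'`
  have hact : ∀ (g : B ≃ₐ[K] B) (θ : L' →ₐ[L] L'),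
      (∀ c : K', ∃ c'' : K', θ (algebraMap K' L' c) = algebraMap K' L' c'' ∧
        g (ψ c) = ψ c'') → ∀ z : L', s.s g (φ z) = φ (θ z) := by
    intro g θ h z
    let E : IntermediateField L L' :=
      ((((s.s g : Ω ≃ₐ[L] Ω) : Ω →+* Ω).comp (φ : L' →+* Ω)).eqLocusField
        ((φ : L' →+* Ω).comp (θ : L' →+* L'))).toIntermediateField (fun r => by
          change s.s g (φ (algebraMap L L' r)) = φ (θ (algebraMap L L' r))
          rw [θ.commutes, φ.commutes, AlgEquiv.commutes])
    have h1 : IntermediateField.adjoin L (Set.range (algebraMap K' L')) ≤ E := by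
      rw [IntermediateField.adjoin_le_iff]
      rintro _ ⟨c, rfl⟩
      obtain ⟨c'', e1, e2⟩ := h c
      change s.s g (φ (algebraMap K' L' c)) = φ (θ (algebraMap K' L' c))
      rw [e1, ← hφψ, ← hφψ, s.sec, e2]
    rw [hadj] at h1
    exact h1 (IntermediateField.mem_top (x := z))
  have hσL : ∀ z : L', s.s σ (φ z) = φ (τ z) := hact σ (τ : L' →ₐ[L] L') fun c =>
    ⟨τK c, (hτKv c).symm, hσψ c⟩
  have hfixL : ∀ z : L', FxB s (algebraicClosure k B) (ψ t) (φ z) := by
    intro z g hg
    refine hact g (AlgHom.id L L') (fun c => ⟨c, rfl, ?_⟩) z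
    let E : IntermediateField k K' :=
      (((g : B →+* B).comp (ψ : K' →+* B)).eqLocusField (ψ : K' →+* B)).toIntermediateField
        (fun r => by
          change g (ψ (algebraMap k K' r)) = ψ (algebraMap k K' r)
          have h1 := hg.1 (algebraMap k (algebraicClosure k B) r)
          rw [← IsScalarTower.algebraMap_apply] at h1
          exact h1)
    have h1 : IntermediateField.adjoin k {t} ≤ E := by
      rw [IntermediateField.adjoin_simple_le_iff]
      exact hg.2
    rw [hgen] at h1
    exact h1 (IntermediateField.mem_top (x := c))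
  have hφinj : Function.Injective φ := φ.toRingHom.injective
  refine superB hfg hF s D hσκ (q := q) ?_ hq
    (f := f.map (algebraMap k (algebraicClosure k B))) hf.map ?_ ?_ (x := φ x) (y := φ y)
    (hfixL x) (hfixL y) ?_ ?_
  · rw [hσψ]
    exact hsub _ (hKρ _)
  · rw [Polynomial.natDegree_map]
    exact hd
  · rw [Polynomial.natDegree_map]
    exact hqd
  · rw [Polynomial.eval₂_map, ← map_pow, hxy]
    have h1 : (jc s (algebraicClosure k B)).comp (algebraMap k (algebraicClosure k B)) =
        (φ : L' →+* Ω).comp ((algebraMap K' L').comp (algebraMap k K')) := by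
      ext c
      change s.j (algebraMap (algebraicClosure k B) B (algebraMap k (algebraicClosure k B) c)) =
        φ (algebraMap K' L' (algebraMap k K' c))
      rw [← IsScalarTower.algebraMap_apply, ← hφψ]
      rfl
    rw [h1]
    exact Polynomial.hom_eval₂ f ((algebraMap K' L').comp (algebraMap k K')) (φ : L' →+* Ω) x
  · rw [hσL, hσL]
    exact hmv.imp (fun h h' => h (hφinj h')) (fun h h' => h (hφinj h'))

end

end Pool.Agent.V7H43.BS
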