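import Pool.Agent.V7H43.BS.KeyB

/-!
# Points of elliptic curves over `κ` which are moved by an automorphism over `κ`
-/

set_option autoImplicit false
set_option linter.all false

open WeierstrassCurve

namespace Pool.Agent.V7H43.BS

open Pool.Agent.TH954 Pool.Agent.TH942 Pool.Agent.H901R3.MS Pool.Agent.Y474.GT

section

variable {K L Ω B : Type} [Field K] [CharZero K] [Field L] [Field Ω] [Field B] [Algebra K L]
  [Algebra L Ω] [Algebra K Ω] [Algebra K B] [IsScalarTower K L Ω] [IsAlgClosure L Ω]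
  [IsAlgClosure K B] {κ : Type} [Field κ] [CharZero κ] [IsAlgClosed κ] [Algebra κ B]

/-- automorphisms which fix `G` map `κ` to itself -/
lemma maps_kappa {ρ : B} {G : Finset κ} (D : Dat K ρ G) {g : B ≃ₐ[K] B} {T : Finset κ}
    (hg : FixT T ρ g) (hGT : G ⊆ T) (c : κ) :
    ∃ c' : κ, g (algebraMap κ B c) = algebraMap κ B c' := by
  haveI := D.hG
  have cB : CharZero B := charZero_of_injective_algebraMap (algebraMap K B).injective
  refine map_bot (k₁ := IntermediateField.adjoin ℚ (G : Set κ)) (κ₀ := κ) (κ := B)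
    (g : B ≃+* B) (fun a => ?_) c
  let E : IntermediateField ℚ κ :=
    ((((g : B →+* B).comp (algebraMap κ B)).eqLocusField (algebraMap κ B))).toIntermediateField
      (fun r => by
        change g (algebraMap κ B (algebraMap ℚ κ r)) = algebraMap κ B (algebraMap ℚ κ r)
        rw [eq_ratCast, map_ratCast, map_ratCast])
  have h1 : IntermediateField.adjoin ℚ (G : Set κ) ≤ E := by
    rw [IntermediateField.adjoin_le_iff]
    exact fun c hc => hg.1 c (hGT hc)
  exact h1 a.2

open scoped Classical in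
/-- torsion points are constant -/
lemma tors_const (s : GalSection K L Ω B) {a b : κ} (hD : 4 * a ^ 3 + 27 * b ^ 2 ≠ 0)
    {N : ℕ} (hN : 0 < N) (T : (cK s a b).toAffine.Point) (hT : N • T = 0) {g : B ≃ₐ[K] B}
    (hg : ∀ c : κ, g (algebraMap κ B c) = algebraMap κ B c) :
    ra (cK s a b) (sg s g) T = T := by
  have hΩ1 : IsAlgClosed Ω := IsAlgClosure.isAlgClosed L
  have hcL : CharZero L := charZero_of_injective_algebraMap (algebraMap K L).injective
  have hcΩ : CharZero Ω := charZero_of_injective_algebraMap (algebraMap L Ω).injective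
  letI : Algebra κ Ω := ((s.j : B →+* Ω).comp (algebraMap κ B)).toAlgebra
  have hW : cK s a b = (sw a b).baseChange Ω := (base_eq a b Ω).symm
  have key : ∀ W, W = (sw a b).baseChange Ω → ∀ T : W.toAffine.Point, N • T = 0 →
      ra W (sg s g) T = T := by
    rintro _ rfl T hT
    obtain ⟨T0, rfl⟩ := torsion_mem hD (Algebra.ofId κ Ω) N hN T hT
    rcases T0 with _ | ⟨x, y, h⟩
    · rfl
    · obtain ⟨g1, e1⟩ := pm_some (E := sw a b) (Algebra.ofId κ Ω) h
      have h2 : sg s g (Algebra.ofId κ Ω x) = Algebra.ofId κ Ω x := sg_const s (hg x)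
      have h3 : sg s g (Algebra.ofId κ Ω y) = Algebra.ofId κ Ω y := sg_const s (hg y)
      have h4 : ((sw a b).baseChange Ω).toAffine.Nonsingular (sg s g (Algebra.ofId κ Ω x))
          (sg s g (Algebra.ofId κ Ω y)) := by
        rw [h2, h3]
        exact g1
      rw [e1, ra_some g1 h4, Affine.Point.some.injEq]
      exact ⟨h2, h3⟩
  exact key _ hW T hT

open scoped Classical in
theorem finB (hfg : (⊤ : IntermediateField ℚ K).FG)
    (hF : ∃ z : L, Transcendental K z ∧ Algebra.IsAlgebraic (IntermediateField.adjoin K {z}) L)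
    (s : GalSection K L Ω B) {ρ : B} {G : Finset κ} (D : Dat K ρ G)
    {a b : κ} (hD : 4 * a ^ 3 + 27 * b ^ 2 ≠ 0) {σ : B ≃ₐ[K] B}
    (hσ : ∀ c : κ, σ (algebraMap κ B c) = algebraMap κ B c)
    (hσρ : σ ρ ∈ IntermediateField.adjoin κ {ρ}) {P : (cK s a b).toAffine.Point}
    (hP : ∀ g, InB κ ρ g → ra (cK s a b) (sg s g) P = P)
    (hne : ra (cK s a b) (sg s σ) P ≠ P) : ∃! O : ValuationSubring L, s.ArisesFrom O := by
  have hΩ1 : IsAlgClosed Ω := IsAlgClosure.isAlgClosed L
  have hΩ2 : Algebra.IsAlgebraic L Ω := IsAlgClosure.isAlgebraic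
  have hB1 : IsAlgClosed B := IsAlgClosure.isAlgClosed K
  have hB2 : Algebra.IsAlgebraic K B := IsAlgClosure.isAlgebraic
  have hcL : CharZero L := charZero_of_injective_algebraMap (algebraMap K L).injective
  have hcΩ : CharZero Ω := charZero_of_injective_algebraMap (algebraMap L Ω).injective
  have hdim : ∀ x : Ω, Transcendental K x → ∀ t : Ω, IsAlgebraic (Algebra.adjoin K {x}) t :=
    fun z hz t => (alg_adjoin_of_dim hF z hz).isAlgebraic t
  obtain ⟨T0, hT0⟩ := open_pt s D hD P hP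
  obtain ⟨Tσ, hTσ⟩ := fin_of_mem hσρ
  set T := G ∪ T0 ∪ Tσ ∪ {a, b} with hTdef
  have hGT : G ⊆ T := fun c hc => by simp [hTdef, hc]
  obtain ⟨k₁, K₁, i1, i2, i3, i4, i5, i6, i7, i8, i9, i10, A, e, q1, q2, q3, q4, q5, q6, q7, q8,
    q9, q10, q11, q12⟩ := pkg s D.hρ D.hal D.hG D.hK hfg hdim T hGT
  obtain ⟨a', ha'⟩ := q7 a (by simp [hTdef])
  obtain ⟨b', hb'⟩ := q7 b (by simp [hTdef])
  have hconst : ∀ c : k₁, algebraMap K₁ Ω (algebraMap k₁ K₁ c) =
      s.j (algebraMap κ B (algebraMap k₁ κ c)) := by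
    intro c
    rw [← A.j.commutes, ← IsScalarTower.algebraMap_apply, IsScalarTower.algebraMap_apply k₁ κ
      (AlgebraicClosure K₁), q8, q6]
  have hD' : 4 * a' ^ 3 + 27 * b' ^ 2 ≠ 0 := by
    intro h0
    apply hD
    have h1 := congrArg (algebraMap k₁ κ) h0
    simp only [map_add, map_mul, map_pow, map_ofNat, map_zero, ha', hb'] at h1
    exact h1
  have hDc := disc_c s hD
  have hab : ∀ g, FixT T ρ g → sg s g (s.j (algebraMap κ B a)) = s.j (algebraMap κ B a) ∧
      sg s g (s.j (algebraMap κ B b)) = s.j (algebraMap κ B b) := fun g hg =>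
    ⟨sg_const s (hg.1 a (by simp [hTdef])), sg_const s (hg.1 b (by simp [hTdef]))⟩
  have hσab : sg s σ (s.j (algebraMap κ B a)) = s.j (algebraMap κ B a) ∧
      sg s σ (s.j (algebraMap κ B b)) = s.j (algebraMap κ B b) :=
    ⟨sg_const s (hσ a), sg_const s (hσ b)⟩
  set X := P - ra (cK s a b) (sg s σ) P with hX
  have hX0 : X ≠ 0 := fun h => hne (sub_eq_zero.1 h).symm
  -- compositions
  have hcomp : ∀ (g h : B ≃ₐ[K] B), (sg s g (s.j (algebraMap κ B a)) = s.j (algebraMap κ B a) ∧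
      sg s g (s.j (algebraMap κ B b)) = s.j (algebraMap κ B b)) →
      (sg s h (s.j (algebraMap κ B a)) = s.j (algebraMap κ B a) ∧
      sg s h (s.j (algebraMap κ B b)) = s.j (algebraMap κ B b)) →
      ∀ Q : (cK s a b).toAffine.Point, ra (cK s a b) (sg s g) (ra (cK s a b) (sg s h) Q) =
        ra (cK s a b) (sg s (g * h)) Q := by
    intro g h hg hh Q
    rw [ra_comp hDc hg.1 hg.2 hh.1 hh.2]
    congr 1
    ext x
    change s.s g (s.s h x) = s.s (g * h) x
    rw [map_mul]
    rfl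
  -- divisibility
  have hdiv : ∀ N : ℕ, 0 < N → ∃ Q : (cK s a b).toAffine.Point,
      (∀ g, FixT T ρ g → ra (cK s a b) (sg s g) Q = Q) ∧ N • Q = X := by
    intro N hN
    obtain ⟨R, hR⟩ := exists_nsmul_eq hDc (n := N) hN P
    refine ⟨R - ra (cK s a b) (sg s σ) R, fun g hg => ?_, ?_⟩
    · -- the conjugate of `g`
      have hg' : FixT T ρ (σ⁻¹ * g * σ) := by
        refine ⟨fun c hc => ?_, ?_⟩
        · change σ⁻¹ (g (σ _)) = _
          rw [hσ, hg.1 c hc, ← hσ c]
          change (σ⁻¹ * σ) _ = _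
          rw [inv_mul_cancel, hσ]
          rfl
        · change σ⁻¹ (g (σ ρ)) = ρ
          have h1 : g (σ ρ) = σ ρ := hTσ (g : B →+* B)
            (fun c hc => hg.1 c (by simp [hTdef, hc])) hg.2
          rw [h1]
          change (σ⁻¹ * σ) ρ = ρ
          rw [inv_mul_cancel]
          rfl
      have hin : InB κ ρ (g⁻¹ * (σ⁻¹ * g * σ)) := by
        refine ⟨fun c => ?_, ?_⟩
        · obtain ⟨c', hc'⟩ := maps_kappa D hg hGT c
          change g⁻¹ (σ⁻¹ (g (σ _))) = _
          rw [hσ, hc']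
          have h1 : σ⁻¹ (algebraMap κ B c') = algebraMap κ B c' := by
            conv_lhs => rw [← hσ c']
            change (σ⁻¹ * σ) _ = _
            rw [inv_mul_cancel]
            rfl
          rw [h1, ← hc']
          change (g⁻¹ * g) _ = _
          rw [inv_mul_cancel]
          rfl
        · change g⁻¹ ((σ⁻¹ * g * σ) ρ) = ρ
          rw [hg'.2]
          conv_lhs => rw [← hg.2]
          change (g⁻¹ * g) ρ = ρ
          rw [inv_mul_cancel]
          rfl
      have hRh := keyE s D hfg hdim hD hN hR hP _ hin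
      have hinT : FixT T ρ (g⁻¹ * (σ⁻¹ * g * σ)) := hin.fix T
      have h1 : ra (cK s a b) (sg s (σ⁻¹ * g * σ)) R = ra (cK s a b) (sg s g) R := by
        have e1 : σ⁻¹ * g * σ = g * (g⁻¹ * (σ⁻¹ * g * σ)) := by group
        rw [e1, ← hcomp g _ (hab g hg) (hab _ hinT), hRh]
      have h2 : ra (cK s a b) (sg s g) (ra (cK s a b) (sg s σ) R) =
          ra (cK s a b) (sg s σ) (ra (cK s a b) (sg s g) R) := by
        rw [hcomp g σ (hab g hg) hσab, ← h1, hcomp σ _ hσab (hab _ hg')]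
        congr 2
        group
      set E := ra (cK s a b) (sg s g) R - R with hE
      have hET : N • E = 0 := by
        rw [hE, smul_sub, ← ra_nsmul (hab g hg).1 (hab g hg).2, hR,
          hT0 g (hg.mono fun c hc => by simp [hTdef, hc]), sub_self]
      have hEσ : ra (cK s a b) (sg s σ) E = E := tors_const s hD hN E hET hσ
      have hgR : ra (cK s a b) (sg s g) R = R + E := by rw [hE]; abel
      rw [ra_sub (hab g hg).1 (hab g hg).2, h2, hgR, ra_add hσab.1 hσab.2, hEσ]
      abel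
    · rw [smul_sub, ← ra_nsmul hσab.1 hσab.2, hR, hX]
  have hWeq : cK s a b = (sw (algebraMap k₁ K₁ a') (algebraMap k₁ K₁ b')).baseChange Ω := by
    rw [base_eq, hconst, hconst, ha', hb']
  obtain ⟨W, hW1, hW2, hW3⟩ : ∃ W : ValuationSubring Ω, (∀ c : K₁, algebraMap K₁ Ω c ∈ W) ∧
      W ≠ ⊤ ∧ ∀ τ x, x ∈ W → A.s τ x ∈ W := by
    have key : ∀ W, W = (sw (algebraMap k₁ K₁ a') (algebraMap k₁ K₁ b')).baseChange Ω →
        ∀ X : W.toAffine.Point, X ≠ 0 → (∀ N : ℕ, 0 < N → ∃ Q : W.toAffine.Point,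
          (∀ g, FixT T ρ g → ra W (sg s g) Q = Q) ∧ N • Q = X) →
        ∃ W : ValuationSubring Ω, (∀ c : K₁, algebraMap K₁ Ω c ∈ W) ∧
          W ≠ ⊤ ∧ ∀ τ x, x ∈ W → A.s τ x ∈ W := by
      rintro _ rfl X hX0 hdiv
      refine exists_W q2 (disc_up hD') q11 A X hX0 (fun N hN => ?_)
      obtain ⟨Q, hQ, hQX⟩ := hdiv N hN
      refine ⟨Q, fun τ => ?_, hQX⟩
      obtain ⟨g, hg1, -, hg3⟩ := q9 τ
      have h1 : A.pt (algebraMap k₁ K₁ a') (algebraMap k₁ K₁ b') τ Q =
          ra _ (((A.s τ : Ω ≃ₐ[K₁] Ω) : Ω →ₐ[K₁] Ω) : Ω →+* Ω) Q := (ra_eq_pm _ _ Q).symm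
      have h2 : (((A.s τ : Ω ≃ₐ[K₁] Ω) : Ω →ₐ[K₁] Ω) : Ω →+* Ω) = sg s g :=
        RingHom.ext fun x => hg3 x
      rw [h1, h2]
      exact hQ g hg1
    exact key _ hWeq X hX0 hdiv
  let E : IntermediateField K B :=
    IntermediateField.adjoin K ((algebraMap κ B) '' (T : Set κ) ∪ {ρ})
  have hfin : ((algebraMap κ B) '' (T : Set κ) ∪ {ρ}).Finite :=
    ((T.finite_toSet.image _).union (Set.finite_singleton _))
  haveI hfd : FiniteDimensional K E := by
    haveI := hfin.to_subtype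
    exact IntermediateField.finiteDimensional_adjoin fun x _ => Algebra.IsIntegral.isIntegral x
  refine bsc_of_stable hfg hF s E (W := W) (fun c => ?_) hW2 (fun g hg x hx => ?_)
  · obtain ⟨c', hc'⟩ := q12 c
    rw [← hc']
    exact hW1 c'
  · obtain ⟨τ, -, hτ⟩ := q10 g ⟨fun c hc => hg _ (IntermediateField.subset_adjoin _ _
      (Or.inl ⟨c, hc, rfl⟩)), hg _ (IntermediateField.subset_adjoin _ _ (Or.inr rfl))⟩
    rw [← hτ]
    exact hW3 τ x hx

end

end Pool.Agent.V7H43.BS
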