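import Pool.Agent.V7H43.BS.Cor

/-!
# The generic superelliptic curve
-/

set_option autoImplicit false
set_option linter.all false

namespace Pool.Agent.V7H43.BS

open Pool.Agent.TH954 Pool.Agent.Y474.GT Polynomial

/-- separability of a polynomial whose constant coefficient is transcendental -/
lemma sep_gen {F E : Type} [Field F] [CharZero F] [Field E] [Algebra F E] (h : F[X])
    (hd : 1 ≤ h.natDegree) {b : E} (hb : Transcendental F b) :
    (h.map (algebraMap F E) + C b).Separable := by
  have hder : derivative (h.map (algebraMap F E) + C b) = (derivative h).map (algebraMap F E) := by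
    rw [derivative_add, derivative_C, add_zero, derivative_map]
  rw [Polynomial.Separable, hder]
  refine (Polynomial.isCoprime_iff_aeval_ne_zero_of_isAlgClosed E (AlgebraicClosure E) _ _).2 ?_
  intro r
  by_contra hcon
  push Not at hcon
  obtain ⟨h1, h2⟩ := hcon
  have h0 : derivative h ≠ 0 := by
    intro h0
    have := Polynomial.natDegree_eq_zero_of_derivative_eq_zero h0
    omega
  have h3 : IsAlgebraic F r := by
    refine ⟨derivative h, h0, ?_⟩
    rw [← h2, Polynomial.aeval_map_algebraMap]
  have h4 : IsAlgebraic F (aeval r h) := by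
    have h5 : Algebra.IsAlgebraic F (IntermediateField.adjoin F {r}) :=
      IntermediateField.isAlgebraic_adjoin_simple h3.isIntegral
    have h7 : aeval r h = (IntermediateField.adjoin F {r}).val
        (aeval ⟨r, IntermediateField.mem_adjoin_simple_self F r⟩ h) := by
      rw [← Polynomial.aeval_algHom_apply]
      rfl
    rw [h7]
    exact (h5.isAlgebraic _).algHom (IntermediateField.adjoin F {r}).val
  apply hb
  rw [← isAlgebraic_algebraMap_iff (algebraMap E (AlgebraicClosure E)).injective]
  rw [map_add, Polynomial.aeval_map_algebraMap, Polynomial.aeval_C] at h1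
  rw [eq_neg_of_add_eq_zero_right h1]
  exact h4.neg

/-- generators in the right number are independent -/
lemma indep_of_gen {k K : Type} [Field k] [Field K] [Algebra k K] {m : ℕ} {a b : Fin m → K}
    (ha : AlgebraicIndependent k a)
    (hb : IntermediateField.adjoin k (Set.range b) = ⊤) : AlgebraicIndependent k b := by
  have h1 : Algebra.IsAlgebraic (IntermediateField.adjoin k (Set.range b)) K := by
    refine ⟨fun x => ?_⟩
    have hx : x ∈ IntermediateField.adjoin k (Set.range b) := by
      rw [hb]
      exact IntermediateField.mem_top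
    exact isAlgebraic_algebraMap (⟨x, hx⟩ : IntermediateField.adjoin k (Set.range b))
  haveI := IntermediateField.isAlgebraic_adjoin_iff_top.1 h1
  have h2 : Cardinal.mk (Fin m) ≤ Algebra.trdeg k K := ha.cardinalMk_le_trdeg
  exact (Algebra.IsAlgebraic.isTranscendenceBasis_of_le_trdeg_of_finite k b h2).1

lemma trans_field {k K : Type} [Field k] [Field K] [Algebra k K] {m : ℕ} {b : Fin m → K}
    (hb : AlgebraicIndependent k b) {S : Set (Fin m)} {i : Fin m} (hi : i ∉ S) :
    Transcendental (IntermediateField.adjoin k (b '' S)) (b i) :=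
  IntermediateField.transcendental_adjoin_iff.2 (hb.transcendental_adjoin hi)

lemma fg_image {k K : Type} [Field k] [CharZero k] [Field K] [CharZero K] [Algebra k K]
    (hfg : (⊤ : IntermediateField ℚ k).FG) {S : Set K} (hS : S.Finite) :
    (⊤ : IntermediateField ℚ (IntermediateField.adjoin k S)).FG := by
  rw [IntermediateField.fg_top_iff] at hfg ⊢
  haveI := hfg
  haveI : IsScalarTower ℚ k (IntermediateField.adjoin k S) :=
    IsScalarTower.of_algebraMap_eq fun c => by simp
  haveI : Algebra.EssFiniteType k (IntermediateField.adjoin k S) := by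
    have h1 : (IntermediateField.adjoin k S).FG := IntermediateField.fg_adjoin_of_finite hS
    exact IntermediateField.essFiniteType_iff.2 h1
  exact Algebra.EssFiniteType.comp ℚ k (IntermediateField.adjoin k S)

section

variable {k K L Ω B : Type} [Field k] [CharZero k] [Field K] [CharZero K] [Algebra k K]
  [Field L] [Field Ω] [Field B] [Algebra K L]
  [Algebra L Ω] [Algebra K Ω] [Algebra K B] [IsScalarTower K L Ω] [IsAlgClosure L Ω]
  [IsAlgClosure K B]

/-- **The generic superelliptic curve** `y^n = a_d x^d + ... + a_0`. -/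
theorem gen_main (hfg : (⊤ : IntermediateField ℚ k).FG) {d : ℕ} {a : Fin (d + 1) → K}
    (ha : AlgebraicIndependent k a) (hgen : IntermediateField.adjoin k (Set.range a) = ⊤)
    (hF : ∃ z : L, Transcendental K z ∧ Algebra.IsAlgebraic (IntermediateField.adjoin K {z}) L)
    {n : ℕ} (hn : 2 ≤ n) (hd : 2 ≤ d) (hnd : n ≠ 2 ∨ d ≠ 2) {x y : L} (hy : y ≠ 0)
    (hxy : y ^ n = ∑ i : Fin (d + 1), algebraMap K L (a i) * x ^ (i : ℕ))
    (s : GalSection K L Ω B) : ∃! O : ValuationSubring L, s.ArisesFrom O := by
  classical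
  obtain ⟨e, rfl⟩ : ∃ e, d = e + 1 := ⟨d - 1, by omega⟩
  obtain ⟨c, hc⟩ : ∃ c, c = a (Fin.last (e + 1)) := ⟨_, rfl⟩
  have hc0 : c ≠ 0 := by
    rw [hc]
    exact ha.ne_zero _
  -- the other generators
  obtain ⟨b, hb1, hb2⟩ : ∃ b : Fin (e + 1 + 1) → K, b (Fin.last (e + 1)) = c ∧
      ∀ i : Fin (e + 1), b i.castSucc = a i.castSucc / c :=
    ⟨Fin.snoc (α := fun _ => K) (fun i : Fin (e + 1) => a i.castSucc / c) c, by simp,
      fun i => by simp⟩
  have hbgen : IntermediateField.adjoin k (Set.range b) = ⊤ := by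
    rw [eq_top_iff, ← hgen, IntermediateField.adjoin_le_iff]
    rintro _ ⟨i, rfl⟩
    have hcm : c ∈ IntermediateField.adjoin k (Set.range b) :=
      IntermediateField.subset_adjoin k _ ⟨_, hb1⟩
    refine Fin.lastCases ?_ (fun i => ?_) i
    · rw [← hc]
      exact hcm
    · have h1 : a i.castSucc = b i.castSucc * c := by
        rw [hb2, div_mul_cancel₀ _ hc0]
      rw [SetLike.mem_coe, h1]
      exact mul_mem (IntermediateField.subset_adjoin k _ ⟨_, rfl⟩) hcm
  have hb := indep_of_gen ha hbgen
  obtain ⟨S1, hS1⟩ : ∃ S : Set (Fin (e + 1 + 1)), S = {Fin.last (e + 1)}ᶜ := ⟨_, rfl⟩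
  obtain ⟨S2, hS2⟩ : ∃ S : Set (Fin (e + 1 + 1)), S = {Fin.last (e + 1), 0}ᶜ := ⟨_, rfl⟩
  have hm1 : ∀ i : Fin (e + 1), b i.castSucc ∈ IntermediateField.adjoin k (b '' S1) := by
    intro i
    refine IntermediateField.subset_adjoin k _ ⟨_, ?_, rfl⟩
    rw [hS1]
    exact Fin.castSucc_ne_last i
  have hm2 : ∀ i : Fin e, b i.succ.castSucc ∈ IntermediateField.adjoin k (b '' S2) := by
    intro i
    refine IntermediateField.subset_adjoin k _ ⟨_, ?_, rfl⟩
    rw [hS2]
    rintro (h | h)
    · exact Fin.castSucc_ne_last _ h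
    · rw [Set.mem_singleton_iff, Fin.ext_iff] at h
      simp at h
  -- the polynomials
  obtain ⟨P, hP⟩ : ∃ P : K[X], P = X ^ (e + 1) + ∑ i : Fin (e + 1), C (b i.castSucc) *
    X ^ (i : ℕ) := ⟨_, rfl⟩
  have hPd : P.natDegree = e + 1 := by
    rw [hP]
    have h1 : (∑ i : Fin (e + 1), C (b i.castSucc) * X ^ (i : ℕ)).degree <
        (X ^ (e + 1) : K[X]).degree := by
      rw [Polynomial.degree_X_pow]
      exact Polynomial.degree_sum_fin_lt _
    rw [Polynomial.natDegree_add_eq_left_of_degree_lt h1, Polynomial.natDegree_X_pow]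
  have hl1 : P ∈ Polynomial.lifts (algebraMap (IntermediateField.adjoin k (b '' S1)) K) := by
    rw [hP]
    refine add_mem (pow_mem (Polynomial.X_mem_lifts _) _) (sum_mem fun i _ => ?_)
    exact mul_mem (Polynomial.C'_mem_lifts ⟨⟨_, hm1 i⟩, rfl⟩)
      (pow_mem (Polynomial.X_mem_lifts _) _)
  obtain ⟨f, hf⟩ := (Polynomial.mem_lifts P).1 hl1
  obtain ⟨Q, hQ⟩ : ∃ Q : K[X], Q = X ^ (e + 1) + ∑ i : Fin e, C (b i.succ.castSucc) *
    X ^ ((i : ℕ) + 1) := ⟨_, rfl⟩
  have hPQ : P = Q + C (b 0) := by
    rw [hP, hQ, Fin.sum_univ_succ]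
    simp only [Fin.castSucc_zero, Fin.val_zero, pow_zero, mul_one, Fin.val_succ]
    ring
  have hl2 : Q ∈ Polynomial.lifts (algebraMap (IntermediateField.adjoin k (b '' S2)) K) := by
    rw [hQ]
    refine add_mem (pow_mem (Polynomial.X_mem_lifts _) _) (sum_mem fun i _ => ?_)
    exact mul_mem (Polynomial.C'_mem_lifts ⟨⟨_, hm2 i⟩, rfl⟩)
      (pow_mem (Polynomial.X_mem_lifts _) _)
  obtain ⟨h, hh⟩ := (Polynomial.mem_lifts Q).1 hl2
  have hQd : Q.natDegree = e + 1 := by
    have h1 : Q = P - C (b 0) := by rw [hPQ, add_sub_cancel_right]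
    rw [h1, Polynomial.natDegree_sub_C, hPd]
  have hPsep : P.Separable := by
    rw [hPQ, ← hh]
    refine sep_gen h ?_ (trans_field hb ?_)
    · rw [← Polynomial.natDegree_map (algebraMap (IntermediateField.adjoin k (b '' S2)) K), hh,
        hQd]
      omega
    · rw [hS2]
      simp
  have hfsep : f.Separable := by
    rw [← Polynomial.separable_map (algebraMap (IntermediateField.adjoin k (b '' S1)) K), hf]
    exact hPsep
  have hfd : f.natDegree = e + 1 := by
    rw [← Polynomial.natDegree_map (algebraMap (IntermediateField.adjoin k (b '' S1)) K), hf, hPd]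
  have ht : Transcendental (IntermediateField.adjoin k (b '' S1)) c⁻¹ := by
    have h1 : Transcendental (IntermediateField.adjoin k (b '' S1)) (b (Fin.last (e + 1))) :=
      trans_field hb (by rw [hS1]; simp)
    intro h2
    apply h1
    rw [hb1, ← inv_inv c]
    exact h2.inv
  have hgen' : IntermediateField.adjoin (IntermediateField.adjoin k (b '' S1)) {c⁻¹} = ⊤ := by
    rw [eq_top_iff]
    intro z _
    have h1 : IntermediateField.adjoin k (Set.range b) ≤
        (IntermediateField.adjoin (IntermediateField.adjoin k (b '' S1)) {c⁻¹}).restrictScalars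
          k := by
      rw [IntermediateField.adjoin_le_iff]
      rintro _ ⟨i, rfl⟩
      rw [SetLike.mem_coe, IntermediateField.mem_restrictScalars]
      refine Fin.lastCases ?_ (fun i => ?_) i
      · have h3 := inv_mem (IntermediateField.mem_adjoin_simple_self
          (IntermediateField.adjoin k (b '' S1)) c⁻¹)
        rw [inv_inv] at h3
        rw [hb1]
        exact h3
      · exact IntermediateField.algebraMap_mem _
          (⟨_, hm1 i⟩ : IntermediateField.adjoin k (b '' S1))
    rw [hbgen] at h1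
    exact h1 (IntermediateField.mem_top (x := z))
  refine twist_main (k := IntermediateField.adjoin k (b '' S1)) (fg_image hfg (Set.toFinite _)) ht
    hgen' hF hn hfsep (by rw [hfd]; exact hd) (by rw [hfd]; exact hnd) (x := x) (y := y) hy ?_ s
  rw [hxy]
  have h1 : Polynomial.eval₂ ((algebraMap K L).comp
      (algebraMap (IntermediateField.adjoin k (b '' S1)) K)) x f =
      Polynomial.eval₂ (algebraMap K L) x P := by
    rw [← hf, Polynomial.eval₂_map]
  rw [h1, hP, Polynomial.eval₂_add, Polynomial.eval₂_X_pow, Polynomial.eval₂_finset_sum,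
    Fin.sum_univ_castSucc, mul_add, Finset.mul_sum, add_comm]
  have hcL : algebraMap K L c ≠ 0 := (_root_.map_ne_zero _).2 hc0
  congr 1
  · rw [← hc, Fin.val_last, map_inv₀, inv_mul_cancel_left₀ hcL]
  · refine Finset.sum_congr rfl fun i _ => ?_
    rw [Polynomial.eval₂_mul, Polynomial.eval₂_C, Polynomial.eval₂_X_pow, hb2, map_div₀, map_inv₀,
      Fin.val_castSucc]
    field_simp

end

end Pool.Agent.V7H43.BS
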