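import Pool.Agent.TH954.SGeo2

/-!
# Points of elliptic curves over local fields are not infinitely divisible
-/

set_option autoImplicit false
set_option linter.unusedSectionVars false

open WeierstrassCurve IsDedekindDomain NumberField

namespace Pool.Agent.V7H43.BS

open Pool.Agent.TH954 Pool.Agent.TH942

/-- finite nets in the unit ball -/
def Net (L : Type) [NormedField L] : Prop :=
  ∀ d : ℝ, 0 < d → ∃ R : Finset L, ∀ x : L, ‖x‖ ≤ 1 → ∃ r ∈ R, ‖x - r‖ < d

/-- completions of number fields -/
lemma net_completion {F : Type} [Field F] [NumberField F] (v : HeightOneSpectrum (𝓞 F)) :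
    Net (v.adicCompletion F) := by
  classical
  intro d hd
  have hd' : 0 < min d 1 := lt_min hd one_pos
  obtain ⟨G, hG, cl, hcl⟩ := finite_classes v hd'
  have := Fintype.ofFinite G
  let f : G → v.adicCompletion F := fun g =>
    if h : ∃ k : F, ‖algebraMap F (v.adicCompletion F) k‖ ≤ 1 ∧ cl k = g then
      algebraMap F (v.adicCompletion F) (Classical.choose h) else 0
  refine ⟨Finset.univ.image f, fun x hx => ?_⟩
  obtain ⟨k, hk⟩ := exists_approx v hd' x
  have hk1 : ‖algebraMap F (v.adicCompletion F) k‖ ≤ 1 := by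
    have e : algebraMap F (v.adicCompletion F) k =
        x - (x - algebraMap F (v.adicCompletion F) k) := by ring
    rw [e]
    exact usub hx (hk.le.trans (min_le_right _ _))
  have hex : ∃ k' : F, ‖algebraMap F (v.adicCompletion F) k'‖ ≤ 1 ∧ cl k' = cl k := ⟨k, hk1, rfl⟩
  refine ⟨f (cl k), Finset.mem_image_of_mem _ (Finset.mem_univ _), ?_⟩
  have hf : f (cl k) = algebraMap F (v.adicCompletion F) (Classical.choose hex) := by
    simp only [f]
    rw [dif_pos hex]
  obtain ⟨h1, h2⟩ := Classical.choose_spec hex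
  have h3 := hcl k _ hk1 h1 h2.symm
  have e : x - f (cl k) = (x - algebraMap F (v.adicCompletion F) k) +
      algebraMap F (v.adicCompletion F) (k - Classical.choose hex) := by
    rw [hf, map_sub]
    ring
  rw [e]
  exact uadd_lt (hk.trans_le (min_le_left _ _)) (h3.trans_le (min_le_left _ _))

variable {L : Type} [NormedField L] [IsUltrametricDist L]

variable {W : WeierstrassCurve L}

open scoped Classical in
/-- the points modulo a neighbourhood of the origin are a group of finite exponent -/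
theorem exists_expoL (hnet : Net L) (hW : SI W) (h2 : (2 : L) ≠ 0) (hD : 4 * W.a₄ ^ 3 + 27 * W.a₆ ^ 2 ≠ 0)
    {R : ℝ} (hR : 1 < R) : ∃ N : ℕ, 0 < N ∧ ∀ T : W.toAffine.Point, Big R (N • T) := by
  obtain ⟨d, hd0, hd1, hd⟩ := hW.exists_near h2 hD hR
  obtain ⟨F, hF⟩ := hnet d hd0
  set M : ℕ := Fintype.card (Fin 3 → F) with hM
  refine ⟨(M + 1).factorial, Nat.factorial_pos _, fun T => ?_⟩
  have happ : ∀ (m : ℕ) (j : Fin 3), ∃ k : F, ‖nc (m • T) j - k‖ < d := fun m j => by
    obtain ⟨r, hr, h⟩ := hF (nc (m • T) j) (nc_le_one hW _ j)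
    exact ⟨⟨r, hr⟩, h⟩
  choose k hk using happ
  obtain ⟨m, m', hne, he⟩ := Fintype.exists_ne_map_eq_of_card_lt
    (fun m : Fin (M + 1) => fun j : Fin 3 => k m j) (by rw [Fintype.card_fin]; omega)
  have hsmall : ∀ m m' : Fin (M + 1),
      (fun j : Fin 3 => k m j) = (fun j : Fin 3 => k m' j) →
      m' < m → Big R (((M + 1).factorial) • T) := by
    intro m m' he hlt
    have hlt' : (m' : ℕ) < m := hlt
    have h1 : ((m : ℕ) - m') • T = (m : ℕ) • T - (m' : ℕ) • T := by
      rw [sub_nsmul T hlt'.le, sub_eq_add_neg]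
    have h2' : Big R (((m : ℕ) - m') • T) := by
      rw [h1]
      apply hd
      intro j
      have e : nc ((m : ℕ) • T) j - nc ((m' : ℕ) • T) j =
          (nc ((m : ℕ) • T) j - (k m j : L)) - (nc ((m' : ℕ) • T) j - (k m' j : L)) := by
        have := congrFun he j
        change k m j = k m' j at this
        rw [this]
        ring
      rw [e]
      exact usub_lt (hk m j) (hk m' j)
    obtain ⟨c, hc⟩ : ((m : ℕ) - m') ∣ (M + 1).factorial :=
      Nat.dvd_factorial (by omega) (by have := m.2; omega)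
    rw [hc, mul_comm, mul_smul]
    exact hW.big_nsmul h2 hR h2' c
  rcases lt_or_gt_of_ne hne with h | h
  · exact hsmall m' m he.symm h
  · exact hsmall m m' he h

open scoped Classical in
/-- infinitely divisible points are zero -/
theorem no_divisible (hnet : Net L) (hW : SI W) (h2 : (2 : L) ≠ 0) (hD : 4 * W.a₄ ^ 3 + 27 * W.a₆ ^ 2 ≠ 0)
    (T : W.toAffine.Point) (hT : ∀ N : ℕ, 0 < N → ∃ Z, N • Z = T) : T = 0 := by
  apply big_all_zero
  intro R hR
  obtain ⟨N, hN, h⟩ := exists_expoL hnet hW h2 hD hR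
  obtain ⟨Z, rfl⟩ := hT N hN
  exact h Z

end Pool.Agent.V7H43.BS
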