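import Pool.Agent.V7H43.BS.Pkg

/-!
# Elements fixed by the Galois group of `κ(ρ)`
-/

set_option autoImplicit false
set_option linter.all false

namespace Pool.Agent.V7H43.BS

open Pool.Agent.TH954

lemma fin_of_mem {κ B : Type} [Field κ] [Field B] [Algebra κ B] {ρ z : B}
    (hz : z ∈ IntermediateField.adjoin κ {ρ}) : ∃ T : Finset κ, ∀ g : B →+* B,
      (∀ c ∈ T, g (algebraMap κ B c) = algebraMap κ B c) → g ρ = ρ → g z = z := by
  classical
  induction hz using IntermediateField.adjoin_induction with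
  | mem x hx =>
    rw [Set.mem_singleton_iff] at hx
    subst hx
    exact ⟨∅, fun g _ h => h⟩
  | algebraMap c => exact ⟨{c}, fun g h _ => h c (Finset.mem_singleton_self c)⟩
  | add x y _ _ hx hy =>
    obtain ⟨T, hT⟩ := hx
    obtain ⟨T', hT'⟩ := hy
    refine ⟨T ∪ T', fun g h h' => ?_⟩
    rw [map_add, hT g (fun c hc => h c (Finset.mem_union_left _ hc)) h',
      hT' g (fun c hc => h c (Finset.mem_union_right _ hc)) h']
  | inv x _ hx =>
    obtain ⟨T, hT⟩ := hx
    exact ⟨T, fun g h h' => by rw [map_inv₀, hT g h h']⟩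
  | mul x y _ _ hx hy =>
    obtain ⟨T, hT⟩ := hx
    obtain ⟨T', hT'⟩ := hy
    refine ⟨T ∪ T', fun g h h' => ?_⟩
    rw [map_mul, hT g (fun c hc => h c (Finset.mem_union_left _ hc)) h',
      hT' g (fun c hc => h c (Finset.mem_union_right _ hc)) h']

section

variable {K L Ω B : Type} [Field K] [CharZero K] [Field L] [Field Ω] [Field B] [Algebra K L]
  [Algebra L Ω] [Algebra K Ω] [Algebra K B] [IsScalarTower K L Ω] [IsAlgClosure L Ω]
  [IsAlgClosure K B] {κ : Type} [Field κ] [CharZero κ] [Algebra κ B]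

/-- `g` is in the Galois group of `κ(ρ)` -/
def InB (κ : Type) [Field κ] [Algebra κ B] (ρ : B) (g : B ≃ₐ[K] B) : Prop :=
  (∀ c : κ, g (algebraMap κ B c) = algebraMap κ B c) ∧ g ρ = ρ

theorem open_of_H (s : GalSection K L Ω B) {ρ : B}
    (hal : Algebra.IsAlgebraic (IntermediateField.adjoin κ {ρ}) B)
    (hK : ∀ c : K, algebraMap K B c ∈ IntermediateField.adjoin κ {ρ})
    {z : Ω} (hz : ∀ g : B ≃ₐ[K] B, InB κ ρ g → s.s g z = z) :
    ∃ T : Finset κ, ∀ g : B ≃ₐ[K] B, FixT T ρ g → s.s g z = z := by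
  classical
  have hΩ1 : IsAlgClosed Ω := IsAlgClosure.isAlgClosed L
  have hΩ2 : Algebra.IsAlgebraic L Ω := IsAlgClosure.isAlgebraic
  have hB1 : IsAlgClosed B := IsAlgClosure.isAlgClosed K
  have hB2 : Algebra.IsAlgebraic K B := IsAlgClosure.isAlgebraic
  obtain ⟨T₁, hT₁⟩ := fix_section s z
  haveI : FiniteDimensional K (IntermediateField.adjoin K (T₁ : Set B)) :=
    IntermediateField.finiteDimensional_adjoin fun x _ => Algebra.IsIntegral.isIntegral x
  obtain ⟨α, hα⟩ := Field.exists_primitive_element K (IntermediateField.adjoin K (T₁ : Set B))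
  set θ : B := (α : B) with hθ
  have hprim : ∀ g : B ≃ₐ[K] B, g θ = θ → s.s g z = z := by
    intro g hg
    apply hT₁
    intro w hw
    have h1 : (⟨w, IntermediateField.subset_adjoin K _ hw⟩ :
        IntermediateField.adjoin K (T₁ : Set B)) ∈ IntermediateField.adjoin K {α} := by
      rw [hα]
      exact IntermediateField.mem_top
    have h2 : IntermediateField.adjoin K {α} ≤
        ((((g : B →+* B).eqLocusField (RingHom.id B)).toIntermediateField
        (fun r => g.commutes r) : IntermediateField K B)).comap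
          (IntermediateField.adjoin K (T₁ : Set B)).val := by
      rw [IntermediateField.adjoin_simple_le_iff]
      exact hg
    exact h2 h1
  set M := IntermediateField.adjoin κ {ρ} with hM
  haveI : IsAlgClosure M B := ⟨hB1, hal⟩
  haveI : Normal M B := IsAlgClosure.normal M B
  have hθa : IsAlgebraic M θ := hal.isAlgebraic θ
  set p := minpoly M θ with hp
  choose T hT using fun i : ℕ => fin_of_mem (p.coeff i).2
  refine ⟨(Finset.range (p.natDegree + 1)).biUnion T, fun g hg => ?_⟩
  have hg' : ∀ i ∈ Finset.range (p.natDegree + 1), g (p.coeff i : B) = p.coeff i := fun i hi =>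
    hT i (g : B →+* B) (fun c hc => hg.1 c (Finset.mem_biUnion.2 ⟨i, hi, hc⟩)) hg.2
  have hroot : Polynomial.aeval (g θ) p = 0 := by
    have h1 : Polynomial.aeval θ p = 0 := minpoly.aeval M θ
    rw [Polynomial.aeval_eq_sum_range] at h1 ⊢
    have h2 := congrArg g h1
    rw [map_zero, map_sum] at h2
    rw [← h2]
    refine Finset.sum_congr rfl fun i hi => ?_
    rw [Algebra.smul_def, Algebra.smul_def, map_mul, map_pow]
    congr 1
    exact (hg' i hi).symm
  obtain ⟨h, hh⟩ := minpoly.exists_algEquiv_of_root' hθa hroot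
  have hhK : ∀ c : K, h (algebraMap K B c) = algebraMap K B c := fun c =>
    h.commutes (⟨_, hK c⟩ : M)
  let h' : B ≃ₐ[K] B := AlgEquiv.ofRingEquiv (f := (h : B ≃+* B)) hhK
  have hin : InB κ ρ h' := by
    refine ⟨fun c => ?_, ?_⟩
    · exact h.commutes (algebraMap κ M c)
    · exact h.commutes (⟨ρ, IntermediateField.mem_adjoin_simple_self κ ρ⟩ : M)
  have h1 : (h'⁻¹ * g) θ = θ := by
    change h'⁻¹ (g θ) = θ
    have h2 : h' θ = g θ := hh
    rw [← h2]
    change (h'⁻¹ * h') θ = θ
    rw [inv_mul_cancel]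
    rfl
  have h2 := hprim _ h1
  have h3 : s.s g z = s.s h' (s.s (h'⁻¹ * g) z) := by
    change _ = (s.s h' * s.s (h'⁻¹ * g)) z
    rw [← map_mul, mul_inv_cancel_left]
  rw [h3, h2, hz h' hin]

end

end Pool.Agent.V7H43.BS
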