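import Pool.Agent.V7H43.BS.Sup
import Pool.Agent.V7H43.BS.Div

/-!
# Kummer classes of the functions `x - e` on a superelliptic curve
-/

set_option autoImplicit false
set_option linter.all false

namespace Pool.Agent.V7H43.BS

open Pool.Agent.TH954 Pool.Agent.TH942 Pool.Agent.Y157.PS Pool.Agent.Y157.GT
  Pool.Agent.Y474.GT

/-- the composite of a place and a valuation ring -/
def cmp {K M C : Type} [Field K] [Field M] [Field C] [Algebra K M] [Algebra K C]
    (pl : Plc K M C) (VC : ValuationSubring C) : ValuationSubring M where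
  carrier := {z | ∃ h : z ∈ pl.W, pl.ρ ⟨z, h⟩ ∈ VC}
  mul_mem' := by
    rintro a b ⟨ha, ha'⟩ ⟨hb, hb'⟩
    refine ⟨mul_mem ha hb, ?_⟩
    have e : (⟨a * b, mul_mem ha hb⟩ : pl.W) = ⟨a, ha⟩ * ⟨b, hb⟩ := rfl
    rw [e, map_mul]
    exact mul_mem ha' hb'
  one_mem' := by
    refine ⟨one_mem _, ?_⟩
    have e : (⟨1, one_mem _⟩ : pl.W) = 1 := rfl
    rw [e, map_one]
    exact one_mem _
  add_mem' := by
    rintro a b ⟨ha, ha'⟩ ⟨hb, hb'⟩
    refine ⟨add_mem ha hb, ?_⟩
    have e : (⟨a + b, add_mem ha hb⟩ : pl.W) = ⟨a, ha⟩ + ⟨b, hb⟩ := rfl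
    rw [e, map_add]
    exact add_mem ha' hb'
  zero_mem' := by
    refine ⟨zero_mem _, ?_⟩
    have e : (⟨0, zero_mem _⟩ : pl.W) = 0 := rfl
    rw [e, map_zero]
    exact zero_mem _
  neg_mem' := by
    rintro a ⟨ha, ha'⟩
    refine ⟨neg_mem ha, ?_⟩
    have e : (⟨-a, neg_mem ha⟩ : pl.W) = -⟨a, ha⟩ := rfl
    rw [e, map_neg]
    exact neg_mem ha'
  mem_or_inv_mem' := by
    intro a
    by_cases ha : a ∈ pl.W
    · rcases VC.mem_or_inv_mem (pl.ρ ⟨a, ha⟩) with h | h
      · exact Or.inl ⟨ha, h⟩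
      · by_cases h0 : pl.ρ ⟨a, ha⟩ = 0
        · left
          refine ⟨ha, ?_⟩
          rw [h0]
          exact zero_mem _
        · right
          have h1 := pl.loc ⟨a, ha⟩ h0
          refine ⟨h1, ?_⟩
          have ha0 : a ≠ 0 := by
            rintro rfl
            apply h0
            have e : (⟨0, ha⟩ : pl.W) = 0 := rfl
            rw [e, map_zero]
          have h2 : pl.ρ ⟨a⁻¹, h1⟩ = (pl.ρ ⟨a, ha⟩)⁻¹ := by
            apply eq_inv_of_mul_eq_one_left
            rw [← map_mul]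
            have e : (⟨a⁻¹, h1⟩ : pl.W) * ⟨a, ha⟩ = 1 := Subtype.ext (inv_mul_cancel₀ ha0)
            rw [e, map_one]
          rw [h2]
          exact h
    · obtain ⟨h1, h2⟩ := pl.rho_inv ha
      exact Or.inr ⟨h1, by rw [h2]; exact zero_mem _⟩

section

variable {K M C : Type} [Field K] [Field M] [Field C] [Algebra K M] [Algebra K C]
  {pl : Plc K M C} {VC : ValuationSubring C}

lemma mem_cmp {z : M} : z ∈ cmp pl VC ↔ ∃ h : z ∈ pl.W, pl.ρ ⟨z, h⟩ ∈ VC := Iff.rfl

lemma cmp_lt {z : M} (h : z ∈ pl.W) (hz : VC.valuation (pl.ρ ⟨z, h⟩) < 1) :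
    (cmp pl VC).valuation z < 1 := by
  refine (ValuationSubring.mem_nonunits_iff_or _).2 ?_
  by_cases h0 : z = 0
  · exact Or.inl h0
  · right
    rintro ⟨h1, h2⟩
    have h3 : pl.ρ ⟨z⁻¹, h1⟩ * pl.ρ ⟨z, h⟩ = 1 := by
      rw [← map_mul]
      have e : (⟨z⁻¹, h1⟩ : pl.W) * ⟨z, h⟩ = 1 := Subtype.ext (inv_mul_cancel₀ h0)
      rw [e, map_one]
    have h4 := (VC.valuation_le_one_iff _).2 h2
    have h5 := congrArg VC.valuation h3
    rw [map_mul, map_one, mul_comm] at h5
    exact absurd h5 (ne_of_lt (mul_lt_one_of_lt_of_le hz h4))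

lemma cmp_unit {z : M} (h : z ∈ pl.W) (hz : IsU VC (pl.ρ ⟨z, h⟩)) :
    (cmp pl VC).valuation z = 1 := by
  obtain ⟨h0, h1, h2⟩ := hz
  have hz0 : z ≠ 0 := by
    rintro rfl
    apply h0
    have e : (⟨0, h⟩ : pl.W) = 0 := rfl
    rw [e, map_zero]
  have h3 := pl.loc ⟨z, h⟩ h0
  have h4 : pl.ρ ⟨z⁻¹, h3⟩ = (pl.ρ ⟨z, h⟩)⁻¹ := by
    apply eq_inv_of_mul_eq_one_left
    rw [← map_mul]
    have e : (⟨z⁻¹, h3⟩ : pl.W) * ⟨z, h⟩ = 1 := Subtype.ext (inv_mul_cancel₀ hz0)
    rw [e, map_one]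
  have h5 : (cmp pl VC).valuation z ≤ 1 := ((cmp pl VC).valuation_le_one_iff _).2 ⟨h, h1⟩
  have h6 : (cmp pl VC).valuation z⁻¹ ≤ 1 :=
    ((cmp pl VC).valuation_le_one_iff _).2 ⟨h3, by rw [h4]; exact h2⟩
  refine le_antisymm h5 ?_
  rw [map_inv₀] at h6
  exact (inv_le_one₀ (zero_lt_iff.2 ((Valuation.ne_zero_iff _).2 hz0))).1 h6

end

variable {k K κ₀ : Type} [Field k] [CharZero k] [Field K] [CharZero K] [Algebra k K] [Field κ₀]
  [Algebra k κ₀] [IsAlgClosure k κ₀] [Algebra κ₀ (AlgebraicClosure K)]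
  [IsScalarTower k κ₀ (AlgebraicClosure K)]
  {M : Type} [Field M] [CharZero M] [Algebra K M] [IsAlgClosed M] {A : SAct K M}

/-- **Kummer classes on superelliptic curves.** -/
theorem sup_kum (hfg : (⊤ : IntermediateField ℚ k).FG) {ρ : AlgebraicClosure K}
    (hρ : Transcendental κ₀ ρ)
    (hal : Algebra.IsAlgebraic (IntermediateField.adjoin κ₀ {ρ}) (AlgebraicClosure K))
    (hK : ∀ c : K, algebraMap K (AlgebraicClosure K) c ∈ IntermediateField.adjoin k {ρ})
    {n : ℕ} (hn : 0 < n) {d : ℕ} (hdn : Nat.Coprime d n) {c : k} (hc : c ≠ 0) {e : Fin d → k}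
    (he : Function.Injective e) {x y : M} (hx : x ∈ A.fix) (hy : y ∈ A.fix)
    (hxy : y ^ n = algebraMap K M (algebraMap k K c) *
      ∏ i, (x - algebraMap K M (algebraMap k K (e i)))) (i : Fin d) {w : M}
    (hw : w ^ n = x - algebraMap K M (algebraMap k K (e i)))
    (h : AlgebraicClosure K ≃ₐ[K] AlgebraicClosure K) (hh : InH κ₀ ρ h) : A.s h w = w := by
  classical
  have i1 : IsAlgClosed κ₀ := IsAlgClosure.isAlgClosed k
  have i2 : Algebra.IsAlgebraic k κ₀ := IsAlgClosure.isAlgebraic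
  have hck : ∀ a : k, A.j (algebraMap κ₀ (AlgebraicClosure K) (algebraMap k κ₀ a)) =
      algebraMap K M (algebraMap k K a) := by
    intro a
    rw [← IsScalarTower.algebraMap_apply, IsScalarTower.algebraMap_apply k K (AlgebraicClosure K),
      A.j.commutes]
  by_cases hxe : ∃ j, x = algebraMap K M (algebraMap k K (e j))
  · -- `w` is a constant
    obtain ⟨j, hj⟩ := hxe
    have h1 : w ^ n = A.j (algebraMap κ₀ (AlgebraicClosure K) (algebraMap k κ₀ (e j - e i))) := by
      rw [hw, hj, hck, map_sub, map_sub]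
    obtain ⟨z, hz⟩ := IsAlgClosed.exists_pow_nat_eq (algebraMap k κ₀ (e j - e i)) hn
    by_cases hw0 : w = 0
    · rw [hw0, map_zero]
    have hz0 : A.j (algebraMap κ₀ (AlgebraicClosure K) z) ≠ 0 := by
      intro h0
      rw [← hz, map_pow, map_pow, h0, zero_pow hn.ne'] at h1
      exact pow_ne_zero n hw0 h1
    have h2 : (w / A.j (algebraMap κ₀ (AlgebraicClosure K) z)) ^ n = 1 := by
      rw [div_pow, h1, ← hz, map_pow, map_pow, div_self (pow_ne_zero n hz0)]
    have h3 : IsAlgebraic K (w / A.j (algebraMap κ₀ (AlgebraicClosure K) z)) := by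
      refine IsAlgebraic.of_pow (n := n) hn ?_
      rw [h2]
      exact isAlgebraic_one
    obtain ⟨v, hv⟩ := alg_range A.j h3
    obtain ⟨v', hv'⟩ := mem_bot (κ₀ := κ₀) v (by
      refine IsAlgebraic.of_pow (n := n) hn ?_
      have h4' : A.j (v ^ n) = A.j 1 := by
        rw [map_pow, hv, h2, map_one]
      have h4 : v ^ n = 1 := A.j.injective h4'
      rw [h4]
      exact isAlgebraic_one)
    have h5 : w = A.j (algebraMap κ₀ (AlgebraicClosure K) (v' * z)) := by
      rw [map_mul, map_mul, hv', hv, div_mul_cancel₀ _ hz0]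
    rw [h5, A.hj, hh.1]
  push Not at hxe
  -- the roots
  choose w' hw' using fun j : Fin d =>
    IsAlgClosed.exists_pow_nat_eq (x - algebraMap K M (algebraMap k K (e j))) hn
  set W : Fin d → M := fun j => if j = i then w else w' j with hW
  have hWn : ∀ j, W j ^ n = x - algebraMap K M (algebraMap k K (e j)) := by
    intro j
    by_cases hji : j = i
    · subst hji
      simp only [hW, if_pos]
      exact hw
    · simp only [hW, if_neg hji]
      exact hw' j
  have hWi : W i = w := by simp only [hW, if_pos]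
  have hw0 : w ≠ 0 := by
    rintro rfl
    rw [zero_pow hn.ne'] at hw
    exact hxe i (sub_eq_zero.1 hw.symm)
  obtain ⟨c', hc'⟩ := IsAlgClosed.exists_pow_nat_eq (algebraMap K M (algebraMap k K c)) hn
  -- the cocycle
  have hfw : ∀ g, A.s g (w ^ n) = w ^ n := by
    intro g
    rw [hw, map_sub, hx g, AlgEquiv.commutes]
  have hex : ∀ g, ∃ u : κ₀ˣ, u ^ n = 1 ∧
      A.s g w = A.j (algebraMap κ₀ (AlgebraicClosure K) u) * w := by
    intro g
    have h1 : (A.s g w / w) ^ n = 1 := by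
      rw [div_pow, ← map_pow, hfw, div_self (pow_ne_zero n hw0)]
    have h3 : IsAlgebraic K (A.s g w / w) := by
      refine IsAlgebraic.of_pow (n := n) hn ?_
      rw [h1]
      exact isAlgebraic_one
    obtain ⟨v, hv⟩ := alg_range A.j h3
    have h4' : A.j (v ^ n) = A.j 1 := by
      rw [map_pow, hv, h1, map_one]
    have h4 : v ^ n = 1 := A.j.injective h4'
    obtain ⟨v', hv'⟩ := mem_bot (κ₀ := κ₀) v (by
      refine IsAlgebraic.of_pow (n := n) hn ?_
      rw [h4]
      exact isAlgebraic_one)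
    have h5 : v' ^ n = 1 := by
      apply (algebraMap κ₀ (AlgebraicClosure K)).injective
      rw [map_pow, hv', h4, map_one]
    refine ⟨Units.mk0 v' ?_, ?_, ?_⟩
    · rintro rfl
      rw [zero_pow hn.ne'] at h5
      exact zero_ne_one h5
    · ext
      simpa using h5
    · rw [Units.val_mk0, hv', hv, div_mul_cancel₀ _ hw0]
  choose u hun hu using hex
  have huniq : ∀ (a b : κ₀ˣ), A.j (algebraMap κ₀ (AlgebraicClosure K) a) * w =
      A.j (algebraMap κ₀ (AlgebraicClosure K) b) * w → a = b := by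
    intro a b hab
    have h1 := mul_right_cancel₀ hw0 hab
    exact Units.ext ((algebraMap κ₀ (AlgebraicClosure K)).injective (A.j.injective h1))
  have hone : ∀ g, u g = 1 ↔ A.s g w = w := by
    intro g
    constructor
    · intro h1
      rw [hu, h1, Units.val_one, map_one, map_one, one_mul]
    · intro h1
      apply huniq
      rw [← hu, h1, Units.val_one, map_one, map_one, one_mul]
  have key := tw_kum (k := k) hfg ρ hρ hal hK (fun g => Additive.ofMul (u g)) ?_ ?_ ?_ ?_ (m := n)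
    hn ?_ h hh
  · exact (hone h).1 (by simpa using key)
  · intro g g' hg hg'
    change Additive.ofMul (u (g * g')) = Additive.ofMul (u g * u g')
    congr 1
    apply huniq
    rw [← hu]
    have e1 : A.s (g * g') w = A.s g (A.s g' w) := by
      rw [map_mul]
      rfl
    rw [e1, hu g', map_mul, A.hj, hg.1, hu g, Units.val_mul, map_mul, map_mul]
    ring
  · obtain ⟨E, hE, hEw⟩ := A.cont w
    exact ⟨E, hE, fun g hg => by
      change Additive.ofMul (u g) = Additive.ofMul 1
      rw [(hone g).2 (hEw g hg)]⟩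
  · -- the local condition
    refine ⟨{algebraMap k κ₀ c} ∪ Finset.univ.image (fun j => algebraMap k κ₀ (e j)) ∪
      (Finset.univ ×ˢ Finset.univ).image (fun q : Fin d × Fin d =>
        algebraMap k κ₀ (e q.1 - e q.2)), n, ?_⟩
    intro p hp hpn VC hVC q J δ hJ hJρ hU τ hτ σ hσ
    let i1 : Algebra K ℚ_[p] := q.toAlgebra
    have hcc : ∀ c : K, J (algebraMap K (AlgebraicClosure K) c) =
        algebraMap K (AlgebraicClosure ℚ_[p]) c := by
      intro c
      rw [IsScalarTower.algebraMap_apply K ℚ_[p] (AlgebraicClosure ℚ_[p])]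
      exact hJ c
    let ι : AlgebraicClosure K →ₐ[K] AlgebraicClosure ℚ_[p] := { toRingHom := J, commutes' := hcc }
    have hιJ : ∀ z, ι z = J z := fun z => rfl
    obtain ⟨V, p', hV⟩ := Pool.Agent.N890.KO.LOC.aux ℚ_[p]
    obtain ⟨pl, hι, hpl⟩ := koeA A ℚ_[p] V p' hV ι
    have hcompat : Compat (pl.iot A.j) τ σ := by
      intro z
      rw [hι, hι, hιJ, hιJ]
      exact hσ z
    -- constants
    have hconst : ∀ a : k, pl.ρ ⟨algebraMap K M (algebraMap k K a), pl.alg_mem _⟩ =
        J (algebraMap κ₀ (AlgebraicClosure K) (algebraMap k κ₀ a)) := by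
      intro a
      obtain ⟨h1, h2⟩ := pl.comm (algebraMap k K a)
      rw [h2, ← hcc, ← IsScalarTower.algebraMap_apply, ← IsScalarTower.algebraMap_apply]
    have hunit : ∀ a : k, a ≠ 0 → IsU VC (J (algebraMap κ₀ (AlgebraicClosure K)
        (algebraMap k κ₀ a))) → (cmp pl VC).valuation (algebraMap K M (algebraMap k K a)) = 1 := by
      intro a ha h1
      apply cmp_unit (pl.alg_mem _)
      rw [hconst]
      exact h1
    have hσV : ∀ z, (cmp pl VC).valuation z ≤ 1 →
        (cmp pl VC).valuation (((A.s σ : M ≃ₐ[K] M) : M →+* M) z - z) < 1 := by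
      intro z hz
      obtain ⟨h1, h2⟩ := mem_cmp.1 ((ValuationSubring.valuation_le_one_iff _ _).1 hz)
      obtain ⟨h3, h4⟩ := hpl τ σ hcompat ⟨z, h1⟩
      refine cmp_lt (sub_mem h3 h1) ?_
      have e1 : (⟨((A.s σ : M ≃ₐ[K] M) : M →+* M) z - z, sub_mem h3 h1⟩ : pl.W) =
        ⟨A.s σ z, h3⟩ - ⟨z, h1⟩ := rfl
      rw [e1, map_sub, h4]
      exact hτ.2 _ h2
    have hnV : (cmp pl VC).valuation (n : M) = 1 := by
      have hnp : ¬ p ∣ n := fun h => by
        have := Nat.le_of_dvd hn h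
        omega
      have h1 : IsU VC (n : AlgebraicClosure ℚ_[p]) := by
        have e : (n : AlgebraicClosure ℚ_[p]) = algebraMap ℚ_[p] _ (n : ℚ_[p]) := by
          rw [map_natCast]
        rw [e, isU_iff hVC, Padic.norm_natCast_eq_one_iff, Nat.Prime.coprime_iff_not_dvd hp.out]
        exact hnp
      have h2 : (n : M) = algebraMap K M (n : K) := by rw [map_natCast]
      rw [h2]
      apply cmp_unit (pl.alg_mem _)
      obtain ⟨h3, h4⟩ := pl.comm (n : K)
      rw [h4, map_natCast]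
      exact h1
    have hmem1 : IsU VC (J (algebraMap κ₀ (AlgebraicClosure K) (algebraMap k κ₀ c))) :=
      hU _ (by simp) ((map_ne_zero _).2 hc)
    have hle : ∀ j, (cmp pl VC).valuation (algebraMap K M (algebraMap k K (e j))) ≤ 1 := by
      intro j
      by_cases h0 : e j = 0
      · rw [h0, map_zero, map_zero, map_zero]
        exact zero_le_one
      · exact (hunit _ h0 (hU _ (by
          simp only [Finset.mem_union, Finset.mem_image, Finset.mem_univ, true_and]
          exact Or.inl (Or.inr ⟨j, rfl⟩)) ((map_ne_zero _).2 h0))).le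
    have hee : ∀ j j', j ≠ j' → (cmp pl VC).valuation
        (algebraMap K M (algebraMap k K (e j)) - algebraMap K M (algebraMap k K (e j'))) = 1 := by
      intro j j' hjj
      have h0 : e j - e j' ≠ 0 := sub_ne_zero.2 (fun h => hjj (he h))
      rw [← map_sub, ← map_sub]
      exact hunit _ h0 (hU _ (by
          simp only [Finset.mem_union, Finset.mem_image, Finset.mem_product, Finset.mem_univ,
            true_and]
          exact Or.inr ⟨(j, j'), rfl⟩) ((map_ne_zero _).2 h0))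
    have hfinal := sup_fixed (V := cmp pl VC) (σ := ((A.s σ : M ≃ₐ[K] M) : M →+* M)) hσV hn hnV
      hdn (hunit c hc hmem1) hle hee (AlgEquiv.commutes _ _) (fun j => AlgEquiv.commutes _ _)
      (hx σ) (hy σ) hxy hxe hWn hc' i
    rw [hWi] at hfinal
    change Additive.ofMul (u σ) = Additive.ofMul 1
    rw [(hone σ).2 hfinal]
  · intro g g' hg hg'
    have h1 : u g = 1 := hg
    have h2 : u g' = 1 := hg'
    change Additive.ofMul (u (g * g')) = Additive.ofMul 1
    congr 1
    rw [hone] at h1 h2 ⊢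
    have e1 : A.s (g * g') w = A.s g (A.s g' w) := by
      rw [map_mul]
      rfl
    rw [e1, h2, h1]
  · intro g
    change Additive.ofMul (u g ^ n) = Additive.ofMul 1
    rw [hun]

end Pool.Agent.V7H43.BS
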