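import Pool.Agent.V7H43.BS.Ra
import Pool.Agent.V7H43.BS.Open
import Pool.Agent.V7H43.BS.SupLoc

/-!
# Divisibility over the field fixed by the Galois group of `κ(ρ)`
-/

set_option autoImplicit false
set_option linter.all false

open WeierstrassCurve

namespace Pool.Agent.V7H43.BS

open Pool.Agent.TH954 Pool.Agent.TH942 Pool.Agent.H901R3.MS Pool.Agent.Y474.GT

section

variable {K L Ω B : Type} [Field K] [CharZero K] [Field L] [Field Ω] [Field B] [Algebra K L]
  [Algebra L Ω] [Algebra K Ω] [Algebra K B] [IsScalarTower K L Ω] [IsAlgClosure L Ω]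
  [IsAlgClosure K B] {κ : Type} [Field κ] [CharZero κ] [IsAlgClosed κ] [Algebra κ B]

/-- `B` is algebraic over `κ(ρ)`, `κ` is algebraic over the field generated by the finite set `G`,
and `K` is in the field generated by `G` and `ρ` -/
structure Dat (K : Type) [Field K] {B : Type} [Field B] [Algebra K B] {κ : Type} [Field κ]
    [CharZero κ] [Algebra κ B] (ρ : B) (G : Finset κ) : Prop where
  hρ : Transcendental κ ρ
  hal : Algebra.IsAlgebraic (IntermediateField.adjoin κ {ρ}) B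
  hG : Algebra.IsAlgebraic (IntermediateField.adjoin ℚ (G : Set κ)) κ
  hK : ∀ c : K, algebraMap K B c ∈ Subfield.closure ((algebraMap κ B) '' (G : Set κ) ∪ {ρ})

lemma Dat.hK' {ρ : B} {G : Finset κ} (D : Dat K ρ G) (c : K) :
    algebraMap K B c ∈ IntermediateField.adjoin κ {ρ} := by
  have h1 : Subfield.closure ((algebraMap κ B) '' (G : Set κ) ∪ {ρ}) ≤
      (IntermediateField.adjoin κ {ρ}).toSubfield := by
    rw [Subfield.closure_le]
    rintro z (⟨c, hc, rfl⟩ | rfl)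
    · exact IntermediateField.algebraMap_mem _ c
    · exact IntermediateField.mem_adjoin_simple_self κ z
  exact h1 (D.hK c)

omit [IsAlgClosed κ] in
lemma InB.fix {ρ : B} {g : B ≃ₐ[K] B} (h : InB κ ρ g) (T : Finset κ) : FixT T ρ g :=
  ⟨fun c _ => h.1 c, h.2⟩

omit [IsAlgClosed κ] in
lemma FixT.mono {ρ : B} {g : B ≃ₐ[K] B} {T T' : Finset κ} (h : FixT T ρ g) (hT : T' ⊆ T) :
    FixT T' ρ g := ⟨fun c hc => h.1 c (hT hc), h.2⟩

/-- the constant curve -/
noncomputable abbrev cK (s : GalSection K L Ω B) (a b : κ) : WeierstrassCurve Ω :=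
  CV (s.j (algebraMap κ B a)) (s.j (algebraMap κ B b))

/-- the ring homomorphism given by `g` -/
noncomputable abbrev sg (s : GalSection K L Ω B) (g : B ≃ₐ[K] B) : Ω →+* Ω :=
  ((s.s g : Ω ≃ₐ[L] Ω) : Ω →+* Ω)

lemma sg_apply (s : GalSection K L Ω B) (g : B ≃ₐ[K] B) (x : Ω) : sg s g x = s.s g x := rfl

lemma sg_const (s : GalSection K L Ω B) {g : B ≃ₐ[K] B} {a : κ}
    (h : g (algebraMap κ B a) = algebraMap κ B a) :
    sg s g (s.j (algebraMap κ B a)) = s.j (algebraMap κ B a) := by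
  rw [sg_apply, s.sec, h]

omit [IsAlgClosed κ] in
lemma disc_c (s : GalSection K L Ω B) {a b : κ} (hD : 4 * a ^ 3 + 27 * b ^ 2 ≠ 0) :
    Disc (s.j (algebraMap κ B a)) (s.j (algebraMap κ B b)) := by
  unfold Disc
  have h1 : (2 * (4 * a ^ 3 + 27 * b ^ 2) : κ) ≠ 0 := mul_ne_zero two_ne_zero hD
  have h2 := (map_ne_zero ((s.j : B →+* Ω).comp (algebraMap κ B))).2 h1
  simp only [map_add, map_mul, map_pow, map_ofNat] at h2
  exact h2

/-- points fixed by the group of `κ(ρ)` are fixed by an open group -/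
lemma open_pt (s : GalSection K L Ω B) {ρ : B} {G : Finset κ} (D : Dat K ρ G) {a b : κ}
    (hD : 4 * a ^ 3 + 27 * b ^ 2 ≠ 0) (P : (cK s a b).toAffine.Point)
    (hP : ∀ g, InB κ ρ g → ra (cK s a b) (sg s g) P = P) :
    ∃ T : Finset κ, ∀ g, FixT T ρ g → ra (cK s a b) (sg s g) P = P := by
  classical
  rcases P with _ | ⟨x, y, h⟩
  · exact ⟨∅, fun g _ => rfl⟩
  · have h1 : ∀ g, InB κ ρ g → s.s g x = x ∧ s.s g y = y := fun g hg =>
      (ra_fix_iff (disc_c s hD) (sg_const s (hg.1 a)) (sg_const s (hg.1 b)) h).1 (hP g hg)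
    obtain ⟨T1, hT1⟩ := open_of_H s D.hal D.hK' (fun g hg => (h1 g hg).1)
    obtain ⟨T2, hT2⟩ := open_of_H s D.hal D.hK' (fun g hg => (h1 g hg).2)
    refine ⟨T1 ∪ T2 ∪ {a, b}, fun g hg => ?_⟩
    refine (ra_fix_iff (disc_c s hD) (sg_const s (hg.1 a (by simp)))
      (sg_const s (hg.1 b (by simp))) h).2
      ⟨hT1 g (hg.mono fun c hc => by simp [hc]), hT2 g (hg.mono fun c hc => by simp [hc])⟩

open scoped Classical in
/-- parts of points fixed by the group of `κ(ρ)` are fixed -/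
theorem keyE (s : GalSection K L Ω B) {ρ : B} {G : Finset κ} (D : Dat K ρ G)
    (hfg : (⊤ : IntermediateField ℚ K).FG)
    (hdim : ∀ x : Ω, Transcendental K x → ∀ t : Ω, IsAlgebraic (Algebra.adjoin K {x}) t)
    {a b : κ} (hD : 4 * a ^ 3 + 27 * b ^ 2 ≠ 0) {P R : (cK s a b).toAffine.Point}
    {m : ℕ} (hm : 0 < m) (hR : m • R = P)
    (hP : ∀ g, InB κ ρ g → ra (cK s a b) (sg s g) P = P) (g : B ≃ₐ[K] B) (hg : InB κ ρ g) :
    ra (cK s a b) (sg s g) R = R := by
  have hΩ1 : IsAlgClosed Ω := IsAlgClosure.isAlgClosed L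
  have hcL : CharZero L := charZero_of_injective_algebraMap (algebraMap K L).injective
  have hcΩ : CharZero Ω := charZero_of_injective_algebraMap (algebraMap L Ω).injective
  obtain ⟨T0, hT0⟩ := open_pt s D hD P hP
  obtain ⟨k₁, K₁, i1, i2, i3, i4, i5, i6, i7, i8, i9, i10, A, e, q1, q2, q3, q4, q5, q6, q7, q8,
    q9, q10, q11, q12⟩ := pkg s D.hρ D.hal D.hG D.hK hfg hdim (G ∪ T0 ∪ {a, b})
      (fun c hc => by simp [hc])
  obtain ⟨a', ha'⟩ := q7 a (by simp)
  obtain ⟨b', hb'⟩ := q7 b (by simp)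
  have hconst : ∀ c : k₁, algebraMap K₁ Ω (algebraMap k₁ K₁ c) =
      s.j (algebraMap κ B (algebraMap k₁ κ c)) := by
    intro c
    rw [← A.j.commutes, ← IsScalarTower.algebraMap_apply, IsScalarTower.algebraMap_apply k₁ κ
      (AlgebraicClosure K₁), q8, q6]
  have hD' : 4 * a' ^ 3 + 27 * b' ^ 2 ≠ 0 := by
    intro h0
    apply hD
    have h1 := congrArg (algebraMap k₁ κ) h0
    simp only [map_add, map_mul, map_pow, map_ofNat, map_zero, ha', hb'] at h1
    exact h1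
  have hW : cK s a b = (sw (algebraMap k₁ K₁ a') (algebraMap k₁ K₁ b')).baseChange Ω := by
    rw [base_eq, hconst, hconst, ha', hb']
  have key : ∀ W, W = (sw (algebraMap k₁ K₁ a') (algebraMap k₁ K₁ b')).baseChange Ω →
      ∀ P R : W.toAffine.Point, m • R = P →
      (∀ g, FixT (G ∪ T0 ∪ {a, b}) ρ g → ra W (sg s g) P = P) →
      ra W (sg s g) R = R := by
    rintro _ rfl P R hR hP
    have hAs : ∀ (τ : AlgebraicClosure K₁ ≃ₐ[K₁] AlgebraicClosure K₁) (g : B ≃ₐ[K] B),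
        (∀ x, A.s τ x = s.s g x) → ∀ Q, A.pt (algebraMap k₁ K₁ a') (algebraMap k₁ K₁ b') τ Q =
          ra _ (sg s g) Q := by
      intro τ g h Q
      have h1 : A.pt (algebraMap k₁ K₁ a') (algebraMap k₁ K₁ b') τ Q =
          ra _ (((A.s τ : Ω ≃ₐ[K₁] Ω) : Ω →ₐ[K₁] Ω) : Ω →+* Ω) Q := (ra_eq_pm _ _ Q).symm
      have h2 : (((A.s τ : Ω ≃ₐ[K₁] Ω) : Ω →ₐ[K₁] Ω) : Ω →+* Ω) = sg s g :=
        RingHom.ext fun x => h x
      rw [h1, h2]
    have hρ0 : e.symm ρ ≠ 0 := by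
      intro h0
      apply q3
      rw [h0]
      exact isAlgebraic_zero
    have hρf : ∀ τ : AlgebraicClosure K₁ ≃ₐ[K₁] AlgebraicClosure K₁,
        τ (e.symm ρ) = e.symm ρ := by
      intro τ
      obtain ⟨g', hg1, hg2, -⟩ := q9 τ
      apply e.injective
      rw [hg2, e.apply_symm_apply, hg1.2]
    have hμ : TwOK A (algebraMap k₁ K₁ a') (algebraMap k₁ K₁ b') (e.symm ρ) :=
      twOK_of_fix (disc_up hD') hρ0 hρf
    obtain ⟨τ, hτ1, hτ2⟩ := q10 g (hg.fix _)
    have hin : InH κ (e.symm ρ) τ := by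
      refine ⟨fun c => ?_, hρf τ⟩
      apply e.injective
      rw [hτ1, q6, hg.1]
    have hmain := inH_fix (k := k₁) (κ₀ := κ) (A := A) q1 hD' q3 q4 q5 hρ0 hμ P (fun τ' => by
      obtain ⟨g', hg1, -, hg3⟩ := q9 τ'
      rw [tw_pos hρ0 hμ (hρf τ'), hAs τ' g' hg3]
      exact hP g' hg1) hm R hR τ hin
    rw [tw_pos hρ0 hμ (hρf τ), hAs τ g hτ2] at hmain
    exact hmain
  exact key _ hW P R hR (fun g hg => hT0 g (hg.mono fun c hc => by simp [hc]))

/-- roots of the functions `x - e` on superelliptic curves -/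
theorem keyS (s : GalSection K L Ω B) {ρ : B} {G : Finset κ} (D : Dat K ρ G)
    (hfg : (⊤ : IntermediateField ℚ K).FG)
    (hdim : ∀ x : Ω, Transcendental K x → ∀ t : Ω, IsAlgebraic (Algebra.adjoin K {x}) t)
    {n : ℕ} (hn : 0 < n) {d : ℕ} (hdn : Nat.Coprime d n) {c : κ} (hc : c ≠ 0) {e : Fin d → κ}
    (he : Function.Injective e) {x y : Ω} (hx : ∀ g, InB κ ρ g → s.s g x = x)
    (hy : ∀ g, InB κ ρ g → s.s g y = y)
    (hxy : y ^ n = s.j (algebraMap κ B c) * ∏ i, (x - s.j (algebraMap κ B (e i)))) (i : Fin d)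
    {w : Ω} (hw : w ^ n = x - s.j (algebraMap κ B (e i))) (g : B ≃ₐ[K] B) (hg : InB κ ρ g) :
    s.s g w = w := by
  classical
  have hΩ1 : IsAlgClosed Ω := IsAlgClosure.isAlgClosed L
  have hcL : CharZero L := charZero_of_injective_algebraMap (algebraMap K L).injective
  have hcΩ : CharZero Ω := charZero_of_injective_algebraMap (algebraMap L Ω).injective
  obtain ⟨T1, hT1⟩ := open_of_H s D.hal D.hK' hx
  obtain ⟨T2, hT2⟩ := open_of_H s D.hal D.hK' hy
  set T := G ∪ T1 ∪ T2 ∪ {c} ∪ Finset.univ.image e with hT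
  obtain ⟨k₁, K₁, i1, i2, i3, i4, i5, i6, i7, i8, i9, i10, A, e', q1, q2, q3, q4, q5, q6, q7, q8,
    q9, q10, q11, q12⟩ := pkg s D.hρ D.hal D.hG D.hK hfg hdim T (fun c hc => by simp [hT, hc])
  obtain ⟨c', hc'⟩ := q7 c (by simp [hT])
  choose f hf using fun j : Fin d => q7 (e j) (by simp [hT])
  have hconst : ∀ c : k₁, algebraMap K₁ Ω (algebraMap k₁ K₁ c) =
      s.j (algebraMap κ B (algebraMap k₁ κ c)) := by
    intro c
    rw [← A.j.commutes, ← IsScalarTower.algebraMap_apply, IsScalarTower.algebraMap_apply k₁ κ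
      (AlgebraicClosure K₁), q8, q6]
  have hρf : ∀ τ : AlgebraicClosure K₁ ≃ₐ[K₁] AlgebraicClosure K₁,
      τ (e'.symm ρ) = e'.symm ρ := by
    intro τ
    obtain ⟨g', hg1, hg2, -⟩ := q9 τ
    apply e'.injective
    rw [hg2, e'.apply_symm_apply, hg1.2]
  obtain ⟨τ, hτ1, hτ2⟩ := q10 g (hg.fix _)
  have hin : InH κ (e'.symm ρ) τ := by
    refine ⟨fun c => ?_, hρf τ⟩
    apply e'.injective
    rw [hτ1, q6, hg.1]
  have hmain := sup_kum (k := k₁) (κ₀ := κ) (A := A) q1 q3 q4 q5 hn hdn (c := c') (by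
    rintro rfl
    rw [map_zero] at hc'
    exact hc hc'.symm) (e := f) (fun j j' hjj => he (by rw [← hf, ← hf, hjj])) (x := x) (y := y)
    (fun τ' => by
      obtain ⟨g', hg1, -, hg3⟩ := q9 τ'
      rw [hg3]
      exact hT1 g' (hg1.mono fun c hc => by simp [hT, hc]))
    (fun τ' => by
      obtain ⟨g', hg1, -, hg3⟩ := q9 τ'
      rw [hg3]
      exact hT2 g' (hg1.mono fun c hc => by simp [hT, hc])) (by
      rw [hxy, hconst, hc']
      simp only [hconst, hf]) i (w := w) (by rw [hw, hconst, hf]) τ hin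
  rw [hτ2] at hmain
  exact hmain

end

end Pool.Agent.V7H43.BS
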