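import Pool.Agent.N890.KO.All
import Pool.Agent.TH954.SGeo

/-!
# The theorem of Koenigsmann, for an arbitrary embedding of the algebraic closures
-/

set_option autoImplicit false
set_option linter.unusedSectionVars false

namespace Pool.Agent.V7H43.BS

open Pool.Agent.TH954 Pool.Agent.N890.KO

variable {K M : Type} [Field K] [CharZero K] [Field M] [Algebra K M]

/-- the action of the Galois group over an intermediate field -/
noncomputable def sAct' (A : SAct K M) (k' : IntermediateField K (AlgebraicClosure K)) :
    (AlgebraicClosure K ≃ₐ[k'] AlgebraicClosure K) →* (M ≃+* M) where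
  toFun τ := (A.s (resM k' τ) : M ≃+* M)
  map_one' := by
    rw [map_one, map_one]
    rfl
  map_mul' a b := by
    rw [map_mul, map_mul]
    rfl

lemma sAct'_apply (A : SAct K M) (k' : IntermediateField K (AlgebraicClosure K))
    (τ : AlgebraicClosure K ≃ₐ[k'] AlgebraicClosure K) (y : M) :
    sAct' A k' τ y = A.s (τ.restrictScalars K) y := rfl

lemma act_of (A : SAct K M) (k' : IntermediateField K (AlgebraicClosure K)) :
    Act (k := k') (A.j : AlgebraicClosure K →+* M) (sAct' A k') where
  eq τ y := A.hj (τ.restrictScalars K) y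
  cont y := by
    obtain ⟨E, hE, h⟩ := A.cont y
    refine ⟨IntermediateField.adjoin k' (E : Set (AlgebraicClosure K)), ?_, fun τ hτ => ?_⟩
    · have bas := Module.finBasis K E
      have h1 : IntermediateField.adjoin k' (E : Set (AlgebraicClosure K)) =
          IntermediateField.adjoin k' (Set.range fun i => (bas i : AlgebraicClosure K)) := by
        apply le_antisymm
        · rw [IntermediateField.adjoin_le_iff]
          intro x hx
          have h2 := bas.sum_repr ⟨x, hx⟩
          have h3 : x = ∑ i, bas.repr ⟨x, hx⟩ i • (bas i : AlgebraicClosure K) := by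
            have h4 := congrArg (fun y : E => (y : AlgebraicClosure K)) h2
            simp only [IntermediateField.coe_sum, IntermediateField.coe_smul] at h4
            exact h4.symm
          rw [h3]
          refine sum_mem fun i _ => ?_
          rw [Algebra.smul_def, IsScalarTower.algebraMap_apply K k' (AlgebraicClosure K)]
          exact mul_mem (IntermediateField.algebraMap_mem _ _)
            (IntermediateField.subset_adjoin _ _ ⟨i, rfl⟩)
        · rw [IntermediateField.adjoin_le_iff]
          rintro _ ⟨i, rfl⟩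
          exact IntermediateField.subset_adjoin _ _ (bas i).2
      rw [h1]
      refine IntermediateField.finiteDimensional_adjoin fun x _ => ?_
      have h4 : IsIntegral K x := (Algebra.IsAlgebraic.isAlgebraic x).isIntegral
      exact h4.tower_top
    · exact h (τ.restrictScalars K) fun x hx => hτ x (IntermediateField.subset_adjoin _ _ hx)

/-- **The theorem of Koenigsmann**: for every embedding `ι` of the algebraic closure of `K` in that
of a complete discretely valued field `L` of characteristic zero with finite residue field, the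
action comes from a place which extends `ι`. -/
theorem koeA [IsAlgClosed M] (A : SAct K M) (L : Type) [Field L] [CharZero L] [Algebra K L]
    (V : AbsoluteValue (AlgebraicClosure L) ℝ) (p : ℕ) (hV : Cpl L V p)
    (ι : AlgebraicClosure K →ₐ[K] AlgebraicClosure L) :
    ∃ pl : Plc K M (AlgebraicClosure L), (∀ z, pl.iot A.j z = ι z) ∧ GeoPlc A pl := by
  obtain ⟨v, π, hv, hG, hcpl⟩ := s_KK L V p hV K (AlgebraicClosure K) ι
  have c5 : CharZero (kk ι) := charZero_of_injective_algebraMap (algebraMap K (kk ι)).injective
  have c6 : IsAlgClosure (kk ι) (AlgebraicClosure K) :=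
    ⟨inferInstance, Algebra.IsAlgebraic.tower_top (K := K) (kk ι)⟩
  have hA := act_of A (kk ι)
  obtain ⟨O, hO1, hO2⟩ := s_EXT (kk ι) (AlgebraicClosure K) M A.j (sAct' A (kk ι)) hA v p π hG
  have hO3 := s_APM (kk ι) (AlgebraicClosure K) M A.j (sAct' A (kk ι)) hA v p π hG O hO1 hO2
  obtain ⟨W, ρ, h1, h2, h3⟩ := s_PHI (kk ι) (AlgebraicClosure K) M (AlgebraicClosure L) A.j
    (sAct' A (kk ι)) hA v p π hG O hO1 hO2 hO3 ι V hV.na hv hcpl
  have hcomm : ∀ c : K, ∃ h : algebraMap K M c ∈ W, ρ ⟨algebraMap K M c, h⟩ =
      algebraMap K (AlgebraicClosure L) c := by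
    intro c
    obtain ⟨h, e⟩ := h2 (algebraMap K (AlgebraicClosure K) c)
    have e1 : (A.j : AlgebraicClosure K →+* M) (algebraMap K (AlgebraicClosure K) c) =
      algebraMap K M c := A.j.commutes c
    have e2 : (ι : AlgebraicClosure K →+* AlgebraicClosure L)
      (algebraMap K (AlgebraicClosure K) c) = algebraMap K _ c := ι.commutes c
    rw [e2] at e
    refine ⟨by rw [← e1]; exact h, ?_⟩
    rw [← e]
    congr 1
    exact Subtype.ext e1.symm
  refine ⟨⟨W, ρ, h1, hcomm⟩, fun z => ?_, ?_⟩
  · obtain ⟨h, e⟩ := h2 z
    exact e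
  · intro σ g hg x
    have h4 : ∀ z, σ (ι z) = ι (g z) := by
      intro z
      obtain ⟨h5, h6⟩ := h2 z
      obtain ⟨h7, h8⟩ := h2 (g z)
      have h9 := hg z
      have e1 : Plc.iot (⟨W, ρ, h1, hcomm⟩ : Plc K M (AlgebraicClosure L)) A.j z = ι z := h6
      have e2 : Plc.iot (⟨W, ρ, h1, hcomm⟩ : Plc K M (AlgebraicClosure L)) A.j (g z) = ι (g z) :=
        h8
      rw [e1, e2] at h9
      exact h9.symm
    -- `g` fixes the elements of `kk ι`
    have h5 : ∀ z : kk ι, g z = z := by
      rintro ⟨z, x, hx⟩
      apply ι.injective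
      change ι (g z) = ι z
      rw [← h4 z, hx, σ.commutes]
    let τ : AlgebraicClosure K ≃ₐ[kk ι] AlgebraicClosure K :=
      AlgEquiv.ofRingEquiv (f := (g : AlgebraicClosure K ≃+* AlgebraicClosure K)) (fun z => h5 z)
    have hτ : τ.restrictScalars K = g := by
      ext z
      rfl
    obtain ⟨h', e'⟩ := h3 (σ : _ ≃+* _) τ (fun c => hV.inv σ c) (fun b => h4 b) x x.2
    have e3 : sAct' A (kk ι) τ x = A.s g x := by
      rw [sAct'_apply, hτ]
    refine ⟨by rw [← e3]; exact h', ?_⟩
    refine Eq.trans ?_ e'
    congr 1

end Pool.Agent.V7H43.BS
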