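import Pool.Agent.Y474.GT.PW
import Pool.Agent.Y328.GT.Embp
import Pool.Agent.Y319.GT.Dvrp
import Pool.Agent.Y430.GT.Kup
import Pool.Agent.TH954.Descent

/-!
# Homomorphisms of the Galois group of `κ₀(ρ)` which vanish on `p`-adic inertia groups
-/

set_option autoImplicit false
set_option linter.all false

open Polynomial

namespace Pool.Agent.V7H43.BS

open Pool.Agent.Y157.PS Pool.Agent.Y157.GT Pool.Agent.Y474.GT

/-- a continuous homomorphism has finite range -/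
lemma finite_range {K' κ X : Type} [Field K'] [Field κ] [Algebra K' κ] [Group X]
    (θ : (κ ≃ₐ[K'] κ) →* X) (E : IntermediateField K' κ) [FiniteDimensional K' E]
    (hE : ∀ g ∈ E.fixingSubgroup, θ g = 1) : Finite θ.range := by
  classical
  have h1 : Finite (E →ₐ[K'] κ) := inferInstance
  let r : (κ ≃ₐ[K'] κ) → (E →ₐ[K'] κ) := fun g => (g : κ →ₐ[K'] κ).comp E.val
  have h2 : ∀ g g' : κ ≃ₐ[K'] κ, r g = r g' → θ g = θ g' := by
    intro g g' h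
    have h3 : g'⁻¹ * g ∈ E.fixingSubgroup := by
      rw [IntermediateField.mem_fixingSubgroup_iff]
      intro z hz
      have h4 := DFunLike.congr_fun h (⟨z, hz⟩ : E)
      have h5 : g z = g' z := h4
      show g'⁻¹ (g z) = z
      rw [h5]
      show (g'⁻¹ * g') z = z
      rw [inv_mul_cancel]; rfl
    have h6 := hE _ h3
    rw [map_mul, map_inv, inv_mul_eq_one] at h6
    exact h6.symm
  have h3 : Function.Injective (fun y : θ.range => r (Classical.choose y.2)) := by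
    intro y y' h
    have h4 := h2 _ _ h
    rw [Classical.choose_spec y.2, Classical.choose_spec y'.2] at h4
    exact Subtype.ext h4
  exact Finite.of_injective _ h3

section

variable {k K κ₀ : Type} [Field k] [CharZero k] [Field K] [CharZero K] [Algebra k K] [Field κ₀]
  [Algebra k κ₀] [IsAlgClosure k κ₀] [Algebra κ₀ (AlgebraicClosure K)]
  [IsScalarTower k κ₀ (AlgebraicClosure K)]

/-- `g` is in the Galois group of `κ₀(ρ)` -/
def InH (κ₀ : Type) [Field κ₀] [Algebra κ₀ (AlgebraicClosure K)] (ρ : AlgebraicClosure K)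
    (g : AlgebraicClosure K ≃ₐ[K] AlgebraicClosure K) : Prop :=
  (∀ c : κ₀, g (algebraMap κ₀ (AlgebraicClosure K) c) = algebraMap κ₀ (AlgebraicClosure K) c) ∧
    g ρ = ρ

/-- the local condition on `ξ` -/
def LocZ {X : Type} [AddCommGroup X] (κ₀ : Type) [Field κ₀] [Algebra κ₀ (AlgebraicClosure K)]
    (ρ : AlgebraicClosure K)
    (ξ : (AlgebraicClosure K ≃ₐ[K] AlgebraicClosure K) → X) : Prop :=
  ∃ (T : Finset κ₀) (N : ℕ), ∀ (p : ℕ) [Fact p.Prime], N < p →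
    ∀ (VC : ValuationSubring (AlgebraicClosure ℚ_[p])), PadicV p (AlgebraicClosure ℚ_[p]) VC →
    ∀ (q : K →+* ℚ_[p]) (J : AlgebraicClosure K →+* AlgebraicClosure ℚ_[p]) (δ : ℚ_[p]),
      (∀ c, J (algebraMap K (AlgebraicClosure K) c) = algebraMap ℚ_[p] _ (q c)) →
      J ρ = algebraMap ℚ_[p] _ δ →
      (∀ a ∈ T, a ≠ 0 → IsU VC (J (algebraMap κ₀ (AlgebraicClosure K) a))) →
      ∀ τ : AlgebraicClosure ℚ_[p] ≃ₐ[ℚ_[p]] AlgebraicClosure ℚ_[p], Ine VC τ →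
      ∀ σ : AlgebraicClosure K ≃ₐ[K] AlgebraicClosure K, (∀ z, J (σ z) = τ (J z)) → ξ σ = 0

theorem inH_lift {ρ : AlgebraicClosure K} {g : AlgebraicClosure K ≃ₐ[K] AlgebraicClosure K}
    (hg : InH κ₀ ρ g)
    (hKK : ∀ a : K, ∃ b : IntermediateField.adjoin κ₀ {ρ},
      algebraMap (IntermediateField.adjoin κ₀ {ρ}) (AlgebraicClosure K) b =
        algebraMap K (AlgebraicClosure K) a) :
    ∃ e : AlgebraicClosure K ≃ₐ[IntermediateField.adjoin κ₀ {ρ}] AlgebraicClosure K,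
      resG hKK e = g := by
  have h1 : ∀ z ∈ IntermediateField.adjoin κ₀ {ρ}, g z = z := by
    let a : AlgebraicClosure K →+* AlgebraicClosure K := g
    let S : IntermediateField κ₀ (AlgebraicClosure K) :=
      (a.eqLocusField (RingHom.id _)).toIntermediateField (fun c => hg.1 c)
    have h3 : IntermediateField.adjoin κ₀ {ρ} ≤ S := by
      rw [IntermediateField.adjoin_simple_le_iff]
      exact hg.2
    exact fun z hz => h3 hz
  refine ⟨AlgEquiv.ofRingEquiv (f := (g : AlgebraicClosure K ≃+* AlgebraicClosure K))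
    (fun z => h1 z z.2), ?_⟩
  ext z
  rfl

theorem tw_kum (hfg : (⊤ : IntermediateField ℚ k).FG) (ρ : AlgebraicClosure K)
    (hρ : Transcendental κ₀ ρ)
    (hal : Algebra.IsAlgebraic (IntermediateField.adjoin κ₀ {ρ}) (AlgebraicClosure K))
    (hK : ∀ c : K, algebraMap K (AlgebraicClosure K) c ∈ IntermediateField.adjoin k {ρ})
    {X : Type} [AddCommGroup X] (ξ : (AlgebraicClosure K ≃ₐ[K] AlgebraicClosure K) → X)
    (h1 : ∀ g h, InH κ₀ ρ g → InH κ₀ ρ h → ξ (g * h) = ξ g + ξ h)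
    (h2 : ∃ E : IntermediateField K (AlgebraicClosure K), FiniteDimensional K E ∧
      ∀ g : AlgebraicClosure K ≃ₐ[K] AlgebraicClosure K, (∀ z ∈ E, g z = z) → ξ g = 0)
    (h3 : LocZ κ₀ ρ ξ) (h4 : ∀ g h, ξ g = 0 → ξ h = 0 → ξ (g * h) = 0)
    {m : ℕ} (hm : 0 < m) (h5 : ∀ g, m • ξ g = 0) (g₁ : AlgebraicClosure K ≃ₐ[K] AlgebraicClosure K)
    (hg₁ : InH κ₀ ρ g₁) : ξ g₁ = 0 := by
  classical
  by_contra hne
  haveI : IsAlgClosed κ₀ := IsAlgClosure.isAlgClosed k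
  haveI : CharZero κ₀ := charZero_of_injective_algebraMap (algebraMap k κ₀).injective
  haveI : Algebra.IsAlgebraic k κ₀ := (inferInstance : IsAlgClosure k κ₀).isAlgebraic
  -- the prime number
  obtain ⟨ℓ, hℓ, hℓn⟩ : ∃ ℓ : ℕ, ℓ.Prime ∧ ℓ ∣ addOrderOf (ξ g₁) :=
    Nat.exists_prime_and_dvd (fun h => hne (AddMonoid.addOrderOf_eq_one_iff.1 h))
  haveI : Fact ℓ.Prime := ⟨hℓ⟩
  obtain ⟨v, m', hm', hmm⟩ := Nat.exists_eq_pow_mul_and_not_dvd hm.ne' ℓ hℓ.ne_one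
  have hξ₁ : m' • ξ g₁ ≠ 0 := fun h => hm' (hℓn.trans (addOrderOf_dvd_of_nsmul_eq_zero h))
  -- the homomorphism
  have hKK : ∀ a : K, ∃ b : IntermediateField.adjoin κ₀ {ρ},
      algebraMap (IntermediateField.adjoin κ₀ {ρ}) (AlgebraicClosure K) b =
        algebraMap K (AlgebraicClosure K) a := by
    intro a
    obtain ⟨b, hb⟩ := adjoin_le' (k₁ := κ₀) ρ (⟨_, hK a⟩ : IntermediateField.adjoin k {ρ})
    exact ⟨b, hb⟩
  have hH : ∀ e, InH κ₀ ρ (resG hKK e) := by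
    intro e
    refine ⟨fun c => ?_, ?_⟩
    · show e (algebraMap κ₀ (AlgebraicClosure K) c) = _
      have := e.commutes (algebraMap κ₀ (IntermediateField.adjoin κ₀ {ρ}) c)
      exact this
    · show e ρ = ρ
      exact e.commutes (⟨ρ, IntermediateField.mem_adjoin_simple_self κ₀ ρ⟩ :
        IntermediateField.adjoin κ₀ {ρ})
  have hξ1 : ξ 1 = 0 := by
    have := h1 1 1 ⟨fun _ => rfl, rfl⟩ ⟨fun _ => rfl, rfl⟩
    rw [mul_one] at this
    simpa using this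
  let θ : (AlgebraicClosure K ≃ₐ[IntermediateField.adjoin κ₀ {ρ}] AlgebraicClosure K) →*
      Multiplicative X :=
    { toFun := fun e => Multiplicative.ofAdd (m' • ξ (resG hKK e))
      map_one' := by rw [map_one, hξ1, smul_zero, ofAdd_zero]
      map_mul' := fun e e' => by
        rw [map_mul, h1 _ _ (hH e) (hH e'), smul_add, ofAdd_add] }
  have hθ : ∀ e, θ e = Multiplicative.ofAdd (m' • ξ (resG hKK e)) := fun e => rfl
  obtain ⟨E, hE, hEξ⟩ := h2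
  obtain ⟨E', hE', hE'E⟩ := cont_res hKK E
  have hcont : ∀ g ∈ E'.fixingSubgroup, θ g = 1 := by
    intro g hg
    rw [hθ, hEξ _ (fun z hz => (IntermediateField.mem_fixingSubgroup_iff _ _).1
      (hE'E g hg) z hz), smul_zero, ofAdd_zero]
  haveI : Finite θ.range := finite_range θ E' hcont
  have hP : IsPGroup ℓ θ.range := by
    rintro ⟨y, e, rfl⟩
    refine ⟨v, Subtype.ext ?_⟩
    show (θ e) ^ ℓ ^ v = 1
    rw [hθ, ← ofAdd_nsmul, ← mul_smul, ← hmm, h5, ofAdd_zero]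
  obtain ⟨e₁, he₁⟩ := inH_lift hg₁ hKK
  obtain ⟨w, A₀, mm, hA₀, hmm1, hw, hfixw⟩ := Pool.Agent.Y430.GT.kup ℓ κ₀ (AlgebraicClosure K) ρ hρ
    hal θ.range hP θ.rangeRestrict ⟨E', hE', fun g hg => Subtype.ext (hcont g hg)⟩ ⟨e₁, fun h => by
      have h6 : θ e₁ = 1 := congrArg Subtype.val h
      rw [hθ, he₁] at h6
      exact hξ₁ (ofAdd_eq_one.1 h6)⟩
  -- the embedding
  obtain ⟨T, N, hloc⟩ := h3
  obtain ⟨k₁, p, hp, q, hfin, hN, hT, hnorm⟩ := Pool.Agent.Y328.GT.embp k κ₀ hfg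
    (A₀ ∪ T ∪ (A₀ ×ˢ A₀).image (fun x => x.1 - x.2)) (ℓ + A₀.card + N)
  haveI := hp
  haveI := hfin
  haveI : CharZero k₁ := charZero_of_injective_algebraMap (algebraMap k k₁).injective
  have hℓp : ℓ ≠ p := by omega
  obtain ⟨VC, hVC⟩ := padV p
  obtain ⟨j, hj⟩ := lift_alg (K := κ₀)
    ((algebraMap ℚ_[p] (AlgebraicClosure ℚ_[p])).comp q)
  have hj' : ∀ c, j (algebraMap k₁ κ₀ c) = algebraMap ℚ_[p] (AlgebraicClosure ℚ_[p]) (q c) := hj
  have hle : ∀ b : k₁, (b ≠ 0 → ‖q b‖ = 1) → ‖q b‖ ≤ 1 := by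
    intro b hb
    rcases eq_or_ne b 0 with h0 | h0
    · rw [h0, map_zero, norm_zero]; exact zero_le_one
    · exact (hb h0).le
  have hT' : ∀ a ∈ (A₀ ∪ T ∪ (A₀ ×ˢ A₀).image (fun x => x.1 - x.2)),
      ∃ b : k₁, algebraMap k₁ κ₀ b = a ∧ (b ≠ 0 → ‖q b‖ = 1) := by
    intro a ha
    exact ⟨⟨a, hT a ha⟩, rfl, fun h0 => hnorm ⟨a, hT a ha⟩ ha h0⟩
  have hmA : ∀ a ∈ A₀, a ∈ (A₀ ∪ T ∪ (A₀ ×ˢ A₀).image (fun x => x.1 - x.2)) := by
    intro a ha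
    simp only [Finset.mem_union]
    exact Or.inl (Or.inl ha)
  have hmD : ∀ a ∈ A₀, ∀ a' ∈ A₀, a - a' ∈ (A₀ ∪ T ∪ (A₀ ×ˢ A₀).image (fun x => x.1 - x.2)) := by
    intro a ha a' ha'
    simp only [Finset.mem_union, Finset.mem_image, Finset.mem_product]
    exact Or.inr ⟨(a, a'), ⟨ha, ha'⟩, rfl⟩
  have hmT : ∀ a ∈ T, a ∈ (A₀ ∪ T ∪ (A₀ ×ˢ A₀).image (fun x => x.1 - x.2)) := by
    intro a ha
    simp only [Finset.mem_union]
    exact Or.inl (Or.inr ha)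
  -- the elements `a`
  have hu : ∀ a : κ₀, ∃ y : ℚ_[p], a ∈ A₀ →
      j a = algebraMap ℚ_[p] (AlgebraicClosure ℚ_[p]) y ∧ ‖y‖ ≤ 1 := by
    intro a
    by_cases ha : a ∈ A₀
    · obtain ⟨b, hb, hb1⟩ := hT' a (hmA a ha)
      exact ⟨q b, fun _ => ⟨by rw [← hb, hj'], hle b hb1⟩⟩
    · exact ⟨0, fun h => absurd h ha⟩
  choose u hu using hu
  have hdiff : ∀ a ∈ A₀, ∀ a' ∈ A₀, a ≠ a' → ‖u a - u a'‖ = 1 := by
    intro a ha a' ha' hne
    obtain ⟨b, hb, hb1⟩ := hT' _ (hmD a ha a' ha')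
    have h1 : q b = u a - u a' := by
      apply (algebraMap ℚ_[p] (AlgebraicClosure ℚ_[p])).injective
      rw [← hj', hb, map_sub, map_sub, (hu a ha).1, (hu a' ha').1]
    rw [← h1]
    apply hb1
    rintro rfl
    rw [map_zero] at hb
    exact hne (sub_eq_zero.1 hb.symm)
  -- units
  have hTU : ∀ a ∈ T, a ≠ 0 → IsU VC (j a) := by
    intro a ha ha0
    obtain ⟨b, hb, hb1⟩ := hT' a (hmT a ha)
    rw [← hb, hj', isU_iff hVC]
    apply hb1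
    rintro rfl
    rw [map_zero] at hb
    exact ha0 hb.symm
  -- the two places
  obtain ⟨a₁, ha₁⟩ := hA₀
  obtain ⟨δ₀, hδ₀, hδ₀t⟩ := Pool.Agent.Y319.GT.trp p k₁ (fg_fin hfg) q (u a₁) 1
  obtain ⟨c, hc⟩ := exists_c A₀ u (by omega) (fun a ha => (hu a ha).2)
  obtain ⟨δ₁, hδ₁, hδ₁t⟩ := Pool.Agent.Y319.GT.trp p k₁ (fg_fin hfg) q (c : ℚ_[p]) 1
  have hp1 : (p : ℝ) ^ (-((1 : ℕ) : ℤ)) < 1 := by
    rw [Nat.cast_one, zpow_neg, zpow_one]
    exact inv_lt_one_of_one_lt₀ (by exact_mod_cast (Fact.out : p.Prime).one_lt)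
  have hδ₀a : ∀ a ∈ A₀, a ≠ a₁ → ‖δ₀ - u a‖ = 1 := by
    intro a ha hne
    have h1 : δ₀ - u a = (δ₀ - u a₁) + (u a₁ - u a) := by ring
    rw [h1]
    exact norm_add_one (by rw [hδ₀]; exact hp1) (hdiff a₁ ha₁ a ha hne.symm)
  have hδ₁a : ∀ a ∈ A₀, ‖δ₁ - u a‖ = 1 := by
    intro a ha
    have h1 : δ₁ - u a = (δ₁ - c) + (c - u a) := by ring
    rw [h1]
    exact norm_add_one (by rw [hδ₁]; exact hp1) (hc a ha)
  have key : ∀ δ : ℚ_[p], (∀ P : k₁[X], P ≠ 0 → P.eval₂ q δ ≠ 0) →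
      ∃ (q' : K →+* ℚ_[p]) (J : AlgebraicClosure K →+* AlgebraicClosure ℚ_[p]),
        (∀ c, J (algebraMap K (AlgebraicClosure K) c) =
          algebraMap ℚ_[p] (AlgebraicClosure ℚ_[p]) (q' c)) ∧
        (∀ c, J (algebraMap κ₀ (AlgebraicClosure K) c) = j c) ∧
        J ρ = algebraMap ℚ_[p] (AlgebraicClosure ℚ_[p]) δ := by
    intro δ hδ
    obtain ⟨J, hJ, hJρ⟩ := lift_tr ρ hρ hal j _
      (tr_ext (algebraMap ℚ_[p] (AlgebraicClosure ℚ_[p])) q j hj' δ hδ)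
    obtain ⟨q', hq'⟩ := factor (algebraMap ℚ_[p] (AlgebraicClosure ℚ_[p]))
      (J.comp (algebraMap K (AlgebraicClosure K))) (fun c => by
        have h1 := adjoin_gen (k₁ := k) ρ
          ((algebraMap ℚ_[p] (AlgebraicClosure ℚ_[p])).fieldRange.comap J)
          (fun c => by
            rw [Subfield.mem_comap, IsScalarTower.algebraMap_apply k κ₀ (AlgebraicClosure K), hJ,
              IsScalarTower.algebraMap_apply k k₁ κ₀, hj']
            exact ⟨_, rfl⟩) (by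
            rw [Subfield.mem_comap, hJρ]
            exact ⟨_, rfl⟩) ⟨_, hK c⟩
        rw [Subfield.mem_comap] at h1
        obtain ⟨y, hy⟩ := h1
        exact ⟨y, hy⟩)
    exact ⟨q', J, fun c => hq' c, hJ, hJρ⟩
  obtain ⟨q₀, J₀, hq₀, hJ₀, hJ₀ρ⟩ := key δ₀ hδ₀t
  obtain ⟨q₁, J₁, hq₁, hJ₁, hJ₁ρ⟩ := key δ₁ hδ₁t
  have hw₀ := w_pow J₀ A₀ u (fun a ha => by rw [hJ₀]; exact (hu a ha).1) ρ δ₀ hJ₀ρ w ℓ mm hw
  have hw₁ := w_pow J₁ A₀ u (fun a ha => by rw [hJ₁]; exact (hu a ha).1) ρ δ₁ hJ₁ρ w ℓ mm hw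
  obtain ⟨τ, hτ, hτw⟩ := move hVC hℓp (J₀ w) _ hw₀ (mm a₁) (hmm1 a₁ ha₁).1 (hmm1 a₁ ha₁).2 (by
    rw [norm_prod' A₀ u mm δ₀ a₁ ha₁ hδ₀a, hδ₀, Nat.cast_one])
  -- the automorphisms
  have hres : ∀ (q' : K →+* ℚ_[p]) (J : AlgebraicClosure K →+* AlgebraicClosure ℚ_[p]),
      (∀ c, J (algebraMap K (AlgebraicClosure K) c) =
          algebraMap ℚ_[p] (AlgebraicClosure ℚ_[p]) (q' c)) →
      ∀ τ : AlgebraicClosure ℚ_[p] ≃ₐ[ℚ_[p]] AlgebraicClosure ℚ_[p],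
      ∃ σ : AlgebraicClosure K ≃ₐ[K] AlgebraicClosure K, ∀ z, J (σ z) = τ (J z) := by
    intro q' J hJ τ
    letI : Algebra K ℚ_[p] := q'.toAlgebra
    have hc : ∀ c : K, J (algebraMap K (AlgebraicClosure K) c) =
        algebraMap K (AlgebraicClosure ℚ_[p]) c := by
      intro c
      rw [IsScalarTower.algebraMap_apply K ℚ_[p] (AlgebraicClosure ℚ_[p])]
      exact hJ c
    let ι : AlgebraicClosure K →ₐ[K] AlgebraicClosure ℚ_[p] :=
      { toRingHom := J, commutes' := hc }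
    obtain ⟨σ, hσ⟩ := Pool.Agent.TH954.exists_compat (L := ℚ_[p]) ι τ
    exact ⟨σ, hσ⟩
  obtain ⟨σ₀, hσ₀⟩ := hres q₀ J₀ hq₀ τ
  obtain ⟨σ₁, hσ₁⟩ := hres q₁ J₁ hq₁ τ⁻¹
  have hξ₀ : ξ σ₀ = 0 := hloc p (by omega) VC hVC q₀ J₀ δ₀ hq₀ hJ₀ρ
    (fun a ha h0 => by rw [hJ₀]; exact hTU a ha h0) τ hτ σ₀ hσ₀
  have hξ₁' : ξ σ₁ = 0 := hloc p (by omega) VC hVC q₁ J₁ δ₁ hq₁ hJ₁ρ
    (fun a ha h0 => by rw [hJ₁]; exact hTU a ha h0) τ⁻¹ (Ine_inv hτ) σ₁ hσ₁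
  have hττ : ∀ z, τ (τ⁻¹ z) = z := fun z => by
    show (τ * τ⁻¹) z = z
    rw [mul_inv_cancel]; rfl
  have hfix : ∀ c, (σ₀ * σ₁) (algebraMap κ₀ (AlgebraicClosure K) c) =
      algebraMap κ₀ (AlgebraicClosure K) c := by
    intro c
    obtain ⟨c', hc'⟩ := map_bot (k₁ := k) (κ₀ := κ₀)
      (σ₁ : AlgebraicClosure K ≃+* AlgebraicClosure K) (fun a => by
      show σ₁ (algebraMap k (AlgebraicClosure K) a) = algebraMap k (AlgebraicClosure K) a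
      rw [IsScalarTower.algebraMap_apply k K (AlgebraicClosure K), AlgEquiv.commutes]) c
    have hc'' : σ₁ (algebraMap κ₀ (AlgebraicClosure K) c) =
      algebraMap κ₀ (AlgebraicClosure K) c' := hc'
    show σ₀ (σ₁ (algebraMap κ₀ (AlgebraicClosure K) c)) = _
    rw [hc'']
    apply J₀.injective
    rw [hσ₀, hJ₀, hJ₀]
    have h1 := hσ₁ (algebraMap κ₀ (AlgebraicClosure K) c)
    rw [hc'', hJ₁, hJ₁] at h1
    rw [h1, hττ]
  have hρ₀ : σ₀ ρ = ρ := by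
    apply J₀.injective
    rw [hσ₀, hJ₀ρ, AlgEquiv.commutes]
  have hρ₁ : σ₁ ρ = ρ := by
    apply J₁.injective
    rw [hσ₁, hJ₁ρ, AlgEquiv.commutes]
  have hg : InH κ₀ ρ (σ₀ * σ₁) := ⟨hfix, by
    show σ₀ (σ₁ ρ) = ρ
    rw [hρ₁, hρ₀]⟩
  obtain ⟨e, he⟩ := inH_lift hg hKK
  have hew : e w = w := by
    apply hfixw
    apply Subtype.ext
    show θ e = 1
    rw [hθ, he, h4 _ _ hξ₀ hξ₁', smul_zero, ofAdd_zero]
  have h6 : (σ₀ * σ₁) w = w := by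
    rw [← he]
    exact hew
  have h7 : σ₁ w = w := by
    apply J₁.injective
    rw [hσ₁]
    exact fix_unit hVC hℓp (J₁ w) _ hw₁ (norm_prod A₀ u mm δ₁ hδ₁a) τ⁻¹ (Ine_inv hτ)
  have h8 : σ₀ (σ₁ w) = w := h6
  rw [h7] at h8
  apply hτw
  rw [← hσ₀, h8]

end

end Pool.Agent.V7H43.BS
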