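import Pool.Agent.TH954.SUni

/-!
# Limits of invariant valuation rings (1): values in the algebraic closure

`A` is a semilinear action of the absolute Galois group of `K` on the field `M`, and `I` is a set of
valuation rings of `M` which contain `K`. This follows the method of `Pool.Agent.TH954.SVal`, for
arbitrary fields `K` of characteristic zero and valuation rings in place of places with values in
completions.
-/

set_option autoImplicit false
set_option linter.unusedSectionVars false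

namespace Pool.Agent.V7H43.BS

open Pool.Agent.TH954

variable {K : Type} [Field K] [CharZero K] {M : Type} [Field M] [Algebra K M]

/-- `x` has the value `β` at `W` -/
def Vl (A : SAct K M) (W : ValuationSubring M) (x : M) (β : AlgebraicClosure K) : Prop :=
  W.valuation (x - A.j β) < 1

variable {A : SAct K M} {W : ValuationSubring M}

lemma jmem [IsAlgClosed M] (hW : ∀ c : K, algebraMap K M c ∈ W) (z : AlgebraicClosure K) :
    W.valuation (A.j z) ≤ 1 := (W.valuation_le_one_iff _).2 (j_memW A hW z)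

lemma junit [IsAlgClosed M] (hW : ∀ c : K, algebraMap K M c ∈ W) {z : AlgebraicClosure K}
    (hz : z ≠ 0) : W.valuation (A.j z) = 1 := by
  refine le_antisymm (jmem hW z) ?_
  have h1 : W.valuation (A.j z⁻¹) ≤ 1 := jmem hW z⁻¹
  rw [map_inv₀, map_inv₀] at h1
  exact (inv_le_one₀ (zero_lt_iff.2 ((Valuation.ne_zero_iff _).2
    ((map_ne_zero _).2 hz)))).1 h1

lemma Vl.le [IsAlgClosed M] (hW : ∀ c : K, algebraMap K M c ∈ W) {x : M} {β : AlgebraicClosure K}
    (h : Vl A W x β) : W.valuation x ≤ 1 := by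
  have e : x = (x - A.j β) + A.j β := by ring
  rw [e]
  exact (Valuation.map_add _ _ _).trans (max_le (le_of_lt (show W.valuation _ < 1 from h)) (jmem hW β))

lemma Vl.mem [IsAlgClosed M] (hW : ∀ c : K, algebraMap K M c ∈ W) {x : M} {β : AlgebraicClosure K}
    (h : Vl A W x β) : x ∈ W := (W.valuation_le_one_iff _).1 (h.le hW)

lemma vl_j (z : AlgebraicClosure K) : Vl A W (A.j z) z := by
  unfold Vl
  rw [sub_self, map_zero]
  exact zero_lt_one

lemma vl_alg (c : K) : Vl A W (algebraMap K M c) (algebraMap K (AlgebraicClosure K) c) := by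
  have := vl_j (A := A) (W := W) (algebraMap K (AlgebraicClosure K) c)
  rwa [A.j.commutes] at this

lemma vl_zero : Vl A W 0 0 := by
  have := vl_j (A := A) (W := W) 0
  rwa [map_zero] at this

lemma vl_one : Vl A W 1 1 := by
  have := vl_j (A := A) (W := W) 1
  rwa [map_one] at this

lemma vl_natCast (n : ℕ) : Vl A W (n : M) (n : AlgebraicClosure K) := by
  have := vl_j (A := A) (W := W) (n : AlgebraicClosure K)
  rwa [map_natCast] at this

lemma Vl.add {x y : M} {c d : AlgebraicClosure K} (h : Vl A W x c) (h' : Vl A W y d) :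
    Vl A W (x + y) (c + d) := by
  unfold Vl at h h' ⊢
  have e : x + y - A.j (c + d) = (x - A.j c) + (y - A.j d) := by rw [map_add]; ring
  rw [e]
  exact Valuation.map_add_lt _ h h'

lemma Vl.sub {x y : M} {c d : AlgebraicClosure K} (h : Vl A W x c) (h' : Vl A W y d) :
    Vl A W (x - y) (c - d) := by
  unfold Vl at h h' ⊢
  have e : x - y - A.j (c - d) = (x - A.j c) - (y - A.j d) := by rw [map_sub]; ring
  rw [e]
  exact Valuation.map_sub_lt _ h h'

lemma Vl.mul [IsAlgClosed M] (hW : ∀ c : K, algebraMap K M c ∈ W) {x y : M}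
    {c d : AlgebraicClosure K} (h : Vl A W x c) (h' : Vl A W y d) :
    Vl A W (x * y) (c * d) := by
  have h1 := h'.le hW
  unfold Vl at h h' ⊢
  have e : x * y - A.j (c * d) = (x - A.j c) * y + A.j c * (y - A.j d) := by rw [map_mul]; ring
  rw [e]
  refine Valuation.map_add_lt _ ?_ ?_
  · rw [map_mul]
    exact mul_lt_one_of_lt_of_le h h1
  · rw [map_mul, mul_comm]
    exact mul_lt_one_of_lt_of_le h' (jmem hW c)

lemma Vl.pow [IsAlgClosed M] (hW : ∀ c : K, algebraMap K M c ∈ W) {x : M}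
    {c : AlgebraicClosure K} (h : Vl A W x c) (n : ℕ) : Vl A W (x ^ n) (c ^ n) := by
  induction n with
  | zero => rw [pow_zero, pow_zero]; exact vl_one
  | succ n ih => rw [pow_succ, pow_succ]; exact ih.mul hW h

lemma vl_sum [IsAlgClosed M] {ι : Type} (s : Finset ι) {f : ι → M} {g : ι → AlgebraicClosure K}
    (h : ∀ i ∈ s, Vl A W (f i) (g i)) : Vl A W (∑ i ∈ s, f i) (∑ i ∈ s, g i) := by
  classical
  induction s using Finset.induction_on with
  | empty => rw [Finset.sum_empty, Finset.sum_empty]; exact vl_zero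
  | insert i s hi ih =>
    rw [Finset.sum_insert hi, Finset.sum_insert hi]
    exact (h i (Finset.mem_insert_self _ _)).add
      (ih (fun j hj => h j (Finset.mem_insert_of_mem hj)))

lemma Vl.unique [IsAlgClosed M] (hW : ∀ c : K, algebraMap K M c ∈ W) {x : M}
    {c c' : AlgebraicClosure K} (h : Vl A W x c) (h' : Vl A W x c') : c = c' := by
  have h1 := h.sub h'
  unfold Vl at h1
  rw [sub_self, zero_sub, Valuation.map_neg] at h1
  by_contra hne
  rw [junit hW (sub_ne_zero.2 hne)] at h1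
  exact lt_irrefl _ h1

lemma Vl.val_eq_one [IsAlgClosed M] (hW : ∀ c : K, algebraMap K M c ∈ W) {x : M}
    {c : AlgebraicClosure K} (h : Vl A W x c) (hc : c ≠ 0) : W.valuation x = 1 := by
  have e : x = (x - A.j c) + A.j c := by ring
  have h1 := junit (A := A) hW hc
  rw [e, Valuation.map_add_eq_of_lt_right _ (by rw [h1]; exact h), h1]

lemma Vl.inv [IsAlgClosed M] (hW : ∀ c : K, algebraMap K M c ∈ W) {x : M}
    {c : AlgebraicClosure K} (h : Vl A W x c) (hc : c ≠ 0) : Vl A W x⁻¹ c⁻¹ := by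
  have h1 := h.val_eq_one hW hc
  have h2 := junit (A := A) hW hc
  have hx0 : x ≠ 0 := by
    rintro rfl
    rw [map_zero] at h1
    exact zero_ne_one h1
  have hc0 : A.j c ≠ 0 := (map_ne_zero _).2 hc
  unfold Vl at h ⊢
  have e : x⁻¹ - A.j c⁻¹ = -((x - A.j c) / (x * A.j c)) := by
    rw [map_inv₀]
    field_simp
    ring
  rw [e, Valuation.map_neg, map_div₀, map_mul, h1, h2, mul_one, div_one]
  exact h

lemma vl_inv_of_notMem {x : M} (h : x ∉ W) : Vl A W x⁻¹ 0 := by
  unfold Vl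
  rw [map_zero, sub_zero, map_inv₀]
  have h1 : 1 < W.valuation x := not_le.1 fun h2 => h ((W.valuation_le_one_iff x).1 h2)
  exact inv_lt_one_of_one_lt₀ h1

lemma notMem_of_vl_inv {x : M} (hx : x ≠ 0) (h : Vl A W x⁻¹ 0) : x ∉ W := by
  intro hm
  have h1 := (W.valuation_le_one_iff x).2 hm
  unfold Vl at h
  rw [map_zero, sub_zero, map_inv₀] at h
  have h2 : 0 < W.valuation x := zero_lt_iff.2 ((Valuation.ne_zero_iff _).2 hx)
  exact absurd h (not_lt.2 ((one_le_inv₀ h2).2 h1))

lemma memW_of_pow_mem {x : M} {n : ℕ} (hn : 0 < n) (h : x ^ n ∈ W) : x ∈ W := by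
  rw [← W.valuation_le_one_iff, map_pow] at h
  rw [← W.valuation_le_one_iff]
  exact (pow_le_one_iff_of_nonneg zero_le hn.ne').1 h

lemma one_le_val_mprod (s : Multiset M) (h : ∀ y ∈ s, 1 ≤ W.valuation y) :
    1 ≤ W.valuation s.prod := by
  induction s using Multiset.induction_on with
  | empty => rw [Multiset.prod_zero, map_one]
  | cons i s ih =>
    rw [Multiset.prod_cons, map_mul]
    exact one_le_mul (h i (Multiset.mem_cons_self _ _))
      (ih (fun j hj => h j (Multiset.mem_cons_of_mem hj)))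

/-- the value of a root -/
lemma vl_root {g : M} {δ : AlgebraicClosure K} {l : ℕ} (hl : 0 < l) (h : Vl A W (g ^ l) δ) :
    ∃ γ, γ ^ l = δ ∧ Vl A W g γ := by
  classical
  by_contra hcon
  push Not at hcon
  set P : Polynomial (AlgebraicClosure K) := Polynomial.X ^ l - Polynomial.C δ with hP
  have hmon : P.Monic := Polynomial.monic_X_pow_sub_C δ hl.ne'
  have hs : P.Splits := IsAlgClosed.splits _
  have hprod := hs.eq_prod_roots
  rw [hmon.leadingCoeff, Polynomial.C_1, one_mul] at hprod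
  have h1 : Polynomial.eval₂ (A.j : AlgebraicClosure K →+* M) g P =
      (P.roots.map (fun a => g - A.j a)).prod := by
    conv_lhs => rw [hprod]
    rw [Polynomial.eval₂_multiset_prod, Multiset.map_map]
    congr 1
    refine Multiset.map_congr rfl fun a _ => ?_
    simp
  have h2 : Polynomial.eval₂ (A.j : AlgebraicClosure K →+* M) g P = g ^ l - A.j δ := by
    rw [hP]
    simp
  have h3 : 1 ≤ W.valuation ((P.roots.map (fun a => g - A.j a)).prod) := by
    refine one_le_val_mprod _ fun y hy => ?_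
    obtain ⟨a, ha, rfl⟩ := Multiset.mem_map.1 hy
    have h4 : a ^ l = δ := by
      have h5 := (Polynomial.mem_roots hmon.ne_zero).1 ha
      rw [Polynomial.IsRoot.def, hP] at h5
      simpa [sub_eq_zero] using h5
    exact not_lt.1 (hcon a h4)
  rw [← h1, h2] at h3
  exact absurd h (not_lt.2 h3)

/-- the value is compatible with the elements of the stabiliser -/
lemma Vl.act {x : M} {β : AlgebraicClosure K} (h : Vl A W x β)
    {τ : AlgebraicClosure K ≃ₐ[K] AlgebraicClosure K} (hτ : ∀ x, A.s τ x ∈ W ↔ x ∈ W) :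
    Vl A W (A.s τ x) (τ β) := by
  unfold Vl at h ⊢
  rw [← A.hj, ← map_sub]
  rcases (ValuationSubring.mem_nonunits_iff_or _).1 h with h1 | h1
  · rw [h1, map_zero, map_zero]
    exact zero_lt_one
  · refine (ValuationSubring.mem_nonunits_iff_or _).2 (Or.inr ?_)
    rw [← map_inv₀, hτ]
    exact h1

/-! ### the set of places -/

variable (A) (I : Set (ValuationSubring M))

/-- elements with finitely many values, which are algebraic over `K` -/
def FinVal (x : M) : Prop := ∃ R : Finset (AlgebraicClosure K), ∀ W ∈ I, x ∈ W →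
  ∃ β ∈ R, Vl A W x β

/-- elements of the fixed field which are everywhere integral and have finitely many values -/
def DSet (u : M) : Prop := u ∈ A.fix ∧ (∀ W ∈ I, u ∈ W) ∧ FinVal A I u

/-- the value is in `K` -/
def Rat (u : M) (W : ValuationSubring M) : Prop :=
  ∃ c : K, Vl A W u (algebraMap K (AlgebraicClosure K) c)

/-- finite sets without rational points are obstructed at one of the places -/
def Obs : Prop := ∀ T : Finset (AlgebraicClosure K),
  (∀ σ : AlgebraicClosure K ≃ₐ[K] AlgebraicClosure K, ∀ θ ∈ T, σ θ ∈ T) →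
  (∀ θ ∈ T, ∃ σ : AlgebraicClosure K ≃ₐ[K] AlgebraicClosure K, σ θ ≠ θ) →
  ∃ l a : ℕ, 1 ≤ l ∧ ∀ c : K, c ≠ 0 → ∃ W ∈ I, ∀ θ ∈ T, ∀ γ : AlgebraicClosure K,
    algebraMap K (AlgebraicClosure K) c * γ ^ l = θ - (a : AlgebraicClosure K) →
    ∃ τ : AlgebraicClosure K ≃ₐ[K] AlgebraicClosure K, (∀ x, A.s τ x ∈ W ↔ x ∈ W) ∧ τ γ ≠ γ

/-- a Galois stable finite set containing a given one -/
lemma exists_stab (R : Finset (AlgebraicClosure K)) :
    ∃ R' : Finset (AlgebraicClosure K), R ⊆ R' ∧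
      ∀ σ : AlgebraicClosure K ≃ₐ[K] AlgebraicClosure K, ∀ θ ∈ R', σ θ ∈ R' := by
  classical
  refine ⟨R.biUnion (fun β => ((minpoly K β).aroots (AlgebraicClosure K)).toFinset), ?_, ?_⟩
  · intro β hβ
    rw [Finset.mem_biUnion]
    refine ⟨β, hβ, ?_⟩
    rw [Multiset.mem_toFinset, Polynomial.mem_aroots]
    exact ⟨minpoly.ne_zero (Algebra.IsIntegral.isIntegral β), minpoly.aeval K β⟩
  · intro σ θ hθ
    rw [Finset.mem_biUnion] at hθ ⊢
    obtain ⟨β, hβ, h⟩ := hθ
    refine ⟨β, hβ, ?_⟩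
    rw [Multiset.mem_toFinset, Polynomial.mem_aroots] at h ⊢
    refine ⟨h.1, ?_⟩
    have h1 : Polynomial.aeval (σ θ) (minpoly K β) =
        σ (Polynomial.aeval θ (minpoly K β)) := Polynomial.aeval_algHom_apply
          (σ : AlgebraicClosure K →ₐ[K] AlgebraicClosure K) θ _
    rw [h1, h.2, map_zero]

variable {A I}

/-- elements of `DSet` have a rational value -/
theorem DSet.exists_rat [IsAlgClosed M] (hI : ∀ W ∈ I, ∀ c : K, algebraMap K M c ∈ W)
    (hob : Obs A I) {u : M} (hu : DSet A I u) : ∃ W ∈ I, Rat A u W := by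
  classical
  obtain ⟨huf, huW, R, hR⟩ := hu
  obtain ⟨R', hRR', hR'⟩ := exists_stab R
  obtain ⟨l, a, hl, hob⟩ := hob (R'.filter (fun θ =>
    ∃ σ : AlgebraicClosure K ≃ₐ[K] AlgebraicClosure K, σ θ ≠ θ)) (by
      intro σ θ hθ
      rw [Finset.mem_filter] at hθ ⊢
      obtain ⟨h1, σ', h2⟩ := hθ
      refine ⟨hR' σ θ h1, σ * σ' * σ⁻¹, fun h3 => h2 ?_⟩
      have h4 : (σ * σ' * σ⁻¹) (σ θ) = σ (σ' θ) := by
        change σ (σ' (σ.symm (σ θ))) = _
        rw [σ.symm_apply_apply]
      rw [h4] at h3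
      exact σ.injective h3) (fun θ hθ => (Finset.mem_filter.1 hθ).2)
  by_cases hua : u = algebraMap K M (a : K)
  · obtain ⟨W, hW, -⟩ := hob 1 one_ne_zero
    refine ⟨W, hW, a, ?_⟩
    rw [hua]
    exact vl_alg _
  · obtain ⟨c, hc, g, hg, hfg⟩ := A.kummer (f := u - algebraMap K M (a : K))
      (sub_mem huf (A.fix.algebraMap_mem _)) (sub_ne_zero.2 hua) (n := l) (by omega)
    obtain ⟨W, hW, hv⟩ := hob c hc
    have hKW := hI W hW
    refine ⟨W, hW, ?_⟩
    obtain ⟨β, hβ, hval⟩ := hR W hW (huW W hW)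
    by_cases hfix : ∀ σ : AlgebraicClosure K ≃ₐ[K] AlgebraicClosure K, σ β = β
    · obtain ⟨c', hc'⟩ := base_of_fixed hfix
      exact ⟨c', by rw [hc']; exact hval⟩
    · exfalso
      push Not at hfix
      have hgl : g ^ l = (u - algebraMap K M (a : K)) * algebraMap K M c⁻¹ := by
        rw [hfg, map_inv₀]
        field_simp [(map_ne_zero (algebraMap K M)).2 hc]
      have h1 : Vl A W (g ^ l) ((β - (a : AlgebraicClosure K)) *
          algebraMap K (AlgebraicClosure K) c⁻¹) := by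
        rw [hgl]
        refine (hval.sub ?_).mul hKW (vl_alg _)
        have := vl_alg (A := A) (W := W) (a : K)
        rw [map_natCast (algebraMap K (AlgebraicClosure K))] at this
        exact this
      obtain ⟨γ, hγ, hgγ⟩ := vl_root (by omega) h1
      obtain ⟨τ, hτ, hτγ⟩ := hv β (Finset.mem_filter.2 ⟨hRR' hβ, hfix⟩) γ (by
        rw [hγ, mul_comm, mul_assoc, ← map_mul, inv_mul_cancel₀ hc, map_one, mul_one])
      have h2 := hgγ.act hτ
      rw [hg τ] at h2
      exact hτγ (h2.unique hKW hgγ)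

/-- two elements of `DSet` can be combined -/
theorem DSet.combine [IsAlgClosed M] (hI : ∀ W ∈ I, ∀ c : K, algebraMap K M c ∈ W)
    {u1 u2 : M} (h1 : DSet A I u1) (h2 : DSet A I u2) :
    ∃ u, DSet A I u ∧ ∀ W ∈ I, Rat A u W → Rat A u1 W ∧ Rat A u2 W := by
  classical
  obtain ⟨hf1, hW1, R1, hR1⟩ := h1
  obtain ⟨hf2, hW2, R2, hR2⟩ := h2
  obtain ⟨R1', hRR1, hs1⟩ := exists_stab R1
  obtain ⟨R2', hRR2, hs2⟩ := exists_stab R2
  obtain ⟨B, hB⟩ : ∃ B : ℕ, (B : AlgebraicClosure K) ∉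
      ((R1' ×ˢ R1') ×ˢ (R2' ×ˢ R2')).image
        (fun p => -((p.1.1 - p.1.2) / (p.2.1 - p.2.2))) := by
    have h3 : (Set.range (Nat.cast : ℕ → AlgebraicClosure K)).Infinite :=
      Set.infinite_range_of_injective Nat.cast_injective
    obtain ⟨x, ⟨B, rfl⟩, hx⟩ := h3.exists_notMem_finset
      (((R1' ×ˢ R1') ×ˢ (R2' ×ˢ R2')).image
        (fun p => -((p.1.1 - p.1.2) / (p.2.1 - p.2.2))))
    exact ⟨B, hx⟩
  refine ⟨u1 + (B : M) * u2, ⟨?_, ?_, ?_⟩, ?_⟩
  · exact add_mem hf1 (mul_mem (natCast_mem A.fix B) hf2)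
  · intro v hv
    exact add_mem (hW1 v hv) (mul_mem (natCast_mem v B) (hW2 v hv))
  · refine ⟨(R1 ×ˢ R2).image (fun p => p.1 + (B : AlgebraicClosure K) * p.2), fun v hv _ => ?_⟩
    obtain ⟨β1, hβ1, hv1⟩ := hR1 v hv (hW1 v hv)
    obtain ⟨β2, hβ2, hv2⟩ := hR2 v hv (hW2 v hv)
    refine ⟨_, Finset.mem_image.2 ⟨(β1, β2), Finset.mem_product.2 ⟨hβ1, hβ2⟩, rfl⟩, ?_⟩
    exact hv1.add ((vl_natCast B).mul (hI v hv) hv2)
  · rintro v hv ⟨c, hc⟩
    obtain ⟨β1, hβ1, hv1⟩ := hR1 v hv (hW1 v hv)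
    obtain ⟨β2, hβ2, hv2⟩ := hR2 v hv (hW2 v hv)
    have h4 : β1 + (B : AlgebraicClosure K) * β2 = algebraMap K (AlgebraicClosure K) c :=
      (hv1.add ((vl_natCast B).mul (hI v hv) hv2)).unique (hI v hv) hc
    have h5 : ∀ σ : AlgebraicClosure K ≃ₐ[K] AlgebraicClosure K, σ β2 = β2 := by
      intro σ
      by_contra hne
      apply hB
      refine Finset.mem_image.2 ⟨((σ β1, β1), (σ β2, β2)), ?_, ?_⟩
      · simp only [Finset.mem_product]
        exact ⟨⟨hs1 σ _ (hRR1 hβ1), hRR1 hβ1⟩, ⟨hs2 σ _ (hRR2 hβ2), hRR2 hβ2⟩⟩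
      · have h6 := congrArg σ h4
        rw [map_add, map_mul, map_natCast, σ.commutes, ← h4] at h6
        have h7 : σ β2 - β2 ≠ 0 := sub_ne_zero.2 hne
        change -((σ β1 - β1) / (σ β2 - β2)) = (B : AlgebraicClosure K)
        rw [neg_eq_iff_eq_neg, div_eq_iff h7]
        linear_combination h6
    have h6 : ∀ σ : AlgebraicClosure K ≃ₐ[K] AlgebraicClosure K, σ β1 = β1 := by
      intro σ
      have h6 := congrArg σ h4
      rw [map_add, map_mul, map_natCast, σ.commutes, ← h4, h5 σ] at h6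
      exact add_right_cancel h6
    obtain ⟨c1, hc1⟩ := base_of_fixed h6
    obtain ⟨c2, hc2⟩ := base_of_fixed h5
    exact ⟨⟨c1, by rw [hc1]; exact hv1⟩, ⟨c2, by rw [hc2]; exact hv2⟩⟩

lemma DSet.zero : DSet A I (0 : M) :=
  ⟨zero_mem _, fun v _ => zero_mem v, {0}, fun _ _ _ => ⟨0, Finset.mem_singleton_self _, vl_zero⟩⟩

/-- the ultrafilter -/
theorem exists_ultra [IsAlgClosed M] (hI : ∀ W ∈ I, ∀ c : K, algebraMap K M c ∈ W)
    (hob : Obs A I) : ∃ U : Ultrafilter (ValuationSubring M), I ∈ U ∧ ∀ u, DSet A I u →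
      ∀ᶠ v in (U : Filter (ValuationSubring M)), Rat A u v := by
  have : Nonempty {u : M // DSet A I u} := ⟨⟨0, DSet.zero⟩⟩
  let f : {u : M // DSet A I u} → Filter (ValuationSubring M) :=
    fun u => Filter.principal {v | v ∈ I ∧ Rat A u.1 v}
  have hne : (⨅ u, f u).NeBot := by
    apply Filter.iInf_neBot_of_directed'
    · rintro ⟨u1, h1⟩ ⟨u2, h2⟩
      obtain ⟨u, hu, h⟩ := h1.combine hI h2
      refine ⟨⟨u, hu⟩, ?_, ?_⟩
      · exact Filter.principal_mono.2 (fun v hv => ⟨hv.1, (h v hv.1 hv.2).1⟩)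
      · exact Filter.principal_mono.2 (fun v hv => ⟨hv.1, (h v hv.1 hv.2).2⟩)
    · rintro ⟨u, hu⟩
      obtain ⟨v, hv, hr⟩ := hu.exists_rat hI hob
      exact Filter.principal_neBot_iff.2 ⟨v, hv, hr⟩
  have key : ∀ u, DSet A I u → {v | v ∈ I ∧ Rat A u v} ∈ Ultrafilter.of (⨅ u, f u) := by
    intro u hu
    have h1 : (Ultrafilter.of (⨅ u, f u) : Filter (ValuationSubring M)) ≤ f ⟨u, hu⟩ :=
      (Ultrafilter.of_le _).trans (iInf_le f ⟨u, hu⟩)
    exact h1 (Filter.mem_principal_self _)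
  refine ⟨Ultrafilter.of (⨅ u, f u), ?_, fun u hu => ?_⟩
  · exact Filter.mem_of_superset (key 0 DSet.zero) fun v hv => hv.1
  · exact Filter.mem_of_superset (key u hu) fun v hv => hv.2

end Pool.Agent.V7H43.BS
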