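import Pool.Agent.TH954.SRed
import Pool.Agent.Y157.PS.Stm

/-!
# The inertia group acts trivially modulo points with integral coordinates
-/

set_option autoImplicit false
set_option linter.unusedSectionVars false

open WeierstrassCurve Pool.Agent.H901R3.MS

namespace Pool.Agent.V7H43.BS

open Pool.Agent.TH954 Pool.Agent.TH942 Pool.Agent.Y157.PS

variable {C : Type} [Field C]

/-- the place of a valuation ring -/
noncomputable def plV (V : ValuationSubring C) : Place C (IsLocalRing.ResidueField V) where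
  A := V.toSubring
  ρ := IsLocalRing.residue V
  inv_of_notMem := fun x hx => by
    have hx' : x ∉ V := hx
    have h := (V.mem_or_inv_mem x).resolve_left hx'
    refine ⟨h, (IsLocalRing.residue_eq_zero_iff (R := V) ⟨x⁻¹, h⟩).2 ?_⟩
    intro hu
    obtain ⟨u, hu⟩ := hu
    apply hx'
    have h1 : ((u⁻¹ : Vˣ) : V) * ⟨x⁻¹, h⟩ = 1 := by rw [← hu, Units.inv_mul]
    have h2 := congrArg (fun z : V => (z : C)) h1
    have h3 : (((u⁻¹ : Vˣ) : V) : C) * x⁻¹ = 1 := h2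
    have hx0 : x ≠ 0 := by
      rintro rfl
      rw [inv_zero, mul_zero] at h3
      exact zero_ne_one h3
    have h4 : x = (((u⁻¹ : Vˣ) : V) : C) := by
      rw [mul_inv_eq_one₀ hx0] at h3
      exact h3.symm
    rw [h4]
    exact ((u⁻¹ : Vˣ) : V).2
  inv_of_ne := fun x hx => by
    have h1 : IsUnit x := by
      by_contra h
      exact hx ((IsLocalRing.residue_eq_zero_iff (R := V) x).2 h)
    obtain ⟨u, hu⟩ := h1
    have h2 : (x : C) * (((u⁻¹ : Vˣ) : V) : C) = 1 := by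
      have h3 : x * ((u⁻¹ : Vˣ) : V) = 1 := by rw [← hu, Units.mul_inv]
      exact congrArg (fun z : V => (z : C)) h3
    have h3 : (x : C)⁻¹ = (((u⁻¹ : Vˣ) : V) : C) := inv_eq_of_mul_eq_one_right h2
    rw [h3]
    exact ((u⁻¹ : Vˣ) : V).2

lemma mem_plV {V : ValuationSubring C} {x : C} : x ∈ (plV V).A ↔ x ∈ V := Iff.rfl

lemma r_eq_of_sub {V : ValuationSubring C} {x y : C} (hx : x ∈ V) (hy : y ∈ V)
    (h : x - y ∈ V.nonunits) : (plV V).r x = (plV V).r y := by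
  rw [(plV V).r_of (mem_plV.2 hx), (plV V).r_of (mem_plV.2 hy)]
  change IsLocalRing.residue V ⟨x, hx⟩ = IsLocalRing.residue V ⟨y, hy⟩
  rw [← sub_eq_zero, ← map_sub, IsLocalRing.residue_eq_zero_iff]
  obtain ⟨ha, hm⟩ := ValuationSubring.mem_nonunits_iff_exists_mem_maximalIdeal.1 h
  exact hm

lemma r_ne_zero {V : ValuationSubring C} {x : C} (hx : IsU V x) : (plV V).r x ≠ 0 := by
  obtain ⟨h0, h1, h2⟩ := hx
  rw [(plV V).r_of (mem_plV.2 h1)]
  change IsLocalRing.residue V ⟨x, h1⟩ ≠ 0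
  rw [Ne, IsLocalRing.residue_eq_zero_iff]
  intro hm
  refine hm ?_
  refine IsUnit.of_mul_eq_one (⟨x⁻¹, h2⟩ : V) (Subtype.ext ?_)
  exact mul_inv_cancel₀ h0

open scoped Classical in
/-- the inertia group acts trivially -/
theorem ine_trivial (V : ValuationSubring C) {a' b' : C} (ha : a' ∈ V) (hb : b' ∈ V)
    (hD : Disc ((plV V).r a') ((plV V).r b')) (τ : C → C) (hτ1 : ∀ z, τ z ∈ V ↔ z ∈ V)
    (hτ2 : ∀ z ∈ V, τ z - z ∈ V.nonunits) (W : WeierstrassCurve C) (hW : W = CV a' b')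
    (Q Q' T : W.toAffine.Point) (h0 : Q = 0 → Q' = 0)
    (h1 : ∀ x y h, Q = .some x y h → ∃ h', Q' = .some (τ x) (τ y) h')
    (hT : T = Q' - Q) (hT2 : ∀ x y h, T = .some x y h → x ∈ V) : T = 0 := by
  subst hW
  obtain ⟨red, -, h2, h3⟩ := t_R6K t_R1K t_R2K t_R3K t_R4K t_R5K C _ (plV V) a' b'
    (mem_plV.2 ha) (mem_plV.2 hb) hD
  have hred : red Q' = red Q := by
    rcases hQ : Q with _ | ⟨x, y, h⟩
    · have := h0 hQ
      rw [this]
      rfl
    · obtain ⟨h', e⟩ := h1 x y h hQ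
      rw [e]
      by_cases hx : x ∈ V
      · obtain ⟨hy, g, e1⟩ := h3 x y h (mem_plV.2 hx)
        obtain ⟨hy', g', e2⟩ := h3 (τ x) (τ y) h' (mem_plV.2 ((hτ1 x).2 hx))
        rw [e1, e2, Affine.Point.some.injEq]
        exact ⟨r_eq_of_sub ((hτ1 x).2 hx) hx (hτ2 x hx),
          r_eq_of_sub hy' hy (hτ2 y hy)⟩
      · rw [h2 x y h (fun h => hx (mem_plV.1 h)),
          h2 (τ x) (τ y) h' (fun h => hx ((hτ1 x).1 (mem_plV.1 h)))]
  have hredT : red T = 0 := by rw [hT, map_sub, hred, sub_self]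
  rcases hTe : T with _ | ⟨x, y, h⟩
  · rfl
  · exfalso
    obtain ⟨hy, g, e⟩ := h3 x y h (mem_plV.2 (hT2 x y h hTe))
    rw [hTe, e] at hredT
    exact Affine.Point.some_ne_zero _ hredT

end Pool.Agent.V7H43.BS
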