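import Pool.Agent.V7H43.BS.Kum
import Pool.Agent.V7H43.BS.Koe
import Pool.Agent.V7H43.BS.Red2
import Pool.Agent.V7H43.BS.Au
import Pool.Agent.TH954.SGeo

/-!
# The twisted action on the points of an elliptic curve
-/

set_option autoImplicit false
set_option linter.all false

open WeierstrassCurve

namespace Pool.Agent.V7H43.BS

open Pool.Agent.TH954 Pool.Agent.TH942 Pool.Agent.Y157.PS Pool.Agent.Y157.GT Pool.Agent.H901R3.MS

section

variable {K : Type} [Field K] [CharZero K] {M : Type} [Field M] [CharZero M] [Algebra K M]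
  (A : SAct K M) (a b : K) (ρ : AlgebraicClosure K)

open scoped Classical in
/-- the twisted action -/
noncomputable def tw (τ : AlgebraicClosure K ≃ₐ[K] AlgebraicClosure K) :
    ((sw a b).baseChange M).toAffine.Point →+ ((sw a b).baseChange M).toAffine.Point :=
  (au ((sw a b).baseChange M) (A.j (τ ρ / ρ))).comp (A.pt a b τ)

/-- the twisted action exists -/
def TwOK : Prop := ∀ τ : AlgebraicClosure K ≃ₐ[K] AlgebraicClosure K,
  GW ((sw a b).baseChange M) (A.j (τ ρ / ρ))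

variable {A a b ρ}

open scoped Classical in
lemma tw_apply (τ : AlgebraicClosure K ≃ₐ[K] AlgebraicClosure K)
    (X : ((sw a b).baseChange M).toAffine.Point) :
    tw A a b ρ τ X = au ((sw a b).baseChange M) (A.j (τ ρ / ρ)) (A.pt a b τ X) := rfl

lemma GW.map {u : M} (h : GW ((sw a b).baseChange M) u) (e : M ≃ₐ[K] M) :
    GW ((sw a b).baseChange M) (e u) := by
  obtain ⟨a', b', e1, hD, hu, ha, hb⟩ := h
  have e2 := base_eq a b M
  rw [e2] at e1
  have ea : algebraMap K M a = a' := congrArg WeierstrassCurve.a₄ e1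
  have eb : algebraMap K M b = b' := congrArg WeierstrassCurve.a₆ e1
  refine ⟨a', b', ?_, hD, (map_ne_zero _).2 hu, ?_, ?_⟩
  · rw [e2, e1]
  · rw [← ea, ← e.commutes a, ← map_pow, ← map_mul, ea, ha]
  · rw [← eb, ← e.commutes b, ← map_pow, ← map_mul, eb, hb]

open scoped Classical in
lemma pt_au {u : M} (h : GW ((sw a b).baseChange M) u)
    (σ : AlgebraicClosure K ≃ₐ[K] AlgebraicClosure K)
    (X : ((sw a b).baseChange M).toAffine.Point) :
    A.pt a b σ (au ((sw a b).baseChange M) u X) =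
      au ((sw a b).baseChange M) (A.s σ u) (A.pt a b σ X) := by
  have h' : GW ((sw a b).baseChange M) (A.s σ u) := h.map (A.s σ)
  rcases X with _ | ⟨x, y, hn⟩
  · have e1 : A.pt a b σ (Affine.Point.zero : ((sw a b).baseChange M).toAffine.Point) =
      Affine.Point.zero := rfl
    rw [au_zero', e1, au_zero']
  · obtain ⟨g1, e1⟩ := pm_some (E := sw a b) ((A.s σ : M ≃ₐ[K] M) : M →ₐ[K] M) hn
    obtain ⟨g2, e2⟩ := pm_some (E := sw a b) ((A.s σ : M ≃ₐ[K] M) : M →ₐ[K] M) (h.ns hn)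
    have e1' : A.pt a b σ (.some x y hn) = .some (A.s σ x) (A.s σ y) g1 := e1
    have e2' : A.pt a b σ (.some (u ^ 2 * x) (u ^ 3 * y) (h.ns hn)) =
      .some (A.s σ (u ^ 2 * x)) (A.s σ (u ^ 3 * y)) g2 := e2
    rw [au_some h, e2', e1', au_some h', Affine.Point.some.injEq]
    constructor
    · rw [map_mul, map_pow]
    · rw [map_mul, map_pow]

open scoped Classical in
lemma tw_pos (hρ0 : ρ ≠ 0) (hμ : TwOK A a b ρ) {τ : AlgebraicClosure K ≃ₐ[K] AlgebraicClosure K}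
    (h : τ ρ = ρ) (X : ((sw a b).baseChange M).toAffine.Point) :
    tw A a b ρ τ X = A.pt a b τ X := by
  rw [tw_apply, h, div_self hρ0, map_one]
  exact au_one (hμ τ) _

open scoped Classical in
lemma tw_mul (hρ0 : ρ ≠ 0) (hμ : TwOK A a b ρ)
    (σ τ : AlgebraicClosure K ≃ₐ[K] AlgebraicClosure K)
    (X : ((sw a b).baseChange M).toAffine.Point) :
    tw A a b ρ (σ * τ) X = tw A a b ρ σ (tw A a b ρ τ X) := by
  have hmul : (σ * τ) ρ = σ (τ ρ) := rfl
  have h1 : σ ρ ≠ 0 := (map_ne_zero _).2 hρ0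
  have e : (σ * τ) ρ / ρ = σ ρ / ρ * σ (τ ρ / ρ) := by
    rw [hmul, map_div₀]
    field_simp
  rw [tw_apply, tw_apply, tw_apply, pt_au (hμ τ), au_mul (hμ σ) ((hμ τ).map _), A.hj, ← map_mul,
    A.pt_mul, e]

open scoped Classical in
lemma tw_one (hρ0 : ρ ≠ 0) (hμ : TwOK A a b ρ) (X : ((sw a b).baseChange M).toAffine.Point) :
    tw A a b ρ 1 X = X := by
  rw [tw_pos hρ0 hμ rfl]
  have e : (A.s 1 : M ≃ₐ[K] M) = 1 := map_one A.s
  unfold SAct.pt
  rw [e]
  exact Affine.Point.map_id (W' := sw a b) X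

open scoped Classical in
lemma tw_nsmul (n : ℕ) (τ : AlgebraicClosure K ≃ₐ[K] AlgebraicClosure K)
    (X : ((sw a b).baseChange M).toAffine.Point) :
    tw A a b ρ τ (n • X) = n • tw A a b ρ τ X := map_nsmul _ _ _

open scoped Classical in
/-- a fixed point divided by `n`, up to a point of order dividing six -/
theorem exists_twfixed {κ₀ : Type} [Field κ₀] [Algebra κ₀ (AlgebraicClosure K)] (hρ0 : ρ ≠ 0)
    (hμ : TwOK A a b ρ)
    (P R : ((sw a b).baseChange M).toAffine.Point) {n : ℕ} (hn : 0 < n) (hR : (6 * n) • R = P)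
    (hP : ∀ g, tw A a b ρ g P = P) (hHR : ∀ h, InH κ₀ ρ h → tw A a b ρ h R = R)
    (htor : ∀ (m : ℕ), 0 < m → ∀ T : ((sw a b).baseChange M).toAffine.Point, m • T = 0 →
      ∀ h : AlgebraicClosure K ≃ₐ[K] AlgebraicClosure K,
        (∀ c : κ₀, h (algebraMap κ₀ (AlgebraicClosure K) c) = algebraMap κ₀ _ c) →
        A.pt a b h T = T)
    (hdiv : ∀ n : ℕ, 1 ≤ n → ∀ T : ((sw a b).baseChange M).toAffine.Point, ∃ S, n • S = T)
    (g₀ : AlgebraicClosure K ≃ₐ[K] AlgebraicClosure K)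
    (hg₀ : ∀ c : κ₀, g₀ (algebraMap κ₀ (AlgebraicClosure K) c) = algebraMap κ₀ _ c)
    {ζ : κ₀} (hζ : ζ ≠ 1) (hg₀ρ : g₀ ρ = algebraMap κ₀ (AlgebraicClosure K) ζ * ρ)
    (hχ : ∀ g : AlgebraicClosure K ≃ₐ[K] AlgebraicClosure K, ∃ c : κ₀,
      g ρ = algebraMap κ₀ (AlgebraicClosure K) c * ρ)
    (hstab : ∀ (g : AlgebraicClosure K ≃ₐ[K] AlgebraicClosure K) (c : κ₀), ∃ c' : κ₀,
      g (algebraMap κ₀ (AlgebraicClosure K) c) = algebraMap κ₀ (AlgebraicClosure K) c') :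
    ∃ Q, (∀ g, tw A a b ρ g Q = Q) ∧
      ∃ D : ((sw a b).baseChange M).toAffine.Point, 6 • D = 0 ∧ n • Q = P + D := by
  set z : AlgebraicClosure K := algebraMap κ₀ (AlgebraicClosure K) ζ with hz
  have hz1 : z ≠ 1 := by
    intro h
    apply hζ
    apply (algebraMap κ₀ (AlgebraicClosure K)).injective
    rw [← hz, h, map_one]
  have hquot : g₀ ρ / ρ = z := by rw [hg₀ρ, mul_div_assoc, div_self hρ0, mul_one]
  have hGW : GW ((sw a b).baseChange M) (A.j z) := by rw [← hquot]; exact hμ g₀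
  have hjz1 : A.j z ≠ 1 := fun h => hz1 (A.j.injective (h.trans (map_one _).symm))
  have hz0 : z ≠ 0 := by
    intro h
    rw [h, zero_mul] at hg₀ρ
    exact (map_ne_zero g₀).2 hρ0 hg₀ρ
  have htw : ∀ g, (6 * n) • (tw A a b ρ g R - R) = 0 := by
    intro g
    rw [smul_sub, ← tw_nsmul, hR, hP, sub_self]
  set T := tw A a b ρ g₀ R - R with hT
  obtain ⟨S, hS⟩ := au_surj hGW hjz1 hdiv T
  have hD : au ((sw a b).baseChange M) (A.j z) ((6 * n) • S) = (6 * n) • S := by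
    have h1 : (6 * n) • (S - au ((sw a b).baseChange M) (A.j z) S) = 0 := by rw [hS]; exact htw g₀
    rw [smul_sub, sub_eq_zero] at h1
    rw [map_nsmul]
    exact h1.symm
  have hD6 : 6 • ((6 * n) • S) = 0 := au_ker hGW hjz1 hD
  have hStor : (6 * (6 * n)) • S = 0 := by rw [mul_smul]; exact hD6
  have hpos : 0 < 6 * (6 * n) := by omega
  have hg₀T : ∀ m : ℕ, 0 < m → ∀ X : ((sw a b).baseChange M).toAffine.Point, m • X = 0 →
      tw A a b ρ g₀ X = au ((sw a b).baseChange M) (A.j z) X := by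
    intro m hm X hX
    rw [tw_apply, hquot, htor m hm X hX g₀ hg₀]
  have hHT : ∀ m : ℕ, 0 < m → ∀ X : ((sw a b).baseChange M).toAffine.Point, m • X = 0 →
      ∀ h, InH κ₀ ρ h → tw A a b ρ h X = X := by
    intro m hm X hX h hh
    rw [tw_pos hρ0 hμ hh.2, htor m hm X hX h hh.1]
  -- the point fixed by `g₀` and `H`
  have hQ₀ : tw A a b ρ g₀ (R + S) = R + S := by
    rw [map_add, hg₀T _ hpos S hStor]
    have e1 : tw A a b ρ g₀ R = R + T := by rw [hT]; abel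
    rw [e1, ← hS]
    abel
  have hQH : ∀ h, InH κ₀ ρ h → tw A a b ρ h (R + S) = R + S := by
    intro h hh
    rw [map_add, hHR h hh, hHT _ hpos S hStor h hh]
  have hQ₀' : tw A a b ρ g₀⁻¹ (R + S) = R + S := by
    conv_lhs => rw [← hQ₀]
    rw [← tw_mul hρ0 hμ, inv_mul_cancel, tw_one hρ0 hμ]
  -- the other automorphisms
  have hgg : ∀ (g : AlgebraicClosure K ≃ₐ[K] AlgebraicClosure K) (w), g (g⁻¹ w) = w := fun g w => by
    change (g * g⁻¹) w = w
    rw [mul_inv_cancel]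
    rfl
  have hgg' : ∀ (g : AlgebraicClosure K ≃ₐ[K] AlgebraicClosure K) (w), g⁻¹ (g w) = w :=
    fun g w => by
    change (g⁻¹ * g) w = w
    rw [inv_mul_cancel]
    rfl
  have hinv : ∀ c : κ₀, g₀⁻¹ (algebraMap κ₀ (AlgebraicClosure K) c) = algebraMap κ₀ _ c := by
    intro c
    conv_lhs => rw [← hg₀ c]
    exact hgg' g₀ _
  have hinvρ : g₀⁻¹ ρ = z⁻¹ * ρ := by
    have h1 : g₀ (z⁻¹ * ρ) = ρ := by
      rw [map_mul, map_inv₀, hg₀ ζ, hg₀ρ, ← hz, inv_mul_cancel_left₀ hz0]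
    conv_lhs => rw [← h1]
    exact hgg' g₀ _
  have hconj : ∀ g : AlgebraicClosure K ≃ₐ[K] AlgebraicClosure K,
      (∀ c : κ₀, (g⁻¹ * g₀ * g) (algebraMap κ₀ (AlgebraicClosure K) c) = algebraMap κ₀ _ c) ∧
      (g⁻¹ * g₀ * g) ρ = g⁻¹ z * ρ := by
    intro g
    refine ⟨fun c => ?_, ?_⟩
    · obtain ⟨c', hc'⟩ := hstab g c
      change g⁻¹ (g₀ (g _)) = _
      rw [hc', hg₀, ← hc']
      exact hgg' g _
    · obtain ⟨c, hc⟩ := hχ g
      change g⁻¹ (g₀ (g ρ)) = _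
      rw [hc, map_mul, hg₀, hg₀ρ, mul_left_comm, ← hc, map_mul, hgg']
  have hfix : ∀ g, tw A a b ρ (g₀ * g) (R + S) = tw A a b ρ g (R + S) := by
    intro g
    obtain ⟨h1, h2⟩ := hconj g
    rcases hGW.conj hjz1 (A.j : AlgebraicClosure K →+* M)
      (g⁻¹ : AlgebraicClosure K ≃ₐ[K] AlgebraicClosure K) z rfl with h3 | h3
    · have h3' : g⁻¹ z = z := h3
      rw [h3'] at h2
      have hH : InH κ₀ ρ (g⁻¹ * g₀ * g * g₀⁻¹) := by
        refine ⟨fun c => ?_, ?_⟩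
        · change (g⁻¹ * g₀ * g) (g₀⁻¹ _) = _
          rw [hinv, h1]
        · change (g⁻¹ * g₀ * g) (g₀⁻¹ ρ) = _
          rw [hinvρ, map_mul, map_inv₀, h1, h2, ← hz, inv_mul_cancel_left₀ hz0]
      have e : g₀ * g = g * ((g⁻¹ * g₀ * g * g₀⁻¹) * g₀) := by group
      rw [e, tw_mul hρ0 hμ, tw_mul hρ0 hμ _ g₀, hQ₀, hQH _ hH]
    · have h3' : g⁻¹ z = z⁻¹ := h3
      rw [h3'] at h2
      have hH : InH κ₀ ρ (g⁻¹ * g₀ * g * g₀) := by
        refine ⟨fun c => ?_, ?_⟩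
        · change (g⁻¹ * g₀ * g) (g₀ _) = _
          rw [hg₀, h1]
        · change (g⁻¹ * g₀ * g) (g₀ ρ) = _
          rw [hg₀ρ, map_mul, h1, h2, ← hz, mul_inv_cancel_left₀ hz0]
      have e : g₀ * g = g * ((g⁻¹ * g₀ * g * g₀) * g₀⁻¹) := by group
      rw [e, tw_mul hρ0 hμ, tw_mul hρ0 hμ _ g₀⁻¹, hQ₀', hQH _ hH]
  refine ⟨6 • (R + S), fun g => ?_, (6 * n) • S, hD6, ?_⟩
  · set η := tw A a b ρ g (R + S) - (R + S) with hη
    have hηt : (6 * (6 * n)) • η = 0 := by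
      have e1 : (6 * (6 * n)) • (R + S) = 6 • P := by
        rw [smul_add, hStor, add_zero, mul_smul, hR]
      rw [hη, smul_sub, ← tw_nsmul, e1, tw_nsmul, hP, sub_self]
    have hgR : tw A a b ρ g (R + S) = (R + S) + η := by rw [hη]; abel
    have h4 := hfix g
    rw [tw_mul hρ0 hμ, hgR, map_add, hQ₀, hg₀T _ hpos η hηt] at h4
    have h5 : au ((sw a b).baseChange M) (A.j z) η = η := add_left_cancel h4
    have h6 := au_ker hGW hjz1 h5
    rw [tw_nsmul, hgR, smul_add, h6, add_zero]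
  · rw [← mul_smul, mul_comm n 6, smul_add, hR]

end

end Pool.Agent.V7H43.BS
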