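import Pool.Agent.V7H43.BS.Obst
import Pool.Agent.V7H43.BS.Tw
import Pool.Agent.V7H43.BS.Inf

/-!
# Divisible points reduce to zero at the places over completions of number fields
-/

set_option autoImplicit false
set_option linter.unusedSectionVars false

open WeierstrassCurve IsDedekindDomain NumberField

namespace Pool.Agent.V7H43.BS

open Pool.Agent.TH954 Pool.Agent.TH942

variable {K : Type} [Field K] [CharZero K] {M : Type} [Field M] [CharZero M] [Algebra K M]
  [IsAlgClosed M]
  {A : SAct K M} {a b : K} {ρ : AlgebraicClosure K}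

open scoped Classical in
theorem notMem_of_div (hD : 4 * a ^ 3 + 27 * b ^ 2 ≠ 0) (hρ0 : ρ ≠ 0) (hμ : TwOK A a b ρ)
    {S : Finset K} (ha : a ∈ S) (hb : b ∈ S)
    {W : ValuationSubring M} (hW : W ∈ PlSet A ρ S)
    (X : ((sw a b).baseChange M).toAffine.Point)
    (hX : ∀ N : ℕ, 0 < N → ∃ Q, (∀ g, tw A a b ρ g Q = Q) ∧ N • Q = X) :
    ∀ x y h, X = .some x y h → x ∉ W := by
  obtain ⟨L, iL, jL, v, iK, pl, rfl, hpl, hS, d, hd⟩ := hW
  have c0 : CharZero (v.adicCompletion L) :=
    charZero_of_injective_algebraMap (algebraMap K (v.adicCompletion L)).injective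
  obtain ⟨red, h1, h2⟩ := exists_redM pl hD
  -- twisted fixed points reduce to rational points
  have hrat : ∀ Q : ((sw a b).baseChange M).toAffine.Point, (∀ g, tw A a b ρ g Q = Q) →
      ∃ z, incl (sw a b) (v.adicCompletion L) z = red Q := by
    intro Q hQ
    refine exists_of_fixed _ (fun σ => ?_)
    obtain ⟨τ, hτ⟩ := exists_compat (pl.iot A.j) σ
    have h9 : pl.iot A.j (τ ρ) = pl.iot A.j ρ := by rw [hτ ρ, hd, σ.commutes]
    have hτρ : τ ρ = ρ := (pl.iot A.j).injective h9
    have h3 := red_act (pl := pl) (a := a) (b := b) (red := red) (map_zero red) h1 h2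
      ((A.s τ : M ≃ₐ[K] M) : M →ₐ[K] M)
      ((σ : AlgebraicClosure (v.adicCompletion L) →ₐ[v.adicCompletion L]
        AlgebraicClosure (v.adicCompletion L)).restrictScalars K)
      (fun x => hpl σ τ hτ x) Q
    have h4 := hQ τ
    rw [tw_pos hρ0 hμ hτρ] at h4
    unfold SAct.pt at h4
    rw [h4] at h3
    exact h3.symm
  -- the curve over the completion
  have hSI : SI ((sw a b).baseChange (v.adicCompletion L)) := by
    have h4 : ((sw a b).baseChange (v.adicCompletion L)).a₄ = algebraMap K _ a := by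
      simp [sw, WeierstrassCurve.baseChange, WeierstrassCurve.map]
    have h6 : ((sw a b).baseChange (v.adicCompletion L)).a₆ = algebraMap K _ b := by
      simp [sw, WeierstrassCurve.baseChange, WeierstrassCurve.map]
    refine { h1 := ?_, h2 := ?_, h3 := ?_, ha := ?_, hb := ?_ }
    · simp [sw, WeierstrassCurve.baseChange, WeierstrassCurve.map]
    · simp [sw, WeierstrassCurve.baseChange, WeierstrassCurve.map]
    · simp [sw, WeierstrassCurve.baseChange, WeierstrassCurve.map]
    · rw [h4]
      exact hS a ha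
    · rw [h6]
      exact hS b hb
  have hDL : 4 * ((sw a b).baseChange (v.adicCompletion L)).a₄ ^ 3 +
      27 * ((sw a b).baseChange (v.adicCompletion L)).a₆ ^ 2 ≠ 0 := by
    have h4 : ((sw a b).baseChange (v.adicCompletion L)).a₄ = algebraMap K _ a := by
      simp [sw, WeierstrassCurve.baseChange, WeierstrassCurve.map]
    have h6 : ((sw a b).baseChange (v.adicCompletion L)).a₆ = algebraMap K _ b := by
      simp [sw, WeierstrassCurve.baseChange, WeierstrassCurve.map]
    rw [h4, h6]
    intro h0
    apply hD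
    apply (algebraMap K (v.adicCompletion L)).injective
    rw [map_zero, ← h0]
    simp only [map_add, map_mul, map_pow, map_ofNat]
  -- the point
  obtain ⟨Q1, hQ1, hQ1X⟩ := hX 1 one_pos
  rw [one_smul] at hQ1X
  obtain ⟨Z, hZ⟩ := hrat Q1 hQ1
  rw [hQ1X] at hZ
  have hinj : Function.Injective (incl (sw a b) (v.adicCompletion L)) :=
    pm_injective (E := sw a b) _
  have hZ0 : Z = 0 := by
    refine no_divisible (net_completion v) hSI two_ne_zero hDL Z (fun N hN => ?_)
    obtain ⟨Q, hQ, hQX⟩ := hX N hN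
    obtain ⟨z, hz⟩ := hrat Q hQ
    refine ⟨z, hinj ?_⟩
    rw [hZ, ← hQX]
    have h5 : red (N • Q) = N • red Q := map_nsmul red N Q
    rw [h5, ← hz]
    exact map_nsmul (pm (sw a b) (IsScalarTower.toAlgHom K (v.adicCompletion L)
      (AlgebraicClosure (v.adicCompletion L)))) N z
  have hred : red X = 0 := by
    rw [← hZ, hZ0]
    rfl
  intro x y h hXe hx
  obtain ⟨hy, h', e⟩ := h2 x y h hx
  rw [hXe, e] at hred
  exact Affine.Point.some_ne_zero _ hred

end Pool.Agent.V7H43.BS
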