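import Pool.Agent.V7H43.BS.Tw
import Pool.Agent.TH954.STor

/-!
# The cocycle vanishes on inertia groups at places of good reduction
-/

set_option autoImplicit false
set_option linter.unusedSectionVars false

open WeierstrassCurve

namespace Pool.Agent.V7H43.BS

open Pool.Agent.TH954 Pool.Agent.TH942 Pool.Agent.Y157.PS Pool.Agent.Y157.GT
  Pool.Agent.Y474.GT

variable {K : Type} [Field K] [CharZero K] {M : Type} [Field M] [CharZero M] [Algebra K M]
  [IsAlgClosed M]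
  {A : SAct K M} {a b : K} {ρ : AlgebraicClosure K}

open scoped Classical in
theorem locZ {κ₀ : Type} [Field κ₀] [Algebra κ₀ (AlgebraicClosure K)]
    (hD : 4 * a ^ 3 + 27 * b ^ 2 ≠ 0) (hρ0 : ρ ≠ 0) (hμ : TwOK A a b ρ) (a₀ b₀ : κ₀)
    (ha₀ : algebraMap κ₀ (AlgebraicClosure K) a₀ = algebraMap K (AlgebraicClosure K) a)
    (hb₀ : algebraMap κ₀ (AlgebraicClosure K) b₀ = algebraMap K (AlgebraicClosure K) b)
    (R : ((sw a b).baseChange M).toAffine.Point) {m : ℕ} (hm : 1 ≤ m)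
    (ξ : (AlgebraicClosure K ≃ₐ[K] AlgebraicClosure K) → AlgPt (sw a b) K)
    (hξ : ∀ σ, pm (sw a b) A.j (ξ σ) = tw A a b ρ σ R - R) (hξm : ∀ σ, m • ξ σ = 0)
    (htc : ∀ T : AlgPt (sw a b) K, m • T = 0 → ∀ x y h, T = .some x y h →
      ∃ x₀ : κ₀, algebraMap κ₀ (AlgebraicClosure K) x₀ = x) : LocZ κ₀ ρ ξ := by
  have hxc : ∀ T : AlgPt (sw a b) K, ∃ x₀ : κ₀, m • T = 0 → ∀ x y h, T = .some x y h →
      algebraMap κ₀ (AlgebraicClosure K) x₀ = x := by
    intro T
    by_cases h0 : m • T = 0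
    · rcases hT : T with _ | ⟨x, y, h⟩
      · exact ⟨0, fun _ x y h h1 => absurd h1.symm (Affine.Point.some_ne_zero h)⟩
      · obtain ⟨x₀, hx₀⟩ := htc T h0 x y h hT
        refine ⟨x₀, fun _ x' y' h' h1 => ?_⟩
        rw [Affine.Point.some.injEq] at h1
        rw [← h1.1]
        exact hx₀
    · exact ⟨0, fun h => absurd h h0⟩
  choose xc hxc using hxc
  have hfin := (card_base_lt hD (AlgebraicClosure K) hm).1
  refine ⟨{a₀, b₀, 4 * a₀ ^ 3 + 27 * b₀ ^ 2} ∪ hfin.toFinset.image xc, 2, ?_⟩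
  intro p hp hp2 VC hVC q J δ hJ hJρ hU τ hτ σ hσ
  -- the place
  let i1 : Algebra K ℚ_[p] := q.toAlgebra
  have hc : ∀ c : K, J (algebraMap K (AlgebraicClosure K) c) =
      algebraMap K (AlgebraicClosure ℚ_[p]) c := by
    intro c
    rw [IsScalarTower.algebraMap_apply K ℚ_[p] (AlgebraicClosure ℚ_[p])]
    exact hJ c
  let ι : AlgebraicClosure K →ₐ[K] AlgebraicClosure ℚ_[p] := { toRingHom := J, commutes' := hc }
  have hιJ : ∀ z, ι z = J z := fun z => rfl
  obtain ⟨V, p', hV⟩ := Pool.Agent.N890.KO.LOC.aux ℚ_[p]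
  obtain ⟨pl, hι, hpl⟩ := koeA A ℚ_[p] V p' hV ι
  have hιeq : pl.iot A.j = ι := AlgHom.ext hι
  obtain ⟨red, h1, h2⟩ := exists_redM pl hD
  have hcompat : Compat (pl.iot A.j) τ σ := by
    intro z
    rw [hι, hι, hιJ, hιJ]
    exact hσ z
  have hσρ : σ ρ = ρ := by
    apply J.injective
    rw [hσ, hJρ, AlgEquiv.commutes]
  have hact : red (A.pt a b σ R) = act (sw a b) τ (red R) :=
    red_act (pl := pl) (a := a) (b := b) (red := red) (map_zero red) h1 h2
      ((A.s σ : M ≃ₐ[K] M) : M →ₐ[K] M)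
      ((τ : AlgebraicClosure ℚ_[p] →ₐ[ℚ_[p]] AlgebraicClosure ℚ_[p]).restrictScalars K)
      (fun x => hpl τ σ hcompat x) R
  have hloc : pm (sw a b) (pl.iot A.j) (ξ σ) = act (sw a b) τ (red R) - red R := by
    rw [← red_pm (pl := pl) (a := a) (b := b) (red := red) (map_zero red) h1 h2 A.j
      (pl.iot A.j) (pl.iot_spec A.j), hξ, map_sub, tw_pos hρ0 hμ hσρ, hact]
  -- integrality
  have hmem : ∀ x : κ₀, x ∈ ({a₀, b₀, 4 * a₀ ^ 3 + 27 * b₀ ^ 2} ∪ hfin.toFinset.image xc :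
      Finset κ₀) → J (algebraMap κ₀ (AlgebraicClosure K) x) ∈ VC := by
    intro x hx
    by_cases h0 : x = 0
    · rw [h0, map_zero, map_zero]
      exact zero_mem _
    · exact (hU x hx h0).2.1
  have haC : algebraMap K (AlgebraicClosure ℚ_[p]) a ∈ VC := by
    rw [← hc a, ← ha₀]
    exact hmem a₀ (by simp)
  have hbC : algebraMap K (AlgebraicClosure ℚ_[p]) b ∈ VC := by
    rw [← hc b, ← hb₀]
    exact hmem b₀ (by simp)
  have hd0 : (4 * a₀ ^ 3 + 27 * b₀ ^ 2 : κ₀) ≠ 0 := by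
    intro h
    apply hD
    apply (algebraMap K (AlgebraicClosure K)).injective
    rw [map_zero, map_add, map_mul, map_mul, map_pow, map_pow, ← ha₀, ← hb₀, ← map_pow, ← map_pow,
      map_ofNat, map_ofNat]
    have h3 := congrArg (algebraMap κ₀ (AlgebraicClosure K)) h
    rw [map_zero, map_add, map_mul, map_mul, map_ofNat, map_ofNat] at h3
    exact h3
  have hdU : IsU VC (4 * algebraMap K (AlgebraicClosure ℚ_[p]) a ^ 3 +
      27 * algebraMap K (AlgebraicClosure ℚ_[p]) b ^ 2) := by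
    have h3 := hU _ (by simp) hd0
    rw [map_add, map_mul, map_mul, map_pow, map_pow, map_ofNat, map_ofNat, ha₀, hb₀, map_add,
      map_mul, map_mul, map_pow, map_pow, map_ofNat, map_ofNat, hc, hc] at h3
    exact h3
  have h2U : IsU VC (2 : AlgebraicClosure ℚ_[p]) := by
    have e : (2 : AlgebraicClosure ℚ_[p]) = algebraMap ℚ_[p] _ ((2 : ℕ) : ℚ_[p]) := by
      rw [map_natCast, Nat.cast_ofNat]
    rw [e, isU_iff hVC, Padic.norm_natCast_eq_one_iff, Nat.Prime.coprime_iff_not_dvd hp.out]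
    intro h
    have := Nat.le_of_dvd two_pos h
    omega
  have hrd : Pool.Agent.H901R3.MS.Disc
      ((plV VC).r (algebraMap K (AlgebraicClosure ℚ_[p]) a))
      ((plV VC).r (algebraMap K (AlgebraicClosure ℚ_[p]) b)) := by
    have hX : IsU VC (2 * (4 * algebraMap K (AlgebraicClosure ℚ_[p]) a ^ 3 +
        27 * algebraMap K (AlgebraicClosure ℚ_[p]) b ^ 2)) := by
      refine ⟨mul_ne_zero h2U.1 hdU.1, mul_mem h2U.2.1 hdU.2.1, ?_⟩
      rw [mul_inv]
      exact mul_mem h2U.2.2 hdU.2.2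
    have h3 := r_ne_zero hX
    unfold Pool.Agent.H901R3.MS.Disc
    have h4 : (plV VC).r (2 * (4 * algebraMap K (AlgebraicClosure ℚ_[p]) a ^ 3 +
        27 * algebraMap K (AlgebraicClosure ℚ_[p]) b ^ 2)) =
        2 * (4 * (plV VC).r (algebraMap K (AlgebraicClosure ℚ_[p]) a) ^ 3 +
        27 * (plV VC).r (algebraMap K (AlgebraicClosure ℚ_[p]) b) ^ 2) := by
      rw [(plV VC).r_of (mem_plV.2 hX.2.1), (plV VC).r_of (mem_plV.2 haC),
        (plV VC).r_of (mem_plV.2 hbC)]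
      have e : (⟨_, mem_plV.2 hX.2.1⟩ : (plV VC).A) =
          2 * (4 * (⟨_, mem_plV.2 haC⟩ : (plV VC).A) ^ 3 + 27 * (⟨_, mem_plV.2 hbC⟩) ^ 2) :=
        Subtype.ext rfl
      rw [e]
      simp only [map_add, map_mul, map_pow, map_ofNat]
    rw [← h4]
    exact h3
  -- the conclusion
  have hzero : pm (sw a b) (pl.iot A.j) (ξ σ) = 0 := by
    refine ine_trivial VC haC hbC hrd (fun z => τ z) hτ.1 hτ.2
      ((sw a b).baseChange (AlgebraicClosure ℚ_[p])) (base_eq a b _) (red R)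
      (act (sw a b) τ (red R)) _ ?_ ?_ hloc ?_
    · intro h
      rw [h]
      rfl
    · intro x y h e
      rw [e]
      obtain ⟨h', e'⟩ := pm_some (E := sw a b)
        ((τ : AlgebraicClosure ℚ_[p] →ₐ[ℚ_[p]] AlgebraicClosure ℚ_[p]).restrictScalars K) h
      exact ⟨h', e'⟩
    · intro x y h e
      rcases hξe : ξ σ with _ | ⟨x1, y1, h1'⟩
      · rw [hξe] at e
        exact absurd e.symm (Affine.Point.some_ne_zero h)
      · obtain ⟨g, e1⟩ := pm_some (E := sw a b) (pl.iot A.j) h1'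
        rw [hξe, e1, Affine.Point.some.injEq] at e
        rw [← e.1, hι, hιJ, ← hxc (ξ σ) (hξm σ) x1 y1 h1' hξe]
        exact hmem _ (Finset.mem_union_right _ (Finset.mem_image_of_mem _
          (hfin.mem_toFinset.2 (hξm σ))))
  exact pm_injective (E := sw a b) (pl.iot A.j) (hzero.trans (map_zero _).symm)

end Pool.Agent.V7H43.BS
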