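import Pool.Agent.V7H43.BS.Lim
import Pool.Agent.TH954.SFinV

/-!
# Limits of invariant valuation rings (2)
-/

set_option autoImplicit false
set_option linter.unusedSectionVars false

namespace Pool.Agent.V7H43.BS

open Pool.Agent.TH954

variable {K : Type} [Field K] [CharZero K] {M : Type} [Field M] [Algebra K M]

/-- the limit of the valuation rings -/
def limV (U : Ultrafilter (ValuationSubring M)) : ValuationSubring M where
  carrier := {x | ∀ᶠ v in (U : Filter (ValuationSubring M)), x ∈ v}
  mul_mem' := fun {x y} hx hy => by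
    filter_upwards [hx, hy] with v h1 h2
    exact mul_mem h1 h2
  one_mem' := Filter.Eventually.of_forall (fun _ => one_mem _)
  add_mem' := fun {x y} hx hy => by
    filter_upwards [hx, hy] with v h1 h2
    exact add_mem h1 h2
  zero_mem' := Filter.Eventually.of_forall (fun v => zero_mem _)
  neg_mem' := fun {x} hx => by
    filter_upwards [hx] with v h1
    exact neg_mem h1
  mem_or_inv_mem' := fun x => by
    rcases U.eventually_or.1 (Filter.Eventually.of_forall
      (fun v : ValuationSubring M => v.mem_or_inv_mem x)) with h | h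
    · exact Or.inl h
    · exact Or.inr h

lemma mem_limV {U : Ultrafilter (ValuationSubring M)} {x : M} : x ∈ limV U ↔
    ∀ᶠ v in (U : Filter (ValuationSubring M)), x ∈ v := Iff.rfl

variable {A : SAct K M} {I : Set (ValuationSubring M)} {U : Ultrafilter (ValuationSubring M)}

lemma alg_mem_limV (hI : ∀ W ∈ I, ∀ c : K, algebraMap K M c ∈ W) (hUI : I ∈ U) (c : K) :
    algebraMap K M c ∈ limV U := Filter.mem_of_superset hUI fun v hv => hI v hv c

lemma j_mem_limV [IsAlgClosed M] (hI : ∀ W ∈ I, ∀ c : K, algebraMap K M c ∈ W) (hUI : I ∈ U)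
    (z : AlgebraicClosure K) : A.j z ∈ limV U :=
  Filter.mem_of_superset hUI fun v hv => j_memW A (hI v hv) z

/-- elements of the limit ring which are fixed and have finitely many values have a rational
value -/
theorem exists_value [IsAlgClosed M] (hI : ∀ W ∈ I, ∀ c : K, algebraMap K M c ∈ W) (hUI : I ∈ U)
    (hU : ∀ u, DSet A I u → ∀ᶠ v in (U : Filter (ValuationSubring M)), Rat A u v)
    {x : M} (hx : x ∈ A.fix) (hfin : FinVal A I x) (hxW : x ∈ limV U) :
    ∃ c : K, ∀ᶠ v in (U : Filter (ValuationSubring M)),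
      Vl A v x (algebraMap K (AlgebraicClosure K) c) := by
  classical
  obtain ⟨R, hR⟩ := hfin
  obtain ⟨a, ha⟩ : ∃ a : ℕ, (a : AlgebraicClosure K) ∉ R := by
    have h3 : (Set.range (Nat.cast : ℕ → AlgebraicClosure K)).Infinite :=
      Set.infinite_range_of_injective Nat.cast_injective
    obtain ⟨x, ⟨B, rfl⟩, hx⟩ := h3.exists_notMem_finset R
    exact ⟨B, hx⟩
  have hxI : ∀ᶠ v in (U : Filter (ValuationSubring M)), v ∈ I ∧ x ∈ v := by
    filter_upwards [hUI, hxW] with v h1 h2
    exact ⟨h1, h2⟩
  have hxa : x ≠ (a : M) := by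
    intro h
    obtain ⟨v, hvI, hv⟩ := hxI.exists
    obtain ⟨β, hβ, h1⟩ := hR v hvI hv
    rw [h] at h1
    have h2 := h1.unique (hI v hvI) (vl_natCast a)
    apply ha
    rw [← h2]
    exact hβ
  have hxa0 : x - (a : M) ≠ 0 := sub_ne_zero.2 hxa
  have hval : ∀ v ∈ I, (x ∉ v ∧ Vl A v (x - (a : M))⁻¹ 0) ∨
      ∃ β ∈ R, Vl A v x β ∧ Vl A v (x - (a : M))⁻¹ (β - (a : AlgebraicClosure K))⁻¹ := by
    intro v hvI
    by_cases hv : x ∈ v
    · right
      obtain ⟨β, hβ, h1⟩ := hR v hvI hv
      refine ⟨β, hβ, h1, ?_⟩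
      refine (h1.sub (vl_natCast a)).inv (hI v hvI) (sub_ne_zero.2 ?_)
      rintro rfl
      exact ha hβ
    · left
      refine ⟨hv, vl_inv_of_notMem (fun h => hv ?_)⟩
      have := add_mem h (natCast_mem v a)
      rwa [sub_add_cancel] at this
  have hu : DSet A I (x - (a : M))⁻¹ := by
    refine ⟨inv_mem (sub_mem hx (natCast_mem A.fix a)), fun v hv => ?_, insert 0
      (R.image (fun β => (β - (a : AlgebraicClosure K))⁻¹)), fun v hv _ => ?_⟩
    · rcases hval v hv with ⟨-, h⟩ | ⟨β, -, -, h⟩
      · exact h.mem (hI v hv)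
      · exact h.mem (hI v hv)
    · rcases hval v hv with ⟨-, h⟩ | ⟨β, hβ, -, h⟩
      · exact ⟨0, Finset.mem_insert_self _ _, h⟩
      · exact ⟨_, Finset.mem_insert_of_mem (Finset.mem_image_of_mem _ hβ), h⟩
  have h1 : ∀ᶠ v in (U : Filter (ValuationSubring M)), ∃ β ∈ R,
      (∃ c : K, algebraMap K (AlgebraicClosure K) c = β) ∧ Vl A v x β := by
    filter_upwards [hU _ hu, hxI] with v h1 h2
    rcases hval v h2.1 with ⟨h3, -⟩ | ⟨β, hβ, h3, h4⟩
    · exact absurd h2.2 h3
    · refine ⟨β, hβ, ?_, h3⟩
      obtain ⟨c, hc⟩ := h1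
      have h6 : (β - (a : AlgebraicClosure K))⁻¹ = algebraMap K (AlgebraicClosure K) c :=
        h4.unique (hI v h2.1) hc
      refine ⟨(a : K) + c⁻¹, ?_⟩
      rw [map_add, map_natCast, map_inv₀, ← h6, inv_inv]
      ring
  obtain ⟨β, hβ, h2⟩ : ∃ β ∈ R, ∀ᶠ v in (U : Filter (ValuationSubring M)),
      ((∃ c : K, algebraMap K (AlgebraicClosure K) c = β) ∧ Vl A v x β) := by
    have h3 : (⋃ β ∈ (R : Set (AlgebraicClosure K)), {v |
        (∃ c : K, algebraMap K (AlgebraicClosure K) c = β) ∧ Vl A v x β}) ∈ U := by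
      filter_upwards [h1] with v hv
      obtain ⟨β, hβ, h⟩ := hv
      exact Set.mem_iUnion₂.2 ⟨β, hβ, h⟩
    obtain ⟨β, hβ, h4⟩ := (Ultrafilter.finite_biUnion_mem_iff R.finite_toSet).1 h3
    exact ⟨β, hβ, h4⟩
  obtain ⟨v0, ⟨c, hc⟩, -⟩ := h2.exists
  refine ⟨c, ?_⟩
  filter_upwards [h2] with v hv
  rw [hc]
  exact hv.2

/-- the limit ring is stable under the action -/
theorem limV_stable [IsAlgClosed M] (hI : ∀ W ∈ I, ∀ c : K, algebraMap K M c ∈ W) (hUI : I ∈ U)
    (hU : ∀ u, DSet A I u → ∀ᶠ v in (U : Filter (ValuationSubring M)), Rat A u v)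
    (hfin : ∀ x : M, FinVal A I x) (τ : AlgebraicClosure K ≃ₐ[K] AlgebraicClosure K) {x : M}
    (hx : x ∈ limV U) : A.s τ x ∈ limV U := by
  classical
  obtain ⟨θ, y, hy, hxy⟩ := A.descend x
  have hint : IsIntegral K θ := (Algebra.IsAlgebraic.isAlgebraic θ).isIntegral
  have hd : 0 < (minpoly K θ).natDegree := minpoly.natDegree_pos hint
  have : Nonempty (Fin (minpoly K θ).natDegree) := ⟨⟨0, hd⟩⟩
  have hyW : ∀ i, y i ∈ limV U := by
    obtain ⟨i0, hi0⟩ := Finite.exists_max (fun i => (limV U).valuation (y i))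
    by_cases h0 : y i0 = 0
    · intro i
      have h1 := hi0 i
      change (limV U).valuation (y i) ≤ (limV U).valuation (y i0) at h1
      rw [h0, map_zero] at h1
      have h2 : (limV U).valuation (y i) = 0 := le_antisymm h1 zero_le
      rw [(map_eq_zero _).1 h2]
      exact zero_mem _
    · have hz : ∀ i, y i / y i0 ∈ limV U := by
        intro i
        rw [← ValuationSubring.valuation_le_one_iff, map_div₀]
        exact div_le_one_of_le₀ (hi0 i) zero_le
      have hzf : ∀ i, y i / y i0 ∈ A.fix := fun i => div_mem (hy i) (hy i0)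
      choose c hc using fun i => exists_value hI hUI hU (hzf i) (hfin _) (hz i)
      have h1 : ∀ᶠ v in (U : Filter (ValuationSubring M)), v ∈ I ∧ ∀ i,
          Vl A v (y i / y i0) (algebraMap K (AlgebraicClosure K) (c i)) := by
        filter_upwards [hUI, Filter.eventually_all.2 hc] with v h1 h2
        exact ⟨h1, h2⟩
      have hc0 : c i0 = 1 := by
        obtain ⟨v, hvI, hv⟩ := h1.exists
        have hv0 := hv i0
        rw [div_self h0] at hv0
        have := hv0.unique (hI v hvI) vl_one
        rw [← map_one (algebraMap K (AlgebraicClosure K))] at this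
        exact (algebraMap K (AlgebraicClosure K)).injective this
      have hlin : ∑ i, algebraMap K (AlgebraicClosure K) (c i) * θ ^ (i : ℕ) ≠ 0 := by
        intro hs
        have hli := linearIndependent_pow (K := K) θ
        rw [Fintype.linearIndependent_iff] at hli
        have := hli c (by
          simp only [Algebra.smul_def]
          exact hs) i0
        rw [hc0] at this
        exact one_ne_zero this
      have hxv : ∀ v ∈ I, (∀ i, Vl A v (y i / y i0) (algebraMap K (AlgebraicClosure K) (c i))) →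
          Vl A v (x / y i0) (∑ i, algebraMap K (AlgebraicClosure K) (c i) * θ ^ (i : ℕ)) := by
        intro v hvI hv
        have e : x / y i0 = ∑ i, (y i / y i0) * A.j (θ ^ (i : ℕ)) := by
          rw [hxy, Finset.sum_div]
          exact Finset.sum_congr rfl (fun i _ => by ring)
        rw [e]
        exact vl_sum _ (fun i _ => (hv i).mul (hI v hvI) (vl_j _))
      have hxz : (x / y i0)⁻¹ ∈ limV U := by
        rw [mem_limV]
        filter_upwards [h1] with v hv
        exact ((hxv v hv.1 hv.2).inv (hI v hv.1) hlin).mem (hI v hv.1)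
      have hy0 : y i0 ∈ limV U := by
        by_cases hx0 : x = 0
        · exfalso
          obtain ⟨v, hvI, hv⟩ := h1.exists
          have h2 := hxv v hvI hv
          rw [hx0, zero_div] at h2
          exact hlin (h2.unique (hI v hvI) vl_zero)
        · have h3 := mul_mem hx hxz
          have e : x * (x / y i0)⁻¹ = y i0 := by
            field_simp
          rwa [e] at h3
      intro i
      have h3 := mul_mem (hz i) hy0
      rwa [div_mul_cancel₀ _ h0] at h3
  rw [hxy, map_sum]
  refine sum_mem (fun i _ => ?_)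
  rw [map_mul, hy i τ, A.hj]
  exact mul_mem (hyW i) (j_mem_limV hI hUI _)

lemma vl_aeval [IsAlgClosed M] {W : ValuationSubring M} (hW : ∀ c : K, algebraMap K M c ∈ W)
    {x : M} {c : AlgebraicClosure K} (h : Vl A W x c) (g : Polynomial K) :
    Vl A W (Polynomial.aeval x g) (Polynomial.aeval c g) := by
  rw [Polynomial.aeval_eq_sum_range, Polynomial.aeval_eq_sum_range]
  refine vl_sum _ (fun i _ => ?_)
  rw [Algebra.smul_def, Algebra.smul_def]
  exact (vl_alg _).mul hW (h.pow hW i)

/-- elements have finitely many values, if one element vanishes everywhere -/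
theorem finVal_of_alg [IsAlgClosed M] (hI : ∀ W ∈ I, ∀ c : K, algebraMap K M c ∈ W) {t : M}
    (ht0 : t ≠ 0) (htv : ∀ W ∈ I, W.valuation t < 1)
    (hdim : ∀ x : M, Transcendental K x → IsAlgebraic (Algebra.adjoin K {x}) t) (x : M) :
    FinVal A I x := by
  classical
  by_cases hx : IsAlgebraic K x
  · obtain ⟨z, hz⟩ := alg_range A.j hx
    refine ⟨{z}, fun v _ _ => ⟨z, Finset.mem_singleton_self _, ?_⟩⟩
    rw [← hz]
    exact vl_j z
  · obtain ⟨u, hu, r, hr0, hur⟩ := (hdim x hx).exists_nonzero_eq_adjoin_mul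
      (mem_nonZeroDivisors_of_ne_zero ht0)
    obtain ⟨g, hg⟩ : ∃ g : Polynomial K, Polynomial.aeval x g = (r : M) :=
      exists_aeval_of_mem r.2
    have hg0 : g ≠ 0 := by
      rintro rfl
      rw [map_zero] at hg
      exact hr0 (Subtype.ext hg.symm)
    refine ⟨(g.aroots (AlgebraicClosure K)).toFinset, fun v hvI hv => ?_⟩
    -- the adjoined elements are in the valuation ring
    have h1 : ∀ y ∈ Algebra.adjoin K {x}, y ∈ v := by
      intro y hy
      obtain ⟨q, rfl⟩ := exists_aeval_of_mem hy
      rw [Polynomial.aeval_eq_sum_range]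
      refine sum_mem (fun i _ => ?_)
      rw [Algebra.smul_def]
      exact mul_mem (hI v hvI _) (pow_mem hv i)
    have htm : t ∈ v := (v.valuation_le_one_iff t).1 (htv v hvI).le
    have h2 : u ∈ v := by
      obtain ⟨q, rfl⟩ := exists_aeval_of_mem hu
      rw [Polynomial.aeval_eq_sum_range]
      refine sum_mem (fun i _ => ?_)
      rw [Algebra.smul_def]
      exact mul_mem (h1 _ (q.coeff i).2) (pow_mem htm i)
    have h3 : v.valuation (Polynomial.aeval x g) < 1 := by
      rw [hg, show (r : M) = t * u from hur.symm, map_mul]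
      exact mul_lt_one_of_lt_of_le (htv v hvI) ((v.valuation_le_one_iff u).2 h2)
    -- factor the polynomial
    by_contra hcon
    push Not at hcon
    have hs : (g.map (algebraMap K (AlgebraicClosure K))).Splits := IsAlgClosed.splits _
    have hprod := hs.eq_prod_roots
    have h4 : Polynomial.aeval x g = A.j (g.map (algebraMap K (AlgebraicClosure K))).leadingCoeff *
        ((g.map (algebraMap K (AlgebraicClosure K))).roots.map (fun a => x - A.j a)).prod := by
      have h5 : Polynomial.aeval x g = Polynomial.eval₂ (A.j : AlgebraicClosure K →+* M) x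
          (g.map (algebraMap K (AlgebraicClosure K))) := by
        rw [Polynomial.eval₂_map, Polynomial.aeval_def]
        congr 1
        exact A.j.comp_algebraMap.symm
      rw [h5]
      conv_lhs => rw [hprod]
      rw [Polynomial.eval₂_mul, Polynomial.eval₂_C, Polynomial.eval₂_multiset_prod,
        Multiset.map_map]
      congr 2
      refine Multiset.map_congr rfl fun a _ => ?_
      simp
    have h5 : (g.map (algebraMap K (AlgebraicClosure K))).leadingCoeff ≠ 0 :=
      Polynomial.leadingCoeff_ne_zero.2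
        ((Polynomial.map_ne_zero_iff (algebraMap K (AlgebraicClosure K)).injective).2 hg0)
    rw [h4, map_mul, junit (hI v hvI) h5, one_mul] at h3
    refine absurd h3 (not_lt.2 (one_le_val_mprod _ fun y hy => ?_))
    obtain ⟨a, ha, rfl⟩ := Multiset.mem_map.1 hy
    exact not_lt.1 (hcon a (Multiset.mem_toFinset.2 ha))

/-- **The limit.** -/
theorem exists_limit [IsAlgClosed M] (hI : ∀ W ∈ I, ∀ c : K, algebraMap K M c ∈ W)
    (hob : Obs A I) {t : M} (ht0 : t ≠ 0) (htv : ∀ W ∈ I, W.valuation t < 1)
    (hdim : ∀ x : M, Transcendental K x → IsAlgebraic (Algebra.adjoin K {x}) t) :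
    ∃ W : ValuationSubring M, (∀ c : K, algebraMap K M c ∈ W) ∧ W.valuation t < 1 ∧
      (∀ τ x, x ∈ W → A.s τ x ∈ W) ∧
      ∀ x ∈ A.fix, x ∈ W → ∃ c : K, W.valuation (x - algebraMap K M c) < 1 := by
  obtain ⟨U, hUI, hU⟩ := exists_ultra (A := A) hI hob
  have hfin : ∀ x, FinVal A I x := finVal_of_alg hI ht0 htv hdim
  have hlt : ∀ x : M, (∀ᶠ v in (U : Filter (ValuationSubring M)), v.valuation x < 1) →
      (limV U).valuation x < 1 := by
    intro x hx
    refine (ValuationSubring.mem_nonunits_iff_or _).2 ?_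
    by_cases h0 : x = 0
    · exact Or.inl h0
    · right
      intro h3
      obtain ⟨v, h4, h5⟩ := (hx.and (mem_limV.1 h3)).exists
      rcases (ValuationSubring.mem_nonunits_iff_or _).1 h4 with h6 | h6
      · exact h0 h6
      · exact h6 h5
  refine ⟨limV U, alg_mem_limV hI hUI, hlt t (Filter.mem_of_superset hUI htv),
    fun τ x hx => limV_stable hI hUI hU hfin τ hx, fun x hx hxW => ?_⟩
  obtain ⟨c, hc⟩ := exists_value hI hUI hU hx (hfin x) hxW
  refine ⟨c, hlt _ ?_⟩
  filter_upwards [hc] with v hv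
  unfold Vl at hv
  rwa [A.j.commutes] at hv

end Pool.Agent.V7H43.BS
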