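import Pool.Agent.TH954.SUni

/-!
# Uniqueness of the place of a section, over fields in which some element has no roots
-/

set_option autoImplicit false
set_option linter.unusedSectionVars false

namespace Pool.Agent.V7H43.BS

open Pool.Agent.TH954

/-- two valuation rings with the same residue field `K` which are fixed by a section are equal -/
theorem uniq_ring {K : Type} [Field K] [CharZero K] (u : K) (N : ℕ) (hN0 : 0 < N)
    (hu : ∀ c : K, c ^ N ≠ u) {M : Type} [Field M] [Algebra K M]
    [IsAlgClosed M] (A : SAct K M) {F : Type} [Field F] [Algebra K F] [Algebra F M]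
    [IsScalarTower K F M] (hF : ∀ x : F, algebraMap F M x ∈ A.fix)
    (O1 O2 : ValuationSubring F)
    (h1 : ∀ c : K, algebraMap K F c ∈ O1) (h2 : ∀ c : K, algebraMap K F c ∈ O2)
    (h1' : ∀ a ∈ O1, ∃ c : K, O1.valuation (a - algebraMap K F c) < 1)
    (h2' : ∀ a ∈ O2, ∃ c : K, O2.valuation (a - algebraMap K F c) < 1)
    (W1 W2 : ValuationSubring M) (hW1 : W1.comap (algebraMap F M) = O1)
    (hW2 : W2.comap (algebraMap F M) = O2)
    (hs1 : ∀ τ x, x ∈ W1 → A.s τ x ∈ W1) (hs2 : ∀ τ x, x ∈ W2 → A.s τ x ∈ W2) : O1 = O2 := by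
  have hu0 : u ≠ 0 := by
    rintro rfl
    exact hu 0 (zero_pow hN0.ne')
  have hle : ∀ O O' : ValuationSubring F, (∀ c : K, algebraMap K F c ∈ O) →
      (∀ a ∈ O', ∃ c : K, O'.valuation (a - algebraMap K F c) < 1) → O ≤ O' → O' ≤ O := by
    intro O O' hc hr hOO x hx
    obtain ⟨c, hc'⟩ := hr x hx
    have h3 : x - algebraMap K F c ∈ O := by
      rcases (ValuationSubring.mem_nonunits_iff_or _).1 hc' with h | h
      · rw [h]
        exact zero_mem _
      · exact (O.mem_or_inv_mem _).resolve_right (fun h4 => h (hOO h4))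
    have h4 := add_mem h3 (hc c)
    rwa [sub_add_cancel] at h4
  by_contra hne
  have hn1 : ¬ O1 ≤ O2 := fun h => hne (le_antisymm h (hle O1 O2 h1 h2' h))
  have hn2 : ¬ O2 ≤ O1 := fun h => hne (le_antisymm (hle O2 O1 h2 h1' h) h)
  obtain ⟨a, ha1, ha2⟩ := Set.not_subset.1 hn1
  obtain ⟨b, hb2, hb1⟩ := Set.not_subset.1 hn2
  have ha1' : O1.valuation a ≤ 1 := (O1.valuation_le_one_iff a).2 ha1
  have ha2' : 1 < O2.valuation a := not_le.1 (fun h => ha2 ((O2.valuation_le_one_iff a).1 h))
  have hb2' : O2.valuation b ≤ 1 := (O2.valuation_le_one_iff b).2 hb2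
  have hb1' : 1 < O1.valuation b := not_le.1 (fun h => hb1 ((O1.valuation_le_one_iff b).1 h))
  have ha0 : a ≠ 0 := by
    rintro rfl
    rw [map_zero] at ha2'
    exact absurd ha2' (not_lt.2 zero_le_one)
  have hb0 : b ≠ 0 := by
    rintro rfl
    rw [map_zero] at hb1'
    exact absurd hb1' (not_lt.2 zero_le_one)
  set t : F := a / b with ht
  have ht1 : O1.valuation t < 1 := by
    rw [ht, map_div₀, div_lt_one₀ (zero_lt_one.trans hb1')]
    exact lt_of_le_of_lt ha1' hb1'
  have ht2 : 1 < O2.valuation t := by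
    rw [ht, map_div₀]
    have hb0' : 0 < O2.valuation b := zero_lt_iff.2 ((Valuation.ne_zero_iff _).2 hb0)
    rw [one_lt_div₀ hb0']
    exact lt_of_le_of_lt hb2' ha2'
  have h1t1 : O1.valuation (1 + t) = 1 := by
    have := Valuation.map_add_eq_of_lt_left O1.valuation (x := 1) (y := t)
      (by rw [map_one]; exact ht1)
    rwa [map_one] at this
  have h1t2 : O2.valuation (1 + t) = O2.valuation t :=
    Valuation.map_add_eq_of_lt_right O2.valuation (by rw [map_one]; exact ht2)
  have h1t0 : (1 + t) ≠ 0 := by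
    intro h
    rw [h, map_zero] at h1t1
    exact zero_ne_one h1t1
  set w : F := algebraMap K F u with hw
  have hw0 : w ≠ 0 := (map_ne_zero _).2 hu0
  have hunit : ∀ O : ValuationSubring F, (∀ c : K, algebraMap K F c ∈ O) →
      ∀ c : K, c ≠ 0 → O.valuation (algebraMap K F c) = 1 := by
    intro O hO c hc
    have e1 : O.valuation (algebraMap K F c) ≤ 1 := (O.valuation_le_one_iff _).2 (hO c)
    have e2 : O.valuation (algebraMap K F c⁻¹) ≤ 1 := (O.valuation_le_one_iff _).2 (hO c⁻¹)
    refine le_antisymm e1 ?_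
    rw [map_inv₀, map_inv₀] at e2
    exact (inv_le_one₀ (zero_lt_iff.2 ((Valuation.ne_zero_iff _).2 ((map_ne_zero _).2 hc)))).1 e2
  have h22 : O2.valuation w = 1 := hunit O2 h2 u hu0
  have hwle : O1.valuation (w - 1) ≤ 1 := by
    have e : w - 1 = algebraMap K F (u - 1) := by rw [map_sub, map_one]
    rw [e]
    exact (O1.valuation_le_one_iff _).2 (h1 _)
  have hwle2 : O2.valuation (1 - w) ≤ 1 := by
    have e : 1 - w = algebraMap K F (1 - u) := by rw [map_sub, map_one]
    rw [e]
    exact (O2.valuation_le_one_iff _).2 (h2 _)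
  have hK1 : ∀ c : K, algebraMap K M c ∈ W1 := by
    intro c
    have h3 : algebraMap K F c ∈ W1.comap (algebraMap F M) := by rw [hW1]; exact h1 c
    rw [ValuationSubring.mem_comap, ← IsScalarTower.algebraMap_apply] at h3
    exact h3
  have hK2 : ∀ c : K, algebraMap K M c ∈ W2 := by
    intro c
    have h3 : algebraMap K F c ∈ W2.comap (algebraMap F M) := by rw [hW2]; exact h2 c
    rw [ValuationSubring.mem_comap, ← IsScalarTower.algebraMap_apply] at h3
    exact h3
  have hval : ∀ (O : ValuationSubring F) (W : ValuationSubring M),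
      W.comap (algebraMap F M) = O → ∀ x : F, O.valuation x < 1 →
        W.valuation (algebraMap F M x) < 1 := by
    intro O W hOW x hx
    rcases (ValuationSubring.mem_nonunits_iff_or _).1 hx with h | h
    · rw [h, map_zero, map_zero]
      exact zero_lt_one
    · apply (ValuationSubring.mem_nonunits_iff_or _).2
      right
      intro h3
      apply h
      rw [← hOW, ValuationSubring.mem_comap, map_inv₀]
      exact h3
  have hf1 : O1.valuation ((1 + w * t) / (1 + t) - 1) < 1 := by
    have e : (1 + w * t) / (1 + t) - 1 = ((w - 1) * t) / (1 + t) := by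
      field_simp
      ring
    rw [e, map_div₀, h1t1, div_one, map_mul, mul_comm]
    exact mul_lt_one_of_lt_of_le ht1 hwle
  have hf2 : O2.valuation ((1 + w * t) / (1 + t) / w - 1) < 1 := by
    have e : (1 + w * t) / (1 + t) / w - 1 = (1 - w) / (w * (1 + t)) := by
      field_simp
      ring
    rw [e, map_div₀, map_mul, h22, one_mul, h1t2]
    rw [div_lt_one₀ (zero_lt_one.trans ht2)]
    exact lt_of_le_of_lt hwle2 ht2
  obtain ⟨g1, hg1, hg1N⟩ := exists_root A hK1 hs1 (hF ((1 + w * t) / (1 + t))) (by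
    have := hval O1 W1 hW1 _ hf1
    rwa [map_sub, map_one] at this) (N := N) hN0
  obtain ⟨g2, hg2, hg2N⟩ := exists_root A hK2 hs2 (hF ((1 + w * t) / (1 + t) / w)) (by
    have := hval O2 W2 hW2 _ hf2
    rwa [map_sub, map_one] at this) (N := N) hN0
  have hnz : algebraMap F M ((1 + w * t) / (1 + t)) ≠ 0 := by
    intro h0
    have h3 := hval O1 W1 hW1 _ hf1
    rw [map_sub, h0, map_one, zero_sub, Valuation.map_neg, map_one] at h3
    exact lt_irrefl _ h3
  have hwM : algebraMap F M w = algebraMap K M u := by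
    rw [hw, ← IsScalarTower.algebraMap_apply]
  have huM : algebraMap K M u ≠ 0 := (map_ne_zero _).2 hu0
  have hpow : (g1 / g2) ^ N = algebraMap K M u := by
    rw [div_pow, hg1N, hg2N, map_div₀ (algebraMap F M) _ w, hwM]
    field_simp
  have hju : A.j (algebraMap K (AlgebraicClosure K) u) = algebraMap K M u := A.j.commutes u
  obtain ⟨z, hz⟩ := Pool.Agent.W620.SC.root_mem (A.j : AlgebraicClosure K →+* M)
    (n := N) hN0 (h := g1 / g2) (b := algebraMap K (AlgebraicClosure K) u) (by
      rw [hpow]; exact hju.symm)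
  have hzf : A.j z ∈ A.fix := by
    have hz' : A.j z = g1 / g2 := hz
    rw [hz']
    exact div_mem hg1 hg2
  obtain ⟨c, hc⟩ := A.fix_j hzf
  have hz' : A.j z = g1 / g2 := hz
  have h9 : A.j (algebraMap K (AlgebraicClosure K) c) ^ N =
      A.j (algebraMap K (AlgebraicClosure K) u) := by rw [hc, hz', hju, hpow]
  refine hu c ?_
  apply (algebraMap K (AlgebraicClosure K)).injective
  apply A.j.injective
  rw [map_pow, map_pow]
  exact h9

end Pool.Agent.V7H43.BS
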