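import Pool.Agent.V7H43.BS.Div
import Pool.Agent.V7H43.BS.Ult
import Pool.Agent.V7H43.BS.Uni
import Pool.Agent.TH954.SBir2

/-!
# Birational sections over `k(t)`
-/

set_option autoImplicit false
set_option linter.all false

open WeierstrassCurve

namespace Pool.Agent.V7H43.BS

open Pool.Agent.TH954 Pool.Agent.TH942 Pool.Agent.H901R3.MS

/-- nonsingular points -/
lemma ns_of_eq {K M : Type} [Field K] [CharZero K] [Field M] [Algebra K M] {a b : K}
    (hD : 4 * a ^ 3 + 27 * b ^ 2 ≠ 0) {x y : M}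
    (h : y ^ 2 = x ^ 3 + algebraMap K M a * x + algebraMap K M b) :
    ((sw a b).baseChange M).toAffine.Nonsingular x y := by
  have i3 : CharZero M := charZero_of_injective_algebraMap (algebraMap K M).injective
  rw [base_eq]
  exact (nonsingular_iff (disc_base hD)).2 h

/-- the twisted point is fixed by the twisted action -/
lemma tw_point {K M : Type} [Field K] [CharZero K] [Field M] [CharZero M] [Algebra K M]
    {A : SAct K M} {a b : K} {ρ : AlgebraicClosure K} (hρ0 : ρ ≠ 0) (hμ : TwOK A a b ρ) {x y : M}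
    (hx : x ∈ A.fix) (hy : y ∈ A.fix)
    (h : ((sw a b).baseChange M).toAffine.Nonsingular (x / A.j ρ ^ 2) (y / A.j ρ ^ 3)) (g) :
    tw A a b ρ g (.some (x / A.j ρ ^ 2) (y / A.j ρ ^ 3) h) =
      .some (x / A.j ρ ^ 2) (y / A.j ρ ^ 3) h := by
  classical
  obtain ⟨k1, e⟩ := pm_some (E := sw a b) ((A.s g : M ≃ₐ[K] M) : M →ₐ[K] M) h
  have e1 : A.pt a b g (.some (x / A.j ρ ^ 2) (y / A.j ρ ^ 3) h) =
    .some (A.s g (x / A.j ρ ^ 2)) (A.s g (y / A.j ρ ^ 3)) k1 := e
  have hr : A.j ρ ≠ 0 := (map_ne_zero _).2 hρ0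
  have hgr : A.j (g ρ) ≠ 0 := (map_ne_zero _).2 ((map_ne_zero _).2 hρ0)
  rw [tw_apply, e1, au_some (hμ g), Affine.Point.some.injEq]
  constructor
  · rw [map_div₀, map_div₀, map_pow, A.hj, hx g]
    field_simp
  · rw [map_div₀, map_div₀, map_pow, A.hj, hy g]
    field_simp

/-- valuation rings which contain a field over which the field is algebraic -/
lemma eq_top_of_alg {L M : Type} [Field L] [Field M] [Algebra L M] [Algebra.IsAlgebraic L M]
    (W : ValuationSubring M) (h : ∀ c : L, algebraMap L M c ∈ W) (z : M) : z ∈ W := by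
  obtain ⟨p, hp, hz⟩ := Algebra.IsIntegral.isIntegral (R := L) z
  let f : L →+* W := (algebraMap L M).codRestrict W.toSubring h
  have h1 : IsIntegral W z := by
    refine ⟨p.map f, hp.map f, ?_⟩
    rw [Polynomial.eval₂_map]
    exact hz
  obtain ⟨y, hy⟩ := IsIntegrallyClosed.isIntegral_iff.1 h1
  rw [← hy]
  exact y.2

/-- algebraic elements of `L` are in `K` if there is a section -/
lemma alg_mem_base {K L Ω B : Type} [Field K] [CharZero K] [Field L] [Field Ω]
    [Field B] [Algebra K L] [Algebra L Ω] [Algebra K Ω] [Algebra K B]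
    [IsScalarTower K L Ω] [IsAlgClosure L Ω] [IsAlgClosure K B]
    (s : GalSection K L Ω B) {x : L} (hx : IsAlgebraic K x) : ∃ c : K, algebraMap K L c = x := by
  have hΩ2 : Algebra.IsAlgebraic L Ω := IsAlgClosure.isAlgebraic
  have hcL : CharZero L := charZero_of_injective_algebraMap (algebraMap K L).injective
  have hcΩ : CharZero Ω := charZero_of_injective_algebraMap (algebraMap L Ω).injective
  have h1 : IsAlgebraic K (algebraMap L Ω x) := hx.algebraMap
  obtain ⟨z, hz⟩ := alg_range (toSAct s).j h1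
  have h2 : (toSAct s).j z ∈ (toSAct s).fix := by
    rw [hz]
    intro τ
    exact (s.s ((eqv K B).autCongr τ)).commutes x
  obtain ⟨c, hc⟩ := (toSAct s).fix_j h2
  refine ⟨c, (algebraMap L Ω).injective ?_⟩
  rw [← hz, ← hc, (toSAct s).j.commutes, ← IsScalarTower.algebraMap_apply]

open scoped Classical in
/-- **A divisible point gives a place.** -/
theorem of_divisible {K L Ω B : Type} [Field K] [CharZero K] [Field L] [Field Ω]
    [Field B] [Algebra K L] [Algebra L Ω] [Algebra K Ω] [Algebra K B]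
    [IsScalarTower K L Ω] [IsAlgClosure L Ω] [IsAlgClosure K B] [CharZero Ω] [IsAlgClosed Ω]
    (hfgK : (⊤ : IntermediateField ℚ K).FG) {a b : K} (hDK : 4 * a ^ 3 + 27 * b ^ 2 ≠ 0)
    (hdim : ∀ x : Ω, Transcendental K x → ∀ t : Ω, IsAlgebraic (Algebra.adjoin K {x}) t)
    (s : GalSection K L Ω B) {ρ : AlgebraicClosure K} (hρ0 : ρ ≠ 0)
    (hμ : TwOK (toSAct s (F := L)) a b ρ) (X : ((sw a b).baseChange Ω).toAffine.Point) (hX0 : X ≠ 0)
    (hdiv : ∀ N : ℕ, 0 < N → ∃ Q, (∀ g, tw (toSAct s (F := L)) a b ρ g Q = Q) ∧ N • Q = X) :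
    ∃ O : ValuationSubring L, s.ArisesFrom O := by
  have hΩ2 : Algebra.IsAlgebraic L Ω := IsAlgClosure.isAlgebraic
  have hcL : CharZero L := charZero_of_injective_algebraMap (algebraMap K L).injective
  set A := toSAct s (F := L) with hA
  have hAF : ∀ (τ : AlgebraicClosure K ≃ₐ[K] AlgebraicClosure K) (x : L),
      A.s τ (algebraMap L Ω x) = algebraMap L Ω x :=
    fun τ x => (s.s ((eqv K B).autCongr τ)).commutes x
  have hfixF : ∀ x : L, algebraMap L Ω x ∈ A.fix := fun x τ => hAF τ x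
  obtain ⟨x1, y1, h1, hX1⟩ : ∃ x1 y1 h, X = .some x1 y1 h := by
    rcases hd : X with _ | ⟨x0, y0, h⟩
    · exact absurd hd hX0
    · exact ⟨x0, y0, h, rfl⟩
  set I := PlSet A ρ {a, b} with hI
  have hnot : ∀ W ∈ I, x1 ∉ W := by
    intro W hW
    exact notMem_of_div hDK hρ0 hμ (S := {a, b}) (by simp) (by simp) hW X hdiv x1 y1 h1 hX1
  have hob : Obs A I := obst hfgK A ρ _
  have hx10 : x1 ≠ 0 := by
    obtain ⟨l, n, -, hh⟩ := hob ∅ (fun _ _ h => absurd h (Finset.notMem_empty _))
      (fun _ h => absurd h (Finset.notMem_empty _))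
    obtain ⟨W, hW, -⟩ := hh 1 one_ne_zero
    intro h0
    apply hnot W hW
    rw [h0]
    exact zero_mem _
  have hIc : ∀ W ∈ I, ∀ c : K, algebraMap K Ω c ∈ W := by
    rintro W ⟨L', iL, jL, v, iK, pl, rfl, -⟩ c
    exact pl.alg_mem c
  obtain ⟨W, hW1, hW2, hW3, hW4⟩ := exists_limit hIc hob (t := x1⁻¹) (inv_ne_zero hx10)
    (fun W hW => by
      have := vl_inv_of_notMem (A := A) (hnot W hW)
      unfold Vl at this
      rwa [map_zero, sub_zero] at this)
    (fun z hz => hdim z hz _)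
  have hst : ∀ (g : B ≃ₐ[K] B) (x : Ω), x ∈ W → s.s g x ∈ W := by
    intro g x hx
    rw [← toSAct_s s (F := L)]
    exact hW3 _ _ hx
  refine ⟨W.comap (algebraMap L Ω), ?_, ?_, ?_, W, rfl, fun g x => ⟨fun h => ?_, hst g x⟩⟩
  · intro htop
    have h3 : x1⁻¹⁻¹ ∈ W := by
      refine eq_top_of_alg (L := L) W (fun c => ?_) _
      have : c ∈ W.comap (algebraMap L Ω) := by
        rw [htop]
        exact ValuationSubring.mem_top c
      exact this
    rcases (ValuationSubring.mem_nonunits_iff_or _).1 hW2 with h5 | h5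
    · exact inv_ne_zero hx10 h5
    · exact h5 h3
  · intro c
    rw [ValuationSubring.mem_comap, ← IsScalarTower.algebraMap_apply]
    exact hW1 c
  · intro z hz
    obtain ⟨c, hc⟩ := hW4 _ (hfixF z) (ValuationSubring.mem_comap.1 hz)
    refine ⟨c, (ValuationSubring.mem_nonunits_iff_or _).2 ?_⟩
    by_cases h0 : z - algebraMap K L c = 0
    · exact Or.inl h0
    · right
      intro h3
      have h4 := ValuationSubring.mem_comap.1 h3
      rw [IsScalarTower.algebraMap_apply K L Ω, ← map_sub] at hc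
      rcases (ValuationSubring.mem_nonunits_iff_or _).1 hc with h5 | h5
      · exact h0 ((map_eq_zero _).1 h5)
      · rw [map_inv₀] at h4
        exact h5 h4
  · have h3 := hst g⁻¹ _ h
    have h4 : s.s g⁻¹ (s.s g x) = x := by
      change (s.s g⁻¹ * s.s g) x = x
      rw [← map_mul, inv_mul_cancel, map_one]
      rfl
    rwa [h4] at h3

open scoped Classical in
theorem main_dim {k K L Ω B : Type} [Field k] [CharZero k] [Field K] [CharZero K] [Field L]
    [Field Ω]
    [Field B] [Algebra k K] [Algebra K L] [Algebra L Ω] [Algebra K Ω] [Algebra K B]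
    [IsScalarTower K L Ω] [IsAlgClosure L Ω] [IsAlgClosure K B]
    (hfg : (⊤ : IntermediateField ℚ k).FG) {t : K} (ht : Transcendental k t)
    (hgen : IntermediateField.adjoin k {t} = ⊤) {a b : k} (hD : 4 * a ^ 3 + 27 * b ^ 2 ≠ 0)
    {n : ℕ} (hn : 2 ≤ n) (ha : n ∣ 4 ∨ a = 0) (hb : n ∣ 6 ∨ b = 0)
    (hdim : ∀ x : Ω, Transcendental K x → ∀ t : Ω, IsAlgebraic (Algebra.adjoin K {x}) t)
    {x y : L} (hxy : y ^ 2 = x ^ 3 + algebraMap K L (algebraMap k K a * t ^ (4 / n)) * x +
      algebraMap K L (algebraMap k K b * t ^ (6 / n))) (hx : ∀ c : K, algebraMap K L c ≠ x)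
    (s : GalSection K L Ω B) : ∃ O : ValuationSubring L, s.ArisesFrom O := by
  have hΩ1 : IsAlgClosed Ω := IsAlgClosure.isAlgClosed L
  have hΩ2 : Algebra.IsAlgebraic L Ω := IsAlgClosure.isAlgebraic
  have hcL : CharZero L := charZero_of_injective_algebraMap (algebraMap K L).injective
  have hcΩ : CharZero Ω := charZero_of_injective_algebraMap (algebraMap L Ω).injective
  have hfgK := fg_adjoin hfg hgen
  have hDK := disc_up (K := K) hD
  obtain ⟨κ₀, j1, j2, j3, j4, j5, ρ, hρ2, hρ, hal, hK, hρ0, hχ, ζ, hζn, hζ1, g₀, hg₀, hg₀ρ⟩ :=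
    setup ht hgen hn
  have i1 : IsAlgClosed κ₀ := IsAlgClosure.isAlgClosed k
  set A := toSAct s (F := L) with hA
  have hAF : ∀ (τ : AlgebraicClosure K ≃ₐ[K] AlgebraicClosure K) (x : L),
      A.s τ (algebraMap L Ω x) = algebraMap L Ω x :=
    fun τ x => (s.s ((eqv K B).autCongr τ)).commutes x
  have hfixF : ∀ x : L, algebraMap L Ω x ∈ A.fix := fun x τ => hAF τ x
  -- the twisted action
  have hμ : TwOK A (algebraMap k K a) (algebraMap k K b) ρ := by
    intro τ
    obtain ⟨c, hc, hτ⟩ := hχ τ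
    have hq : τ ρ / ρ = algebraMap κ₀ (AlgebraicClosure K) c := by
      rw [hτ, mul_div_assoc, div_self hρ0, mul_one]
    have hun : (A.j (τ ρ / ρ)) ^ n = 1 := by
      rw [hq, ← map_pow, ← map_pow, hc, map_one, map_one]
    refine ⟨algebraMap K Ω (algebraMap k K a), algebraMap K Ω (algebraMap k K b), base_eq _ _ _,
      disc_base hDK, ?_, ?_, ?_⟩
    · intro h0
      rw [h0, zero_pow (by omega)] at hun
      exact zero_ne_one hun
    · rcases ha with ⟨c, hc⟩ | ha
      · rw [hc, pow_mul, hun, one_pow, one_mul]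
      · rw [ha, map_zero, map_zero, mul_zero]
    · rcases hb with ⟨c, hc⟩ | hb
      · rw [hc, pow_mul, hun, one_pow, one_mul]
      · rw [hb, map_zero, map_zero, mul_zero]
  -- the point
  have hr : A.j ρ ≠ 0 := (map_ne_zero _).2 hρ0
  have hrt : (A.j ρ) ^ n = algebraMap K Ω t := by
    rw [← map_pow, hρ2, A.j.commutes]
  have hra : algebraMap K Ω (algebraMap k K a * t ^ (4 / n)) =
      algebraMap K Ω (algebraMap k K a) * A.j ρ ^ 4 := by
    rw [map_mul, map_pow, ← hrt, ← pow_mul]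
    rcases ha with ha | ha
    · rw [Nat.mul_div_cancel' ha]
    · rw [ha, map_zero, map_zero, zero_mul, zero_mul]
  have hrb : algebraMap K Ω (algebraMap k K b * t ^ (6 / n)) =
      algebraMap K Ω (algebraMap k K b) * A.j ρ ^ 6 := by
    rw [map_mul, map_pow, ← hrt, ← pow_mul]
    rcases hb with hb | hb
    · rw [Nat.mul_div_cancel' hb]
    · rw [hb, map_zero, map_zero, zero_mul, zero_mul]
  have hxy' := congrArg (algebraMap L Ω) hxy
  rw [map_pow, map_add, map_add, map_mul, map_pow, ← IsScalarTower.algebraMap_apply,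
    ← IsScalarTower.algebraMap_apply, hra, hrb] at hxy'
  have heq : (algebraMap L Ω y / A.j ρ ^ 3) ^ 2 = (algebraMap L Ω x / A.j ρ ^ 2) ^ 3 +
      algebraMap K Ω (algebraMap k K a) * (algebraMap L Ω x / A.j ρ ^ 2) +
        algebraMap K Ω (algebraMap k K b) := by
    field_simp
    linear_combination hxy'
  have hns := ns_of_eq hDK heq
  set P : ((sw (algebraMap k K a) (algebraMap k K b)).baseChange Ω).toAffine.Point :=
    .some (algebraMap L Ω x / A.j ρ ^ 2) (algebraMap L Ω y / A.j ρ ^ 3) hns with hP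
  have hPf : ∀ g, tw A (algebraMap k K a) (algebraMap k K b) ρ g P = P := fun g =>
    tw_point hρ0 hμ (hfixF x) (hfixF y) hns g
  obtain ⟨D, hD2, hdiv⟩ := exists_divisible (κ₀ := κ₀) (A := A) hfg hD hρ hal hK hρ0 hμ
    (fun τ => by
      obtain ⟨c, -, hc⟩ := hχ τ
      exact ⟨c, hc⟩) g₀ hg₀ hζ1 hg₀ρ P hPf
  -- the point is not zero
  have hX0 : P + D ≠ 0 := by
    intro h0
    have h1 : 6 • P = 0 := by
      have : P = -D := eq_neg_of_add_eq_zero_left h0
      rw [this, smul_neg, hD2, neg_zero]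
    obtain ⟨T0, hT0⟩ := torsion_mem hDK A.j 6 (by norm_num) P h1
    rcases T0 with _ | ⟨x', y', h'⟩
    · exact Affine.Point.some_ne_zero hns hT0.symm
    · obtain ⟨g, e1⟩ := pm_some (E := sw (algebraMap k K a) (algebraMap k K b)) A.j h'
      rw [e1, hP, Affine.Point.some.injEq] at hT0
      have h2 : A.j (x' * ρ ^ 2) = algebraMap L Ω x := by
        rw [map_mul, hT0.1, map_pow, div_mul_cancel₀ _ (pow_ne_zero 2 hr)]
      have h3 : A.j (x' * ρ ^ 2) ∈ A.fix := by
        rw [h2]
        exact hfixF x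
      obtain ⟨c, hc⟩ := A.fix_j h3
      apply hx c
      apply (algebraMap L Ω).injective
      rw [← h2, ← hc, A.j.commutes, ← IsScalarTower.algebraMap_apply]
  exact of_divisible hfgK hDK hdim s hρ0 hμ (P + D) hX0 hdiv

end Pool.Agent.V7H43.BS
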