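import Pool.Agent.W858.SG.Setup

/-!
# Embeddings of finitely generated fields in completions of number fields such that a polynomial
has no roots
-/

set_option autoImplicit false
set_option linter.unusedSectionVars false

namespace Pool.Agent.V7H43.BS

open IsDedekindDomain NumberField WithZero Polynomial Pool.Agent.W858.SF Pool.Agent.W858.SG
  Pool.Agent.W623.SecC

theorem noroot_emb {L : Type} [Field L] [NumberField L] (v : HeightOneSpectrum (𝓞 L))
    {R : Type} [CommRing R] {k : Type} [Field k] [CharZero k] [Algebra R k]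
    (hinjk : Function.Injective (algebraMap R k)) (P : R →+* L) (ψ : k →+* v.adicCompletion L)
    (hPint : ∀ r, v.valuation L (P r) ≤ 1)
    (hψ : ∀ r, vv v (ψ (algebraMap R k r) - algebraMap L (v.adicCompletion L) (P r)) ≤ exp (-2))
    (G : R[X]) (N : 𝓞 L) (g : (𝓞 L)[X])
    (hg : g.map (algebraMap (𝓞 L) L) = C (algebraMap (𝓞 L) L N) * G.map P)
    (hdeg : g.natDegree = G.natDegree) (hlc : g.leadingCoeff ∉ v.asIdeal)
    (hroot : ∀ r : 𝓞 L ⧸ v.asIdeal, (g.map (Ideal.Quotient.mk v.asIdeal)).eval r ≠ 0)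
    (z : v.adicCompletion L) : (G.map (algebraMap R k)).eval₂ ψ z ≠ 0 := by
  classical
  intro hz0
  have hfinres := finite_residue v
  have hmax : v.asIdeal.IsMaximal := v.isMaximal
  let _ := Ideal.Quotient.field v.asIdeal
  obtain ⟨θ, hθ, hθr⟩ := exists_residue_map v
  have hθinj : Function.Injective θ := θ.injective
  have hγ2 : (exp (-2) : ℤᵐ⁰) < 1 := by
    rw [← exp_zero, exp_lt_exp]
    omega
  have hPv : ∀ r, vv v (algebraMap L (v.adicCompletion L) (P r)) ≤ 1 := fun r => by
    rw [vv_algebraMap]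
    exact hPint r
  have hψ1 : ∀ r, vv v (ψ (algebraMap R k r)) ≤ 1 := by
    intro r
    have h1 : ψ (algebraMap R k r) = (ψ (algebraMap R k r) -
      algebraMap L (v.adicCompletion L) (P r)) + algebraMap L (v.adicCompletion L) (P r) := by ring
    rw [h1]
    exact (Valuation.map_add _ _ _).trans (max_le ((hψ r).trans hγ2.le) (hPv r))
  have hinj : Function.Injective (ψ.comp (algebraMap R k)) := ψ.injective.comp hinjk
  obtain ⟨gB, hgB⟩ : ∃ gB : (vv v).valuationSubring[X],
      gB.map (algebraMap (vv v).valuationSubring (v.adicCompletion L)) =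
        G.map (ψ.comp (algebraMap R k)) := by
    have h1 : G.map (ψ.comp (algebraMap R k)) ∈
        Polynomial.lifts (algebraMap (vv v).valuationSubring (v.adicCompletion L)) := by
      rw [Polynomial.lifts_iff_coeff_lifts]
      intro j
      exact ⟨⟨(G.map (ψ.comp (algebraMap R k))).coeff j, by
        rw [coeff_map]
        exact hψ1 _⟩, rfl⟩
    obtain ⟨f, hf⟩ := (Polynomial.mem_lifts _).1 h1
    exact ⟨f, hf⟩
  have hcoeff : ∀ j, ((gB.coeff j : (vv v).valuationSubring) : v.adicCompletion L) =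
      ψ (algebraMap R k (G.coeff j)) := by
    intro j
    have := congrArg (fun q => q.coeff j) hgB
    simp only [coeff_map] at this
    exact this
  have hNint : ∀ r : 𝓞 L, vv v (algebraMap L (v.adicCompletion L) (algebraMap (𝓞 L) L r)) ≤ 1 := by
    intro r
    rw [vv_algebraMap]
    exact v.valuation_le_one r
  let NB : (vv v).valuationSubring :=
    ⟨algebraMap L (v.adicCompletion L) (algebraMap (𝓞 L) L N), hNint N⟩
  have hNBres : IsLocalRing.residue _ NB = θ (Ideal.Quotient.mk v.asIdeal N) := by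
    apply hθr
    change vv v (algebraMap L (v.adicCompletion L) (algebraMap (𝓞 L) L N) -
      algebraMap L (v.adicCompletion L) (algebraMap (𝓞 L) L N)) < 1
    rw [sub_self, map_zero]
    exact zero_lt_one
  have hres : ∀ j, IsLocalRing.residue _ (gB.coeff j) * θ (Ideal.Quotient.mk v.asIdeal N) =
      θ (Ideal.Quotient.mk v.asIdeal (g.coeff j)) := by
    intro j
    rw [← hNBres, ← map_mul]
    apply hθr
    have h1 : algebraMap (𝓞 L) L (g.coeff j) = algebraMap (𝓞 L) L N * P (G.coeff j) := by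
      have := congrArg (fun q => q.coeff j) hg
      simpa only [coeff_map, coeff_C_mul] using this
    have h2 : ((gB.coeff j * NB : (vv v).valuationSubring) : v.adicCompletion L) -
        algebraMap L (v.adicCompletion L) (algebraMap (𝓞 L) L (g.coeff j)) =
        algebraMap L (v.adicCompletion L) (algebraMap (𝓞 L) L N) * (ψ (algebraMap R k (G.coeff j)) -
          algebraMap L (v.adicCompletion L) (P (G.coeff j))) := by
      rw [h1, map_mul]
      change ((gB.coeff j : (vv v).valuationSubring) : v.adicCompletion L) *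
        algebraMap L (v.adicCompletion L) (algebraMap (𝓞 L) L N) - _ = _
      rw [hcoeff]
      ring
    rw [h2, map_mul]
    exact mul_lt_of_le_one_of_lt (hNint N) ((hψ _).trans_lt hγ2)
  have hpoly : gB.map (IsLocalRing.residue _) * C (θ (Ideal.Quotient.mk v.asIdeal N)) =
      (g.map (Ideal.Quotient.mk v.asIdeal)).map θ := by
    ext j
    rw [coeff_mul_C, coeff_map, coeff_map, coeff_map]
    exact hres j
  have hdegB : gB.natDegree = G.natDegree := by
    rw [← natDegree_map_eq_of_injective (f := algebraMap (vv v).valuationSubring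
      (v.adicCompletion L)) Subtype.val_injective gB, hgB, natDegree_map_eq_of_injective hinj G]
  have hlcu : IsUnit gB.leadingCoeff := by
    have h4 : gB.leadingCoeff ∉ IsLocalRing.maximalIdeal (vv v).valuationSubring := by
      intro h5
      have h6 := hres gB.natDegree
      have h7 : IsLocalRing.residue _ (gB.coeff gB.natDegree) = 0 :=
        (IsLocalRing.residue_eq_zero_iff _).2 h5
      rw [h7, zero_mul, hdegB, ← hdeg] at h6
      have h8 := (map_eq_zero_iff _ hθinj).1 h6.symm
      rw [Ideal.Quotient.eq_zero_iff_mem] at h8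
      exact hlc h8
    by_contra h5
    exact h4 ((IsLocalRing.mem_maximalIdeal _).2 h5)
  obtain ⟨u, hu⟩ := hlcu
  have hz1 : gB.eval₂ (algebraMap (vv v).valuationSubring (v.adicCompletion L)) z = 0 := by
    rw [← eval_map, hgB, eval_map]
    rw [eval₂_map] at hz0
    exact hz0
  have hzint : IsIntegral (vv v).valuationSubring z := by
    refine ⟨C (↑u⁻¹ : (vv v).valuationSubring) * gB, ?_, ?_⟩
    · unfold Monic
      rw [leadingCoeff_mul, leadingCoeff_C, ← hu, Units.inv_mul]
    · rw [eval₂_mul, hz1, mul_zero]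
  obtain ⟨b, hb⟩ := IsIntegrallyClosed.isIntegral_iff.1 hzint
  have hb0 : gB.eval b = 0 := by
    apply (FaithfulSMul.algebraMap_injective (vv v).valuationSubring (v.adicCompletion L))
    rw [map_zero, ← hz1, ← hb, ← eval₂_at_apply]
  obtain ⟨r, hr⟩ := exists_int_close v b
  have h5 := hθr r b hr
  have h7 : ((g.map (Ideal.Quotient.mk v.asIdeal)).map θ).eval
      (θ (Ideal.Quotient.mk v.asIdeal r)) = 0 := by
    rw [← hpoly, eval_mul, ← h5, eval_map, eval₂_at_apply, hb0, map_zero, zero_mul]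
  rw [eval_map, eval₂_at_apply] at h7
  exact hroot _ ((map_eq_zero_iff _ hθinj).1 h7)

theorem noroot_point {R k : Type} [CommRing R] [Field k] [CharZero k] [Algebra R k]
    (hinjk : Function.Injective (algebraMap R k)) (f : k[X]) (d : R) (F : R[X])
    (hdF : C (algebraMap R k d) * f = F.map (algebraMap R k))
    {L : Type} [Field L] [NumberField L] (P : R →+* L)
    (hlc : P F.leadingCoeff ≠ 0) (hsep : (F.map P).Separable)
    (hσ : ∃ σ' : AlgebraicClosure L ≃ₐ[L] AlgebraicClosure L,
        ∀ θ : AlgebraicClosure L, aeval θ (F.map P) = 0 → σ' θ ≠ θ)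
    (hemb : AE fun v : HeightOneSpectrum (𝓞 L) => (∀ r, v.valuation L (P r) ≤ 1) ∧
      ∃ ψ : k →+* v.adicCompletion L,
        ∀ r, vv v (ψ (algebraMap R k r) - algebraMap L (v.adicCompletion L) (P r)) ≤ exp (-2)) :
    ∃ (v : HeightOneSpectrum (𝓞 L)) (ψ : k →+* v.adicCompletion L),
      (∀ r : R, ‖ψ (algebraMap R k r)‖ ≤ 1) ∧ ∀ z : v.adicCompletion L, f.eval₂ ψ z ≠ 0 := by
  classical
  obtain ⟨c, hc, hcf⟩ := IsLocalization.integerNormalization_spec (nonZeroDivisors (𝓞 L)) (F.map P)
  set g := IsLocalization.integerNormalization (nonZeroDivisors (𝓞 L)) (F.map P) with hg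
  have hc0 : c ≠ 0 := nonZeroDivisors.ne_zero hc
  have hinj : Function.Injective (algebraMap (𝓞 L) L) := IsFractionRing.injective (𝓞 L) L
  have hcK : algebraMap (𝓞 L) L c ≠ 0 := by
    rw [Ne, map_eq_zero_iff _ hinj]
    exact hc0
  have hgf : g.map (algebraMap (𝓞 L) L) = C (algebraMap (𝓞 L) L c) * F.map P := by
    rw [hcf]
    ext i
    rw [coeff_smul, coeff_C_mul, Algebra.smul_def]
  have hdegP : (F.map P).natDegree = F.natDegree :=
    natDegree_map_of_leadingCoeff_ne_zero P hlc
  have hdeg : g.natDegree = F.natDegree := by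
    rw [← natDegree_map_eq_of_injective hinj g, hgf, natDegree_C_mul hcK, hdegP]
  have hgs : (g.map (algebraMap (𝓞 L) L)).Separable := by
    rw [hgf]
    exact Separable.unit_mul (isUnit_C.2 hcK.isUnit) hsep
  have hgσ : ∃ σ : AlgebraicClosure L ≃ₐ[L] AlgebraicClosure L,
      ∀ θ : AlgebraicClosure L, aeval θ (g.map (algebraMap (𝓞 L) L)) = 0 → σ θ ≠ θ := by
    obtain ⟨σ, hσ⟩ := hσ
    refine ⟨σ, fun θ hθ => hσ θ ?_⟩
    rw [hgf, map_mul, aeval_C] at hθ
    exact (mul_eq_zero.1 hθ).resolve_left ((_root_.map_ne_zero _).2 hcK)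
  obtain ⟨N1, hN1, hemb⟩ := hemb
  obtain ⟨T, hT, hTε⟩ := Pool.Agent.W723.SecC.partD1 L g N1 hN1 hgs hgσ 1 one_pos
  have hTne : T.Nonempty := by
    rw [Finset.nonempty_iff_ne_empty]
    rintro rfl
    rw [Finset.prod_empty] at hTε
    exact lt_irrefl _ hTε
  obtain ⟨v, hv⟩ := hTne
  obtain ⟨hN1v, h2v, hlcv, hsv, hrv⟩ := hT v hv
  obtain ⟨hint, ψ, hψ⟩ := hemb v hN1v
  have hγ2 : (exp (-2) : ℤᵐ⁰) < 1 := by
    rw [← exp_zero, exp_lt_exp]
    omega
  refine ⟨v, ψ, fun r => ?_, fun z hz => ?_⟩
  · rw [← norm_one (α := v.adicCompletion L), norm_le_iff, map_one]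
    have h1 : ψ (algebraMap R k r) = (ψ (algebraMap R k r) -
      algebraMap L (v.adicCompletion L) (P r)) + algebraMap L (v.adicCompletion L) (P r) := by ring
    rw [h1]
    refine (Valuation.map_add _ _ _).trans (max_le ((hψ r).trans hγ2.le) ?_)
    rw [vv_algebraMap]
    exact hint r
  · refine noroot_emb v hinjk P ψ hint hψ F c g hgf hdeg hlcv hrv z ?_
    rw [← hdF, eval₂_mul, hz, mul_zero]

theorem noroot_aux {R k : Type} [CommRing R] [IsDomain R] [Field k] [CharZero k]
    [Algebra R k] [IsFractionRing R k] (G : Finset R) (hG : Algebra.adjoin ℤ (G : Set R) = ⊤)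
    {m : ℕ} {Q : Type} [Field Q] [Algebra (MvPolynomial (Fin m) ℚ) Q]
    [IsFractionRing (MvPolynomial (Fin m) ℚ) Q] [Algebra Q k]
    [Algebra (MvPolynomial (Fin m) ℚ) k] [IsScalarTower (MvPolynomial (Fin m) ℚ) Q k]
    [Algebra.IsAlgebraic Q k] [Algebra.EssFiniteType ℤ k] (f : k[X]) (hf : f.Separable)
    (hσ : ∃ σ : AlgebraicClosure k ≃ₐ[k] AlgebraicClosure k,
      ∀ θ : AlgebraicClosure k, aeval θ f = 0 → σ θ ≠ θ) :
    ∃ (L : Type) (_ : Field L) (_ : NumberField L) (v : HeightOneSpectrum (𝓞 L))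
      (ψ : k →+* v.adicCompletion L),
      (∀ r : R, ‖ψ (algebraMap R k r)‖ ≤ 1) ∧ ∀ z : v.adicCompletion L, f.eval₂ ψ z ≠ 0 := by
  classical
  have e4 : Algebra.EssFiniteType Q k := Algebra.EssFiniteType.of_comp ℤ Q k
  have hfin : FiniteDimensional Q k := Algebra.finite_of_essFiniteType_of_isAlgebraic
  have hinjk : Function.Injective (algebraMap R k) := IsFractionRing.injective R k
  have hczQ : CharZero Q := charZero_of_injective_algebraMap
    (IsFractionRing.injective (MvPolynomial (Fin m) ℚ) Q)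
  obtain ⟨d, hd, hcf⟩ := IsLocalization.integerNormalization_spec (nonZeroDivisors R) f
  set F := IsLocalization.integerNormalization (nonZeroDivisors R) f with hF
  have hd0 : d ≠ 0 := nonZeroDivisors.ne_zero hd
  have hdk : algebraMap R k d ≠ 0 := by
    rw [Ne, map_eq_zero_iff _ hinjk]
    exact hd0
  have hdF : C (algebraMap R k d) * f = F.map (algebraMap R k) := by
    rw [hcf]
    ext i
    rw [coeff_smul, coeff_C_mul, Algebra.smul_def]
  have hFs : (F.map (algebraMap R k)).Separable := by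
    rw [← hdF]
    exact Separable.unit_mul (isUnit_C.2 hdk.isUnit) hf
  have hF0 : F ≠ 0 := by
    rintro h0
    rw [h0, Polynomial.map_zero] at hFs
    exact hFs.ne_zero rfl
  obtain ⟨σ, hσ⟩ := hσ
  have hσF : ∀ θ : AlgebraicClosure k, aeval θ (F.map (algebraMap R k)) = 0 → σ θ ≠ θ := by
    intro θ hθ
    rw [← hdF, map_mul, aeval_C] at hθ
    exact hσ θ ((mul_eq_zero.1 hθ).resolve_left ((_root_.map_ne_zero _).2 hdk))
  obtain ⟨α, hgen, hα⟩ := Pool.Agent.H298R2.Kuyk.exists_prim (MvPolynomial (Fin m) ℚ) Q k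
  have hDNex : ∀ r : R, ∃ (D : MvPolynomial (Fin m) ℚ) (N : (MvPolynomial (Fin m) ℚ)[X]),
      D ≠ 0 ∧ algebraMap _ k D * algebraMap R k r = aeval α N := by
    intro r
    obtain ⟨p, -, hp⟩ := H33.V4.exists_rep (Q := Q) α hgen (algebraMap R k r)
    obtain ⟨D, hD, hDp⟩ := IsLocalization.integerNormalization_spec
      (nonZeroDivisors (MvPolynomial (Fin m) ℚ)) p
    refine ⟨D, IsLocalization.integerNormalization (nonZeroDivisors (MvPolynomial (Fin m) ℚ)) p,
      nonZeroDivisors.ne_zero hD, ?_⟩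
    rw [← aeval_map_algebraMap Q, hDp, Algebra.smul_def, map_mul, hp]
    congr 1
    rw [IsScalarTower.algebraMap_apply (MvPolynomial (Fin m) ℚ) Q k,
      IsScalarTower.algebraMap_apply (MvPolynomial (Fin m) ℚ) Q Q[X]]
    simp
  choose D N hD hDN using hDNex
  obtain ⟨L, iL, jL, P, c, β, hβtop, hβ, hβ', hDP, hPα, hU, hsepP, hσP⟩ :=
    exists_spec (Q := Q) hinjk α hα hgen G hG D N (fun r _ => hDN r) (fun r _ => hD r)
      {d, F.leadingCoeff} (by
        intro u hu
        simp only [Finset.mem_insert, Finset.mem_singleton] at hu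
        rcases hu with rfl | rfl
        · exact hd0
        · exact leadingCoeff_ne_zero.2 hF0) F hFs σ hσF
  have hemb := exists_emb (Q := Q) α hα hgen P G hG D N (fun r _ => hDN r) c β hβ hβ' hDP
  obtain ⟨v, ψ, h1, h2⟩ := noroot_point hinjk f d F hdF P (hU _ (by simp)) hsepP hσP hemb
  exact ⟨L, iL, jL, v, ψ, h1, h2⟩

/-- a finitely generated ring with a given finitely generated quotient field -/
theorem exists_ring {k : Type} [Field k] [CharZero k] (hfg : (⊤ : IntermediateField ℚ k).FG)
    (S : Finset k) : ∃ R : Subalgebra ℤ k, Algebra.FiniteType ℤ R ∧ IsFractionRing R k ∧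
      ∀ s ∈ S, s ∈ R := by
  classical
  obtain ⟨G, hG⟩ := hfg
  set T : Set k := ((G ∪ S : Finset k) : Set k) with hT
  have hmem : ∀ x : k, x ∈ Subring.closure T ↔ x ∈ Algebra.adjoin ℤ T := by
    intro x
    rw [Algebra.adjoin_int]
    rfl
  refine ⟨Algebra.adjoin ℤ T, ?_, ?_, ?_⟩
  · exact (Subalgebra.fg_iff_finiteType _).1 ⟨G ∪ S, rfl⟩
  · refine IsFractionRing.of_field (Algebra.adjoin ℤ T) k fun z => ?_
    have h1 : z ∈ Subfield.closure T := by
      have h2 : z ∈ IntermediateField.adjoin ℚ (G : Set k) := by rw [hG]; trivial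
      have h3 : IntermediateField.adjoin ℚ (G : Set k) ≤
          (Subfield.closure T).toIntermediateField (fun q => by
            rw [eq_ratCast]
            exact SubfieldClass.ratCast_mem _ q) := by
        rw [IntermediateField.adjoin_le_iff]
        intro x hx
        exact Subfield.subset_closure (by
          rw [hT, Finset.coe_union]
          exact Or.inl hx)
      exact h3 h2
    rw [Subfield.mem_closure_iff] at h1
    obtain ⟨y, hy, w, hw, rfl⟩ := h1
    exact ⟨⟨y, (hmem y).1 hy⟩, ⟨w, (hmem w).1 hw⟩, rfl⟩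
  · intro s hs
    exact Algebra.subset_adjoin (by
      rw [hT, Finset.coe_union]
      exact Or.inr hs)

/-- **No roots.** -/
theorem noroot {k : Type} [Field k] [CharZero k] (hfg : (⊤ : IntermediateField ℚ k).FG)
    (f : k[X]) (hf : f.Separable)
    (hσ : ∃ σ : AlgebraicClosure k ≃ₐ[k] AlgebraicClosure k,
      ∀ θ : AlgebraicClosure k, aeval θ f = 0 → σ θ ≠ θ) (S : Finset k) :
    ∃ (L : Type) (_ : Field L) (_ : NumberField L) (v : HeightOneSpectrum (𝓞 L))
      (ψ : k →+* v.adicCompletion L),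
      (∀ s ∈ S, ‖ψ s‖ ≤ 1) ∧ ∀ z : v.adicCompletion L, f.eval₂ ψ z ≠ 0 := by
  classical
  obtain ⟨R, hRft, hRfr, hRS⟩ := exists_ring hfg S
  obtain ⟨G, hG⟩ := hRft.out
  have e1 : Algebra.EssFiniteType R k := Algebra.EssFiniteType.of_isLocalization k (nonZeroDivisors R)
  have e2 : Algebra.EssFiniteType ℤ k := Algebra.EssFiniteType.comp ℤ R k
  have e3 : Algebra.EssFiniteType ℚ k := Algebra.EssFiniteType.of_comp ℤ ℚ k
  obtain ⟨s, hs⟩ := IntermediateField.fg_top ℚ k
  have halg0 : Algebra.IsAlgebraic (Algebra.adjoin ℚ (s : Set k)) k := by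
    rw [← IntermediateField.isAlgebraic_adjoin_iff_top, hs, Algebra.isAlgebraic_iff_isIntegral]
    exact Algebra.isIntegral_of_surjective IntermediateField.topEquiv.surjective
  obtain ⟨t, hts, ht⟩ := exists_isTranscendenceBasis_subset (R := ℚ) (s : Set k)
  lift t to Finset k using s.finite_toSet.subset hts
  let m := t.card
  let e : Fin m ≃ t := t.equivFin.symm
  let x : Fin m → k := fun i => (e i : k)
  have hx : IsTranscendenceBasis ℚ x := (isTranscendenceBasis_equiv e).2 ht
  let _ : Algebra (MvPolynomial (Fin m) ℚ) k := (MvPolynomial.aeval x).toRingHom.toAlgebra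
  have hinj : Function.Injective (algebraMap (MvPolynomial (Fin m) ℚ) k) := hx.1
  let _ : Algebra (FractionRing (MvPolynomial (Fin m) ℚ)) k :=
    (IsFractionRing.lift (K := FractionRing (MvPolynomial (Fin m) ℚ)) hinj).toAlgebra
  have htow : IsScalarTower (MvPolynomial (Fin m) ℚ) (FractionRing (MvPolynomial (Fin m) ℚ)) k :=
    IsScalarTower.of_algebraMap_eq fun p => (IsFractionRing.lift_algebraMap hinj p).symm
  have hta : Algebra.IsAlgebraic (FractionRing (MvPolynomial (Fin m) ℚ)) k := by
    refine ⟨fun y => ?_⟩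
    obtain ⟨p, hp, hpy⟩ := hx.isAlgebraic.isAlgebraic y
    have h1 : IsAlgebraic (MvPolynomial (Fin m) ℚ) y := by
      refine ⟨p.map hx.1.aevalEquiv.symm.toRingEquiv.toRingHom, ?_, ?_⟩
      · exact (Polynomial.map_ne_zero_iff
          hx.1.aevalEquiv.symm.toRingEquiv.injective).2 hp
      · rw [aeval_def, eval₂_map]
        rw [aeval_def] at hpy
        have h2 : (algebraMap (MvPolynomial (Fin m) ℚ) k).comp
            hx.1.aevalEquiv.symm.toRingEquiv.toRingHom =
            algebraMap (Algebra.adjoin ℚ (Set.range x)) k := by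
          ext1 z
          obtain ⟨p, rfl⟩ := hx.1.aevalEquiv.surjective z
          rw [hx.1.algebraMap_aevalEquiv]
          change MvPolynomial.aeval x (hx.1.aevalEquiv.symm (hx.1.aevalEquiv p)) = _
          rw [AlgEquiv.symm_apply_apply]
        rw [h2]
        exact hpy
    exact h1.extendScalars (IsFractionRing.injective _ _)
  obtain ⟨L, i1, i2, v, ψ, h1, h2⟩ := noroot_aux (R := R) (m := m)
    (Q := FractionRing (MvPolynomial (Fin m) ℚ)) G hG f hf hσ
  exact ⟨L, i1, i2, v, ψ, fun s hs => h1 ⟨s, hRS s hs⟩, h2⟩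

end Pool.Agent.V7H43.BS
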