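import Pool.Agent.Y157.GT.Stm
import Pool.Agent.Y328.GT.Embp

/-!
# Quotients of linear factors which are no powers
-/

set_option autoImplicit false
set_option linter.unusedSectionVars false

namespace Pool.Agent.V7H43.BS

open Pool.Agent.Y157.GT

/-- an integer near a `p`-adic integer -/
lemma exists_near_nat {p : ℕ} [Fact p.Prime] (x : ℚ_[p]) (hx : ‖x‖ ≤ 1) :
    ∃ a : ℕ, ∀ b : ℕ, b ≡ a [MOD p ^ 2] → ‖x - b‖ = (p : ℝ)⁻¹ := by
  set y : ℤ_[p] := ⟨x, hx⟩ + (p : ℤ_[p]) with hy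
  refine ⟨y.appr 2, fun b hb => ?_⟩
  have h1 : ‖y - (y.appr 2 : ℤ_[p])‖ ≤ (p : ℝ) ^ (-((2 : ℕ) : ℤ)) :=
    (PadicInt.norm_le_pow_iff_mem_span_pow _ 2).2 (PadicInt.appr_spec 2 y)
  have h2 : ‖((y.appr 2 : ℤ_[p]) - (b : ℤ_[p]))‖ ≤ (p : ℝ) ^ (-((2 : ℕ) : ℤ)) := by
    rw [PadicInt.norm_le_pow_iff_mem_span_pow, Ideal.mem_span_singleton]
    obtain ⟨c, hc⟩ := (Nat.modEq_iff_dvd.1 hb)
    refine ⟨(c : ℤ_[p]), ?_⟩
    have h3 := congrArg (fun z : ℤ => (z : ℤ_[p])) hc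
    push_cast at h3
    exact h3
  have h3 : ‖y - (b : ℤ_[p])‖ ≤ (p : ℝ) ^ (-((2 : ℕ) : ℤ)) := by
    have e : y - (b : ℤ_[p]) = (y - (y.appr 2 : ℤ_[p])) + ((y.appr 2 : ℤ_[p]) - (b : ℤ_[p])) := by
      ring
    rw [e]
    exact (PadicInt.nonarchimedean _ _).trans (max_le h1 h2)
  have hp1 : (1 : ℝ) < p := by exact_mod_cast (Fact.out : p.Prime).one_lt
  have hp0 : (0 : ℝ) < p := by linarith
  have h4 : ‖y - (b : ℤ_[p])‖ < (p : ℝ)⁻¹ := by
    refine h3.trans_lt ?_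
    rw [zpow_neg, zpow_natCast]
    refine inv_strictAnti₀ hp0 ?_
    nlinarith
  have h5 : x - b = ((y - (b : ℤ_[p]) : ℤ_[p]) : ℚ_[p]) + (-(p : ℚ_[p])) := by
    rw [hy]
    push_cast
    ring
  have h6 : ‖(-(p : ℚ_[p]))‖ = (p : ℝ)⁻¹ := by rw [norm_neg, Padic.norm_p]
  have h7 : ‖((y - (b : ℤ_[p]) : ℤ_[p]) : ℚ_[p])‖ < (p : ℝ)⁻¹ := h4
  rw [h5, Padic.add_eq_max_of_ne (by rw [h6]; exact ne_of_lt h7), h6]
  exact max_eq_right h7.le

variable {K : Type} [Field K] [CharZero K]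

theorem exists_a (hfg : (⊤ : IntermediateField ℚ K).FG) (Θ S : Finset (AlgebraicClosure K))
    {l : ℕ} (hl : 2 ≤ l) :
    ∃ a : ℕ, ∀ θ ∈ Θ, ∀ θ' ∈ Θ, θ ≠ θ' →
      ∀ w ∈ IntermediateField.adjoin K (S : Set (AlgebraicClosure K)),
        θ - (a : AlgebraicClosure K) ≠ w ^ l * (θ' - (a : AlgebraicClosure K)) := by
  classical
  have key : ∀ Θ₀ : Finset (AlgebraicClosure K), Θ₀ ⊆ Θ → ∃ M a : ℕ, 0 < M ∧
      ∀ b : ℕ, b ≡ a [MOD M] → ∀ θ ∈ Θ₀, ∀ θ' ∈ Θ, θ ≠ θ' →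
      ∀ w ∈ IntermediateField.adjoin K (S : Set (AlgebraicClosure K)),
        θ - (b : AlgebraicClosure K) ≠ w ^ l * (θ' - (b : AlgebraicClosure K)) := by
    intro Θ₀
    induction Θ₀ using Finset.induction_on with
    | empty => exact fun _ => ⟨1, 0, one_pos, fun b _ θ hθ => absurd hθ (Finset.notMem_empty θ)⟩
    | insert θ Θ₀ hθ ih =>
      intro hsub
      obtain ⟨M, a₀, hM, h0⟩ := ih ((Finset.subset_insert _ _).trans hsub)
      have hθΘ : θ ∈ Θ := hsub (Finset.mem_insert_self _ _)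
      obtain ⟨k₁, p, hp, j, -, hNp, hT, hnorm⟩ := Pool.Agent.Y328.GT.embp K (AlgebraicClosure K) hfg
        (Θ ∪ S ∪ (Θ ×ˢ Θ).image (fun x => x.1 - x.2)) M
      haveI := hp
      have hint : ∀ z : k₁, (z : AlgebraicClosure K) ∈
          (Θ ∪ S ∪ (Θ ×ˢ Θ).image (fun x => x.1 - x.2)) → ‖j z‖ ≤ 1 := by
        intro z hz
        rcases eq_or_ne z 0 with h | h
        · rw [h, map_zero, norm_zero]
          exact zero_le_one
        · exact (hnorm z hz h).le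
      have hmΘ : ∀ z ∈ Θ, z ∈ (Θ ∪ S ∪ (Θ ×ˢ Θ).image (fun x => x.1 - x.2)) := fun z hz =>
        Finset.mem_union_left _ (Finset.mem_union_left _ hz)
      obtain ⟨a₁, ha₁⟩ := exists_near_nat (j ⟨θ, hT θ (hmΘ θ hθΘ)⟩) (hint _ (hmΘ θ hθΘ))
      have hcop : Nat.Coprime M (p ^ 2) := by
        refine Nat.Coprime.pow_right 2 ?_
        rw [Nat.coprime_comm, Nat.Prime.coprime_iff_not_dvd hp.out]
        intro h
        have := Nat.le_of_dvd hM h
        omega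
      obtain ⟨a, ha, ha'⟩ := Nat.chineseRemainder hcop a₀ a₁
      refine ⟨M * p ^ 2, a, Nat.mul_pos hM (pow_pos hp.out.pos 2), fun b hb θ₁ hθ₁ θ' hθ' hne w hw
        heq => ?_⟩
      rcases Finset.mem_insert.1 hθ₁ with rfl | hθ₁
      · have hb1 : b ≡ a₁ [MOD p ^ 2] := (hb.of_mul_left M).trans ha'
        have h1 := ha₁ b hb1
        have hw1 : w ∈ k₁ := by
          have h2 : IntermediateField.adjoin K (S : Set (AlgebraicClosure K)) ≤ k₁ := by
            rw [IntermediateField.adjoin_le_iff]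
            intro z hz
            exact hT z (Finset.mem_union_left _ (Finset.mem_union_right _ hz))
          exact h2 hw
        have hθ'1 := hT θ' (hmΘ θ' hθ')
        have hθ1 := hT θ₁ (hmΘ θ₁ hθΘ)
        have h2 : (⟨θ₁, hθ1⟩ : k₁) - (b : k₁) = ⟨w, hw1⟩ ^ l * (⟨θ', hθ'1⟩ - (b : k₁)) :=
          Subtype.ext (by push_cast; exact heq)
        have h3 := congrArg (fun z => ‖j z‖) h2
        simp only [map_sub, map_mul, map_pow, map_natCast, norm_mul, norm_pow] at h3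
        rw [h1] at h3
        have hp1 : (1 : ℝ) < p := by exact_mod_cast hp.out.one_lt
        have hp0 : (0 : ℝ) < p := by linarith
        have hpi : (p : ℝ)⁻¹ < 1 := inv_lt_one_of_one_lt₀ hp1
        have h4 : ‖j ⟨θ₁, hθ1⟩ - j ⟨θ', hθ'1⟩‖ = 1 := by
          rw [← map_sub]
          apply hnorm
          · exact Finset.mem_union_right _ (Finset.mem_image.2
              ⟨(θ₁, θ'), Finset.mem_product.2 ⟨hθΘ, hθ'⟩, rfl⟩)
          · intro h
            apply hne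
            have := congrArg (fun z : k₁ => (z : AlgebraicClosure K)) h
            simpa [sub_eq_zero] using this
        have h5 : ‖j ⟨θ', hθ'1⟩ - (b : ℚ_[p])‖ = 1 := by
          have e : j ⟨θ', hθ'1⟩ - (b : ℚ_[p]) = (j ⟨θ₁, hθ1⟩ - b) +
              (-(j ⟨θ₁, hθ1⟩ - j ⟨θ', hθ'1⟩)) := by ring
          rw [e, Padic.add_eq_max_of_ne (by
            rw [norm_neg, h1, h4]
            exact ne_of_lt hpi), norm_neg, h1, h4]
          exact max_eq_right hpi.le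
        rw [h5, mul_one] at h3
        have hj0 : j ⟨w, hw1⟩ ≠ 0 := by
          intro h
          rw [h, norm_zero, zero_pow (by omega)] at h3
          exact (inv_ne_zero hp0.ne') h3
        rw [Padic.norm_eq_zpow_neg_valuation hj0] at h3
        have h6 : (p : ℝ) ^ (-1 : ℤ) = (p : ℝ) ^ (-(j ⟨w, hw1⟩).valuation * (l : ℤ)) := by
          rw [zpow_neg, zpow_one, h3, zpow_mul, zpow_natCast]
        have h7 := zpow_right_injective₀ hp0 hp1.ne' h6
        have h8 : (l : ℤ) ∣ 1 := ⟨(j ⟨w, hw1⟩).valuation, by linarith⟩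
        have h9 := Int.le_of_dvd one_pos h8
        omega
      · exact h0 b ((hb.of_mul_right (p ^ 2)).trans ha) θ₁ hθ₁ θ' hθ' hne w hw heq
  obtain ⟨M, a, -, h⟩ := key Θ subset_rfl
  exact ⟨a, h a rfl⟩

end Pool.Agent.V7H43.BS
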