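import Pool.Agent.V7H43.BS.Lim
import Pool.Agent.V7H43.BS.Koe
import Pool.Agent.V7H43.BS.NoRoot
import Pool.Agent.V7H43.BS.Resid
import Pool.Agent.TH954.SMove

/-!
# The places from completions of number fields, and the obstruction
-/

set_option autoImplicit false
set_option linter.unusedSectionVars false

namespace Pool.Agent.V7H43.BS

open Pool.Agent.TH954 IsDedekindDomain NumberField Polynomial

variable {K : Type} [Field K] [CharZero K] {M : Type} [Field M] [Algebra K M]

/-- the valuation rings which come from places over completions of number fields, in which the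
elements of `S` are integral and which contain `ρ` -/
def PlSet (A : SAct K M) (ρ : AlgebraicClosure K) (S : Finset K) : Set (ValuationSubring M) :=
  {W | ∃ (L : Type) (_ : Field L) (_ : NumberField L) (v : HeightOneSpectrum (𝓞 L))
    (_ : Algebra K (v.adicCompletion L)) (pl : Plc K M (AlgebraicClosure (v.adicCompletion L))),
    pl.W = W ∧ GeoPlc A pl ∧ (∀ s ∈ S, ‖algebraMap K (v.adicCompletion L) s‖ ≤ 1) ∧
      ∃ d : v.adicCompletion L, pl.iot A.j ρ = algebraMap _ _ d}

/-- the decomposition group stabilises the valuation ring -/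
lemma stab_of_geo {A : SAct K M} {L : Type} [Field L] [Algebra K L]
    {pl : Plc K M (AlgebraicClosure L)} (hpl : GeoPlc A pl)
    {σ : AlgebraicClosure L ≃ₐ[L] AlgebraicClosure L}
    {τ : AlgebraicClosure K ≃ₐ[K] AlgebraicClosure K} (h : Compat (pl.iot A.j) σ τ) (x : M) :
    A.s τ x ∈ pl.W ↔ x ∈ pl.W := by
  have h' : Compat (pl.iot A.j) σ⁻¹ τ⁻¹ := by
    intro z
    have h1 := h (τ⁻¹ z)
    have h2 : τ (τ⁻¹ z) = z := by
      change (τ * τ⁻¹) z = z
      rw [mul_inv_cancel]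
      rfl
    rw [h2] at h1
    rw [h1]
    change _ = (σ⁻¹ * σ) _
    rw [inv_mul_cancel]
    rfl
  constructor
  · intro hx
    obtain ⟨h3, -⟩ := hpl _ _ h' ⟨_, hx⟩
    have h4 : A.s τ⁻¹ (A.s τ x) = x := by
      change (A.s τ⁻¹ * A.s τ) x = x
      rw [← map_mul, inv_mul_cancel, map_one]
      rfl
    rwa [h4] at h3
  · intro hx
    exact (hpl _ _ h ⟨x, hx⟩).1

/-- the polynomial with a given finite stable set of roots -/
lemma exists_polyT (Γ : Finset (AlgebraicClosure K))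
    (hΓ : ∀ σ : AlgebraicClosure K ≃ₐ[K] AlgebraicClosure K, ∀ θ ∈ Γ, σ θ ∈ Γ) :
    ∃ f : K[X], f.Separable ∧ ∀ z : AlgebraicClosure K, aeval z f = 0 ↔ z ∈ Γ := by
  classical
  have hint : ∀ z : AlgebraicClosure K, IsIntegral K z := fun z => Algebra.IsIntegral.isIntegral z
  refine ⟨∏ p ∈ Γ.image (minpoly K), p, ?_, fun z => ?_⟩
  · refine separable_prod' (f := fun p : K[X] => p) ?_ ?_
    · intro p hp q hq hne
      obtain ⟨a, -, rfl⟩ := Finset.mem_image.1 hp
      obtain ⟨b, -, rfl⟩ := Finset.mem_image.1 hq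
      refine (Irreducible.coprime_iff_not_dvd (minpoly.irreducible (hint a))).2 fun hd => hne ?_
      exact eq_of_monic_of_associated (minpoly.monic (hint a)) (minpoly.monic (hint b))
        ((minpoly.irreducible (hint a)).associated_of_dvd (minpoly.irreducible (hint b)) hd)
    · intro p hp
      obtain ⟨a, -, rfl⟩ := Finset.mem_image.1 hp
      exact (minpoly.irreducible (hint a)).separable
  · rw [map_prod, Finset.prod_eq_zero_iff]
    constructor
    · rintro ⟨p, hp, hz⟩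
      obtain ⟨a, ha, rfl⟩ := Finset.mem_image.1 hp
      obtain ⟨τ, hτ⟩ := exists_conj hz
      rw [← hτ]
      exact hΓ τ a ha
    · intro hz
      exact ⟨minpoly K z, Finset.mem_image_of_mem _ hz, minpoly.aeval K z⟩

/-- **The obstruction.** -/
theorem obst [IsAlgClosed M] (hfg : (⊤ : IntermediateField ℚ K).FG) (A : SAct K M)
    (ρ : AlgebraicClosure K) (S : Finset K) : Obs A (PlSet A ρ S) := by
  classical
  intro T hT hne
  obtain ⟨l, hlT, hl⟩ := Nat.exists_infinite_primes (T.card + 2)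
  have hl2 : 2 ≤ l := hl.two_le
  have hTl : T.card < l := by omega
  have : NeZero (l : AlgebraicClosure K) := ⟨by exact_mod_cast hl.ne_zero⟩
  obtain ⟨ζ, hζ⟩ := HasEnoughRootsOfUnity.exists_primitiveRoot (AlgebraicClosure K) l
  obtain ⟨S', hS', hS's⟩ := exists_stab (K := K) (insert ζ (insert ρ T))
  set E : IntermediateField K (AlgebraicClosure K) :=
    IntermediateField.adjoin K (S' : Set (AlgebraicClosure K)) with hE
  have hSE : ∀ z ∈ S', z ∈ E := fun z hz => IntermediateField.subset_adjoin _ _ hz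
  have hζE : ζ ∈ E := hSE _ (hS' (Finset.mem_insert_self _ _))
  have hρE : ρ ∈ E := hSE _ (hS' (Finset.mem_insert_of_mem (Finset.mem_insert_self _ _)))
  have hTE : ∀ θ ∈ T, θ ∈ E := fun θ hθ =>
    hSE _ (hS' (Finset.mem_insert_of_mem (Finset.mem_insert_of_mem hθ)))
  have hσE : ∀ (σ : AlgebraicClosure K ≃ₐ[K] AlgebraicClosure K), ∀ w ∈ E, σ w ∈ E := by
    intro σ w hw
    have h1 : E ≤ E.comap (σ : AlgebraicClosure K →ₐ[K] AlgebraicClosure K) := by
      rw [hE, IntermediateField.adjoin_le_iff]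
      intro z hz
      exact hSE _ (hS's σ z hz)
    exact h1 hw
  obtain ⟨a, ha⟩ := exists_a hfg T S' hl2
  refine ⟨l, a, hl.one_le, fun c hc => ?_⟩
  set cA : AlgebraicClosure K := algebraMap K (AlgebraicClosure K) c with hcA
  have hcA0 : cA ≠ 0 := by
    rw [hcA, Ne, map_eq_zero]
    exact hc
  have hcE : cA ∈ E := E.algebraMap_mem c
  -- the radicals
  have hrex : ∀ θ, ∃ r : AlgebraicClosure K,
      r ^ l = (θ - (a : AlgebraicClosure K)) / cA := fun θ =>
    IsAlgClosed.exists_pow_nat_eq _ hl.pos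
  choose r hr using hrex
  have hne2 : ∀ θ ∈ T, θ - (a : AlgebraicClosure K) ≠ 0 := by
    intro θ hθ h0
    obtain ⟨σ, hσ⟩ := hne θ hθ
    rw [sub_eq_zero] at h0
    apply hσ
    rw [h0, map_natCast]
  have hrE : ∀ θ ∈ T, r θ ∉ E := by
    intro θ hθ hmem
    obtain ⟨σ, hσ⟩ := hne θ hθ
    have e2 : σ (r θ) ^ l = (σ θ - (a : AlgebraicClosure K)) / cA := by
      rw [← map_pow, hr, map_div₀, map_sub, map_natCast, hcA, σ.commutes]
    have hw0 : σ (r θ) ≠ 0 := by
      intro h0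
      rw [h0, zero_pow hl.ne_zero] at e2
      exact div_ne_zero (hne2 _ (hT σ θ hθ)) hcA0 e2.symm
    refine ha θ hθ (σ θ) (hT σ θ hθ) (Ne.symm hσ) (r θ / σ (r θ))
      (div_mem hmem (hσE σ _ hmem)) ?_
    rw [div_pow, hr, e2, div_div_div_cancel_right₀ hcA0,
      div_mul_cancel₀ _ (hne2 _ (hT σ θ hθ))]
  have hrl : ∀ θ ∈ T, r θ ^ l ∈ E := by
    intro θ hθ
    rw [hr]
    exact div_mem (sub_mem (hTE θ hθ) (natCast_mem E a)) hcE
  obtain ⟨σ, hσF, hσr⟩ := exists_move E hl hζ hζE T hTl r hrl hrE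
  -- the set of all the roots
  set Γ : Finset (AlgebraicClosure K) :=
    T.biUnion (fun θ => (Polynomial.nthRoots l ((θ - (a : AlgebraicClosure K)) / cA)).toFinset)
    with hΓdef
  have hΓ : ∀ γ, γ ∈ Γ ↔ ∃ θ ∈ T, γ ^ l = (θ - (a : AlgebraicClosure K)) / cA := by
    intro γ
    rw [hΓdef, Finset.mem_biUnion]
    simp only [Multiset.mem_toFinset, Polynomial.mem_nthRoots hl.pos]
  have hΓs : ∀ σ : AlgebraicClosure K ≃ₐ[K] AlgebraicClosure K, ∀ γ ∈ Γ, σ γ ∈ Γ := by
    intro σ γ hγ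
    obtain ⟨θ, hθ, h1⟩ := (hΓ γ).1 hγ
    refine (hΓ _).2 ⟨σ θ, hT σ θ hθ, ?_⟩
    rw [← map_pow, h1, map_div₀, map_sub, map_natCast, hcA, σ.commutes]
  have hΓσ : ∀ γ ∈ Γ, σ γ ≠ γ := by
    intro γ hγ h0
    obtain ⟨θ, hθ, h1⟩ := (hΓ γ).1 hγ
    have hr0 : r θ ≠ 0 := fun h => hrE θ hθ (by rw [h]; exact E.zero_mem)
    have hγ0 : γ ≠ 0 := by
      rintro rfl
      rw [zero_pow hl.ne_zero] at h1
      exact div_ne_zero (hne2 θ hθ) hcA0 h1.symm
    have h2 : (r θ / γ) ^ l = 1 := by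
      rw [div_pow, hr, h1, div_self (div_ne_zero (hne2 θ hθ) hcA0)]
    have h3 : σ (r θ / γ) = r θ / γ := by
      have : NeZero l := ⟨hl.ne_zero⟩
      obtain ⟨k, -, hk⟩ := hζ.eq_pow_of_pow_eq_one h2
      rw [← hk]
      exact hσF _ (pow_mem hζE k)
    apply hσr θ hθ
    have h4 : r θ = (r θ / γ) * γ := (div_mul_cancel₀ _ hγ0).symm
    rw [h4, map_mul, h3, h0]
  obtain ⟨f, hfs, hf⟩ := exists_polyT Γ hΓs
  -- the field with `ρ`
  set K₂ : IntermediateField K (AlgebraicClosure K) := IntermediateField.adjoin K {ρ} with hK₂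
  have hρ2 : ρ ∈ K₂ := IntermediateField.mem_adjoin_simple_self K ρ
  have hK₂E : K₂ ≤ E := by
    rw [hK₂, IntermediateField.adjoin_simple_le_iff]
    exact hρE
  have hcK₂ : CharZero K₂ := charZero_of_injective_algebraMap (algebraMap K K₂).injective
  have hfd : FiniteDimensional K K₂ := IntermediateField.adjoin.finiteDimensional
    (Algebra.IsIntegral.isIntegral ρ)
  have hfg2 : (⊤ : IntermediateField ℚ K₂).FG := by
    rw [IntermediateField.fg_top_iff] at hfg ⊢
    haveI : IsScalarTower ℚ K K₂ := IsScalarTower.of_algebraMap_eq fun c => by simp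
    haveI := hfg
    exact Algebra.EssFiniteType.comp ℚ K K₂
  have hac : IsAlgClosure K₂ (AlgebraicClosure K) :=
    ⟨inferInstance, Algebra.IsAlgebraic.tower_top (K := K) K₂⟩
  let e : AlgebraicClosure K ≃ₐ[K₂] AlgebraicClosure K₂ :=
    IsAlgClosure.equiv K₂ (AlgebraicClosure K) (AlgebraicClosure K₂)
  let σ' : AlgebraicClosure K ≃ₐ[K₂] AlgebraicClosure K :=
    AlgEquiv.ofRingEquiv (f := (σ : AlgebraicClosure K ≃+* AlgebraicClosure K))
      (fun z => hσF _ (hK₂E z.2))
  have hroot : ∀ z : AlgebraicClosure K, aeval (e z) (f.map (algebraMap K K₂)) = 0 ↔ z ∈ Γ := by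
    intro z
    rw [← hf z]
    have h1 : aeval (e z) (f.map (algebraMap K K₂)) = e (aeval z (f.map (algebraMap K K₂))) :=
      aeval_algHom_apply (e : AlgebraicClosure K →ₐ[K₂] AlgebraicClosure K₂) z _
    rw [h1, map_eq_zero_iff _ e.injective, aeval_map_algebraMap]
  obtain ⟨L, iL, jL, v, ψ, hψS, hψf⟩ := noroot hfg2 (f.map (algebraMap K K₂)) hfs.map
    ⟨e.symm.trans (σ'.trans e), fun θ hθ h0 => by
      obtain ⟨z, rfl⟩ := e.surjective θ
      have hz := (hroot z).1 hθ
      change e (σ' (e.symm (e z))) = e z at h0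
      rw [e.symm_apply_apply] at h0
      exact hΓσ z hz (e.injective h0)⟩ (S.image (algebraMap K K₂))
  letI i1 : Algebra K₂ (v.adicCompletion L) := ψ.toAlgebra
  letI i2 : Algebra K (v.adicCompletion L) := (ψ.comp (algebraMap K K₂)).toAlgebra
  haveI i3 : IsScalarTower K K₂ (v.adicCompletion L) := IsScalarTower.of_algebraMap_eq fun _ => rfl
  haveI i4 : IsScalarTower K K₂ (AlgebraicClosure (v.adicCompletion L)) :=
    IsScalarTower.of_algebraMap_eq fun x => by
      rw [IsScalarTower.algebraMap_apply K (v.adicCompletion L)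
        (AlgebraicClosure (v.adicCompletion L)), IsScalarTower.algebraMap_apply K₂
        (v.adicCompletion L) (AlgebraicClosure (v.adicCompletion L)),
        IsScalarTower.algebraMap_apply K K₂ (v.adicCompletion L)]
  haveI i5 : CharZero (v.adicCompletion L) :=
    charZero_of_injective_algebraMap (algebraMap K (v.adicCompletion L)).injective
  haveI i6 : Algebra.IsAlgebraic K₂ (AlgebraicClosure K) := hac.isAlgebraic
  let ι₂ : AlgebraicClosure K →ₐ[K₂] AlgebraicClosure (v.adicCompletion L) := IsAlgClosed.lift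
  let ι : AlgebraicClosure K →ₐ[K] AlgebraicClosure (v.adicCompletion L) := ι₂.restrictScalars K
  obtain ⟨V, p, hV⟩ := Pool.Agent.N890.KO.s_LOC L v
  obtain ⟨pl, hι, hpl⟩ := koeA A (v.adicCompletion L) V p hV ι
  have hιeq : pl.iot A.j = ι := AlgHom.ext hι
  have hιρ : pl.iot A.j ρ = algebraMap _ _ (ψ ⟨ρ, hρ2⟩) := by
    rw [hι ρ]
    change ι₂ ρ = _
    have h1 := ι₂.commutes ⟨ρ, hρ2⟩
    rw [IsScalarTower.algebraMap_apply K₂ (v.adicCompletion L)
      (AlgebraicClosure (v.adicCompletion L))] at h1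
    exact h1
  refine ⟨pl.W, ⟨L, iL, jL, v, i2, pl, rfl, hpl, fun s hs => ?_, _, hιρ⟩, fun θ hθ γ hγ => ?_⟩
  · exact hψS _ (Finset.mem_image_of_mem _ hs)
  · have hγΓ : γ ∈ Γ := (hΓ γ).2 ⟨θ, hθ, by rw [← hγ]; field_simp⟩
    obtain ⟨σ₁, hσ₁⟩ : ∃ σ₁ : AlgebraicClosure (v.adicCompletion L) ≃ₐ[v.adicCompletion L]
        AlgebraicClosure (v.adicCompletion L), σ₁ (ι γ) ≠ ι γ := by
      by_contra hcon
      push Not at hcon
      obtain ⟨z, hz⟩ := base_of_fixed hcon
      refine hψf z ?_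
      apply (algebraMap (v.adicCompletion L) (AlgebraicClosure (v.adicCompletion L))).injective
      rw [map_zero, Polynomial.hom_eval₂, hz]
      have h1 : ι₂ (aeval γ (f.map (algebraMap K K₂))) = 0 := by
        rw [aeval_map_algebraMap, (hf γ).2 hγΓ, map_zero]
      rw [← aeval_algHom_apply, aeval_def] at h1
      exact h1
    obtain ⟨τ, hτ⟩ := exists_compat (pl.iot A.j) σ₁
    refine ⟨τ, stab_of_geo hpl hτ, fun h0 => hσ₁ ?_⟩
    have h2 := hτ γ
    rw [h0, hι γ] at h2
    exact h2.symm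

end Pool.Agent.V7H43.BS
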