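import Pool.Agent.V7H43.BS.Desc

/-!
# The restriction of a section to the fields `k₁(ρ)`
-/

set_option autoImplicit false
set_option linter.all false

namespace Pool.Agent.V7H43.BS

open Pool.Agent.TH954

section

variable {K L Ω B : Type} [Field K] [CharZero K] [Field L] [Field Ω] [Field B] [Algebra K L]
  [Algebra L Ω] [Algebra K Ω] [Algebra K B] [IsScalarTower K L Ω] [IsAlgClosure L Ω]
  [IsAlgClosure K B]

/-- the action of the subgroup of the elements which fix `K₁` -/
noncomputable def sT (s : GalSection K L Ω B) (K₁ : IntermediateField K B) [Algebra K₁ Ω]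
    [IsAlgClosure K₁ B] [Algebra.IsAlgebraic K B] [Algebra.IsAlgebraic L Ω]
    (hj : ∀ c : K₁, s.j (c : B) = algebraMap K₁ Ω c) : SAct K₁ Ω where
  j :=
    { toRingHom := (s.j : B →+* Ω).comp ((eqv K₁ B : AlgebraicClosure K₁ ≃+* B) :
        AlgebraicClosure K₁ →+* B)
      commutes' := fun c => by
        change s.j (eqv K₁ B (algebraMap K₁ (AlgebraicClosure K₁) c)) = _
        rw [(eqv K₁ B).commutes]
        exact hj c }
  s :=
    { toFun := fun τ => AlgEquiv.ofRingEquiv
        (f := (s.s (((eqv K₁ B).autCongr τ).restrictScalars K) : Ω ≃+* Ω)) (fun c => by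
          change s.s (((eqv K₁ B).autCongr τ).restrictScalars K) (algebraMap K₁ Ω c) = _
          rw [← hj, s.sec]
          congr 1
          exact ((eqv K₁ B).autCongr τ).commutes c)
      map_one' := by
        ext x
        change s.s (((eqv K₁ B).autCongr 1).restrictScalars K) x = x
        have e : ((eqv K₁ B).autCongr 1).restrictScalars K = 1 := by
          rw [map_one]
          rfl
        rw [e, map_one]
        rfl
      map_mul' := fun g h => by
        ext x
        change s.s (((eqv K₁ B).autCongr (g * h)).restrictScalars K) x =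
          s.s (((eqv K₁ B).autCongr g).restrictScalars K)
            (s.s (((eqv K₁ B).autCongr h).restrictScalars K) x)
        have e : ((eqv K₁ B).autCongr (g * h)).restrictScalars K =
            ((eqv K₁ B).autCongr g).restrictScalars K *
              ((eqv K₁ B).autCongr h).restrictScalars K := by
          rw [map_mul]
          rfl
        rw [e, map_mul]
        rfl }
  hj := fun τ z => by
    change s.s (((eqv K₁ B).autCongr τ).restrictScalars K) (s.j (eqv K₁ B z)) =
      s.j (eqv K₁ B (τ z))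
    rw [s.sec]
    congr 1
    change eqv K₁ B (τ ((eqv K₁ B).symm (eqv K₁ B z))) = _
    rw [AlgEquiv.symm_apply_apply]
  cont := fun x => by
    classical
    obtain ⟨T, hT⟩ := fix_section s x
    refine ⟨IntermediateField.adjoin K₁ ((T.image (eqv K₁ B).symm : Finset _) : Set _),
      IntermediateField.finiteDimensional_adjoin fun x _ => Algebra.IsIntegral.isIntegral x,
      fun τ hτ => ?_⟩
    change s.s (((eqv K₁ B).autCongr τ).restrictScalars K) x = x
    apply hT
    intro w hw
    change eqv K₁ B (τ ((eqv K₁ B).symm w)) = w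
    rw [hτ ((eqv K₁ B).symm w) (IntermediateField.subset_adjoin _ _
      (Finset.mem_coe.2 (Finset.mem_image_of_mem _ hw))), AlgEquiv.apply_symm_apply]

/-- transport of algebraicity -/
lemma al_transport {κ B B' : Type} [Field κ] [Field B] [Field B'] [Algebra κ B] [Algebra κ B']
    (e : B ≃ₐ[κ] B') {ρ : B}
    (hal : Algebra.IsAlgebraic (IntermediateField.adjoin κ {ρ}) B) :
    Algebra.IsAlgebraic (IntermediateField.adjoin κ {e ρ}) B' := by
  refine ⟨fun z => ?_⟩
  obtain ⟨P, hP, hz⟩ := hal.isAlgebraic (e.symm z)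
  have hle : ∀ w : IntermediateField.adjoin κ {ρ}, e (w : B) ∈ IntermediateField.adjoin κ {e ρ} := by
    intro w
    have h1 : IntermediateField.adjoin κ {ρ} ≤
        (IntermediateField.adjoin κ {e ρ}).comap (e : B →ₐ[κ] B') := by
      rw [IntermediateField.adjoin_simple_le_iff]
      exact IntermediateField.mem_adjoin_simple_self κ (e ρ)
    exact h1 w.2
  let f : IntermediateField.adjoin κ {ρ} →+* IntermediateField.adjoin κ {e ρ} :=
    (((e : B ≃+* B') : B →+* B').comp (algebraMap (IntermediateField.adjoin κ {ρ}) B)).codRestrict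
      (IntermediateField.adjoin κ {e ρ}) hle
  have hf : (algebraMap (IntermediateField.adjoin κ {e ρ}) B').comp f =
      ((e : B ≃+* B') : B →+* B').comp (algebraMap (IntermediateField.adjoin κ {ρ}) B) :=
    RingHom.ext fun c => rfl
  refine ⟨P.map f, (Polynomial.map_ne_zero_iff f.injective).2 hP, ?_⟩
  rw [Polynomial.aeval_def, Polynomial.eval₂_map, hf]
  have h2 := congrArg e hz
  rw [map_zero, Polynomial.aeval_def] at h2
  rw [← h2]
  have h3 := Polynomial.hom_eval₂ P (algebraMap (IntermediateField.adjoin κ {ρ}) B)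
    ((e : B ≃+* B') : B →+* B') (e.symm z)
  have h4 : ((e : B ≃+* B') : B →+* B') (e.symm z) = z := e.apply_symm_apply z
  rw [h4] at h3
  exact h3.symm

/-- a finitely generated field over which `κ` is algebraic -/
theorem exists_k1 {κ : Type} [Field κ] [CharZero κ] [IsAlgClosed κ] {G : Finset κ}
    (hG : Algebra.IsAlgebraic (IntermediateField.adjoin ℚ (G : Set κ)) κ) (T : Finset κ)
    (hGT : G ⊆ T) : ∃ (k₁ : Type) (_ : Field k₁) (_ : CharZero k₁) (_ : Algebra k₁ κ)
      (_ : IsAlgClosure k₁ κ), (⊤ : IntermediateField ℚ k₁).FG ∧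
      (∀ c ∈ T, ∃ c' : k₁, algebraMap k₁ κ c' = c) ∧
      ∀ c : k₁, algebraMap k₁ κ c ∈ IntermediateField.adjoin ℚ (T : Set κ) := by
  refine ⟨IntermediateField.adjoin ℚ (T : Set κ), inferInstance, inferInstance, inferInstance,
    ⟨inferInstance, ⟨fun z => ?_⟩⟩, ?_, fun c hc => ⟨⟨c, IntermediateField.subset_adjoin _ _ hc⟩,
      rfl⟩, fun c => c.2⟩
  · obtain ⟨P, hP, hz⟩ := hG.isAlgebraic z
    have hle : IntermediateField.adjoin ℚ (G : Set κ) ≤ IntermediateField.adjoin ℚ (T : Set κ) :=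
      IntermediateField.adjoin.mono _ _ _ (Finset.coe_subset.2 hGT)
    let f : IntermediateField.adjoin ℚ (G : Set κ) →+* IntermediateField.adjoin ℚ (T : Set κ) :=
      (IntermediateField.inclusion hle : _ →+* _)
    have hf : (algebraMap (IntermediateField.adjoin ℚ (T : Set κ)) κ).comp f =
        algebraMap (IntermediateField.adjoin ℚ (G : Set κ)) κ := RingHom.ext fun c => rfl
    refine ⟨P.map f, (Polynomial.map_ne_zero_iff f.injective).2 hP, ?_⟩
    rw [Polynomial.aeval_def, Polynomial.eval₂_map, hf]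
    exact hz
  · rw [IntermediateField.fg_top_iff]
    have h1 : (IntermediateField.adjoin ℚ (T : Set κ)).FG := IntermediateField.fg_adjoin_finset T
    rw [← IntermediateField.essFiniteType_iff] at h1
    have e : (DivisionRing.toRatAlgebra : Algebra ℚ (IntermediateField.adjoin ℚ (T : Set κ))) =
        (IntermediateField.adjoin ℚ (T : Set κ)).algebra' := Subsingleton.elim _ _
    rw [e]
    exact h1

/-- `g` fixes `T` and `ρ` -/
def FixT {κ : Type} [Field κ] [Algebra κ B] (T : Finset κ) (ρ : B) (g : B ≃ₐ[K] B) : Prop :=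
  (∀ c ∈ T, g (algebraMap κ B c) = algebraMap κ B c) ∧ g ρ = ρ

theorem pkg (s : GalSection K L Ω B) {κ : Type} [Field κ] [CharZero κ] [IsAlgClosed κ]
    [Algebra κ B] {ρ : B} (hρ : Transcendental κ ρ)
    (hal : Algebra.IsAlgebraic (IntermediateField.adjoin κ {ρ}) B) {G : Finset κ}
    (hG : Algebra.IsAlgebraic (IntermediateField.adjoin ℚ (G : Set κ)) κ)
    (hK : ∀ c : K, algebraMap K B c ∈
      Subfield.closure ((algebraMap κ B) '' (G : Set κ) ∪ {ρ}))
    (hfg : (⊤ : IntermediateField ℚ K).FG)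
    (hdim : ∀ x : Ω, Transcendental K x → ∀ t : Ω, IsAlgebraic (Algebra.adjoin K {x}) t)
    (T : Finset κ) (hGT : G ⊆ T) :
    ∃ (k₁ K₁ : Type) (_ : Field k₁) (_ : CharZero k₁) (_ : Field K₁) (_ : CharZero K₁)
      (_ : Algebra k₁ K₁) (_ : Algebra k₁ κ) (_ : IsAlgClosure k₁ κ)
      (_ : Algebra κ (AlgebraicClosure K₁)) (_ : IsScalarTower k₁ κ (AlgebraicClosure K₁))
      (_ : Algebra K₁ Ω) (A : SAct K₁ Ω) (e : AlgebraicClosure K₁ ≃+* B),
      (⊤ : IntermediateField ℚ k₁).FG ∧ (⊤ : IntermediateField ℚ K₁).FG ∧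
      Transcendental κ (e.symm ρ) ∧
      Algebra.IsAlgebraic (IntermediateField.adjoin κ {e.symm ρ}) (AlgebraicClosure K₁) ∧
      (∀ c : K₁, algebraMap K₁ (AlgebraicClosure K₁) c ∈
        IntermediateField.adjoin k₁ {e.symm ρ}) ∧
      (∀ c : κ, e (algebraMap κ (AlgebraicClosure K₁) c) = algebraMap κ B c) ∧
      (∀ c ∈ T, ∃ c' : k₁, algebraMap k₁ κ c' = c) ∧ (∀ z, A.j z = s.j (e z)) ∧
      (∀ τ, ∃ g : B ≃ₐ[K] B, FixT T ρ g ∧ (∀ z, e (τ z) = g (e z)) ∧ ∀ x, A.s τ x = s.s g x) ∧
      (∀ g : B ≃ₐ[K] B, FixT T ρ g → ∃ τ : AlgebraicClosure K₁ ≃ₐ[K₁] AlgebraicClosure K₁,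
        (∀ z, e (τ z) = g (e z)) ∧ ∀ x, A.s τ x = s.s g x) ∧
      (∀ x : Ω, Transcendental K₁ x → ∀ t : Ω, IsAlgebraic (Algebra.adjoin K₁ {x}) t) ∧
      ∀ c : K, ∃ c' : K₁, algebraMap K₁ Ω c' = algebraMap K Ω c := by
  classical
  have hΩ1 : IsAlgClosed Ω := IsAlgClosure.isAlgClosed L
  have hΩ2 : Algebra.IsAlgebraic L Ω := IsAlgClosure.isAlgebraic
  have hB1 : IsAlgClosed B := IsAlgClosure.isAlgClosed K
  have hB2 : Algebra.IsAlgebraic K B := IsAlgClosure.isAlgebraic
  have cB : CharZero B := charZero_of_injective_algebraMap (algebraMap K B).injective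
  -- the fields
  obtain ⟨k₁, ik1, ik2, ik3, ik4, hkfg, hkT, hkmem⟩ := exists_k1 hG T hGT
  set K₁ : IntermediateField K B :=
    IntermediateField.adjoin K ((algebraMap κ B) '' (T : Set κ) ∪ {ρ}) with hK₁
  have hTK : ∀ c ∈ T, algebraMap κ B c ∈ K₁ := fun c hc =>
    IntermediateField.subset_adjoin _ _ (Or.inl ⟨c, hc, rfl⟩)
  have hρK : ρ ∈ K₁ := IntermediateField.subset_adjoin _ _ (Or.inr rfl)
  have hfin : ((algebraMap κ B) '' (T : Set κ) ∪ {ρ}).Finite :=
    ((T.finite_toSet.image _).union (Set.finite_singleton _))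
  haveI hfd : FiniteDimensional K K₁ := by
    haveI := hfin.to_subtype
    exact IntermediateField.finiteDimensional_adjoin fun x _ => Algebra.IsIntegral.isIntegral x
  have c1 : CharZero K₁ := charZero_of_injective_algebraMap (algebraMap K K₁).injective
  haveI a1 : Algebra.IsAlgebraic K₁ B := Algebra.IsAlgebraic.tower_top (K := K) K₁
  haveI a3 : IsAlgClosure K₁ B := ⟨hB1, a1⟩
  letI iΩ : Algebra K₁ Ω := ((s.j : B →+* Ω).comp (algebraMap K₁ B)).toAlgebra
  haveI t2 : IsScalarTower K K₁ Ω := IsScalarTower.of_algebraMap_eq fun c => (s.j.commutes c).symm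
  have hkK : ∀ c : k₁, algebraMap κ B (algebraMap k₁ κ c) ∈ K₁ := by
    intro c
    let E : IntermediateField ℚ κ :=
      ((K₁.toSubfield).comap (algebraMap κ B)).toIntermediateField (fun r => by
        change algebraMap κ B (algebraMap ℚ κ r) ∈ K₁
        rw [eq_ratCast, map_ratCast]
        exact SubfieldClass.ratCast_mem _ r)
    have h1 : IntermediateField.adjoin ℚ (T : Set κ) ≤ E := by
      rw [IntermediateField.adjoin_le_iff]
      exact fun c hc => hTK c hc
    exact h1 (hkmem c)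
  letI ikK : Algebra k₁ K₁ := (((algebraMap κ B).comp (algebraMap k₁ κ)).codRestrict K₁
    hkK).toAlgebra
  letI iκ : Algebra κ (AlgebraicClosure K₁) :=
    (((eqv K₁ B).symm : B ≃+* AlgebraicClosure K₁).toRingHom.comp (algebraMap κ B)).toAlgebra
  have hκ : ∀ c : κ, eqv K₁ B (algebraMap κ (AlgebraicClosure K₁) c) = algebraMap κ B c := by
    intro c
    change eqv K₁ B ((eqv K₁ B).symm (algebraMap κ B c)) = _
    rw [AlgEquiv.apply_symm_apply]
  haveI tw : IsScalarTower k₁ κ (AlgebraicClosure K₁) := by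
    refine IsScalarTower.of_algebraMap_eq fun c => ?_
    apply (eqv K₁ B).injective
    rw [hκ, IsScalarTower.algebraMap_apply k₁ K₁ (AlgebraicClosure K₁), (eqv K₁ B).commutes]
    rfl
  let A : SAct K₁ Ω := sT s K₁ (fun c => rfl)
  let e' : B ≃ₐ[κ] AlgebraicClosure K₁ := AlgEquiv.ofRingEquiv
    (f := ((eqv K₁ B).symm : B ≃+* AlgebraicClosure K₁)) (fun c => rfl)
  have hfix : ∀ g : B ≃ₐ[K] B, FixT T ρ g → ∀ c : K₁, g (c : B) = c := by
    intro g hg c
    have h1 : K₁ ≤ (((g : B →+* B).eqLocusField (RingHom.id B)).toIntermediateField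
        (fun r => g.commutes r) : IntermediateField K B) := by
      rw [hK₁, IntermediateField.adjoin_le_iff]
      rintro z (⟨c, hc, rfl⟩ | rfl)
      · exact hg.1 c hc
      · exact hg.2
    exact h1 c.2
  refine ⟨k₁, K₁, ik1, ik2, inferInstance, c1, ikK, ik3, ik4,
    iκ, tw, iΩ, A, (eqv K₁ B : AlgebraicClosure K₁ ≃+* B), ?_, fg_up hfg, ?_, al_transport e' hal,
    ?_, hκ, ?_, fun z => rfl, ?_, ?_, dim_up hdim, ?_⟩
  · exact hkfg
  · intro h
    apply hρ
    exact (isAlgebraic_algHom_iff (e' : B →ₐ[κ] AlgebraicClosure K₁) e'.injective).1 h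
  · intro c
    -- the image of `k₁(ρ)` in `B`
    let S : Subfield B := (IntermediateField.adjoin k₁
      {((eqv K₁ B : AlgebraicClosure K₁ ≃+* B)).symm ρ}).toSubfield.comap
        (((eqv K₁ B).symm : B ≃+* AlgebraicClosure K₁) : B →+* AlgebraicClosure K₁)
    have hST : ∀ c ∈ T, algebraMap κ B c ∈ S := by
      intro c hc
      change (eqv K₁ B).symm (algebraMap κ B c) ∈ IntermediateField.adjoin k₁ _
      obtain ⟨c', rfl⟩ := hkT c hc
      have h1 : (eqv K₁ B).symm (algebraMap κ B (algebraMap k₁ κ c')) =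
          algebraMap k₁ (AlgebraicClosure K₁) c' := by
        rw [IsScalarTower.algebraMap_apply k₁ κ (AlgebraicClosure K₁)]
        rfl
      rw [h1]
      exact IntermediateField.algebraMap_mem _ _
    have hSρ : ρ ∈ S := by
      change (eqv K₁ B).symm ρ ∈ IntermediateField.adjoin k₁ _
      exact IntermediateField.mem_adjoin_simple_self k₁ _
    have hSK : ∀ c : K, algebraMap K B c ∈ S := by
      intro c
      have h1 : Subfield.closure ((algebraMap κ B) '' (G : Set κ) ∪ {ρ}) ≤ S := by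
        rw [Subfield.closure_le]
        rintro z (⟨c, hc, rfl⟩ | rfl)
        · exact hST c (hGT hc)
        · exact hSρ
      exact h1 (hK c)
    have h2 : K₁ ≤ S.toIntermediateField hSK := by
      rw [hK₁, IntermediateField.adjoin_le_iff]
      rintro z (⟨c, hc, rfl⟩ | rfl)
      · exact hST c hc
      · exact hSρ
    have h3 : (eqv K₁ B).symm (c : B) ∈ IntermediateField.adjoin k₁
      {((eqv K₁ B : AlgebraicClosure K₁ ≃+* B)).symm ρ} := h2 c.2
    have h4 : (eqv K₁ B).symm (c : B) = algebraMap K₁ (AlgebraicClosure K₁) c := by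
      rw [AlgEquiv.symm_apply_eq, (eqv K₁ B).commutes]
      rfl
    rwa [h4] at h3
  · exact hkT
  · intro τ
    refine ⟨((eqv K₁ B).autCongr τ).restrictScalars K, ⟨fun c hc => ?_, ?_⟩, fun z => ?_,
      fun x => rfl⟩
    · exact ((eqv K₁ B).autCongr τ).commutes (⟨_, hTK c hc⟩ : K₁)
    · exact ((eqv K₁ B).autCongr τ).commutes (⟨_, hρK⟩ : K₁)
    · change eqv K₁ B (τ z) = eqv K₁ B (τ ((eqv K₁ B).symm (eqv K₁ B z)))
      rw [AlgEquiv.symm_apply_apply]
  · intro g hg
    let g' : B ≃ₐ[K₁] B := AlgEquiv.ofRingEquiv (f := (g : B ≃+* B)) (hfix g hg)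
    refine ⟨(eqv K₁ B).autCongr.symm g', fun z => ?_, fun x => ?_⟩
    · change eqv K₁ B ((eqv K₁ B).symm (g' (eqv K₁ B z))) = g (eqv K₁ B z)
      rw [AlgEquiv.apply_symm_apply]
      rfl
    · change s.s (((eqv K₁ B).autCongr ((eqv K₁ B).autCongr.symm g')).restrictScalars K) x = _
      rw [MulEquiv.apply_symm_apply]
      rfl
  · intro c
    exact ⟨algebraMap K K₁ c, (IsScalarTower.algebraMap_apply K K₁ Ω c).symm⟩

end

end Pool.Agent.V7H43.BS
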