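import Pool.Agent.V7H43.BS.ExW

/-!
# The action of automorphisms of the field on points
-/

set_option autoImplicit false
set_option linter.all false

open WeierstrassCurve

namespace Pool.Agent.V7H43.BS

open Pool.Agent.TH954 Pool.Agent.TH942 Pool.Agent.H901R3.MS

section

variable {Ω : Type} [Field Ω]

open scoped Classical in
/-- the map on points given by an endomorphism of the field -/
noncomputable def ra (W : WeierstrassCurve Ω) (f : Ω →+* Ω) :
    W.toAffine.Point → W.toAffine.Point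
  | .zero => .zero
  | .some x y _ => if h' : W.toAffine.Nonsingular (f x) (f y) then .some (f x) (f y) h' else .zero

lemma ra_zero (W : WeierstrassCurve Ω) (f : Ω →+* Ω) : ra W f 0 = 0 := rfl

lemma ra_some {W : WeierstrassCurve Ω} {f : Ω →+* Ω} {x y : Ω}
    (h : W.toAffine.Nonsingular x y) (h' : W.toAffine.Nonsingular (f x) (f y)) :
    ra W f (.some x y h) = .some (f x) (f y) h' := dif_pos h'

lemma ra_eq_pm {k : Type} [Field k] [Algebra k Ω] (E : WeierstrassCurve k) (f : Ω →ₐ[k] Ω)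
    (P : (E.baseChange Ω).toAffine.Point) : ra (E.baseChange Ω) (f : Ω →+* Ω) P = pm E f P := by
  rcases P with _ | ⟨x, y, h⟩
  · rfl
  · obtain ⟨h', e⟩ := pm_some (E := E) f h
    rw [e]
    exact ra_some h h'

lemma cv_eq {f : Ω →+* Ω} {α β : Ω} (hα : f α = α) (hβ : f β = β) :
    (sw (⟨α, hα⟩ : f.eqLocusField (RingHom.id Ω))
      (⟨β, hβ⟩ : f.eqLocusField (RingHom.id Ω))).baseChange Ω = CV α β := base_eq _ _ _

/-- `f` as a linear map over the field of fixed elements -/
def linE (f : Ω →+* Ω) : Ω →ₐ[f.eqLocusField (RingHom.id Ω)] Ω :=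
  { toRingHom := f, commutes' := fun c => c.2 }

open scoped Classical in
lemma ra_add {f : Ω →+* Ω} {α β : Ω} (hα : f α = α) (hβ : f β = β)
    (P Q : (CV α β).toAffine.Point) :
    ra (CV α β) f (P + Q) = ra (CV α β) f P + ra (CV α β) f Q := by
  have key : ∀ W, W = (sw (⟨α, hα⟩ : f.eqLocusField (RingHom.id Ω))
      (⟨β, hβ⟩ : f.eqLocusField (RingHom.id Ω))).baseChange Ω → ∀ P Q : W.toAffine.Point,
      ra W f (P + Q) = ra W f P + ra W f Q := by
    rintro _ rfl P Q
    have h := fun P => ra_eq_pm (sw (⟨α, hα⟩ : f.eqLocusField (RingHom.id Ω))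
      (⟨β, hβ⟩ : f.eqLocusField (RingHom.id Ω))) (linE f) P
    have e : ((linE f : Ω →ₐ[f.eqLocusField (RingHom.id Ω)] Ω) : Ω →+* Ω) = f := rfl
    rw [e] at h
    rw [h, h, h, map_add]
  exact key _ (cv_eq hα hβ).symm P Q

open scoped Classical in
lemma ra_sub {f : Ω →+* Ω} {α β : Ω} (hα : f α = α) (hβ : f β = β)
    (P Q : (CV α β).toAffine.Point) :
    ra (CV α β) f (P - Q) = ra (CV α β) f P - ra (CV α β) f Q := by
  have h := ra_add hα hβ (P - Q) Q
  rw [sub_add_cancel] at h
  rw [h, add_sub_cancel_right]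

open scoped Classical in
lemma ra_nsmul {f : Ω →+* Ω} {α β : Ω} (hα : f α = α) (hβ : f β = β) (n : ℕ)
    (P : (CV α β).toAffine.Point) :
    ra (CV α β) f (n • P) = n • ra (CV α β) f P := by
  induction n with
  | zero => rw [zero_smul, zero_smul]; rfl
  | succ n ih => rw [succ_nsmul, succ_nsmul, ra_add hα hβ, ih]

lemma ns_map {f : Ω →+* Ω} {α β : Ω} (hD : Disc α β) (hα : f α = α) (hβ : f β = β) {x y : Ω}
    (h : (CV α β).toAffine.Nonsingular x y) : (CV α β).toAffine.Nonsingular (f x) (f y) := by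
  rw [nonsingular_iff hD] at h ⊢
  unfold Eqn at h ⊢
  have h1 := congrArg f h
  simp only [map_add, map_mul, map_pow, hα, hβ] at h1
  exact h1

lemma ra_some' {f : Ω →+* Ω} {α β : Ω} (hD : Disc α β) (hα : f α = α) (hβ : f β = β) {x y : Ω}
    (h : (CV α β).toAffine.Nonsingular x y) :
    ra (CV α β) f (.some x y h) = .some (f x) (f y) (ns_map hD hα hβ h) := ra_some _ _

lemma ra_comp {f g : Ω →+* Ω} {α β : Ω} (hD : Disc α β) (hα : f α = α) (hβ : f β = β)
    (hα' : g α = α) (hβ' : g β = β) (P : (CV α β).toAffine.Point) :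
    ra (CV α β) f (ra (CV α β) g P) = ra (CV α β) (f.comp g) P := by
  rcases P with _ | ⟨x, y, h⟩
  · rfl
  · have hα'' : (f.comp g) α = α := by
      change f (g α) = α
      rw [hα', hα]
    have hβ'' : (f.comp g) β = β := by
      change f (g β) = β
      rw [hβ', hβ]
    rw [ra_some' hD hα' hβ', ra_some' hD hα hβ, ra_some' hD hα'' hβ'']
    rfl

lemma ra_fix_iff {f : Ω →+* Ω} {α β : Ω} (hD : Disc α β) (hα : f α = α) (hβ : f β = β) {x y : Ω}
    (h : (CV α β).toAffine.Nonsingular x y) :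
    ra (CV α β) f (.some x y h) = .some x y h ↔ f x = x ∧ f y = y := by
  rw [ra_some' hD hα hβ, Affine.Point.some.injEq]

end

end Pool.Agent.V7H43.BS
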