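import Pool.Agent.TH954.SBir

/-!
# Restriction of a section to an extension of the base field
-/

set_option autoImplicit false
set_option linter.all false

namespace Pool.Agent.V7H43.BS

open Pool.Agent.TH954

lemma finset_of_nhds {F M : Type} [Field F] [Field M] [Algebra F M] {U : Set (M ≃ₐ[F] M)}
    (hU : U ∈ nhds (1 : M ≃ₐ[F] M)) :
    ∃ T : Finset M, ∀ g : M ≃ₐ[F] M, (∀ z ∈ T, g z = z) → g ∈ U := by
  rw [krullTopology_mem_nhds_one_iff] at hU
  obtain ⟨E, hE, h⟩ := hU
  haveI := hE
  obtain ⟨S, hS⟩ := (Module.Finite.fg_top : (⊤ : Submodule F E).FG)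
  classical
  refine ⟨S.image (fun z : E => (z : M)), fun g hg => h ?_⟩
  rw [SetLike.mem_coe, IntermediateField.mem_fixingSubgroup_iff]
  intro z hz
  have h1 : (⟨z, hz⟩ : E) ∈ Submodule.span F (S : Set E) := by
    rw [hS]
    exact Submodule.mem_top
  have h2 : ∀ w : E, w ∈ Submodule.span F (S : Set E) → g (w : M) = w := by
    intro w hw
    induction hw using Submodule.span_induction with
    | mem x hx => exact hg x (Finset.mem_image_of_mem _ hx)
    | zero => exact map_zero g
    | add x y _ _ hx hy =>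
      change g ((x : M) + y) = x + y
      rw [map_add, hx, hy]
    | smul c x _ hx =>
      change g ((c • x : E) : M) = ((c • x : E) : M)
      rw [IntermediateField.coe_smul, map_smul, hx]
  exact h2 _ h1

lemma nhds_of_finset {F M : Type} [Field F] [Field M] [Algebra F M] [Algebra.IsAlgebraic F M]
    (T : Finset M) : {g : M ≃ₐ[F] M | ∀ z ∈ T, g z = z} ∈ nhds (1 : M ≃ₐ[F] M) := by
  have h1 : {g : M ≃ₐ[F] M | ∀ z ∈ T, g z = z} = ⋂ z ∈ T, {g : M ≃ₐ[F] M | g z = z} := by
    ext g
    simp
  rw [h1]
  exact (Filter.biInter_finset_mem T).2 (fun z _ => fix_nhds z)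

section

variable {K L Ω B : Type} [Field K] [Field L] [Field Ω] [Field B] [Algebra K L] [Algebra L Ω]
  [Algebra K Ω] [Algebra K B] [Algebra.IsAlgebraic K B] [Algebra.IsAlgebraic L Ω]

/-- the elements near `1` fix a given element -/
lemma fix_section (s : GalSection K L Ω B) (z : Ω) :
    ∃ T : Finset B, ∀ g : B ≃ₐ[K] B, (∀ w ∈ T, g w = w) → s.s g z = z := by
  have h2 := s.cont.continuousAt (x := 1)
  have h3 : {g : Ω ≃ₐ[L] Ω | g z = z} ∈ nhds (s.s 1) := by
    rw [map_one]
    exact fix_nhds z
  exact finset_of_nhds (h2 h3)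

variable {K' L' : Type} [Field K'] [Field L'] [Algebra K K'] [Algebra K' B] [IsScalarTower K K' B]
  [Algebra L' Ω] [Algebra K' Ω] [Algebra.IsAlgebraic K' B] [Algebra.IsAlgebraic L' Ω]

/-- the restriction of the section to `K'`, `L'` -/
noncomputable def restr (s : GalSection K L Ω B)
    (hc : ∀ c : K', s.j (algebraMap K' B c) = algebraMap K' Ω c)
    (hf : ∀ (g : B ≃ₐ[K'] B) (z : L'),
      s.s (g.restrictScalars K) (algebraMap L' Ω z) = algebraMap L' Ω z) :
    GalSection K' L' Ω B where
  j := { toRingHom := s.j, commutes' := hc }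
  s :=
    { toFun := fun g => AlgEquiv.ofRingEquiv
        (f := (s.s (g.restrictScalars K) : Ω ≃+* Ω)) (hf g)
      map_one' := by
        ext x
        change s.s ((1 : B ≃ₐ[K'] B).restrictScalars K) x = x
        have e : (1 : B ≃ₐ[K'] B).restrictScalars K = 1 := rfl
        rw [e, map_one]
        rfl
      map_mul' := fun g h => by
        ext x
        change s.s ((g * h).restrictScalars K) x =
          s.s (g.restrictScalars K) (s.s (h.restrictScalars K) x)
        have e : (g * h).restrictScalars K = g.restrictScalars K * h.restrictScalars K := rfl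
        rw [e, map_mul]
        rfl }
  cont := by
    apply continuous_of_continuousAt_one
    intro U hU
    rw [map_one] at hU
    obtain ⟨T, hT⟩ := finset_of_nhds hU
    choose R hR using fun z => fix_section s z
    classical
    have h1 := nhds_of_finset (F := K') (T.biUnion R)
    refine Filter.mem_map.2 (Filter.mem_of_superset h1 (fun g hg => ?_))
    apply hT
    intro z hz
    change s.s (g.restrictScalars K) z = z
    exact hR z _ (fun w hw => hg w (Finset.mem_biUnion.2 ⟨z, hz, hw⟩))
  sec := fun g x => s.sec (g.restrictScalars K) x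

lemma restr_s (s : GalSection K L Ω B)
    (hc : ∀ c : K', s.j (algebraMap K' B c) = algebraMap K' Ω c)
    (hf : ∀ (g : B ≃ₐ[K'] B) (z : L'),
      s.s (g.restrictScalars K) (algebraMap L' Ω z) = algebraMap L' Ω z) (g : B ≃ₐ[K'] B)
    (x : Ω) : (restr s hc hf).s g x = s.s (g.restrictScalars K) x := rfl

lemma restr_j (s : GalSection K L Ω B)
    (hc : ∀ c : K', s.j (algebraMap K' B c) = algebraMap K' Ω c)
    (hf : ∀ (g : B ≃ₐ[K'] B) (z : L'),
      s.s (g.restrictScalars K) (algebraMap L' Ω z) = algebraMap L' Ω z)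
    (x : B) : (restr s hc hf).j x = s.j x := rfl

end

end Pool.Agent.V7H43.BS
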