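import Pool.Agent.Y474.GT.PW
import Mathlib.FieldTheory.AlgebraicClosure

/-!
# The field `k(t)` and the square root of `t`
-/

set_option autoImplicit false
set_option linter.all false

namespace Pool.Agent.V7H43.BS

open Pool.Agent.Y474.GT

/-- `k(t)` is finitely generated -/
theorem fg_adjoin {k K : Type} [Field k] [CharZero k] [Field K] [CharZero K] [Algebra k K]
    (hfg : (⊤ : IntermediateField ℚ k).FG) {t : K}
    (hgen : IntermediateField.adjoin k {t} = ⊤) : (⊤ : IntermediateField ℚ K).FG := by
  rw [IntermediateField.fg_top_iff] at hfg ⊢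
  haveI : IsScalarTower ℚ k K := IsScalarTower.of_algebraMap_eq fun c => by simp
  haveI := hfg
  haveI : Algebra.EssFiniteType k K := by
    rw [← IntermediateField.fg_top_iff]
    exact ⟨{t}, by simpa using hgen⟩
  exact Algebra.EssFiniteType.comp ℚ k K

/-- the field `κ₀`, the algebraic closure of `k` in that of `K = k(t)`, and `ρ = t^(1/n)` -/
theorem setup {k K : Type} [Field k] [CharZero k] [Field K] [CharZero K] [Algebra k K] {t : K}
    (ht : Transcendental k t) (hgen : IntermediateField.adjoin k {t} = ⊤) {n : ℕ} (hn : 2 ≤ n) :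
    ∃ (κ₀ : Type) (_ : Field κ₀) (_ : Algebra k κ₀) (_ : Algebra κ₀ (AlgebraicClosure K))
      (_ : IsScalarTower k κ₀ (AlgebraicClosure K)) (_ : IsAlgClosure k κ₀)
      (ρ : AlgebraicClosure K), ρ ^ n = algebraMap K (AlgebraicClosure K) t ∧
      Transcendental κ₀ ρ ∧
      Algebra.IsAlgebraic (IntermediateField.adjoin κ₀ {ρ}) (AlgebraicClosure K) ∧
      (∀ c : K, algebraMap K (AlgebraicClosure K) c ∈ IntermediateField.adjoin k {ρ}) ∧
      ρ ≠ 0 ∧ (∀ τ : AlgebraicClosure K ≃ₐ[K] AlgebraicClosure K, ∃ c : κ₀, c ^ n = 1 ∧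
        τ ρ = algebraMap κ₀ (AlgebraicClosure K) c * ρ) ∧
      ∃ ζ : κ₀, ζ ^ n = 1 ∧ ζ ≠ 1 ∧ ∃ g₀ : AlgebraicClosure K ≃ₐ[K] AlgebraicClosure K,
        (∀ c : κ₀, g₀ (algebraMap κ₀ (AlgebraicClosure K) c) =
          algebraMap κ₀ (AlgebraicClosure K) c) ∧
        g₀ ρ = algebraMap κ₀ (AlgebraicClosure K) ζ * ρ := by
  have hn0 : n ≠ 0 := by omega
  obtain ⟨ρ, hρ2⟩ := IsAlgClosed.exists_pow_nat_eq (algebraMap K (AlgebraicClosure K) t)
    (n := n) (by omega)
  have ht' : Transcendental k (algebraMap K (AlgebraicClosure K) t) :=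
    (transcendental_algebraMap_iff (algebraMap K (AlgebraicClosure K)).injective).2 ht
  have hρk : Transcendental k ρ := by
    intro h
    apply ht'
    rw [← hρ2]
    exact h.pow n
  -- `κ₀`
  have i1 : IsAlgClosed (algebraicClosure k (AlgebraicClosure K)) :=
    IsAlgClosure.isAlgClosed k
  have i2 : CharZero (algebraicClosure k (AlgebraicClosure K)) :=
    charZero_of_injective_algebraMap
      (algebraMap k (algebraicClosure k (AlgebraicClosure K))).injective
  have hρ : Transcendental (algebraicClosure k (AlgebraicClosure K)) ρ := by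
    haveI : Algebra.IsAlgebraic k (algebraicClosure k (AlgebraicClosure K)) :=
      algebraicClosure.isAlgebraic k _
    exact hρk.extendScalars _
  have hmem : ∀ c : K, algebraMap K (AlgebraicClosure K) c ∈ IntermediateField.adjoin k {ρ} := by
    intro c
    let f : K →ₐ[k] AlgebraicClosure K := IsScalarTower.toAlgHom k K (AlgebraicClosure K)
    have h1 : IntermediateField.adjoin k {t} ≤ (IntermediateField.adjoin k {ρ}).comap f := by
      rw [IntermediateField.adjoin_simple_le_iff]
      change algebraMap K (AlgebraicClosure K) t ∈ IntermediateField.adjoin k {ρ}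
      rw [← hρ2]
      exact pow_mem (IntermediateField.mem_adjoin_simple_self k ρ) n
    rw [hgen] at h1
    exact h1 (IntermediateField.mem_top (x := c))
  have hal : Algebra.IsAlgebraic
      (IntermediateField.adjoin (algebraicClosure k (AlgebraicClosure K)) {ρ})
      (AlgebraicClosure K) := by
    refine ⟨fun z => ?_⟩
    obtain ⟨P, hP, hz⟩ := Algebra.IsAlgebraic.isAlgebraic (R := K) z
    have hle : ∀ w ∈ IntermediateField.adjoin k {ρ}, w ∈ IntermediateField.adjoin
        (algebraicClosure k (AlgebraicClosure K)) {ρ} := by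
      intro w hw
      let N : IntermediateField k (AlgebraicClosure K) :=
        (IntermediateField.adjoin (algebraicClosure k (AlgebraicClosure K))
          {ρ}).restrictScalars k
      have h2 : IntermediateField.adjoin k {ρ} ≤ N := by
        rw [IntermediateField.adjoin_simple_le_iff]
        exact IntermediateField.mem_adjoin_simple_self _ ρ
      exact h2 hw
    let f : K →+* IntermediateField.adjoin (algebraicClosure k (AlgebraicClosure K)) {ρ} :=
      { toFun := fun c => ⟨algebraMap K (AlgebraicClosure K) c, hle _ (hmem c)⟩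
        map_one' := Subtype.ext (map_one _)
        map_mul' := fun a b => Subtype.ext (map_mul _ _ _)
        map_zero' := Subtype.ext (map_zero _)
        map_add' := fun a b => Subtype.ext (map_add _ _ _) }
    refine ⟨P.map f, (Polynomial.map_ne_zero_iff f.injective).2 hP, ?_⟩
    rw [Polynomial.aeval_def, Polynomial.eval₂_map]
    exact hz
  have hρ0 : ρ ≠ 0 := by
    rintro rfl
    exact hρk (isAlgebraic_zero)
  -- the root of unity
  obtain ⟨ζ, hζ⟩ := IsAlgClosed.exists_root
    (Polynomial.cyclotomic n (algebraicClosure k (AlgebraicClosure K))) (by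
      rw [Polynomial.degree_cyclotomic]
      exact_mod_cast (Nat.totient_pos.2 (by omega)).ne')
  haveI : NeZero (n : algebraicClosure k (AlgebraicClosure K)) :=
    ⟨Nat.cast_ne_zero.2 hn0⟩
  rw [Polynomial.isRoot_cyclotomic_iff] at hζ
  have hζ1 : ζ ≠ 1 := hζ.ne_one (by omega)
  have hζ0 : ζ ≠ 0 := hζ.ne_zero hn0
  have hz0 : algebraMap (algebraicClosure k (AlgebraicClosure K)) (AlgebraicClosure K) ζ ≠ 0 :=
    (map_ne_zero _).2 hζ0
  have hdK : ∀ P : Polynomial (algebraicClosure k (AlgebraicClosure K)), P ≠ 0 →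
      P.eval₂ (algebraMap (algebraicClosure k (AlgebraicClosure K)) (AlgebraicClosure K))
        (algebraMap (algebraicClosure k (AlgebraicClosure K)) (AlgebraicClosure K) ζ * ρ) ≠
        0 := by
    intro P hP h
    have h1 : IsAlgebraic (algebraicClosure k (AlgebraicClosure K))
      (algebraMap (algebraicClosure k (AlgebraicClosure K)) (AlgebraicClosure K) ζ * ρ) :=
      ⟨P, hP, h⟩
    apply hρ
    have h2 : IsAlgebraic (algebraicClosure k (AlgebraicClosure K))
      (algebraMap (algebraicClosure k (AlgebraicClosure K)) (AlgebraicClosure K) ζ⁻¹) :=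
      isAlgebraic_algebraMap _
    have h3 := h2.mul h1
    rwa [map_inv₀, inv_mul_cancel_left₀ hz0] at h3
  obtain ⟨J, hJ, hJρ⟩ := lift_tr ρ hρ hal
    (algebraMap (algebraicClosure k (AlgebraicClosure K)) (AlgebraicClosure K))
    (algebraMap (algebraicClosure k (AlgebraicClosure K)) (AlgebraicClosure K) ζ * ρ) hdK
  have hJK : ∀ c : K, J (algebraMap K (AlgebraicClosure K) c) =
      algebraMap K (AlgebraicClosure K) c := by
    let E : IntermediateField k K :=
      ((J.comp (algebraMap K (AlgebraicClosure K))).eqLocusField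
        (algebraMap K (AlgebraicClosure K))).toIntermediateField (fun r => by
          change J (algebraMap K (AlgebraicClosure K) (algebraMap k K r)) =
            algebraMap K (AlgebraicClosure K) (algebraMap k K r)
          rw [← IsScalarTower.algebraMap_apply]
          exact hJ (algebraMap k (algebraicClosure k (AlgebraicClosure K)) r))
    have h1 : IntermediateField.adjoin k {t} ≤ E := by
      rw [IntermediateField.adjoin_simple_le_iff]
      change J (algebraMap K (AlgebraicClosure K) t) = algebraMap K (AlgebraicClosure K) t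
      rw [← hρ2, map_pow, hJρ, mul_pow, ← map_pow, hζ.pow_eq_one, map_one, one_mul]
    rw [hgen] at h1
    exact fun c => h1 (IntermediateField.mem_top (x := c))
  let J' : AlgebraicClosure K →ₐ[K] AlgebraicClosure K := { toRingHom := J, commutes' := hJK }
  let g₀ : AlgebraicClosure K ≃ₐ[K] AlgebraicClosure K :=
    AlgEquiv.ofBijective J' (Algebra.IsAlgebraic.algHom_bijective J')
  refine ⟨algebraicClosure k (AlgebraicClosure K), inferInstance, inferInstance, inferInstance,
    inferInstance, inferInstance, ρ, hρ2, hρ, hal, hmem, hρ0, fun τ => ?_, ζ, hζ.pow_eq_one, hζ1,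
    g₀, hJ, hJρ⟩
  have h1 : (τ ρ / ρ) ^ n = 1 := by
    rw [div_pow, ← map_pow, hρ2, AlgEquiv.commutes, div_self]
    rw [← hρ2]
    exact pow_ne_zero n hρ0
  obtain ⟨c, hc⟩ := mem_bot (κ₀ := algebraicClosure k (AlgebraicClosure K)) (τ ρ / ρ) (by
    refine IsAlgebraic.of_pow (n := n) (by omega) ?_
    rw [h1]
    exact isAlgebraic_one)
  refine ⟨c, ?_, ?_⟩
  · apply (algebraMap (algebraicClosure k (AlgebraicClosure K)) (AlgebraicClosure K)).injective
    rw [map_pow, hc, h1, map_one]
  · rw [hc, div_mul_cancel₀ _ hρ0]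

end Pool.Agent.V7H43.BS
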