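import Pool.Agent.V7H43.BS.Super

/-!
# The data for the field `k(ρ)`
-/

set_option autoImplicit false
set_option linter.all false

namespace Pool.Agent.V7H43.BS

open Pool.Agent.TH954 Pool.Agent.Y474.GT

section

variable {k K B : Type} [Field k] [CharZero k] [Field K] [CharZero K] [Field B] [Algebra K B]
  [Algebra k B]

lemma cz_alg : CharZero (algebraicClosure k B) :=
  charZero_of_injective_algebraMap (algebraMap k (algebraicClosure k B)).injective

theorem dat_of [IsAlgClosed B] [Algebra.IsAlgebraic K B] [CharZero (algebraicClosure k B)]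
    (hfg : (⊤ : IntermediateField ℚ k).FG) {ρ : B}
    (hρ : Transcendental k ρ)
    (hK : ∀ c : K, algebraMap K B c ∈ IntermediateField.adjoin k {ρ}) :
    ∃ G : Finset (algebraicClosure k B), Dat K ρ G := by
  classical
  haveI : Algebra.IsAlgebraic k (algebraicClosure k B) := algebraicClosure.isAlgebraic k _
  obtain ⟨S, hS⟩ := hfg
  have cB : CharZero B := charZero_of_injective_algebraMap (algebraMap K B).injective
  have hSk : ∀ (F : Subfield k), (S : Set k) ⊆ F → ∀ c : k, c ∈ F := by
    intro F hF c
    have h1 : IntermediateField.adjoin ℚ (S : Set k) ≤ F.toIntermediateField (fun r => by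
        rw [eq_ratCast]
        exact SubfieldClass.ratCast_mem _ r) := by
      rw [IntermediateField.adjoin_le_iff]
      exact hF
    rw [hS] at h1
    exact h1 (IntermediateField.mem_top (x := c))
  refine ⟨S.image (algebraMap k (algebraicClosure k B)), ?_, ?_, ?_, ?_⟩
  · exact hρ.extendScalars _
  · refine ⟨fun z => ?_⟩
    obtain ⟨P, hP, hz⟩ := Algebra.IsAlgebraic.isAlgebraic (R := K) z
    have hle : ∀ w ∈ IntermediateField.adjoin k {ρ}, w ∈ IntermediateField.adjoin
        (algebraicClosure k B) {ρ} := by
      intro w hw
      let N : IntermediateField k B :=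
        (IntermediateField.adjoin (algebraicClosure k B) {ρ}).restrictScalars k
      have h2 : IntermediateField.adjoin k {ρ} ≤ N := by
        rw [IntermediateField.adjoin_simple_le_iff]
        exact IntermediateField.mem_adjoin_simple_self _ ρ
      exact h2 hw
    let f : K →+* IntermediateField.adjoin (algebraicClosure k B) {ρ} :=
      (algebraMap K B).codRestrict (IntermediateField.adjoin (algebraicClosure k B) {ρ})
        (fun c => hle _ (hK c))
    have hf : (algebraMap (IntermediateField.adjoin (algebraicClosure k B) {ρ}) B).comp f =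
        algebraMap K B := RingHom.ext fun c => rfl
    refine ⟨P.map f, (Polynomial.map_ne_zero_iff f.injective).2 hP, ?_⟩
    rw [Polynomial.aeval_def, Polynomial.eval₂_map, hf]
    exact hz
  · refine ⟨fun z => ?_⟩
    obtain ⟨P, hP, hz⟩ := Algebra.IsAlgebraic.isAlgebraic (R := k) z
    have hmem : ∀ c : k, algebraMap k (algebraicClosure k B) c ∈ IntermediateField.adjoin ℚ
        ((S.image (algebraMap k (algebraicClosure k B)) : Finset _) :
          Set (algebraicClosure k B)) := by
      refine hSk ((IntermediateField.adjoin ℚ
        ((S.image (algebraMap k (algebraicClosure k B)) : Finset _) :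
          Set (algebraicClosure k B))).toSubfield.comap (algebraMap k (algebraicClosure k B)))
        fun c hc => ?_
      exact IntermediateField.subset_adjoin _ _ (Finset.mem_coe.2 (Finset.mem_image_of_mem _ hc))
    let f : k →+* IntermediateField.adjoin ℚ
        ((S.image (algebraMap k (algebraicClosure k B)) : Finset _) :
          Set (algebraicClosure k B)) :=
      (algebraMap k (algebraicClosure k B)).codRestrict _ hmem
    have hf : (algebraMap (IntermediateField.adjoin ℚ
        ((S.image (algebraMap k (algebraicClosure k B)) : Finset _) :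
          Set (algebraicClosure k B))) (algebraicClosure k B)).comp f =
        algebraMap k (algebraicClosure k B) := RingHom.ext fun c => rfl
    refine ⟨P.map f, (Polynomial.map_ne_zero_iff f.injective).2 hP, ?_⟩
    rw [Polynomial.aeval_def, Polynomial.eval₂_map, hf]
    exact hz
  · intro c
    set Z := Subfield.closure ((algebraMap (algebraicClosure k B) B) ''
      ((S.image (algebraMap k (algebraicClosure k B)) : Finset _) :
        Set (algebraicClosure k B)) ∪ {ρ}) with hZ
    have hkZ : ∀ c : k, algebraMap k B c ∈ Z := by
      refine hSk (Z.comap (algebraMap k B)) fun c hc => ?_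
      exact Subfield.subset_closure (Or.inl ⟨algebraMap k (algebraicClosure k B) c,
        Finset.mem_coe.2 (Finset.mem_image_of_mem _ hc), rfl⟩)
    have h1 : IntermediateField.adjoin k {ρ} ≤ Z.toIntermediateField hkZ := by
      rw [IntermediateField.adjoin_simple_le_iff]
      exact Subfield.subset_closure (Or.inr rfl)
    exact h1 (hK c)

/-- endomorphisms of `B` over `κ` -/
theorem liftJ [IsAlgClosed B] {κ : Type} [Field κ] [CharZero κ] [Algebra κ B] {ρ : B}
    {G : Finset κ} (D : Dat K ρ G) {d : B} (hd : Transcendental κ d) :
    ∃ J : B →+* B, (∀ c : κ, J (algebraMap κ B c) = algebraMap κ B c) ∧ J ρ = d := by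
  refine lift_tr ρ D.hρ D.hal (algebraMap κ B) d fun P hP h => hd ⟨P, hP, h⟩

/-- as an automorphism over `K` -/
theorem liftσ [IsAlgClosed B] [Algebra.IsAlgebraic K B] {J : B →+* B}
    (hJ : ∀ c : K, J (algebraMap K B c) = algebraMap K B c) :
    ∃ σ : B ≃ₐ[K] B, ∀ z, σ z = J z := by
  let J' : B →ₐ[K] B := { toRingHom := J, commutes' := hJ }
  exact ⟨AlgEquiv.ofBijective J' (Algebra.IsAlgebraic.algHom_bijective J'), fun z => rfl⟩

end

end Pool.Agent.V7H43.BS
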