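import Pool.Agent.V7H43.BS.Main
import Pool.Agent.V7H43.BS.Restr

/-!
# Valuation rings which are stable under an open subgroup of a section
-/

set_option autoImplicit false
set_option linter.all false

namespace Pool.Agent.V7H43.BS

open Pool.Agent.TH954 IsDedekindDomain NumberField WithZero Pool.Agent.W858.SF

lemma exists_small {M : Type} [Field M] {W : ValuationSubring M} (h : W ≠ ⊤) :
    ∃ t : M, t ≠ 0 ∧ W.valuation t < 1 := by
  obtain ⟨x, hx⟩ : ∃ x, x ∉ W := by
    by_contra hcon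
    push Not at hcon
    exact h (SetLike.ext fun x => ⟨fun _ => ValuationSubring.mem_top x, fun _ => hcon x⟩)
  have hx0 : x ≠ 0 := by
    rintro rfl
    exact hx (zero_mem _)
  refine ⟨x⁻¹, inv_ne_zero hx0, (ValuationSubring.mem_nonunits_iff_or _).2 (Or.inr ?_)⟩
  rwa [inv_inv]

lemma exists_natMem {L : Type} [Field L] [NumberField L] (v : HeightOneSpectrum (𝓞 L)) :
    ∃ n : ℕ, n ≠ 0 ∧ (n : 𝓞 L) ∈ v.asIdeal := by
  refine ⟨Ideal.absNorm v.asIdeal, ?_, Ideal.absNorm_mem _⟩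
  rw [Ne, Ideal.absNorm_eq_zero_iff]
  exact v.ne_bot

lemma vv_nat_lt {L : Type} [Field L] [NumberField L] (v : HeightOneSpectrum (𝓞 L)) {n : ℕ}
    (hn : (n : 𝓞 L) ∈ v.asIdeal) : vv v (n : v.adicCompletion L) < 1 := by
  have h2 : v.valuation L (algebraMap (𝓞 L) L (n : 𝓞 L)) < 1 :=
    (v.valuation_lt_one_iff_mem _).2 hn
  have h3 := vv_algebraMap v (algebraMap (𝓞 L) L (n : 𝓞 L))
  have h4 : algebraMap L (v.adicCompletion L) (algebraMap (𝓞 L) L (n : 𝓞 L)) =
      (n : v.adicCompletion L) := by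
    rw [map_natCast, map_natCast]
  rw [h4] at h3
  rw [h3]
  exact h2

/-- finitely generated fields have elements without roots -/
theorem exists_noroot {E : Type} [Field E] [CharZero E] (hfg : (⊤ : IntermediateField ℚ E).FG) :
    ∃ (u : E) (N : ℕ), 0 < N ∧ ∀ c : E, c ^ N ≠ u := by
  obtain ⟨L, iL, jL, v, ψ, -, -⟩ := noroot hfg 1 Polynomial.separable_one
    ⟨1, fun θ hθ => absurd hθ (by simp)⟩ ∅
  obtain ⟨n, hn0, hnm⟩ := exists_natMem v
  have hval : vv v (ψ (n : E)) < 1 := by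
    rw [map_natCast]
    exact vv_nat_lt v hnm
  have hne : ψ (n : E) ≠ 0 := (map_ne_zero _).2 (Nat.cast_ne_zero.2 hn0)
  have hv0 : vv v (ψ (n : E)) ≠ 0 := (Valuation.ne_zero_iff _).2 hne
  obtain ⟨e, he⟩ : ∃ e : ℤ, vv v (ψ (n : E)) = exp e := ⟨log (vv v (ψ (n : E))), (exp_log hv0).symm⟩
  have he0 : e < 0 := by
    rw [he, ← exp_zero, exp_lt_exp] at hval
    exact hval
  refine ⟨(n : E), e.natAbs + 1, Nat.succ_pos _, fun c hc => ?_⟩
  have h1 : vv v (ψ c) ^ (e.natAbs + 1) = exp e := by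
    rw [← map_pow, ← map_pow, hc, he]
  have hc0 : vv v (ψ c) ≠ 0 := by
    intro h0
    rw [h0, zero_pow (Nat.succ_ne_zero _)] at h1
    exact exp_ne_zero h1.symm
  obtain ⟨f, hf⟩ : ∃ f : ℤ, vv v (ψ c) = exp f := ⟨log (vv v (ψ c)), (exp_log hc0).symm⟩
  rw [hf, ← exp_nsmul, exp_inj] at h1
  have h2 : ((e.natAbs + 1 : ℕ) : ℤ) ∣ e := ⟨f, by rw [← nsmul_eq_mul]; exact h1.symm⟩
  have h3 : (e.natAbs + 1) ∣ e.natAbs := Int.natCast_dvd.1 h2
  have h4 := Nat.le_of_dvd (Int.natAbs_pos.2 he0.ne) h3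
  omega

/-- the residue field of a stable valuation ring of the fixed field is the base field -/
theorem value_of_stable {K M : Type} [Field K] [CharZero K] [Field M] [Algebra K M]
    [IsAlgClosed M] {A : SAct K M} {W : ValuationSubring M} (hW : ∀ c : K, algebraMap K M c ∈ W)
    (hne : W ≠ ⊤) (hst : ∀ τ x, x ∈ W → A.s τ x ∈ W)
    (hdim : ∀ x : M, Transcendental K x → ∀ t : M, IsAlgebraic (Algebra.adjoin K {x}) t)
    {x : M} (hx : x ∈ A.fix) (hxW : x ∈ W) : ∃ c : K, W.valuation (x - algebraMap K M c) < 1 := by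
  obtain ⟨t, ht0, ht⟩ := exists_small hne
  have hI : ∀ W' ∈ ({W} : Set (ValuationSubring M)), ∀ c : K, algebraMap K M c ∈ W' := by
    rintro W' rfl
    exact hW
  obtain ⟨R, hR⟩ := finVal_of_alg (A := A) (I := {W}) hI ht0 (by rintro W' rfl; exact ht)
    (fun x hx => hdim x hx t) x
  obtain ⟨β, -, hβ⟩ := hR W rfl hxW
  have hiff : ∀ τ x, A.s τ x ∈ W ↔ x ∈ W := by
    intro τ x
    refine ⟨fun h => ?_, hst τ x⟩
    have h3 := hst τ⁻¹ _ h
    have h4 : A.s τ⁻¹ (A.s τ x) = x := by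
      change (A.s τ⁻¹ * A.s τ) x = x
      rw [← map_mul, inv_mul_cancel, map_one]
      rfl
    rwa [h4] at h3
  have hβK : ∃ c : K, algebraMap K (AlgebraicClosure K) c = β := by
    apply base_of_fixed
    intro τ
    have h1 := hβ.act (hiff τ)
    rw [hx τ] at h1
    exact h1.unique hW hβ
  obtain ⟨c, rfl⟩ := hβK
  refine ⟨c, ?_⟩
  unfold Vl at hβ
  rwa [A.j.commutes] at hβ

lemma dim_up {K K' M : Type} [Field K] [Field K'] [Field M] [Algebra K K'] [Algebra K M]
    [Algebra K' M] [IsScalarTower K K' M]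
    (hdim : ∀ x : M, Transcendental K x → ∀ t : M, IsAlgebraic (Algebra.adjoin K {x}) t)
    (x : M) (hx : Transcendental K' x) (t : M) : IsAlgebraic (Algebra.adjoin K' {x}) t := by
  have hx' : Transcendental K x := fun h => hx (h.extendScalars (algebraMap K K').injective)
  obtain ⟨P, hP, h⟩ := hdim x hx' t
  have hle : ∀ w ∈ Algebra.adjoin K {x}, w ∈ Algebra.adjoin K' {x} := by
    intro w hw
    have h2 : Algebra.adjoin K {x} ≤ (Algebra.adjoin K' {x}).restrictScalars K := by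
      rw [Algebra.adjoin_le_iff]
      rintro y rfl
      exact Algebra.self_mem_adjoin_singleton K' y
    exact h2 hw
  let f : Algebra.adjoin K {x} →+* Algebra.adjoin K' {x} :=
    (algebraMap (Algebra.adjoin K {x}) M).codRestrict (Algebra.adjoin K' {x})
      (fun c => hle _ c.2)
  have hv : ∀ c, ((f c : Algebra.adjoin K' {x}) : M) = c := fun c => rfl
  have hf : Function.Injective f := by
    intro a b hab
    have h1 := congrArg (fun z : Algebra.adjoin K' {x} => (z : M)) hab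
    exact Subtype.ext h1
  have e : (algebraMap (Algebra.adjoin K' {x}) M).comp f =
      algebraMap (Algebra.adjoin K {x}) M := RingHom.ext fun c => hv c
  refine ⟨P.map f, (Polynomial.map_ne_zero_iff hf).2 hP, ?_⟩
  rw [Polynomial.aeval_def, Polynomial.eval₂_map, e]
  exact h

end Pool.Agent.V7H43.BS
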