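import Pool.Agent.V7H43.BS.Stab

/-!
# Valuation rings which are stable under an open subgroup of a section (2)
-/

set_option autoImplicit false
set_option linter.all false

namespace Pool.Agent.V7H43.BS

open Pool.Agent.TH954

lemma val_comap {F M : Type} [Field F] [Field M] [Algebra F M] (W : ValuationSubring M) {x : F}
    (h : W.valuation (algebraMap F M x) < 1) :
    (W.comap (algebraMap F M)).valuation x < 1 := by
  refine (ValuationSubring.mem_nonunits_iff_or _).2 ?_
  by_cases h0 : x = 0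
  · exact Or.inl h0
  · right
    intro h3
    have h4 := ValuationSubring.mem_comap.1 h3
    rcases (ValuationSubring.mem_nonunits_iff_or _).1 h with h5 | h5
    · exact h0 ((map_eq_zero _).1 h5)
    · rw [map_inv₀] at h4
      exact h5 h4

lemma fg_up {K E : Type} [Field K] [CharZero K] [Field E] [CharZero E] [Algebra K E]
    [FiniteDimensional K E] (hfg : (⊤ : IntermediateField ℚ K).FG) :
    (⊤ : IntermediateField ℚ E).FG := by
  rw [IntermediateField.fg_top_iff] at hfg ⊢
  haveI : IsScalarTower ℚ K E := IsScalarTower.of_algebraMap_eq fun c => by simp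
  haveI := hfg
  exact Algebra.EssFiniteType.comp ℚ K E

section

variable {K L Ω B : Type} [Field K] [CharZero K] [Field L] [Field Ω] [Field B] [Algebra K L]
  [Algebra L Ω] [Algebra K Ω] [Algebra K B] [IsScalarTower K L Ω] [IsAlgClosure L Ω]
  [IsAlgClosure K B]

theorem uniq3 (hfg : (⊤ : IntermediateField ℚ K).FG)
    (hdim : ∀ x : Ω, Transcendental K x → ∀ t : Ω, IsAlgebraic (Algebra.adjoin K {x}) t)
    (s : GalSection K L Ω B) (E : IntermediateField K B) [FiniteDimensional K E]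
    {W1 W2 : ValuationSubring Ω} (h1 : ∀ c : K, algebraMap K Ω c ∈ W1)
    (h2 : ∀ c : K, algebraMap K Ω c ∈ W2) (hn1 : W1 ≠ ⊤) (hn2 : W2 ≠ ⊤)
    (hs1 : ∀ g : B ≃ₐ[K] B, (∀ z ∈ E, g z = z) → ∀ x ∈ W1, s.s g x ∈ W1)
    (hs2 : ∀ g : B ≃ₐ[K] B, (∀ z ∈ E, g z = z) → ∀ x ∈ W2, s.s g x ∈ W2) : W1 = W2 := by
  classical
  have hΩ1 : IsAlgClosed Ω := IsAlgClosure.isAlgClosed L
  have hΩ2 : Algebra.IsAlgebraic L Ω := IsAlgClosure.isAlgebraic
  have hB1 : IsAlgClosed B := IsAlgClosure.isAlgClosed K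
  have hB2 : Algebra.IsAlgebraic K B := IsAlgClosure.isAlgebraic
  ext z
  obtain ⟨T, hT⟩ := fix_section s z
  set K' : IntermediateField K B := E ⊔ IntermediateField.adjoin K (T : Set B) with hK'
  have hfd1 : FiniteDimensional K (IntermediateField.adjoin K (T : Set B)) :=
    IntermediateField.finiteDimensional_adjoin fun x _ => Algebra.IsIntegral.isIntegral x
  have hfd : FiniteDimensional K K' := by
    rw [hK']
    infer_instance
  have hEK : ∀ w ∈ E, w ∈ K' := fun w hw => (le_sup_left : E ≤ K') hw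
  have hTK : ∀ w ∈ T, w ∈ K' := fun w hw =>
    (le_sup_right : IntermediateField.adjoin K (T : Set B) ≤ K')
      (IntermediateField.subset_adjoin _ _ hw)
  set Λ : IntermediateField L Ω := IntermediateField.fixedField (K'.fixingSubgroup.map s.s) with hΛ
  have hmem : ∀ x : Ω, x ∈ Λ ↔ ∀ g : B ≃ₐ[K] B, (∀ w ∈ K', g w = w) → s.s g x = x := by
    intro x
    rw [hΛ, IntermediateField.mem_fixedField_iff]
    constructor
    · intro h g hg
      exact h _ ⟨g, (IntermediateField.mem_fixingSubgroup_iff _ _).2 hg, rfl⟩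
    · rintro h f ⟨g, hg, rfl⟩
      exact h g ((IntermediateField.mem_fixingSubgroup_iff _ _).1 hg)
  letI iΩ : Algebra K' Ω := ((s.j : B →+* Ω).comp (algebraMap K' B)).toAlgebra
  have hjΛ : ∀ c : K', algebraMap K' Ω c ∈ Λ := by
    intro c
    rw [hmem]
    intro g hg
    change s.s g (s.j (c : B)) = s.j (c : B)
    rw [s.sec, hg _ c.2]
  letI iΛ : Algebra K' Λ := RingHom.toAlgebra
    { toFun := fun c => ⟨algebraMap K' Ω c, hjΛ c⟩
      map_one' := Subtype.ext (map_one _)
      map_mul' := fun a b => Subtype.ext (map_mul _ _ _)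
      map_zero' := Subtype.ext (map_zero _)
      map_add' := fun a b => Subtype.ext (map_add _ _ _) }
  haveI t1 : IsScalarTower K' Λ Ω := IsScalarTower.of_algebraMap_eq fun _ => rfl
  haveI t2 : IsScalarTower K K' Ω := IsScalarTower.of_algebraMap_eq fun c => (s.j.commutes c).symm
  have c0 : CharZero K' := charZero_of_injective_algebraMap (algebraMap K K').injective
  haveI a1 : Algebra.IsAlgebraic K' B := Algebra.IsAlgebraic.tower_top (K := K) K'
  haveI a2 : Algebra.IsAlgebraic Λ Ω := Algebra.IsAlgebraic.tower_top (K := L) Λ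
  haveI a3 : IsAlgClosure K' B := ⟨hB1, a1⟩
  let s' : GalSection K' Λ Ω B := restr s (fun c => rfl) (fun g z => (hmem _).1 z.2 _
    (fun w hw => g.commutes (⟨w, hw⟩ : K')))
  set A' := toSAct s' with hA'
  have hA's : ∀ τ x, A'.s τ x = s.s (((eqv K' B).autCongr τ).restrictScalars K) x := fun τ x => rfl
  have hgfix : ∀ (τ : AlgebraicClosure K' ≃ₐ[K'] AlgebraicClosure K') (w) (hw : w ∈ K'),
      ((eqv K' B).autCongr τ).restrictScalars K w = w := fun τ w hw =>
    ((eqv K' B).autCongr τ).commutes (⟨w, hw⟩ : K')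
  have hF' : ∀ x : Λ, algebraMap Λ Ω x ∈ A'.fix := by
    intro x τ
    rw [hA's]
    exact (hmem _).1 x.2 _ (hgfix τ)
  obtain ⟨u, N, hN, hu⟩ := exists_noroot (fg_up (E := K') hfg)
  have key : ∀ W : ValuationSubring Ω, (∀ c : K, algebraMap K Ω c ∈ W) → W ≠ ⊤ →
      (∀ g : B ≃ₐ[K] B, (∀ z ∈ E, g z = z) → ∀ x ∈ W, s.s g x ∈ W) →
      (∀ c : K', algebraMap K' Λ c ∈ W.comap (algebraMap Λ Ω)) ∧
      (∀ a ∈ W.comap (algebraMap Λ Ω), ∃ c : K',
        (W.comap (algebraMap Λ Ω)).valuation (a - algebraMap K' Λ c) < 1) ∧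
      ∀ τ x, x ∈ W → A'.s τ x ∈ W := by
    intro W hW hWn hWs
    have hst : ∀ τ x, x ∈ W → A'.s τ x ∈ W := by
      intro τ x hx
      rw [hA's]
      exact hWs _ (fun w hw => hgfix τ w (hEK w hw)) x hx
    have hWK : ∀ c : K', algebraMap K' Ω c ∈ W := by
      intro c
      refine mem_of_integralW hW ?_
      exact (Algebra.IsIntegral.isIntegral (R := K) c).map (IsScalarTower.toAlgHom K K' Ω)
    refine ⟨fun c => ?_, fun a ha => ?_, hst⟩
    · rw [ValuationSubring.mem_comap, ← IsScalarTower.algebraMap_apply]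
      exact hWK c
    · obtain ⟨c, hc⟩ := value_of_stable (A := A') hWK hWn hst (dim_up hdim) (hF' a)
        (ValuationSubring.mem_comap.1 ha)
      refine ⟨c, val_comap W ?_⟩
      rw [map_sub, ← IsScalarTower.algebraMap_apply]
      exact hc
  obtain ⟨p1, p2, p3⟩ := key W1 h1 hn1 hs1
  obtain ⟨q1, q2, q3⟩ := key W2 h2 hn2 hs2
  have h := uniq_ring u N hN hu A' hF' _ _ p1 q1 p2 q2 W1 W2 rfl rfl p3 q3
  have hz : z ∈ Λ := by
    rw [hmem]
    exact fun g hg => hT g (fun w hw => hg w (hTK w hw))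
  have h5 : (⟨z, hz⟩ : Λ) ∈ W1.comap (algebraMap Λ Ω) ↔
      (⟨z, hz⟩ : Λ) ∈ W2.comap (algebraMap Λ Ω) := by rw [h]
  exact h5

end

end Pool.Agent.V7H43.BS
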