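import Pool.Agent.V7H43.BS.Lim

/-!
# Roots of the functions `x - e` on a superelliptic curve and inertia groups
-/

set_option autoImplicit false
set_option linter.all false

namespace Pool.Agent.V7H43.BS

section

variable {M : Type} [Field M] {V : ValuationSubring M} {σ : M →+* M}

lemma val_eq_one_of_pow {z : M} {n : ℕ} (hn : 0 < n) (h : V.valuation z ^ n = 1) :
    V.valuation z = 1 :=
  (pow_eq_one_iff_of_nonneg zero_le hn.ne').1 h

/-- inertia fixes the roots of units -/
lemma root_fixed (hσ : ∀ z, V.valuation z ≤ 1 → V.valuation (σ z - z) < 1) {n : ℕ} (hn : 0 < n)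
    (hnV : V.valuation (n : M) = 1) {w : M} (hw : V.valuation (w ^ n) = 1)
    (hf : σ (w ^ n) = w ^ n) : σ w = w := by
  rw [map_pow] at hw
  have hw1 := val_eq_one_of_pow hn hw
  have hw0 : w ≠ 0 := by
    rintro rfl
    rw [map_zero] at hw1
    exact zero_ne_one hw1
  by_contra hne
  set ζ := σ w / w with hζ
  have hζ1 : ζ - 1 ≠ 0 := by
    intro h0
    apply hne
    rw [sub_eq_zero, hζ, div_eq_one_iff_eq hw0] at h0
    exact h0
  have hζn : ζ ^ n = 1 := by
    rw [hζ, div_pow, ← map_pow, hf, div_self (pow_ne_zero n hw0)]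
  have hv1 : V.valuation (ζ - 1) < 1 := by
    have e : ζ - 1 = (σ w - w) / w := by
      rw [hζ]
      field_simp
    rw [e, map_div₀, hw1, div_one]
    exact hσ w hw1.le
  have hvζ : V.valuation ζ = 1 := by
    apply val_eq_one_of_pow hn
    rw [← map_pow, hζn, map_one]
  have hpow : ∀ i : ℕ, V.valuation (ζ ^ i - 1) < 1 := by
    intro i
    induction i with
    | zero => simp
    | succ i ih =>
      have e : ζ ^ (i + 1) - 1 = ζ * (ζ ^ i - 1) + (ζ - 1) := by ring
      rw [e]
      refine lt_of_le_of_lt (Valuation.map_add _ _ _) (max_lt ?_ hv1)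
      rw [map_mul, hvζ, one_mul]
      exact ih
  have hsum : ∑ i ∈ Finset.range n, ζ ^ i = 0 := by
    have h1 := geom_sum_mul ζ n
    rw [hζn, sub_self] at h1
    exact (mul_eq_zero.1 h1).resolve_right hζ1
  have h2 : (n : M) = -∑ i ∈ Finset.range n, (ζ ^ i - 1) := by
    rw [Finset.sum_sub_distrib, hsum]
    simp
  rw [h2, Valuation.map_neg] at hnV
  exact absurd hnV (ne_of_lt (Valuation.map_sum_lt _ one_ne_zero fun i _ => hpow i))

/-- inertia fixes the roots of the `x - e i` -/
theorem sup_fixed (hσ : ∀ z, V.valuation z ≤ 1 → V.valuation (σ z - z) < 1) {n : ℕ} (hn : 0 < n)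
    (hnV : V.valuation (n : M) = 1) {d : ℕ} (hdn : Nat.Coprime d n) {c : M}
    (hc : V.valuation c = 1) {e : Fin d → M} (he : ∀ i, V.valuation (e i) ≤ 1)
    (hee : ∀ i j, i ≠ j → V.valuation (e i - e j) = 1) (hσc : σ c = c) (hσe : ∀ i, σ (e i) = e i)
    {x y : M} (hx : σ x = x) (hy : σ y = y) (hxy : y ^ n = c * ∏ i, (x - e i))
    (hne : ∀ i, x ≠ e i) {w : Fin d → M} (hw : ∀ i, w i ^ n = x - e i) {c' : M}
    (hc' : c' ^ n = c) (i : Fin d) : σ (w i) = w i := by
  classical
  have hne0 : ∀ i, x - e i ≠ 0 := fun i => sub_ne_zero.2 (hne i)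
  have hw0 : ∀ i, w i ≠ 0 := by
    intro i h0
    have := hw i
    rw [h0, zero_pow hn.ne'] at this
    exact hne0 i this.symm
  have hc0 : c ≠ 0 := by
    rintro rfl
    rw [map_zero] at hc
    exact zero_ne_one hc
  have hc'0 : c' ≠ 0 := by
    rintro rfl
    rw [zero_pow hn.ne'] at hc'
    exact hc0 hc'.symm
  have hy0 : y ≠ 0 := by
    rintro rfl
    rw [zero_pow hn.ne'] at hxy
    exact mul_ne_zero hc0 (Finset.prod_ne_zero_iff.2 fun i _ => hne0 i) hxy.symm
  have hP0 : ∏ i, w i ≠ 0 := Finset.prod_ne_zero_iff.2 fun i _ => hw0 i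
  have hσc' : σ c' = c' := root_fixed hσ hn hnV (by rw [hc', hc]) (by rw [hc', hσc])
  -- the product
  have hprod : σ (∏ i, w i) = ∏ i, w i := by
    have h1 : (y / (c' * ∏ i, w i)) ^ n = 1 := by
      rw [div_pow, hxy, mul_pow, hc', ← Finset.prod_pow]
      simp only [hw]
      exact div_self (mul_ne_zero hc0 (Finset.prod_ne_zero_iff.2 fun i _ => hne0 i))
    have h2 : σ (y / (c' * ∏ i, w i)) = y / (c' * ∏ i, w i) :=
      root_fixed hσ hn hnV (by rw [h1, map_one]) (by rw [h1, map_one])
    rw [map_div₀, map_mul, hy, hσc', div_eq_div_iff (mul_ne_zero hc'0 ((map_ne_zero _).2 hP0))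
      (mul_ne_zero hc'0 hP0)] at h2
    exact (mul_left_cancel₀ hc'0 (mul_left_cancel₀ hy0 h2)).symm
  have hfix : ∀ i, σ (w i ^ n) = w i ^ n := by
    intro i
    rw [hw, map_sub, hx, hσe]
  by_cases hxV : V.valuation x ≤ 1
  · -- `x` is integral
    have hle : ∀ i, V.valuation (x - e i) ≤ 1 := fun i =>
      (Valuation.map_sub _ _ _).trans (max_le hxV (he i))
    have hunit : ∀ j, V.valuation (x - e j) = 1 → σ (w j) = w j := fun j hj =>
      root_fixed hσ hn hnV (by rw [hw, hj]) (hfix j)
    by_cases hi : V.valuation (x - e i) = 1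
    · exact hunit i hi
    · have hlt : V.valuation (x - e i) < 1 := lt_of_le_of_ne (hle i) hi
      have hother : ∀ j, j ≠ i → σ (w j) = w j := by
        intro j hj
        apply hunit
        have e1 : x - e j = (x - e i) + (e i - e j) := by ring
        rw [e1, Valuation.map_add_eq_of_lt_right _ (by rw [hee i j hj.symm]; exact hlt),
          hee i j hj.symm]
      have h1 : ∏ j ∈ Finset.univ.erase i, σ (w j) = ∏ j ∈ Finset.univ.erase i, w j :=
        Finset.prod_congr rfl fun j hj => hother j (Finset.ne_of_mem_erase hj)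
      rw [map_prod, ← Finset.mul_prod_erase _ _ (Finset.mem_univ i),
        ← Finset.mul_prod_erase _ w (Finset.mem_univ i), h1] at hprod
      exact mul_right_cancel₀ (Finset.prod_ne_zero_iff.2 fun j _ => hw0 j) hprod
  · -- `x` is not integral
    push Not at hxV
    have hval : ∀ j, V.valuation (x - e j) = V.valuation x := fun j =>
      Valuation.map_sub_eq_of_lt_left _ (lt_of_le_of_lt (he j) hxV)
    have hquot : ∀ j, σ (w j / w i) = w j / w i := by
      intro j
      apply root_fixed hσ hn hnV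
      · have hx0 : V.valuation x ≠ 0 := (zero_lt_one.trans hxV).ne'
        rw [div_pow, hw, hw, map_div₀, hval, hval, div_self hx0]
      · rw [div_pow, map_div₀, hfix, hfix]
    set ζ := σ (w i) / w i with hζ
    have hj : ∀ j, σ (w j) = ζ * w j := by
      intro j
      have h1 := hquot j
      rw [map_div₀, div_eq_div_iff ((map_ne_zero _).2 (hw0 i)) (hw0 i)] at h1
      rw [hζ, div_mul_eq_mul_div, eq_div_iff (hw0 i), h1, mul_comm]
    have h1 : ζ ^ d = 1 := by
      rw [map_prod] at hprod
      simp only [hj] at hprod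
      rw [Finset.prod_mul_distrib, Finset.prod_const, Finset.card_univ, Fintype.card_fin] at hprod
      exact mul_right_cancel₀ hP0 (hprod.trans (one_mul _).symm)
    have h2 : ζ ^ n = 1 := by
      rw [hζ, div_pow, ← map_pow, hfix, div_self (pow_ne_zero n (hw0 i))]
    have h3 : ζ = 1 := by
      have h4 := orderOf_dvd_of_pow_eq_one h1
      have h5 := orderOf_dvd_of_pow_eq_one h2
      have h6 := Nat.dvd_gcd h4 h5
      rw [hdn.gcd_eq_one, Nat.dvd_one, orderOf_eq_one_iff] at h6
      exact h6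
    rw [hj i, h3, one_mul]

end

end Pool.Agent.V7H43.BS
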