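import Pool.Agent.V7H43.BS.Chain

/-!
# Points of superelliptic curves over `κ` which are moved by an automorphism over `κ` (2)
-/

set_option autoImplicit false
set_option linter.all false

open WeierstrassCurve

namespace Pool.Agent.V7H43.BS

open Pool.Agent.TH954 Pool.Agent.TH942 Pool.Agent.H901R3.MS Pool.Agent.Y474.GT

/-- one of the branch points is moved to infinity -/
lemma mob {κ R : Type} [Field κ] [Field R] (φ : κ →+* R) {D m q : ℕ} (hDm : D + 1 = q * m)
    {c : κ} (hc : c ≠ 0) {e : Fin (D + 1) → κ} (he : Function.Injective e) {x y : R}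
    (hx : x - φ (e 0) ≠ 0) (hxy : y ^ q = φ c * ∏ i, (x - φ (e i))) :
    ∃ (c' : κ) (e' : Fin D → κ), c' ≠ 0 ∧ Function.Injective e' ∧
      (y / (x - φ (e 0)) ^ m) ^ q = φ c' * ∏ i, ((x - φ (e 0))⁻¹ - φ (e' i)) := by
  have hne : ∀ i : Fin D, e i.succ - e 0 ≠ 0 := fun i =>
    sub_ne_zero.2 (he.ne (Fin.succ_ne_zero i))
  refine ⟨c * ∏ i : Fin D, (e 0 - e i.succ), fun i => (e i.succ - e 0)⁻¹, ?_, ?_, ?_⟩
  · refine mul_ne_zero hc (Finset.prod_ne_zero_iff.2 fun i _ => ?_)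
    rw [← neg_sub, neg_ne_zero]
    exact hne i
  · intro i j hij
    have h1 : (e i.succ - e 0)⁻¹ = (e j.succ - e 0)⁻¹ := hij
    rw [inv_inj, sub_left_inj] at h1
    exact Fin.succ_injective _ (he h1)
  · rw [div_pow, hxy, ← pow_mul, mul_comm m q, ← hDm, Fin.prod_univ_succ, map_mul, map_prod]
    have h1 : ∏ i : Fin D, (x - φ (e i.succ)) = (x - φ (e 0)) ^ D *
        ∏ i : Fin D, (φ (e 0 - e i.succ) * ((x - φ (e 0))⁻¹ - φ ((e i.succ - e 0)⁻¹))) := by
      have h2 : (x - φ (e 0)) ^ D = ∏ _i : Fin D, (x - φ (e 0)) := by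
        rw [Finset.prod_const, Finset.card_univ, Fintype.card_fin]
      rw [h2, ← Finset.prod_mul_distrib]
      refine Finset.prod_congr rfl fun i _ => ?_
      have h3 : φ (e i.succ) - φ (e 0) ≠ 0 := by
        rw [← map_sub]
        exact (map_ne_zero _).2 (hne i)
      rw [map_inv₀, map_sub, map_sub]
      field_simp
      ring
    rw [h1, Finset.prod_mul_distrib]
    generalize (∏ i : Fin D, φ (e 0 - e i.succ)) = A₁
    generalize (∏ i : Fin D, ((x - φ (e 0))⁻¹ - φ ((e i.succ - e 0)⁻¹))) = A₂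
    rw [div_eq_iff (pow_ne_zero _ hx)]
    ring

section

variable {K L Ω B : Type} [Field K] [CharZero K] [Field L] [Field Ω] [Field B] [Algebra K L]
  [Algebra L Ω] [Algebra K Ω] [Algebra K B] [IsScalarTower K L Ω] [IsAlgClosure L Ω]
  [IsAlgClosure K B] {κ : Type} [Field κ] [CharZero κ] [IsAlgClosed κ] [Algebra κ B]

theorem superE (hfg : (⊤ : IntermediateField ℚ K).FG)
    (hF : ∃ z : L, Transcendental K z ∧ Algebra.IsAlgebraic (IntermediateField.adjoin K {z}) L)
    (s : GalSection K L Ω B) {ρ : B} {G : Finset κ} (D : Dat K ρ G) {σ : B ≃ₐ[K] B}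
    (hσ : ∀ c : κ, σ (algebraMap κ B c) = algebraMap κ B c)
    (hσρ : σ ρ ∈ IntermediateField.adjoin κ {ρ}) {q : ℕ} (hq : q.Prime) {d : ℕ}
    (hd2 : 2 ≤ d) (hqd : q ≠ 2 ∨ d ≠ 2) {c : κ}
    (hc : c ≠ 0) {e : Fin d → κ} (he : Function.Injective e) {x y : Ω} (hx : FxB s κ ρ x)
    (hy : FxB s κ ρ y) (hxy : y ^ q = jc s κ c * ∏ i, (x - jc s κ (e i)))
    (hmv : s.s σ x ≠ x ∨ s.s σ y ≠ y) : ∃! O : ValuationSubring L, s.ArisesFrom O := by
  have gen : ∀ (d : ℕ) (c : κ) (e : Fin d → κ) (x y : Ω), 2 ≤ d → (q = 2 → 3 ≤ d) →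
      Nat.Coprime d q → c ≠ 0 → Function.Injective e → FxB s κ ρ x → FxB s κ ρ y →
      y ^ q = jc s κ c * ∏ i, (x - jc s κ (e i)) → (s.s σ x ≠ x ∨ s.s σ y ≠ y) →
      ∃! O : ValuationSubring L, s.ArisesFrom O := by
    intro d c e x y hd2 hq2 hcop hc he hx hy hxy hmv
    rcases hq.eq_two_or_odd' with h2 | hodd
    · subst h2
      exact chain2 hfg hF s D hσ hσρ (Nat.coprime_two_right.1 hcop) (hq2 rfl) hc he hx hy hxy hmv
    · have hq3 : 3 ≤ q := by
        have := hq.two_le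
        rcases hodd with ⟨r, hr⟩
        omega
      exact chainq hfg hF s D hσ hσρ hodd hq3 hd2 hcop hc he hx hy hxy hmv
  by_cases hcop : Nat.Coprime d q
  · refine gen d c e x y hd2 (fun h2 => ?_) hcop hc he hx hy hxy hmv
    rcases hqd with h | h
    · exact absurd h2 h
    · omega
  · have hdvd : q ∣ d := by
      by_contra h
      exact hcop ((Nat.Prime.coprime_iff_not_dvd hq).2 h).symm
    obtain ⟨m, hm⟩ := hdvd
    obtain ⟨D', rfl⟩ : ∃ D', d = D' + 1 := ⟨d - 1, by omega⟩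
    have hσx0 : x - jc s κ (e 0) ≠ 0 := by
      intro h0
      have hx0 : x = jc s κ (e 0) := sub_eq_zero.1 h0
      rw [Finset.prod_eq_zero (Finset.mem_univ 0) h0, mul_zero,
        pow_eq_zero_iff hq.ne_zero] at hxy
      rcases hmv with h | h
      · apply h
        rw [hx0, jc_fix s hσ]
      · apply h
        rw [hxy, map_zero]
    obtain ⟨c', e', hc', he', hxy'⟩ := mob (jc s κ) hm hc he hσx0 hxy
    refine gen D' c' e' _ _ ?_ ?_ ?_ hc' he' (fun g hg => ?_) (fun g hg => ?_) hxy' ?_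
    · -- `2 ≤ D'`
      have hm0 : m ≠ 0 := by
        rintro rfl
        omega
      rcases hqd with h | h
      · have : 3 ≤ q := by
          have := hq.two_le
          omega
        have h5 : q ≤ q * m := Nat.le_mul_of_pos_right q (Nat.pos_of_ne_zero hm0)
        omega
      · omega
    · rintro rfl
      rcases hqd with h | h
      · exact absurd rfl h
      · omega
    · -- coprime
      have h5 : q ∣ D' + 1 := ⟨m, hm⟩
      have h6 : Nat.gcd D' q ∣ D' + 1 := (Nat.gcd_dvd_right D' q).trans h5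
      have h7 : Nat.gcd D' q ∣ 1 := (Nat.dvd_add_right (Nat.gcd_dvd_left D' q)).1 h6
      exact Nat.dvd_one.1 h7
    · rw [map_inv₀, map_sub, hx g hg, jc_fix s hg.1]
    · rw [map_div₀, map_pow, map_sub, hx g hg, hy g hg, jc_fix s hg.1]
    · by_contra hcon
      push Not at hcon
      obtain ⟨h5, h6⟩ := hcon
      have h7 : s.s σ x = x := by
        rw [map_inv₀, map_sub, jc_fix s hσ, inv_inj, sub_left_inj] at h5
        exact h5
      rcases hmv with h | h
      · exact h h7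
      · apply h
        rw [map_div₀, map_pow, map_sub, jc_fix s hσ, h7] at h6
        exact (div_left_inj' (pow_ne_zero m hσx0)).1 h6

/-- **Superelliptic curves.** -/
theorem superB (hfg : (⊤ : IntermediateField ℚ K).FG)
    (hF : ∃ z : L, Transcendental K z ∧ Algebra.IsAlgebraic (IntermediateField.adjoin K {z}) L)
    (s : GalSection K L Ω B) {ρ : B} {G : Finset κ} (D : Dat K ρ G) {σ : B ≃ₐ[K] B}
    (hσ : ∀ c : κ, σ (algebraMap κ B c) = algebraMap κ B c)
    (hσρ : σ ρ ∈ IntermediateField.adjoin κ {ρ}) {q : ℕ} (hq : q.Prime) {f : Polynomial κ}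
    (hf : f.Separable) (hd2 : 2 ≤ f.natDegree) (hqd : q ≠ 2 ∨ f.natDegree ≠ 2) {x y : Ω}
    (hx : FxB s κ ρ x) (hy : FxB s κ ρ y) (hxy : y ^ q = f.eval₂ (jc s κ) x)
    (hmv : s.s σ x ≠ x ∨ s.s σ y ≠ y) : ∃! O : ValuationSubring L, s.ArisesFrom O := by
  obtain ⟨e, he, hprod⟩ := exists_roots hf
  exact superE hfg hF s D hσ hσρ hq hd2 hqd (Polynomial.leadingCoeff_ne_zero.2 hf.ne_zero) he hx hy
    (hxy.trans (hprod Ω (jc s κ) x)) hmv

end

end Pool.Agent.V7H43.BS
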