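import Pool.Agent.V7H43.BS.LocPt
import Pool.Agent.V7H43.BS.LocZero
import Pool.Agent.V7H43.BS.Setup

/-!
# Torsion points of a curve with coefficients in `k`
-/

set_option autoImplicit false
set_option linter.all false

open WeierstrassCurve

namespace Pool.Agent.V7H43.BS

open Pool.Agent.TH954 Pool.Agent.TH942 Pool.Agent.Y157.PS Pool.Agent.Y157.GT
  Pool.Agent.Y474.GT

open scoped Classical in
/-- change of the name of the curve -/
lemma pt_congr {F : Type} [Field F] {W1 W2 : WeierstrassCurve F} (h : W1 = W2) {m : ℕ}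
    (T : W1.toAffine.Point) (hT : m • T = 0) {x y : F} {hn : W1.toAffine.Nonsingular x y}
    (hTe : T = .some x y hn) : ∃ (hn' : W2.toAffine.Nonsingular x y),
      m • (Affine.Point.some x y hn' : W2.toAffine.Point) = 0 := by
  subst h
  subst hTe
  exact ⟨hn, hT⟩

variable {k K κ₀ : Type} [Field k] [CharZero k] [Field K] [CharZero K] [Algebra k K] [Field κ₀]
  [Algebra k κ₀] [IsAlgClosure k κ₀] [Algebra κ₀ (AlgebraicClosure K)]
  [IsScalarTower k κ₀ (AlgebraicClosure K)] {a b : k}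

open scoped Classical in
/-- torsion points have coordinates in `κ₀` -/
theorem tors_coord (hD : 4 * a ^ 3 + 27 * b ^ 2 ≠ 0) {m : ℕ} (hm : 1 ≤ m)
    (T : AlgPt (sw (algebraMap k K a) (algebraMap k K b)) K) (hT : m • T = 0) (x y h)
    (hTe : T = .some x y h) : (∃ x₀ : κ₀, algebraMap κ₀ (AlgebraicClosure K) x₀ = x) ∧
      ∃ y₀ : κ₀, algebraMap κ₀ (AlgebraicClosure K) y₀ = y := by
  have i1 : IsAlgClosed κ₀ := IsAlgClosure.isAlgClosed k
  have i2 : CharZero κ₀ := charZero_of_injective_algebraMap (algebraMap k κ₀).injective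
  have e : (sw (algebraMap k K a) (algebraMap k K b)).baseChange (AlgebraicClosure K) =
      (sw a b).baseChange (AlgebraicClosure K) := by
    rw [base_eq, base_eq, ← IsScalarTower.algebraMap_apply, ← IsScalarTower.algebraMap_apply]
  obtain ⟨hn', h0⟩ := pt_congr e T hT hTe
  obtain ⟨T0, hT0⟩ := torsion_mem hD (IsScalarTower.toAlgHom k κ₀ (AlgebraicClosure K)) m hm
    (Affine.Point.some x y hn') h0
  rcases T0 with _ | ⟨x', y', h'⟩
  · exact absurd hT0.symm (Affine.Point.some_ne_zero hn')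
  · obtain ⟨g, e1⟩ := pm_some (E := sw a b) (IsScalarTower.toAlgHom k κ₀ (AlgebraicClosure K)) h'
    rw [e1, Affine.Point.some.injEq] at hT0
    exact ⟨⟨x', hT0.1⟩, ⟨y', hT0.2⟩⟩

open scoped Classical in
/-- automorphisms over `κ₀` fix the torsion points -/
theorem tors_fix (hD : 4 * a ^ 3 + 27 * b ^ 2 ≠ 0) {m : ℕ} (hm : 1 ≤ m)
    (T : AlgPt (sw (algebraMap k K a) (algebraMap k K b)) K) (hT : m • T = 0)
    (g : AlgebraicClosure K ≃ₐ[K] AlgebraicClosure K)
    (hg : ∀ c : κ₀, g (algebraMap κ₀ (AlgebraicClosure K) c) = algebraMap κ₀ _ c) :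
    act (sw (algebraMap k K a) (algebraMap k K b)) g T = T := by
  rcases hTe : T with _ | ⟨x, y, h⟩
  · rfl
  · obtain ⟨⟨x₀, hx⟩, ⟨y₀, hy⟩⟩ := tors_coord (κ₀ := κ₀) hD hm T hT x y h hTe
    obtain ⟨h', e1⟩ := pm_some (E := sw (algebraMap k K a) (algebraMap k K b))
      ((g : AlgebraicClosure K →ₐ[K] AlgebraicClosure K).restrictScalars K) h
    unfold act
    rw [e1, Affine.Point.some.injEq]
    refine ⟨?_, ?_⟩
    · change g x = x
      rw [← hx, hg]
    · change g y = y
      rw [← hy, hg]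

end Pool.Agent.V7H43.BS
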